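import Pool.Agent.Lib.H68X.XDefs
import Pool.Agent.Lib.H68T.LONG

/-!
# Chunk XFB: the polynomial `Fb`
-/

open Finset

namespace Pool.Agent.Lib.H68T

/-- A smooth amplitude with compact support. -/
structure XFB_Amp (A M : ℝ) (O O1 O2 : ℝ → ℝ) : Prop where
  d0 : ∀ y, HasDerivAt O (O1 y) y
  d1 : ∀ y, HasDerivAt O1 (O2 y) y
  c2 : Continuous O2
  b0 : ∀ y, |O y| ≤ M
  b1 : ∀ y, |O1 y| ≤ M
  b2 : ∀ y, |O2 y| ≤ M
  z0 : ∀ y, y ∉ Set.Icc A (A + 6) → O y = 0
  z1 : ∀ y, y ∉ Set.Icc A (A + 6) → O1 y = 0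
  z2 : ∀ y, y ∉ Set.Icc A (A + 6) → O2 y = 0

theorem XFB_Amp.c0 {A M : ℝ} {O O1 O2 : ℝ → ℝ} (h : XFB_Amp A M O O1 O2) : Continuous O :=
  continuous_iff_continuousAt.mpr (fun y => (h.d0 y).continuousAt)

theorem XFB_Amp.c1 {A M : ℝ} {O O1 O2 : ℝ → ℝ} (h : XFB_Amp A M O O1 O2) : Continuous O1 :=
  continuous_iff_continuousAt.mpr (fun y => (h.d1 y).continuousAt)

/-- `∫ |f| ≤ 6 M` -/
theorem XFB_int_le {A M L : ℝ} (hL : 0 ≤ L) (hM : 0 ≤ M) (f : ℝ → ℂ) (hf : Continuous f)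
    (hb : ∀ y, ‖f y‖ ≤ M) (hz : ∀ y, y ∉ Set.Icc A (A + 6) → f y = 0) :
    ‖∫ y in (0:ℝ)..L, f y‖ ≤ 6 * M := by
  refine (intervalIntegral.norm_integral_le_integral_norm hL).trans ?_
  rw [intervalIntegral.integral_of_le hL]
  have hI : MeasureTheory.Integrable (Set.indicator (Set.Icc A (A + 6)) (fun _ => M)) := by
    rw [MeasureTheory.integrable_indicator_iff measurableSet_Icc]
    exact MeasureTheory.integrableOn_const (by simp)
  have h1 : ∫ y in Set.Ioc 0 L, ‖f y‖ ≤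
      ∫ y in Set.Ioc 0 L, Set.indicator (Set.Icc A (A + 6)) (fun _ => M) y := by
    apply MeasureTheory.setIntegral_mono_on
    · exact (hf.norm.integrableOn_Icc (a := 0) (b := L)).mono_set Set.Ioc_subset_Icc_self
    · exact hI.integrableOn
    · exact measurableSet_Ioc
    · intro y _
      by_cases h : y ∈ Set.Icc A (A + 6)
      · rw [Set.indicator_of_mem h]; exact hb y
      · rw [Set.indicator_of_notMem h, hz y h, norm_zero]
  refine h1.trans ?_
  refine (MeasureTheory.setIntegral_le_integral hI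
    (Filter.Eventually.of_forall (fun y => Set.indicator_nonneg (fun _ _ => hM) y))).trans ?_
  rw [MeasureTheory.integral_indicator measurableSet_Icc, MeasureTheory.setIntegral_const]
  simp

/-- The oscillating integral. -/
theorem XFB_osc {A M L t : ℝ} {O O1 O2 : ℝ → ℝ} (h : XFB_Amp A M O O1 O2) (hM : 0 ≤ M)
    (hA : 0 < A) (hL : A + 6 < L) :
    ‖∫ y in (0:ℝ)..L, (O y : ℂ) * Complex.exp (-(t * Complex.I) * y)‖ ≤ 12 * M / (1 + t ^ 2) := by
  set E : ℝ → ℂ := fun y => Complex.exp (-(t * Complex.I) * y) with hE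
  have hEd : ∀ y : ℝ, HasDerivAt E (-(t * Complex.I) * E y) y := by
    intro y
    have h1 : HasDerivAt (fun z : ℂ => Complex.exp (-(t * Complex.I) * z))
        (Complex.exp (-(t * Complex.I) * y) * (-(t * Complex.I))) (y : ℂ) := by
      have := ((hasDerivAt_id (y : ℂ)).const_mul (-(t * Complex.I))).cexp
      simpa using this
    have := h1.comp_ofReal
    rw [hE]
    convert this using 1
    ring
  have hEn : ∀ y : ℝ, ‖E y‖ = 1 := by
    intro y
    rw [hE]
    simp only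
    rw [Complex.norm_exp]
    simp
  have hEc : Continuous E := by rw [hE]; fun_prop
  have hOc := h.c0
  have hc1 : Continuous (fun y : ℝ => (O y : ℂ) * E y) :=
    (Complex.continuous_ofReal.comp hOc).mul hEc
  have hL0 : 0 ≤ L := by linarith
  have hb1 : ‖∫ y in (0:ℝ)..L, (O y : ℂ) * E y‖ ≤ 6 * M := by
    apply XFB_int_le hL0 hM _ hc1 (A := A)
    · intro y
      rw [norm_mul, hEn, mul_one, Complex.norm_real, Real.norm_eq_abs]
      exact h.b0 y
    · intro y hy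
      rw [h.z0 y hy]; simp
  rcases le_or_gt (|t|) 1 with ht | ht
  · refine hb1.trans ?_
    have : t ^ 2 ≤ 1 := (sq_le_one_iff_abs_le_one t).mpr ht
    rw [le_div_iff₀ (by positivity)]
    nlinarith
  have ht0 : (t : ℂ) ≠ 0 := by
    intro h
    rw [Complex.ofReal_eq_zero] at h
    rw [h] at ht
    simp at ht
    linarith
  set F : ℝ → ℂ := fun y => (Complex.I / t) * ((O y : ℂ) * E y) +
    (1 / (t:ℂ) ^ 2) * ((O1 y : ℂ) * E y) with hF
  have hFd : ∀ y : ℝ, HasDerivAt F ((O y : ℂ) * E y +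
      (1 / (t:ℂ) ^ 2) * ((O2 y : ℂ) * E y)) y := by
    intro y
    have h1 : HasDerivAt (fun y : ℝ => (O y : ℂ)) (O1 y : ℂ) y := (h.d0 y).ofReal_comp
    have h2 : HasDerivAt (fun y : ℝ => (O1 y : ℂ)) (O2 y : ℂ) y := (h.d1 y).ofReal_comp
    have h3 := ((h1.mul (hEd y)).const_mul (Complex.I / t)).add
      ((h2.mul (hEd y)).const_mul (1 / (t:ℂ) ^ 2))
    refine HasDerivAt.congr_deriv h3 ?_
    field_simp
    ring_nf
    rw [Complex.I_sq]
    ring
  have hc2' : Continuous (fun y : ℝ => (O2 y : ℂ) * E y) :=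
    (Complex.continuous_ofReal.comp h.c2).mul hEc
  have hc2 : Continuous (fun y : ℝ => (1 / (t:ℂ) ^ 2) * ((O2 y : ℂ) * E y)) :=
    continuous_const.mul hc2'
  have hFTC := intervalIntegral.integral_eq_sub_of_hasDerivAt (f := F) (a := 0) (b := L)
    (fun y _ => hFd y) ((hc1.add hc2).intervalIntegrable _ _)
  rw [intervalIntegral.integral_add (hc1.intervalIntegrable _ _) (hc2.intervalIntegrable _ _)]
    at hFTC
  have n0 : (0:ℝ) ∉ Set.Icc A (A + 6) := by rw [Set.mem_Icc]; intro h; linarith [h.1]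
  have nL : L ∉ Set.Icc A (A + 6) := by rw [Set.mem_Icc]; intro h; linarith [h.2]
  have hF0 : F 0 = 0 := by
    rw [hF]
    simp only [h.z0 0 n0, h.z1 0 n0]
    simp
  have hFL : F L = 0 := by
    rw [hF]
    simp only [h.z0 L nL, h.z1 L nL]
    simp
  rw [hF0, hFL, sub_zero] at hFTC
  have hmain : ∫ y in (0:ℝ)..L, (O y : ℂ) * E y =
      -(∫ y in (0:ℝ)..L, (1 / (t:ℂ) ^ 2) * ((O2 y : ℂ) * E y)) := by
    linear_combination hFTC
  rw [hmain, norm_neg, intervalIntegral.integral_const_mul, norm_mul]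
  have hn1 : ‖1 / (t:ℂ) ^ 2‖ = 1 / t ^ 2 := by
    rw [norm_div, norm_one, norm_pow, Complex.norm_real, Real.norm_eq_abs, sq_abs]
  rw [hn1]
  have hb2 : ‖∫ y in (0:ℝ)..L, (O2 y : ℂ) * E y‖ ≤ 6 * M := by
    apply XFB_int_le hL0 hM _ hc2' (A := A)
    · intro y
      rw [norm_mul, hEn, mul_one, Complex.norm_real, Real.norm_eq_abs]
      exact h.b2 y
    · intro y hy
      rw [h.z2 y hy]; simp
  have ht2 : 1 ≤ t ^ 2 := by
    have := (one_lt_sq_iff_one_lt_abs t).mpr ht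
    linarith
  calc 1 / t ^ 2 * _ ≤ 1 / t ^ 2 * (6 * M) := by gcongr
    _ ≤ _ := by
      rw [div_mul_eq_mul_div, one_mul, div_le_div_iff₀ (by linarith) (by positivity)]
      nlinarith

/-- The summand. -/
noncomputable def XFB_W (O : ℝ → ℝ) (t u : ℝ) : ℂ :=
  (O (Real.log u) : ℂ) * (u : ℂ) ^ (-(1 + t * Complex.I))

theorem XFB_lip {A M : ℝ} {O O1 O2 : ℝ → ℝ} (h : XFB_Amp A M O O1 O2) (x y : ℝ) :
    |O y - O x| ≤ M * |y - x| := by
  have := Convex.norm_image_sub_le_of_norm_hasDerivWithin_le (f := O) (f' := O1) (s := Set.univ)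
    (C := M) (x := x) (y := y) (fun z _ => (h.d0 z).hasDerivWithinAt) (fun z _ => h.b1 z)
    convex_univ (Set.mem_univ _) (Set.mem_univ _)
  simpa [Real.norm_eq_abs] using this

theorem XFB_diff {A M : ℝ} {O O1 O2 : ℝ → ℝ} (h : XFB_Amp A M O O1 O2) (hM : 0 ≤ M)
    (t u u' : ℝ) (hu : 1 ≤ u) (huu : u ≤ u') :
    ‖XFB_W O t u' - XFB_W O t u‖ ≤ M * (2 + |t|) * ((u' - u) / u ^ 2) := by
  have hu0 : 0 < u := by linarith
  have hu0' : 0 < u' := by linarith
  have hll : Real.log u ≤ Real.log u' := Real.log_le_log hu0 huu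
  have hd : Real.log u' - Real.log u ≤ (u' - u) / u := by
    rw [← Real.log_div hu0'.ne' hu0.ne']
    refine (Real.log_le_sub_one_of_pos (by positivity)).trans ?_
    rw [sub_div, div_self hu0.ne']
  have h1 := XFB_lip h (Real.log u) (Real.log u')
  rw [abs_of_nonneg (by linarith : 0 ≤ Real.log u' - Real.log u)] at h1
  have h2 := h.b0 (Real.log u)
  have h3 := LONG_cpow_norm t u' hu0'
  have h4 := LONG_cpow_diff t u u' hu0 huu
  unfold XFB_W
  have e : (O (Real.log u') : ℂ) * (u' : ℂ) ^ (-(1 + t * Complex.I)) -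
      (O (Real.log u) : ℂ) * (u : ℂ) ^ (-(1 + t * Complex.I)) =
      ((O (Real.log u') - O (Real.log u) : ℝ) : ℂ) *
        (u' : ℂ) ^ (-(1 + t * Complex.I)) +
      (O (Real.log u) : ℂ) * ((u' : ℂ) ^ (-(1 + t * Complex.I)) -
        (u : ℂ) ^ (-(1 + t * Complex.I))) := by push_cast; ring
  rw [e]
  refine (norm_add_le _ _).trans ?_
  rw [norm_mul, norm_mul, Complex.norm_real, Complex.norm_real, h3, Real.norm_eq_abs,
    Real.norm_eq_abs]
  have b1 : |O (Real.log u') - O (Real.log u)| * u'⁻¹ ≤ (M * ((u' - u) / u)) * u⁻¹ := by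
    have : M * (Real.log u' - Real.log u) ≤ M * ((u' - u) / u) :=
      mul_le_mul_of_nonneg_left hd hM
    apply mul_le_mul (h1.trans this) (inv_anti₀ hu0 huu) (by positivity)
    exact le_trans (abs_nonneg _) (h1.trans this)
  have b2 : |O (Real.log u)| * ‖(u' : ℂ) ^ (-(1 + t * Complex.I)) -
        (u : ℂ) ^ (-(1 + t * Complex.I))‖ ≤ M * ((1 + |t|) * (u' - u) / u ^ 2) := by
    apply mul_le_mul h2 h4 (norm_nonneg _) hM
  calc _ ≤ (M * ((u' - u) / u)) * u⁻¹ + M * ((1 + |t|) * (u' - u) / u ^ 2) := add_le_add b1 b2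
    _ = _ := by field_simp; ring

theorem XFB_W_cont (O : ℝ → ℝ) (hO : Continuous O) (t : ℝ) (u : ℝ) (hpos : 0 < u) :
    ContinuousAt (XFB_W O t) u := by
  unfold XFB_W
  apply ContinuousAt.mul
  · apply Complex.continuous_ofReal.continuousAt.comp
    exact ContinuousAt.comp (f := Real.log) (g := O) hO.continuousAt
      (Real.continuousAt_log hpos.ne')
  · have h1 : ContinuousAt (fun z : ℂ => z ^ (-(1 + t * Complex.I))) ((u : ℝ) : ℂ) :=
      continuousAt_cpow_const (Or.inl (by simpa using hpos))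
    exact ContinuousAt.comp (f := fun x : ℝ => (x : ℂ)) h1 Complex.continuous_ofReal.continuousAt

theorem XFB_W_ii (O : ℝ → ℝ) (hO : Continuous O) (t : ℝ) (a b : ℝ) (ha : 0 < a) (hab : a ≤ b) :
    IntervalIntegrable (XFB_W O t) MeasureTheory.volume a b :=
  ContinuousOn.intervalIntegrable_of_Icc hab
    (fun u hu => (XFB_W_cont O hO t u (lt_of_lt_of_le ha hu.1)).continuousWithinAt)

/-- Substitution `u = e^y`. -/
theorem XFB_subst (O : ℝ → ℝ) (hO : Continuous O) (t : ℝ) (N : ℝ) (hN : 1 ≤ N) :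
    ∫ u in (1:ℝ)..N, XFB_W O t u =
      ∫ y in (0:ℝ)..Real.log N, (O y : ℂ) * Complex.exp (-(t * Complex.I) * y) := by
  have hN0 : 0 < N := by linarith
  have h := intervalIntegral.integral_deriv_smul_comp' (f := Real.exp) (f' := Real.exp)
    (g := XFB_W O t) (a := 0) (b := Real.log N) (fun x _ => Real.hasDerivAt_exp x)
    Real.continuous_exp.continuousOn ?_
  · rw [Real.exp_zero, Real.exp_log hN0] at h
    rw [← h]
    apply intervalIntegral.integral_congr
    intro y _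
    simp only [Function.comp_apply, XFB_W, Real.log_exp, Complex.real_smul]
    rw [Complex.cpow_def_of_ne_zero (by exact_mod_cast (Real.exp_pos y).ne'),
      ← Complex.ofReal_log (Real.exp_pos y).le, Real.log_exp, Complex.ofReal_exp,
      mul_left_comm, ← Complex.exp_add]
    congr 2
    ring
  · intro u hu
    obtain ⟨y, -, rfl⟩ := hu
    exact (XFB_W_cont O hO t _ (Real.exp_pos y)).continuousWithinAt

/-- Sums of `XFB_W` against the Fourier integral. -/
theorem XFB_sum {A M t : ℝ} {O O1 O2 : ℝ → ℝ} (h : XFB_Amp A M O O1 O2) (hM : 0 ≤ M)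
    (hA : 0 < A) (N N0 : ℕ) (hN : A + 6 < Real.log N) (hN0 : 1 ≤ N0) (hAN : Real.log N0 < A) :
    ‖∑ n ∈ Icc 1 N, XFB_W O t n‖ ≤ 12 * M / (1 + t ^ 2) + M * (2 + |t|) * (2 / N0) := by
  have hNpos : 1 ≤ N := by
    rcases Nat.eq_zero_or_pos N with h0 | h0
    · rw [h0] at hN; simp at hN; linarith
    · exact h0
  have hosc := XFB_osc (t := t) h hM hA hN
  rw [← XFB_subst O h.c0 t _ (by exact_mod_cast hNpos)] at hosc
  have hzero : ∀ u : ℝ, 1 ≤ u → u ≤ N0 → XFB_W O t u = 0 := by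
    intro u hu hu'
    unfold XFB_W
    rw [h.z0 _ (by
      rw [Set.mem_Icc]
      intro h'
      have := Real.log_le_log (by linarith) hu'
      linarith [h'.1])]
    simp
  have hNN : N0 ≤ N := by
    by_contra hc
    push Not at hc
    have : Real.log N ≤ Real.log N0 := Real.log_le_log (by exact_mod_cast hNpos)
      (by exact_mod_cast hc.le)
    linarith
  have hW1 : XFB_W O t ((1 : ℕ) : ℝ) = 0 := hzero _ (by simp) (by exact_mod_cast hN0)
  have hint : ∀ N : ℕ, 1 ≤ N → ∫ u in (1:ℝ)..(N:ℝ), XFB_W O t u =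
      ∑ n ∈ Ico 1 N, ∫ u in (n:ℝ)..((n + 1 : ℕ) : ℝ), XFB_W O t u := by
    intro N hN
    induction N, hN using Nat.le_induction with
    | base => simp
    | succ N hN ih =>
      rw [sum_Ico_succ_top hN, ← ih, intervalIntegral.integral_add_adjacent_intervals]
      · exact XFB_W_ii O h.c0 t 1 N one_pos (by exact_mod_cast hN)
      · exact XFB_W_ii O h.c0 t N _ (by exact_mod_cast hN) (by push_cast; linarith)
  have hsum : ∀ N : ℕ, 1 ≤ N → ∑ n ∈ Icc 1 N, XFB_W O t (n:ℝ) =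
      ∑ n ∈ Ico 1 N, XFB_W O t ((n + 1 : ℕ) : ℝ) := by
    intro N hN
    induction N, hN using Nat.le_induction with
    | base => simpa using hW1
    | succ N hN ih =>
      rw [sum_Ico_succ_top hN, ← ih, sum_Icc_succ_top (by omega)]
  have hdiff : ‖∑ n ∈ Icc 1 N, XFB_W O t (n:ℝ) - ∫ u in (1:ℝ)..(N : ℝ), XFB_W O t u‖ ≤
      M * (2 + |t|) * (2 / N0) := by
    rw [hint _ hNpos, hsum _ hNpos, ← sum_sub_distrib]
    have hz : ∑ n ∈ Ico 1 N, (XFB_W O t ((n + 1 : ℕ) : ℝ) -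
        ∫ u in (n:ℝ)..((n + 1 : ℕ) : ℝ), XFB_W O t u) =
        ∑ n ∈ Ico N0 N, (XFB_W O t ((n + 1 : ℕ) : ℝ) -
        ∫ u in (n:ℝ)..((n + 1 : ℕ) : ℝ), XFB_W O t u) := by
      symm
      apply sum_subset
      · intro n hn
        rw [mem_Ico] at hn ⊢
        exact ⟨le_trans hN0 hn.1, hn.2⟩
      · intro n hn hn'
        rw [mem_Ico] at hn
        rw [mem_Ico, not_and] at hn'
        have hlt : n < N0 := by
          by_contra h
          exact hn' (not_lt.mp h) hn.2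
        have hlt' : ((n + 1 : ℕ) : ℝ) ≤ (N0:ℝ) := by exact_mod_cast hlt
        have z2 : XFB_W O t ((n + 1 : ℕ) : ℝ) = 0 := hzero _ (by push_cast; linarith) hlt'
        rw [z2, zero_sub, neg_eq_zero]
        rw [intervalIntegral.integral_congr (g := fun _ => (0:ℂ))]
        · simp
        · intro u hu
          rw [Set.uIcc_of_le (by push_cast; linarith)] at hu
          have hn1 : (1:ℝ) ≤ n := by exact_mod_cast hn.1
          exact hzero _ (by linarith [hu.1]) (hu.2.trans hlt')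
    rw [hz]
    have hterm : ∀ n ∈ Ico N0 N, ‖XFB_W O t ((n + 1 : ℕ) : ℝ) -
        ∫ u in (n:ℝ)..((n + 1 : ℕ) : ℝ), XFB_W O t u‖ ≤ M * (2 + |t|) * (1 / (n : ℝ) ^ 2) := by
      intro n hn
      rw [mem_Ico] at hn
      have hn1 : 1 ≤ n := le_trans hN0 hn.1
      have hn1' : (1:ℝ) ≤ n := by exact_mod_cast hn1
      have hle : (n:ℝ) ≤ ((n + 1 : ℕ) : ℝ) := by push_cast; linarith
      have h5 : (((n + 1 : ℕ) : ℝ) - n) = 1 := by push_cast; ring
      have hconst : XFB_W O t ((n + 1 : ℕ) : ℝ) =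
          ∫ u in (n:ℝ)..((n + 1 : ℕ) : ℝ), XFB_W O t ((n + 1 : ℕ) : ℝ) := by
        rw [intervalIntegral.integral_const, h5, one_smul]
      rw [hconst, ← intervalIntegral.integral_sub (by simp)
        (XFB_W_ii O h.c0 t n _ (by linarith) hle)]
      have := intervalIntegral.norm_integral_le_of_norm_le_const (a := (n:ℝ))
        (b := ((n + 1 : ℕ) : ℝ)) (C := M * (2 + |t|) * (1 / (n : ℝ) ^ 2))
        (f := fun u => XFB_W O t ((n + 1 : ℕ) : ℝ) - XFB_W O t u) ?_
      · rw [h5, abs_one, mul_one] at this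
        exact this
      · intro u hu
        rw [Set.uIoc_of_le hle] at hu
        have hu1 : 1 ≤ u := by linarith [hu.1]
        refine (XFB_diff h hM t u ((n + 1 : ℕ) : ℝ) hu1 hu.2).trans ?_
        have h7 : (((n + 1 : ℕ) : ℝ) - u) / u ^ 2 ≤ 1 / (n:ℝ) ^ 2 := by
          apply div_le_div₀ zero_le_one
          · have := hu.1; push_cast; linarith
          · positivity
          · exact pow_le_pow_left₀ (by linarith) hu.1.le 2
        have := abs_nonneg t
        exact mul_le_mul_of_nonneg_left h7 (by positivity)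
    refine (norm_sum_le _ _).trans ((sum_le_sum hterm).trans ?_)
    rw [← mul_sum]
    have := abs_nonneg t
    exact mul_le_mul_of_nonneg_left (LONG_sum_inv_sq N0 N hN0) (by positivity)
  calc ‖∑ n ∈ Icc 1 N, XFB_W O t (n:ℝ)‖
      ≤ ‖∫ u in (1:ℝ)..(N : ℝ), XFB_W O t u‖ +
        ‖∑ n ∈ Icc 1 N, XFB_W O t (n:ℝ) -
          ∫ u in (1:ℝ)..(N : ℝ), XFB_W O t u‖ := norm_le_insert' _ _
    _ ≤ _ := add_le_add hosc hdiff

/-- The amplitude of `Fb`. -/
noncomputable def XFB_O (c β y : ℝ) : ℝ := w (y + c) * Real.exp ((β - 1) * y)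

noncomputable def XFB_O1 (c β y : ℝ) : ℝ :=
  (LONG2_V1 c y + (β - 1) * w (y + c)) * Real.exp ((β - 1) * y)

noncomputable def XFB_O2 (c β y : ℝ) : ℝ :=
  (LONG2_V2 c y + 2 * ((β - 1) * LONG2_V1 c y) + (β - 1) ^ 2 * w (y + c)) *
    Real.exp ((β - 1) * y)

theorem XFB_amp : ∃ M : ℝ, 0 ≤ M ∧ ∀ c β : ℝ, c ≤ -2 → 1 / 2 ≤ β → β ≤ 1 →
    XFB_Amp (-c - 2) M (XFB_O c β) (XFB_O1 c β) (XFB_O2 c β) := by
  obtain ⟨B, hB1, hs1, hs2, hz1, hz2⟩ := LONG_sT
  have hs1' : ∀ x, |LONG2_s1 x| ≤ B := hs1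
  have hs2' : ∀ x, |LONG2_s2 x| ≤ B := hs2
  have hB0 : 0 ≤ B := by linarith
  refine ⟨9 * B ^ 2, by positivity, fun c β hc hβ hβ1 => ?_⟩
  have t1 : ∀ x, |Real.smoothTransition x| ≤ 1 := fun x => by
    rw [abs_of_nonneg (Real.smoothTransition.nonneg _)]; exact Real.smoothTransition.le_one _
  have tw : ∀ x, |w x| ≤ 1 := fun x => by
    rw [abs_of_nonneg (LONG_w_nonneg _)]; exact LONG_w_le_one _
  have V1 : ∀ y, |LONG2_V1 c y| ≤ 2 * B := by
    intro y
    unfold LONG2_V1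
    refine (abs_sub _ _).trans ?_
    rw [abs_mul, abs_mul]
    calc _ ≤ B * 1 + 1 * B := by
          gcongr
          · exact hs1' _
          · exact t1 _
          · exact t1 _
          · exact hs1' _
      _ = _ := by ring
  have V2 : ∀ y, |LONG2_V2 c y| ≤ 2 * B + 2 * B ^ 2 := by
    intro y
    unfold LONG2_V2
    refine (abs_add_le _ _).trans ?_
    have h1 := abs_sub (LONG2_s2 (y + c + 2) * Real.smoothTransition (4 - (y + c)))
      (2 * (LONG2_s1 (y + c + 2) * LONG2_s1 (4 - (y + c))))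
    rw [abs_mul, abs_mul, abs_mul, abs_two] at h1
    rw [abs_mul (Real.smoothTransition (y + c + 2))]
    have h2 : |LONG2_s2 (y + c + 2)| * |Real.smoothTransition (4 - (y + c))| ≤ B * 1 := by
      gcongr
      · exact hs2' _
      · exact t1 _
    have h3 : |LONG2_s1 (y + c + 2)| * |LONG2_s1 (4 - (y + c))| ≤ B * B := by
      gcongr
      · exact hs1' _
      · exact hs1' _
    have h4 : |Real.smoothTransition (y + c + 2)| * |LONG2_s2 (4 - (y + c))| ≤ 1 * B := by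
      gcongr
      · exact t1 _
      · exact hs2' _
    nlinarith
  have hout : ∀ y, y ∉ Set.Icc (-c - 2) (-c - 2 + 6) →
      w (y + c) = 0 ∧ LONG2_V1 c y = 0 ∧ LONG2_V2 c y = 0 := by
    intro y hy
    rw [Set.mem_Icc, not_and_or, not_le, not_le] at hy
    rcases hy with hy | hy
    · have e0 : Real.smoothTransition (y + c + 2) = 0 :=
        Real.smoothTransition.zero_of_nonpos (by linarith)
      have e1 : LONG2_s1 (y + c + 2) = 0 := hz1 _ (by rw [Set.mem_Icc]; intro h; linarith [h.1])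
      have e2 : LONG2_s2 (y + c + 2) = 0 := hz2 _ (by rw [Set.mem_Icc]; intro h; linarith [h.1])
      unfold w LONG2_V1 LONG2_V2
      rw [e0, e1, e2]
      simp
    · have e0 : Real.smoothTransition (4 - (y + c)) = 0 :=
        Real.smoothTransition.zero_of_nonpos (by linarith)
      have e1 : LONG2_s1 (4 - (y + c)) = 0 := hz1 _ (by rw [Set.mem_Icc]; intro h; linarith [h.1])
      have e2 : LONG2_s2 (4 - (y + c)) = 0 := hz2 _ (by rw [Set.mem_Icc]; intro h; linarith [h.1])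
      unfold w LONG2_V1 LONG2_V2
      rw [e0, e1, e2]
      simp
  have hbeta : |β - 1| ≤ 1 := by rw [abs_le]; constructor <;> linarith
  have hexp : ∀ y, y ∈ Set.Icc (-c - 2) (-c - 2 + 6) → |Real.exp ((β - 1) * y)| ≤ 1 := by
    intro y hy
    rw [abs_of_pos (Real.exp_pos _), Real.exp_le_one_iff]
    have : 0 ≤ y := by linarith [hy.1]
    nlinarith
  have hE : ∀ y : ℝ, HasDerivAt (fun y : ℝ => Real.exp ((β - 1) * y))
      (Real.exp ((β - 1) * y) * (β - 1)) y := by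
    intro y
    have := ((hasDerivAt_id' y).const_mul (β - 1)).exp
    simpa using this
  have gen : ∀ (f : ℝ → ℝ) (D : ℝ), 0 ≤ D → (∀ y, |f y| ≤ D) →
      (∀ y, y ∉ Set.Icc (-c - 2) (-c - 2 + 6) → f y = 0) → ∀ y,
      |f y * Real.exp ((β - 1) * y)| ≤ D := by
    intro f D hD hf hz y
    by_cases h : y ∈ Set.Icc (-c - 2) (-c - 2 + 6)
    · rw [abs_mul]
      calc _ ≤ D * 1 := mul_le_mul (hf y) (hexp y h) (abs_nonneg _) hD
        _ = D := mul_one D
    · rw [hz y h]; simpa using hD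
  refine ⟨?_, ?_, ?_, ?_, ?_, ?_, ?_, ?_, ?_⟩
  · intro y
    unfold XFB_O XFB_O1
    refine HasDerivAt.congr_deriv ((LONG2_hV c y).mul (hE y)) ?_
    ring
  · intro y
    unfold XFB_O1 XFB_O2
    refine HasDerivAt.congr_deriv
      (((LONG2_hV1 c y).add ((LONG2_hV c y).const_mul (β - 1))).mul (hE y)) ?_
    simp only [Pi.add_apply]
    ring
  · unfold XFB_O2 LONG2_V1 LONG2_V2
    have := LONG2_cw
    have := LONG2_c0
    have := LONG2_c1
    have := LONG2_c2
    fun_prop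
  · intro y
    unfold XFB_O
    refine (gen (fun y => w (y + c)) 1 zero_le_one (fun y => tw _) (fun y hy => (hout y hy).1)
      y).trans ?_
    nlinarith
  · intro y
    unfold XFB_O1
    refine (gen (fun y => LONG2_V1 c y + (β - 1) * w (y + c)) (2 * B + 1) (by linarith)
      (fun y => ?_) (fun y hy => ?_) y).trans ?_
    · refine (abs_add_le _ _).trans (add_le_add (V1 y) ?_)
      rw [abs_mul]
      calc _ ≤ (1:ℝ) * 1 := mul_le_mul hbeta (tw _) (abs_nonneg _) zero_le_one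
        _ = 1 := one_mul 1
    · rw [(hout y hy).1, (hout y hy).2.1]; simp
    · nlinarith
  · intro y
    unfold XFB_O2
    refine (gen (fun y => LONG2_V2 c y + 2 * ((β - 1) * LONG2_V1 c y) + (β - 1) ^ 2 * w (y + c))
      ((2 * B + 2 * B ^ 2) + 2 * (2 * B) + 1) (by positivity)
      (fun y => ?_) (fun y hy => ?_) y).trans ?_
    · refine (abs_add_three _ _ _).trans ?_
      have h1 : |2 * ((β - 1) * LONG2_V1 c y)| ≤ 2 * (2 * B) := by
        rw [abs_mul, abs_mul, abs_two]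
        have := mul_le_mul hbeta (V1 y) (abs_nonneg _) zero_le_one
        linarith
      have h2 : |(β - 1) ^ 2 * w (y + c)| ≤ 1 := by
        rw [abs_mul, abs_pow]
        calc _ ≤ (1:ℝ) ^ 2 * 1 := by
              apply mul_le_mul _ (tw _) (abs_nonneg _) (by norm_num)
              exact pow_le_pow_left₀ (abs_nonneg _) hbeta 2
          _ = 1 := by norm_num
      exact add_le_add (add_le_add (V2 y) h1) h2
    · rw [(hout y hy).1, (hout y hy).2.1, (hout y hy).2.2]; simp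
    · nlinarith
  · intro y hy
    unfold XFB_O
    rw [(hout y hy).1]; simp
  · intro y hy
    unfold XFB_O1
    rw [(hout y hy).1, (hout y hy).2.1]; simp
  · intro y hy
    unfold XFB_O2
    rw [(hout y hy).1, (hout y hy).2.1, (hout y hy).2.2]; simp

theorem XFB_eq (X : ℕ) (β t : ℝ) (hX : 1 ≤ X) :
    Fb X β t = ∑ n ∈ Icc 1 (60 * X), XFB_W (XFB_O (-Real.log X) β) t n := by
  unfold Fb FF
  apply sum_congr rfl
  intro m hm
  rw [mem_Icc] at hm
  have hm0 : (0:ℝ) < m := by exact_mod_cast hm.1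
  have hX0 : (0:ℝ) < X := by exact_mod_cast hX
  unfold XFB_W XFB_O v
  show (((m : ℝ) ^ (β - 1) : ℝ) : ℂ) * _ * _ = _
  rw [Real.log_div hm0.ne' hX0.ne', ← sub_eq_add_neg, Real.rpow_def_of_pos hm0,
    mul_comm (Real.log (m:ℝ)) (β - 1)]
  push_cast
  ring

/-- `‖Fb X β t‖ ≤ C/(1+t²) + Q^(-11)` for `|t| ≤ Q^11`, `1/2 ≤ β ≤ 1`. Same proof as for
`Long Q X p0 0 1 t` in `long_triv` (file `H68T/LONG2.lean`), with the additional factor `m^(β-1)`:
the sum is `∫ W(u) du + O(∫ |W'|)`, `W(u) = v(u) u^(β-2-it)`, `|W'(u)| ≤ C (1+|t|) u^(-2)` on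
`[X/e², e^4 X]` (so the error is `≤ C Q^12/X`), and with `u = X e^y` the integral is
`X^(β-1-it) ∫ w(y) e^((β-1)y) e^(-ity) dy`, the Fourier transform of a smooth function of
support in `[-2, 4]`, bounded with its second derivative uniformly in `β ∈ [1/2, 1]`: integrate by
parts twice for `|t| ≥ 1`. -/
theorem Fb_bound : ∃ C K : ℝ, 0 < C ∧ 1 ≤ K ∧ ∀ Q X : ℕ, Reg K Q X → ∀ β : ℝ, 1 / 2 ≤ β → β ≤ 1 →
    ∀ t : ℝ, |t| ≤ (Q : ℝ) ^ 11 → ‖Fb X β t‖ ≤ C / (1 + t ^ 2) + (Q : ℝ) ^ (-11 : ℝ) := by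
  obtain ⟨M, hM, hamp⟩ := XFB_amp
  obtain ⟨K, hK1, hK⟩ := reg_pow_le (200 * (M + 1)) 22 1 one_pos
  refine ⟨12 * M + 1, K + 100, by positivity, by linarith, fun Q X hreg' β hβ hβ1 t ht => ?_⟩
  have hreg : Reg K Q X := hreg'.mono (by linarith) (by linarith)
  have hK0 : 0 < K := by linarith
  have hQ := hreg.Q_pos hK1
  have hX := hreg.X_pos hK0
  have hQ0 : (0:ℝ) < Q := by exact_mod_cast hQ
  have hQ1 : (1:ℝ) ≤ Q := by exact_mod_cast hQ
  have hX0 : (0:ℝ) < X := by exact_mod_cast hX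
  have hX100 : (100:ℝ) ≤ X := by
    have := hreg'.X_ge (by linarith)
    linarith
  have hexp2 : Real.exp 2 ≤ 8 := by
    have h2 : Real.exp 2 = (Real.exp 1) ^ 2 := by rw [← Real.exp_nat_mul]; norm_num
    rw [h2]
    have h1 := Real.exp_one_lt_d9
    calc (Real.exp 1) ^ 2 ≤ (2.7182818286:ℝ) ^ 2 := pow_le_pow_left₀ (Real.exp_pos 1).le h1.le 2
      _ ≤ 8 := by norm_num
  have hlX : 3 ≤ Real.log X := by
    have h1 : Real.exp 3 ≤ 100 := by
      have h2 : Real.exp 3 = (Real.exp 1) ^ 3 := by rw [← Real.exp_nat_mul]; norm_num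
      rw [h2]
      have h1 := Real.exp_one_lt_d9
      calc (Real.exp 1) ^ 3 ≤ (2.7182818286:ℝ) ^ 3 := pow_le_pow_left₀ (Real.exp_pos 1).le h1.le 3
        _ ≤ 100 := by norm_num
    exact (Real.le_log_iff_exp_le hX0).mpr (h1.trans hX100)
  rw [XFB_eq X β t hX]
  have hA := hamp (-Real.log X) β (by linarith) hβ hβ1
  rw [neg_neg] at hA
  -- N0 = ⌊X / 9⌋
  set N0 := X / 9 with hN0
  have hXn : 100 ≤ X := by exact_mod_cast hX100
  have hN01 : 1 ≤ N0 := by rw [hN0]; omega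
  have hN0' : (N0 : ℝ) ≤ X / 9 := by
    rw [hN0]
    exact_mod_cast Nat.cast_div_le
  have hN0'' : (X : ℝ) / 10 ≤ N0 := by
    have h1 : X < (N0 + 1) * 9 := by rw [hN0]; omega
    have h2 : (X : ℝ) < ((N0 : ℝ) + 1) * 9 := by exact_mod_cast h1
    linarith
  have hN00 : (0:ℝ) < N0 := by exact_mod_cast hN01
  have hlN0 : Real.log N0 < Real.log X - 2 := by
    have h1 : Real.log N0 ≤ Real.log (X / 9) := Real.log_le_log hN00 hN0'
    rw [Real.log_div hX0.ne' (by norm_num)] at h1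
    have h2 : 2 < Real.log 9 := by
      rw [Real.lt_log_iff_exp_lt (by norm_num)]; linarith
    linarith
  have hlN : Real.log X - 2 + 6 < Real.log ((60 * X : ℕ) : ℝ) := by
    push_cast
    rw [Real.log_mul (by norm_num) hX0.ne']
    have hlog60 : (4:ℝ) < Real.log 60 := by
      rw [Real.lt_log_iff_exp_lt (by norm_num)]
      have : Real.exp 4 = (Real.exp 1) ^ 4 := by
        rw [← Real.exp_nat_mul]; norm_num
      rw [this]
      have h1 := Real.exp_one_lt_d9
      calc (Real.exp 1) ^ 4 ≤ (2.7182818286:ℝ) ^ 4 :=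
            pow_le_pow_left₀ (Real.exp_pos 1).le h1.le 4
        _ < 60 := by norm_num
    linarith
  have hmain := XFB_sum (t := t) hA hM (by linarith) (60 * X) N0 hlN hN01 hlN0
  refine hmain.trans (add_le_add ?_ ?_)
  · apply div_le_div_of_nonneg_right (by linarith) (by positivity)
  have hfin : (Q : ℝ) ^ (-11 : ℝ) = 1 / (Q:ℝ) ^ 11 := by
    rw [Real.rpow_neg hQ0.le, one_div]
    norm_num
  have hKQ := hK Q X hreg
  rw [Real.rpow_one] at hKQ
  have h22 : (Q : ℝ) ^ (22 : ℝ) = (Q:ℝ) ^ 22 := by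
    have := Real.rpow_natCast (Q:ℝ) 22
    exact_mod_cast this
  rw [h22] at hKQ
  have hQ11 : (1:ℝ) ≤ (Q:ℝ) ^ 11 := one_le_pow₀ hQ1
  rw [hfin]
  have h1 : M * (2 + |t|) ≤ (M + 1) * (3 * (Q:ℝ) ^ 11) := by
    have h3 : 2 + |t| ≤ 3 * (Q:ℝ) ^ 11 := by linarith
    have h4 : 0 ≤ 2 + |t| := by have := abs_nonneg t; linarith
    nlinarith
  have h2 : (2:ℝ) / N0 ≤ 20 / X := by
    rw [div_le_div_iff₀ hN00 hX0]
    linarith
  calc M * (2 + |t|) * (2 / N0) ≤ ((M + 1) * (3 * (Q:ℝ) ^ 11)) * (20 / X) := by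
        apply mul_le_mul h1 h2 (by positivity) (by positivity)
    _ = (60 * (M + 1) * (Q:ℝ) ^ 11) / X := by ring
    _ ≤ 1 / (Q:ℝ) ^ 11 := by
        rw [div_le_div_iff₀ hX0 (by positivity)]
        have e : 60 * (M + 1) * (Q:ℝ) ^ 11 * (Q:ℝ) ^ 11 = 60 * (M + 1) * (Q:ℝ) ^ 22 := by ring
        rw [e, one_mul]
        have h5 : 0 ≤ (M + 1) * (Q:ℝ) ^ 22 := by positivity
        linarith

/-- Trivial bound: `∑_{v(m) ≠ 0} 1/m ≤ C`. -/
theorem Fb_le : ∃ C : ℝ, 0 < C ∧ ∀ (X : ℕ) (β t : ℝ), 1 ≤ X → β ≤ 1 → ‖Fb X β t‖ ≤ C := by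
  refine ⟨60 * Real.exp 2, by positivity, fun X β t hX hβ => ?_⟩
  unfold Fb FF
  have hX0 : (0:ℝ) < X := by exact_mod_cast hX
  refine (norm_sum_le _ _).trans ?_
  have hterm : ∀ m ∈ Icc 1 (60 * X), ‖(((m : ℝ) ^ (β - 1) : ℝ) : ℂ) * (v X m : ℂ) *
      (m : ℂ) ^ (-(1 + t * Complex.I))‖ ≤ Real.exp 2 / X := by
    intro m hm
    rw [mem_Icc] at hm
    have hm0 : (0:ℝ) < m := by exact_mod_cast hm.1
    have hm1 : (1:ℝ) ≤ m := by exact_mod_cast hm.1
    rw [norm_mul, norm_mul, Complex.norm_real, Complex.norm_real, Real.norm_eq_abs,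
      Real.norm_eq_abs]
    have h3 := LONG_cpow_norm t m hm0
    rw [Complex.ofReal_natCast] at h3
    rw [h3]
    have h1 : |(m : ℝ) ^ (β - 1)| ≤ 1 := by
      rw [abs_of_nonneg (Real.rpow_nonneg hm0.le _)]
      exact Real.rpow_le_one_of_one_le_of_nonpos hm1 (by linarith)
    by_cases hv : v X m = 0
    · rw [hv]; simp; positivity
    · have h2 : |v X m| ≤ 1 := by
        unfold v
        rw [abs_of_nonneg (LONG_w_nonneg _)]
        exact LONG_w_le_one _
      have h4 : (X:ℝ) / Real.exp 2 ≤ m := by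
        by_contra hc
        push Not at hc
        apply hv
        unfold v w
        rw [Real.smoothTransition.zero_of_nonpos, zero_mul]
        have h5 : (m:ℝ) / X ≤ Real.exp (-2) := by
          rw [Real.exp_neg, div_le_iff₀ hX0, inv_mul_eq_div]
          exact hc.le
        have h6 := Real.log_le_log (by positivity) h5
        rw [Real.log_exp] at h6
        linarith
      have h5 : (m:ℝ)⁻¹ ≤ Real.exp 2 / X := by
        rw [← one_div, div_le_div_iff₀ hm0 hX0, one_mul]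
        rw [div_le_iff₀ (Real.exp_pos 2)] at h4
        linarith
      calc |(m : ℝ) ^ (β - 1)| * |v X m| * (m:ℝ)⁻¹ ≤ 1 * 1 * (Real.exp 2 / X) := by
            gcongr
        _ = _ := by ring
  refine (sum_le_sum hterm).trans ?_
  rw [sum_const, Nat.card_Icc, nsmul_eq_mul]
  push_cast
  apply le_of_eq
  field_simp

end Pool.Agent.Lib.H68T
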