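import Pool.Agent.Lib.H68X.XDefs
import Pool.Agent.Lib.H68X.XFB
import Pool.Agent.Lib.H68T.BPS

/-!
# Chunk XBPS: local averages of the exceptional character
-/

open Finset MeasureTheory

namespace Pool.Agent.Lib.H68T

theorem XBPS_pow {a b s : ℝ} (ha : 1 ≤ a) (hab : a ≤ b) (hs0 : s ≤ 0) (hs : -1 ≤ s) :
    0 ≤ a ^ s - b ^ s ∧ a ^ s - b ^ s ≤ (b - a) / b := by
  have ha0 : 0 < a := by linarith
  have hb0 : 0 < b := by linarith
  constructor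
  · have := Real.rpow_le_rpow_of_nonpos ha0 hab hs0
    linarith
  · have h1 : 1 ≤ b / a := by rwa [one_le_div ha0]
    have h2 : (b / a) ^ (-1 : ℝ) ≤ (b / a) ^ s := Real.rpow_le_rpow_of_exponent_le h1 hs
    have h3 : b ^ s = a ^ s * (b / a) ^ s := by
      rw [← Real.mul_rpow ha0.le (by positivity)]
      congr 1
      field_simp
    have h4 : (b / a) ^ (-1 : ℝ) = a / b := by
      rw [Real.rpow_neg_one, inv_div]
    have h5 : a ^ s ≤ 1 := Real.rpow_le_one_of_one_le_of_nonpos ha hs0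
    have h6 : 0 ≤ a ^ s := Real.rpow_nonneg ha0.le _
    have h7 : a / b ≤ 1 := by rwa [div_le_one hb0]
    have h8 : (b - a) / b = 1 - a / b := by field_simp
    rw [h3, h8]
    rw [h4] at h2
    nlinarith

theorem XBPS_pow' {a b s : ℝ} (ha : 1 ≤ a) (hb : 1 ≤ b) (hs0 : s ≤ 0) (hs : -1 ≤ s) :
    |a ^ s - b ^ s| ≤ |a - b| / a := by
  have ha0 : 0 < a := by linarith
  have hb0 : 0 < b := by linarith
  rcases le_total a b with h | h
  · obtain ⟨h1, h2⟩ := XBPS_pow ha h hs0 hs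
    rw [abs_of_nonneg h1, abs_of_nonpos (by linarith), neg_sub]
    refine h2.trans ?_
    exact div_le_div_of_nonneg_left (by linarith) ha0 h
  · obtain ⟨h1, h2⟩ := XBPS_pow hb h hs0 hs
    rw [abs_of_nonpos (by linarith), neg_sub, abs_of_nonneg (by linarith)]
    exact h2

/-- As `B_le` and `B0_le` (file `H68T/BPS.lean`): `∑_n n^(β-1) v(n) tent(m-n) = ∫ gt(t) Fb(t) dt`
(`tent_rep`), and `∑_n n^(β-1) tent(m-n) = m^(β-1) + O(Q^(-2))` since `∑ tent = 1` and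
`|n^(β-1) - m^(β-1)| ≤ |n-m|/X ≤ Q^(-2)` on the support of the tent; the tail `|t| > Q^7` uses
`FL_le` and `Fb_le`. -/
theorem B1_le : ∃ K : ℝ, 1 ≤ K ∧ ∀ Q X : ℕ, Reg K Q X → ∀ p : Σ r : ℕ, DirichletCharacter ℂ r,
    1 ≤ p.1 → ∀ β : ℝ, 1 / 2 ≤ β → β ≤ 1 → ∀ m : ℤ, (X : ℤ) ≤ m → m ≤ 4 * X →
    ‖∑ n ∈ Icc 1 (60 * X), ((lp n * tent (X / Q ^ 2) (m - n) : ℝ) : ℂ) * p.2 (n : ZMod p.1) +
      (((m : ℝ) ^ (β - 1) : ℝ) : ℂ)‖ ≤
      (∫ t in (-(Q : ℝ) ^ 7)..((Q : ℝ) ^ 7), ‖FL X p t + Fb X β t‖) +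
        (Q : ℝ) ^ (-(3 / 2) : ℝ) := by
  obtain ⟨K₀, hK₀⟩ := BPS_regime
  refine ⟨|K₀| + 20, by have := abs_nonneg K₀; linarith, fun Q X h p _ β hβ hβ1 m hm1 hm2 => ?_⟩
  have hab := abs_nonneg K₀
  have hle := le_abs_self K₀
  have hr0 : Reg K₀ Q X := h.mono (by linarith) (by linarith)
  have hr1 : Reg 20 Q X := h.mono (by linarith) (by linarith)
  have hQ20 : (20 : ℝ) ≤ Q := hr1.Q_ge (by norm_num)
  obtain ⟨hQ, hX, hY, hYX, hXY, hbd⟩ := hK₀ Q X hr0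
  have hQ' : (0:ℝ) < Q := by exact_mod_cast hQ
  have hX' : (0:ℝ) < X := by exact_mod_cast hX
  have hX1 : (1:ℝ) ≤ X := by exact_mod_cast hX
  have hm' : (X:ℝ) ≤ m := by exact_mod_cast hm1
  have hm1' : (1:ℝ) ≤ m := by linarith
  have hpw : ∀ n : ℕ, 1 ≤ n → ‖((((n : ℝ) ^ (β - 1) : ℝ)) : ℂ)‖ ≤ 1 := by
    intro n hn
    have hn1 : (1:ℝ) ≤ n := by exact_mod_cast hn
    rw [Complex.norm_real, Real.norm_of_nonneg (Real.rpow_nonneg (by linarith) _)]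
    exact Real.rpow_le_one_of_one_le_of_nonpos hn1 (by linarith)
  have hsum : ∑ n ∈ Icc 1 (60 * X), ‖(ArithmeticFunction.vonMangoldt n : ℂ) * p.2 (n : ZMod p.1) +
      (((n : ℝ) ^ (β - 1) : ℝ) : ℂ)‖ ≤ 700 * X := by
    calc ∑ n ∈ Icc 1 (60 * X), ‖(ArithmeticFunction.vonMangoldt n : ℂ) * p.2 (n : ZMod p.1) +
        (((n : ℝ) ^ (β - 1) : ℝ) : ℂ)‖
        ≤ ∑ n ∈ Icc 1 (60 * X), (‖(ArithmeticFunction.vonMangoldt n : ℂ) *
          p.2 (n : ZMod p.1)‖ + 1) := by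
          apply Finset.sum_le_sum
          intro n hn
          refine (norm_add_le _ _).trans ?_
          have := hpw n (mem_Icc.1 hn).1
          linarith
      _ = ∑ n ∈ Icc 1 (60 * X), ‖(ArithmeticFunction.vonMangoldt n : ℂ) *
          p.2 (n : ZMod p.1)‖ + 60 * X := by
          rw [Finset.sum_add_distrib, Finset.sum_const, Nat.card_Icc]
          simp
      _ ≤ 700 * X := by
          have := BPS_sum_norm (X := X) p
          linarith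
  have h1 := BPS_general hQ hX hY hYX hXY
    (fun n => (ArithmeticFunction.vonMangoldt n : ℂ) * p.2 (n : ZMod p.1) +
      (((n : ℝ) ^ (β - 1) : ℝ) : ℂ)) (D := 700)
    (by norm_num) hsum m hm1 hm2
  have h2 := BPS_replace (Y := X / Q ^ 2) hX (fun n => p.2 (n : ZMod p.1))
    (fun n => DirichletCharacter.norm_le_one _ _) m
  have hmass := BPS_mass (Y := X / Q ^ 2) hY hYX hm1 hm2
  have h3 : ‖(((m : ℝ) ^ (β - 1) : ℝ) : ℂ) - ∑ n ∈ Icc 1 (60 * X),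
      (((n : ℝ) ^ (β - 1) : ℝ) : ℂ) * (tent (X / Q ^ 2) (m - n) : ℂ)‖ ≤ 1 / (Q : ℝ) ^ 2 := by
    have e1 : (((m : ℝ) ^ (β - 1) : ℝ) : ℂ) - ∑ n ∈ Icc 1 (60 * X),
        (((n : ℝ) ^ (β - 1) : ℝ) : ℂ) * (tent (X / Q ^ 2) (m - n) : ℂ) =
        ((∑ n ∈ Icc 1 (60 * X), ((m : ℝ) ^ (β - 1) - (n : ℝ) ^ (β - 1)) *
          tent (X / Q ^ 2) (m - n) : ℝ) : ℂ) := by
      have : ((m : ℝ) ^ (β - 1) : ℝ) = ∑ n ∈ Icc 1 (60 * X), (m : ℝ) ^ (β - 1) *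
          tent (X / Q ^ 2) (m - n) := by
        rw [← Finset.mul_sum, hmass, mul_one]
      simp only [sub_mul, Finset.sum_sub_distrib]
      rw [← this]
      push_cast
      ring
    rw [e1, Complex.norm_real, Real.norm_eq_abs]
    refine (Finset.abs_sum_le_sum_abs _ _).trans ?_
    calc ∑ n ∈ Icc 1 (60 * X), |((m : ℝ) ^ (β - 1) - (n : ℝ) ^ (β - 1)) *
          tent (X / Q ^ 2) (m - n)|
        ≤ ∑ n ∈ Icc 1 (60 * X), 1 / (Q : ℝ) ^ 2 * tent (X / Q ^ 2) (m - n) := by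
          apply Finset.sum_le_sum
          intro n hn
          have hn1 : (1:ℝ) ≤ n := by exact_mod_cast (mem_Icc.1 hn).1
          rw [abs_mul, abs_of_nonneg (BPS_tent_nonneg _ _)]
          rcases le_or_gt ((X / Q ^ 2 : ℕ) : ℤ) |m - n| with h5 | h5
          · rw [BPS_tent_zero h5, mul_zero, mul_zero]
          · apply mul_le_mul_of_nonneg_right _ (BPS_tent_nonneg _ _)
            refine (XBPS_pow' hm1' hn1 (by linarith) (by linarith)).trans ?_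
            have h6 : |(m : ℝ) - n| ≤ ((X / Q ^ 2 : ℕ) : ℝ) := by
              have h9 : |m - (n : ℤ)| ≤ ((X / Q ^ 2 : ℕ) : ℤ) := h5.le
              have h8 : ((|m - (n : ℤ)| : ℤ) : ℝ) ≤ (((X / Q ^ 2 : ℕ) : ℤ) : ℝ) :=
                Int.cast_le.2 h9
              rw [Int.cast_abs, Int.cast_sub, Int.cast_natCast, Int.cast_natCast] at h8
              exact h8
            have h7 : ((X / Q ^ 2 : ℕ) : ℝ) ≤ (X : ℝ) / (Q : ℝ) ^ 2 := by
              have := Nat.cast_div_le (α := ℝ) (m := X) (n := Q ^ 2)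
              push_cast at this
              exact this
            calc |(m : ℝ) - n| / m ≤ ((X : ℝ) / (Q : ℝ) ^ 2) / X := by
                  apply div_le_div₀ (by positivity) (h6.trans h7) hX' hm'
              _ = 1 / (Q : ℝ) ^ 2 := by field_simp
      _ = 1 / (Q : ℝ) ^ 2 := by rw [← Finset.mul_sum, hmass, mul_one]
  have h4 : ∑ n ∈ Icc 1 (60 * X), ((lp n * tent (X / Q ^ 2) (m - n) : ℝ) : ℂ) *
      p.2 (n : ZMod p.1) + (((m : ℝ) ^ (β - 1) : ℝ) : ℂ) =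
      (∑ n ∈ Icc 1 (60 * X), ((lp n * tent (X / Q ^ 2) (m - n) : ℝ) : ℂ) * p.2 (n : ZMod p.1) -
        ∑ n ∈ Icc 1 (60 * X), (ArithmeticFunction.vonMangoldt n : ℂ) * p.2 (n : ZMod p.1) *
          (tent (X / Q ^ 2) (m - n) : ℂ)) +
      ∑ n ∈ Icc 1 (60 * X), ((ArithmeticFunction.vonMangoldt n : ℂ) * p.2 (n : ZMod p.1) +
        (((n : ℝ) ^ (β - 1) : ℝ) : ℂ)) * (tent (X / Q ^ 2) (m - n) : ℂ) +
      ((((m : ℝ) ^ (β - 1) : ℝ) : ℂ) - ∑ n ∈ Icc 1 (60 * X),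
        (((n : ℝ) ^ (β - 1) : ℝ) : ℂ) * (tent (X / Q ^ 2) (m - n) : ℂ)) := by
    simp only [add_mul, Finset.sum_add_distrib]
    ring
  have h5 : (∫ t in (-(Q : ℝ) ^ 7)..((Q : ℝ) ^ 7), ‖FL X p t + Fb X β t‖) =
      ∫ t in (-(Q : ℝ) ^ 7)..((Q : ℝ) ^ 7),
        ‖FF X (fun n => (ArithmeticFunction.vonMangoldt n : ℂ) * p.2 (n : ZMod p.1) +
          (((n : ℝ) ^ (β - 1) : ℝ) : ℂ)) t‖ := by
    congr 1
    ext t
    congr 1
    unfold FL Fb FF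
    rw [← Finset.sum_add_distrib]
    apply Finset.sum_congr rfl
    intro n _
    ring
  rw [h4, h5]
  refine (norm_add₃_le).trans ?_
  have h6 : 1 / (Q : ℝ) ^ 2 + (Q : ℝ) ^ (-(5 / 2) : ℝ) ≤ (Q : ℝ) ^ (-(3 / 2) : ℝ) := by
    have e1 : (Q : ℝ) ^ (-(5 / 2) : ℝ) = (Q : ℝ) ^ (-(3 / 2) : ℝ) * (1 / Q) := by
      rw [show (-(5 / 2) : ℝ) = -(3 / 2) + (-1) by norm_num, Real.rpow_add hQ', Real.rpow_neg_one,
        one_div]
    have e2 : 1 / (Q : ℝ) ^ 2 = (Q : ℝ) ^ (-(3 / 2) : ℝ) * (1 / Real.sqrt Q) := by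
      rw [Real.sqrt_eq_rpow, one_div ((Q : ℝ) ^ (1 / 2 : ℝ)), ← Real.rpow_neg hQ'.le,
        ← Real.rpow_add hQ', show (-(3 / 2) + -(1 / 2) : ℝ) = -((2 : ℕ) : ℝ) by norm_num,
        Real.rpow_neg hQ'.le, Real.rpow_natCast, one_div]
    have e3 : 1 / (Q : ℝ) ≤ 1 / 20 := one_div_le_one_div_of_le (by norm_num) hQ20
    have e4 : 1 / Real.sqrt Q ≤ 1 / 4 := by
      apply one_div_le_one_div_of_le (by norm_num)
      rw [show (4 : ℝ) = Real.sqrt 16 by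
        rw [show (16 : ℝ) = 4 ^ 2 by norm_num, Real.sqrt_sq (by norm_num)]]
      exact Real.sqrt_le_sqrt (by linarith)
    have e5 : 0 < (Q : ℝ) ^ (-(3 / 2) : ℝ) := Real.rpow_pos_of_pos hQ' _
    rw [e1, e2]
    nlinarith
  linarith

end Pool.Agent.Lib.H68T
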