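import Pool.Agent.Lib.H68X.XDefs
import Pool.Agent.Lib.H68T.MS
import Pool.Agent.Lib.H68T.MAINI

/-!
# Chunk XMU: Möbius polynomials bounded by `sw`
-/

open Finset

namespace Pool.Agent.Lib.H68T

/-- from Cesàro sums to the Möbius polynomial -/
theorem XMU_core : ∃ K : ℝ, 1 ≤ K ∧ ∀ Q X : ℕ, Reg K Q X →
    ∀ (p : Σ r : ℕ, DirichletCharacter ℂ r) (t κ : ℝ), 0 < κ → κ ≤ 1 →
    1 ≤ κ * (X : ℝ) ^ ((1 : ℝ) / 5) →
    (∀ u : ℝ, (X : ℝ) ^ ((1 : ℝ) / 5) ≤ u → u ≤ 2 * (X : ℝ) →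
      ‖∑ n ∈ Icc 1 ⌊u⌋₊, msA p t n * (1 - n / u)‖ ≤ κ * u) →
    ‖Mu X p t‖ ≤ 80 * Real.log X ^ 2 * Real.sqrt κ := by
  obtain ⟨K₇, hK₇1, hK₇⟩ := reg_pow_le 2 0 (1 / 20) (by norm_num)
  refine ⟨K₇ + 10, by linarith, ?_⟩
  intro Q X hreg p t κ hκ0 hκ1 hκu hces
  have r1 : Reg 10 Q X := hreg.mono (by linarith) (by linarith)
  have r7 : Reg K₇ Q X := hreg.mono (by linarith) (by linarith)
  set L : ℝ := Real.log X with hL
  have hLbig : 10 ≤ L := by
    have h1 := r1.logX_ge (by linarith)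
    have := Real.add_one_le_exp (10 : ℝ)
    linarith
  have hL0 : 0 < L := by linarith
  have hX1 : 1 ≤ X := r1.X_pos (by linarith)
  have hX0 : (0 : ℝ) < X := by exact_mod_cast hX1
  have hX10 : (10 : ℝ) ≤ X := r1.X_ge (by linarith)
  have hy : (2 : ℝ) ≤ (X : ℝ) ^ ((1 : ℝ) / 20) := by
    have := hK₇ Q X r7
    simpa using this
  set y : ℝ := (X : ℝ) ^ ((1 : ℝ) / 20) with hydef
  have hy4 : (X : ℝ) ^ ((1 : ℝ) / 5) = y ^ 4 := by
    rw [hydef, ← Real.rpow_natCast, ← Real.rpow_mul hX0.le]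
    norm_num
  have hy5 : (X : ℝ) ^ ((1 : ℝ) / 4) = y ^ 5 := by
    rw [hydef, ← Real.rpow_natCast, ← Real.rpow_mul hX0.le]
    norm_num
  set u₀ : ℝ := (X : ℝ) ^ ((1 : ℝ) / 5) with hu₀
  have hu₀16 : (16 : ℝ) ≤ u₀ := by
    rw [hy4]
    have := pow_le_pow_left₀ (by norm_num) hy 4
    linarith
  have huns := unsmooth (msA p t) κ u₀ X hκ0 hκ1 (by linarith) hκu
    (fun n hn => by
        have h2 := ms_norm_A p t n hn
        have h3 : 0 ≤ Real.log n := Real.log_natCast_nonneg n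
        linarith) hces
  set δ : ℝ := 40 * L * Real.sqrt κ with hδ
  have hδ0 : 0 ≤ δ := by positivity
  have hAA1 : y ^ 5 ≤ (AA X : ℝ) := by
    rw [← hy5]
    exact Nat.le_ceil _
  have hAA2 : 1 ≤ AA X := by
    have h1 : (1 : ℝ) ≤ AA X := by
      refine le_trans ?_ hAA1
      exact one_le_pow₀ (by linarith)
    exact_mod_cast h1
  have hVV : (VV X : ℝ) ≤ X := by
    unfold VV
    have h1 : (((60 * X : ℕ) : ℝ) ^ ((1 : ℝ) / 3)) ≤ X := by
      have h2 : ((60 * X : ℕ) : ℝ) ≤ (X : ℝ) ^ (3 : ℝ) := by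
        push_cast
        rw [show (3 : ℝ) = ((3 : ℕ) : ℝ) by norm_num, Real.rpow_natCast]
        nlinarith [mul_pos hX0 hX0]
      calc (((60 * X : ℕ) : ℝ) ^ ((1 : ℝ) / 3)) ≤ ((X : ℝ) ^ (3 : ℝ)) ^ ((1 : ℝ) / 3) :=
            Real.rpow_le_rpow (by positivity) h2 (by norm_num)
        _ = X := by
            rw [← Real.rpow_mul hX0.le]
            norm_num
    exact (Nat.floor_le (by positivity)).trans h1
  have hVV1 : 1 ≤ VV X := by
    unfold VV
    refine Nat.le_floor ?_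
    push_cast
    refine Real.one_le_rpow ?_ (by norm_num)
    linarith
  obtain ⟨M, hM⟩ : ∃ M, AA X = M + 1 := ⟨AA X - 1, by omega⟩
  have hMu₀ : u₀ ≤ (M : ℝ) := by
    have h1 : (AA X : ℝ) = M + 1 := by rw [hM]; push_cast; ring
    rw [h1] at hAA1
    rw [hy4]
    have h2 : y ^ 5 = y ^ 4 * y := by ring
    have h3 : 1 ≤ y ^ 4 := one_le_pow₀ (by linarith)
    nlinarith
  rw [ms_Mu X p t hAA2, hM]
  have hab := ms_abel (msA p t) δ hδ0 M (VV X) hVV1 (fun n h1 h2 => by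
    have hn1 : u₀ ≤ (n : ℝ) := hMu₀.trans (by exact_mod_cast h1)
    have hn2 : (n : ℝ) ≤ X := le_trans (by exact_mod_cast h2) hVV
    have hn0 : (0 : ℝ) < n := by linarith
    have h3 := huns n hn1 hn2
    rw [Nat.floor_natCast] at h3
    refine h3.trans ?_
    have h4 : 1 + Real.log n ≤ 2 * L := by
      have : Real.log n ≤ L := Real.log_le_log hn0 hn2
      linarith
    calc 20 * Real.sqrt κ * n * (1 + Real.log n)
        ≤ 20 * Real.sqrt κ * n * (2 * L) := by gcongr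
      _ = δ * n := by rw [hδ]; ring)
  refine hab.trans ?_
  have hlV : Real.log (VV X) ≤ L := by
    refine Real.log_le_log (by exact_mod_cast hVV1) hVV
  calc δ * (3 + Real.log (VV X)) ≤ δ * (2 * L) := by gcongr; linarith
    _ = 80 * L ^ 2 * Real.sqrt κ := by rw [hδ]; ring

/-- the Cesàro sums, from `perron` -/
theorem XMU_ces : ∃ P K : ℝ, 0 < P ∧ 1 ≤ K ∧ ∀ Q X : ℕ, Reg K Q X →
    ∀ (p : Σ r : ℕ, DirichletCharacter ℂ r) (t c' T B : ℝ) (f : ℂ → ℂ), 0 < c' →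
    c' / Real.log Q ≤ 1 / 2 → 1 ≤ T → 1 ≤ B →
    AnalyticOnNhd ℂ f {s | 1 - c' / Real.log Q ≤ s.re ∧ s.re ≤ 2 ∧ |s.im| ≤ T} →
    (∀ s : ℂ, 1 - c' / Real.log Q ≤ s.re → s.re ≤ 2 → |s.im| ≤ T → ‖f s‖ ≤ B) →
    (∀ s : ℂ, 1 < s.re → f s = LSeries (msA p t) s) →
    ∀ u : ℝ, (X : ℝ) ^ ((1 : ℝ) / 5) ≤ u → u ≤ 2 * (X : ℝ) →
      ‖∑ n ∈ Icc 1 ⌊u⌋₊, msA p t n * (1 - n / u)‖ ≤
        P * (B * Real.exp (-(c' / 5 * (Real.log X / Real.log Q))) + B / T ^ 2 +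
          4 * Real.log X ^ 2 / T) * u := by
  obtain ⟨P, hP, hper⟩ := perron
  obtain ⟨K₇, hK₇1, hK₇⟩ := reg_pow_le 2 0 (1 / 20) (by norm_num)
  refine ⟨P, K₇ + 10, hP, by linarith, ?_⟩
  intro Q X hreg p t c' T B f hc' hη1 hT1 hB1 hf1 hf2 hf3 u hu1 hu2
  have r1 : Reg 10 Q X := hreg.mono (by linarith) (by linarith)
  have r7 : Reg K₇ Q X := hreg.mono (by linarith) (by linarith)
  set L : ℝ := Real.log X with hL
  have hLbig : 10 ≤ L := by
    have h1 := r1.logX_ge (by linarith)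
    have := Real.add_one_le_exp (10 : ℝ)
    linarith
  have hL0 : 0 < L := by linarith
  have hX1 : 1 ≤ X := r1.X_pos (by linarith)
  have hX0 : (0 : ℝ) < X := by exact_mod_cast hX1
  have hlQ0 : 0 < Real.log Q := by
    have := r1.logQ_ge (by linarith)
    linarith
  have hy : (2 : ℝ) ≤ (X : ℝ) ^ ((1 : ℝ) / 20) := by
    have := hK₇ Q X r7
    simpa using this
  have hy4 : (X : ℝ) ^ ((1 : ℝ) / 5) = ((X : ℝ) ^ ((1 : ℝ) / 20)) ^ 4 := by
    rw [← Real.rpow_natCast, ← Real.rpow_mul hX0.le]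
    norm_num
  have hu₀16 : (16 : ℝ) ≤ (X : ℝ) ^ ((1 : ℝ) / 5) := by
    rw [hy4]
    have := pow_le_pow_left₀ (by norm_num) hy 4
    linarith
  have hu0 : 0 < u := by linarith
  set η : ℝ := c' / Real.log Q with hη
  have hη0 : 0 < η := by positivity
  have hT0 : 0 < T := by linarith
  have h1 := hper (msA p t) f 0 η T B u (by simp) hη0 hη1 hT1
    (by linarith) hB1 (fun n hn => by
      have h2 := ms_norm_A p t n hn
      have h3 : 0 ≤ Real.log n := Real.log_natCast_nonneg n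
      linarith) hf1 hf2
    (fun s hs => by rw [hf3 s hs]; simp)
  rw [zero_mul, sub_zero] at h1
  refine h1.trans ?_
  have hlogu : L / 5 ≤ Real.log u := by
    have : Real.log ((X : ℝ) ^ ((1 : ℝ) / 5)) = L / 5 := by
      rw [Real.log_rpow hX0]
      ring
    rw [← this]
    exact Real.log_le_log (by linarith) hu1
  have hlogu2 : 1 + Real.log u ≤ 2 * L := by
    have h2 : Real.log u ≤ Real.log (2 * X) := Real.log_le_log hu0 hu2
    rw [Real.log_mul (by norm_num) hX0.ne', ← hL] at h2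
    have : Real.log 2 ≤ 1 := by
      have := Real.log_two_lt_d9
      linarith
    linarith
  have hlogu0 : 0 ≤ Real.log u := by
    refine le_trans (by positivity) hlogu
  have t1 : B * u ^ (1 - η) ≤ B * Real.exp (-(c' / 5 * (L / Real.log Q))) * u := by
    have h2 : u ^ (1 - η) ≤ u * Real.exp (-(c' / 5 * (L / Real.log Q))) := by
      rw [Real.rpow_sub hu0, Real.rpow_one, div_eq_mul_inv, ← Real.rpow_neg hu0.le]
      refine mul_le_mul_of_nonneg_left ?_ hu0.le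
      rw [Real.rpow_def_of_pos hu0]
      refine Real.exp_le_exp.2 ?_
      have h3 : L / 5 * η ≤ Real.log u * η := mul_le_mul_of_nonneg_right hlogu hη0.le
      have h4 : c' / 5 * (L / Real.log Q) = L / 5 * η := by
        rw [hη]
        ring
      rw [h4]
      linarith
    calc B * u ^ (1 - η) ≤ B * (u * Real.exp (-(c' / 5 * (L / Real.log Q)))) := by gcongr
      _ = _ := by ring
  have t3 : u * (1 + Real.log u) ^ 2 / T ≤ 4 * L ^ 2 / T * u := by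
    have h8 : (1 + Real.log u) ^ 2 ≤ (2 * L) ^ 2 :=
      pow_le_pow_left₀ (by linarith) hlogu2 2
    calc u * (1 + Real.log u) ^ 2 / T ≤ u * (2 * L) ^ 2 / T := by gcongr
      _ = _ := by ring
  have t2 : B * u / T ^ 2 = B / T ^ 2 * u := by ring
  calc P * (B * u ^ (1 - η) + B * u / T ^ 2 + u * (1 + Real.log u) ^ 2 / T)
      ≤ P * (B * Real.exp (-(c' / 5 * (L / Real.log Q))) * u + B / T ^ 2 * u +
        4 * L ^ 2 / T * u) := by
        rw [t2]
        gcongr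
    _ = _ := by ring

/-- square root of a sum of three terms -/
theorem XMU_sqrt3 (a b c : ℝ) (ha : 0 ≤ a) (hb : 0 ≤ b) (hc : 0 ≤ c) :
    Real.sqrt (a + b + c) ≤ Real.sqrt a + Real.sqrt b + Real.sqrt c := by
  have h1 := Real.sqrt_nonneg a
  have h2 := Real.sqrt_nonneg b
  have h3 := Real.sqrt_nonneg c
  rw [Real.sqrt_le_left (by positivity)]
  have e1 := Real.sq_sqrt ha
  have e2 := Real.sq_sqrt hb
  have e3 := Real.sq_sqrt hc
  nlinarith [mul_nonneg h1 h2, mul_nonneg h1 h3, mul_nonneg h2 h3]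

/-- As `Mu_small` (file `H68T/MS.lean`), for one character, with the full error term: `f(s) = g(s+it)`,
`T = Q^11`; for `u ≥ X^(1/5)` `perron` gives
`κ = C (log X)^3 (exp (-c' log X/(5 log Q)) + Q^(-10))`, `unsmooth` and partial summation as there;
errors: `sw_of_exp`, `sw_of_Q`, `sw_absorb` (split the square root of a sum). -/
theorem Mu_of_inv (c' C : ℝ) (hc' : 0 < c') : ∃ K : ℝ, 1 ≤ K ∧ ∀ Q X : ℕ, Reg K Q X →
    ∀ p : Σ r : ℕ, DirichletCharacter ℂ r, 1 ≤ p.1 → InvStmt c' C Q p →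
    ∀ t : ℝ, |t| ≤ (Q : ℝ) ^ 11 → ‖Mu X p t‖ ≤ sw K Q X := by
  set D : ℝ := |C| + 1 with hD
  have hD1 : 1 ≤ D := by have := abs_nonneg C; linarith
  have hCD : C ≤ D := by have := le_abs_self C; linarith
  obtain ⟨K₁, hK₁1, hcore⟩ := XMU_core
  obtain ⟨P, K₂, hP, hK₂1, hper⟩ := XMU_ces
  obtain ⟨K₃, hK₃1, hK₃⟩ := reg_exp_le (4 * P * D) 1 (c' / 5) (by positivity)
  obtain ⟨K₄, hK₄1, hK₄⟩ := reg_log_le (4 * P * (D + 4)) 2 1 (by norm_num)
  obtain ⟨K₆, hK₆1, hK₆⟩ := reg_pow_le 4 1 (1 / 5) (by norm_num)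
  -- error terms
  obtain ⟨S₁, hS₁1, hS₁⟩ := sw_of_exp (80 * Real.sqrt (P * D)) (2 + 1 / 2) (c' / 10) (by positivity)
  obtain ⟨S₂, hS₂1, hS₂⟩ := sw_of_Q (80 * Real.sqrt (P * (D + 4))) 3 (1 / 2) (by norm_num)
  obtain ⟨S₃, hS₃1, hS₃⟩ := sw_of_Q 80 2 (1 / 2) (by norm_num)
  obtain ⟨S, hS1, hS2, hS⟩ := sw_absorb 3 0 (S₁ + S₂ + S₃) (by linarith)
  refine ⟨K₁ + K₂ + K₃ + K₄ + K₆ + S₁ + S₂ + S₃ + S + 2 * c' + 10, by linarith, ?_⟩
  intro Q X hreg p hp1 hinv t ht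
  have hKpos : 0 ≤ K₁ + K₂ + K₃ + K₄ + K₆ + S₁ + S₂ + S₃ + S + 2 * c' + 10 := by linarith
  have r0 : Reg (2 * c' + 10) Q X := hreg.mono hKpos (by linarith)
  have r1 : Reg K₁ Q X := hreg.mono hKpos (by linarith)
  have r2 : Reg K₂ Q X := hreg.mono hKpos (by linarith)
  have r3 : Reg K₃ Q X := hreg.mono hKpos (by linarith)
  have r4 : Reg K₄ Q X := hreg.mono hKpos (by linarith)
  have r6 : Reg K₆ Q X := hreg.mono hKpos (by linarith)
  have s1 : Reg S₁ Q X := hreg.mono hKpos (by linarith)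
  have s2 : Reg S₂ Q X := hreg.mono hKpos (by linarith)
  have s3 : Reg S₃ Q X := hreg.mono hKpos (by linarith)
  have s4 : Reg S Q X := hreg.mono hKpos (by linarith)
  set L : ℝ := Real.log X with hL
  have hLbig : 10 ≤ L := by
    have h1 := r0.logX_ge (by linarith)
    have := Real.add_one_le_exp (2 * c' + 10)
    linarith
  have hL0 : 0 < L := by linarith
  have hL1 : 1 ≤ L := by linarith
  have hQbig : 2 * c' + 10 ≤ Q := r0.Q_ge (by linarith)
  have hQ10 : (10 : ℝ) ≤ Q := by linarith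
  have hQ0 : (0 : ℝ) < Q := by linarith
  have hQ1 : (1 : ℝ) ≤ Q := by linarith
  have hQn : 1 ≤ Q := by exact_mod_cast hQ1
  have hlQbig : 2 * c' + 10 ≤ Real.log Q := r0.logQ_ge (by linarith)
  have hlQ0 : 0 < Real.log Q := by linarith
  have hlQL : Real.log Q ≤ L := by
    have h1 := r0.logQ_le (by linarith)
    have h2 : 1 * Real.log Q ≤ (2 * c' + 10) * Real.log Q :=
      mul_le_mul_of_nonneg_right (by linarith) hlQ0.le
    linarith
  have hX1 : 1 ≤ X := r0.X_pos (by linarith)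
  have hX0 : (0 : ℝ) < X := by exact_mod_cast hX1
  obtain ⟨g, hg1, hg2, hg3⟩ := hinv
  have hη1 : c' / Real.log Q ≤ 1 / 2 := by
    rw [div_le_iff₀ hlQ0]
    linarith
  set T : ℝ := (Q : ℝ) ^ 11 with hT
  have hT1 : 1 ≤ T := one_le_pow₀ (by linarith)
  have hT0 : 0 < T := by linarith
  have hT2 : 2 * T ≤ (Q : ℝ) ^ 12 := by
    have : (Q : ℝ) ^ 12 = T * Q := by rw [hT]; ring
    rw [this]
    nlinarith
  have hTQ : (Q : ℝ) ≤ T := by
    rw [hT]
    calc (Q : ℝ) = (Q : ℝ) ^ 1 := (pow_one _).symm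
      _ ≤ (Q : ℝ) ^ 11 := pow_le_pow_right₀ hQ1 (by norm_num)
  set B : ℝ := D * L with hB
  have hB1 : 1 ≤ B := by
    rw [hB]
    nlinarith
  have hCB : C * Real.log Q ≤ B := by
    rw [hB]
    calc C * Real.log Q ≤ D * Real.log Q := mul_le_mul_of_nonneg_right hCD hlQ0.le
      _ ≤ D * L := mul_le_mul_of_nonneg_left hlQL (by linarith)
  have hmem : ∀ s : ℂ, 1 - c' / Real.log Q ≤ s.re → s.re ≤ 2 → |s.im| ≤ T →
      s + t * Complex.I ∈ Rg c' Q := by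
    intro s h1 h2 h3
    refine ⟨?_, ?_, ?_⟩
    · simpa using h1
    · simpa using h2
    · have : (s + t * Complex.I).im = s.im + t := by simp
      rw [this]
      refine (abs_add_le _ _).trans ?_
      linarith
  have hces := hper Q X r2 p t c' T B (fun s => g (s + t * Complex.I)) hc' hη1 hT1 hB1
    (by
      intro s hs
      have h1 := hg1 _ (hmem s hs.1 hs.2.1 hs.2.2)
      exact AnalyticAt.fun_comp h1 (by fun_prop))
    (fun s h1 h2 h3 => (hg3 _ (hmem s h1 h2 h3)).trans hCB)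
    (fun s hs => by
      rw [ms_LSeries]
      have : (1 : ℝ) < (s + t * Complex.I).re := by simpa using hs
      rw [← hg2 _ this])
  set E : ℝ := Real.exp (-(c' / 5 * (L / Real.log Q))) with hE
  have hE0 : 0 < E := Real.exp_pos _
  set κ : ℝ := P * D * L * E + P * (D + 4) * L ^ 2 / Q + 1 / Q with hκ
  have hκ0 : 0 < κ := by positivity
  have hTT : T ≤ T ^ 2 := by nlinarith
  have hκ' : P * (B * E + B / T ^ 2 + 4 * L ^ 2 / T) ≤ κ := by
    have e1 : B / T ^ 2 ≤ D * L ^ 2 / Q := by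
      have : D * L ≤ D * L ^ 2 := by nlinarith
      calc B / T ^ 2 ≤ D * L ^ 2 / T ^ 2 := by rw [hB]; gcongr
        _ ≤ D * L ^ 2 / Q := by gcongr; linarith
    have e2 : 4 * L ^ 2 / T ≤ 4 * L ^ 2 / Q := by gcongr
    have e3 : 0 ≤ 1 / (Q : ℝ) := by positivity
    calc P * (B * E + B / T ^ 2 + 4 * L ^ 2 / T)
        ≤ P * (B * E + D * L ^ 2 / Q + 4 * L ^ 2 / Q) := by gcongr
      _ = P * D * L * E + P * (D + 4) * L ^ 2 / Q := by rw [hB]; ring
      _ ≤ κ := by rw [hκ]; linarith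
  have hκ1 : κ ≤ 1 := by
    have k1 : 4 * P * D * L * E ≤ 1 := by
      have := hK₃ Q X r3
      rw [Real.rpow_one] at this
      exact this
    have k2 : 4 * P * (D + 4) * L ^ 2 ≤ Q := by
      have := hK₄ Q X r4
      rw [Real.rpow_one, Real.rpow_two] at this
      exact this
    have k3 : P * (D + 4) * L ^ 2 / Q ≤ 1 / 4 := by
      rw [div_le_iff₀ hQ0]
      linarith
    have k4 : 1 / (Q : ℝ) ≤ 1 / 10 := by
      apply one_div_le_one_div_of_le (by norm_num) hQ10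
    rw [hκ]
    linarith
  have hκu : 1 ≤ κ * (X : ℝ) ^ ((1 : ℝ) / 5) := by
    have k1 : 4 * (Q : ℝ) ≤ (X : ℝ) ^ ((1 : ℝ) / 5) := by
      have := hK₆ Q X r6
      rw [Real.rpow_one] at this
      exact this
    have k2 : 1 / (Q : ℝ) ≤ κ := by
      rw [hκ]
      have : 0 ≤ P * D * L * E + P * (D + 4) * L ^ 2 / Q := by positivity
      linarith
    calc (1 : ℝ) = 1 / Q * Q := by field_simp
      _ ≤ κ * (X : ℝ) ^ ((1 : ℝ) / 5) := by
          apply mul_le_mul k2 (by linarith) hQ0.le hκ0.le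
  have hmain := hcore Q X r1 p t κ hκ0 hκ1 hκu (fun u hu1 hu2 => by
    refine (hces u hu1 hu2).trans ?_
    have hu0 : 0 ≤ u := le_trans (Real.rpow_nonneg hX0.le _) hu1
    exact mul_le_mul_of_nonneg_right hκ' hu0)
  refine hmain.trans ?_
  have hsq := XMU_sqrt3 (P * D * L * E) (P * (D + 4) * L ^ 2 / Q) (1 / Q) (by positivity)
    (by positivity) (by positivity)
  rw [← hκ] at hsq
  have q1 : Real.sqrt (P * D * L * E) = Real.sqrt (P * D) * L ^ ((1 : ℝ) / 2) *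
      Real.exp (-(c' / 10 * (L / Real.log Q))) := by
    rw [Real.sqrt_mul (by positivity), Real.sqrt_mul (by positivity), Real.sqrt_eq_rpow L, hE,
      ← Real.exp_half]
    congr 2
    ring
  have q2 : Real.sqrt (P * (D + 4) * L ^ 2 / Q) = Real.sqrt (P * (D + 4)) * L *
      (Q : ℝ) ^ (-(1 / 2) : ℝ) := by
    rw [Real.sqrt_div (by positivity), Real.sqrt_mul (by positivity), Real.sqrt_sq hL0.le,
      Real.rpow_neg hQ0.le, ← Real.sqrt_eq_rpow, div_eq_mul_inv]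
  have q3 : Real.sqrt (1 / Q) = (Q : ℝ) ^ (-(1 / 2) : ℝ) := by
    rw [Real.sqrt_div zero_le_one, Real.sqrt_one, Real.rpow_neg hQ0.le, ← Real.sqrt_eq_rpow,
      one_div]
  rw [q1, q2, q3] at hsq
  have w1 := hS₁ Q X s1
  have w2 := hS₂ Q X s2
  have w3 := hS₃ Q X s3
  rw [← hL] at w1 w2 w3
  have p1 : L ^ ((2 : ℝ) + 1 / 2) = L ^ 2 * L ^ ((1 : ℝ) / 2) := by
    rw [Real.rpow_add hL0, Real.rpow_two]
  have p2 : L ^ (3 : ℝ) = L ^ 2 * L := by
    rw [show (3 : ℝ) = 2 + 1 by norm_num, Real.rpow_add hL0, Real.rpow_two, Real.rpow_one]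
  have p3 : L ^ (2 : ℝ) = L ^ 2 := Real.rpow_two L
  rw [p1] at w1
  rw [p2] at w2
  rw [p3] at w3
  have m1 : sw S₁ Q X ≤ sw (S₁ + S₂ + S₃) Q X := sw_mono (by linarith) (by linarith) hQn
  have m2 : sw S₂ Q X ≤ sw (S₁ + S₂ + S₃) Q X := sw_mono (by linarith) (by linarith) hQn
  have m3 : sw S₃ Q X ≤ sw (S₁ + S₂ + S₃) Q X := sw_mono (by linarith) (by linarith) hQn
  have m4 := hS Q X s4
  rw [Real.rpow_zero, mul_one] at m4
  have m5 : sw S Q X ≤ sw (K₁ + K₂ + K₃ + K₄ + K₆ + S₁ + S₂ + S₃ + S + 2 * c' + 10) Q X :=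
    sw_mono (by linarith) (by linarith) hQn
  refine le_trans ?_ m5
  refine le_trans ?_ m4
  calc 80 * L ^ 2 * Real.sqrt κ ≤ 80 * L ^ 2 * (Real.sqrt (P * D) * L ^ ((1 : ℝ) / 2) *
      Real.exp (-(c' / 10 * (L / Real.log Q))) + Real.sqrt (P * (D + 4)) * L *
      (Q : ℝ) ^ (-(1 / 2) : ℝ) + (Q : ℝ) ^ (-(1 / 2) : ℝ)) := by gcongr
    _ = 80 * Real.sqrt (P * D) * (L ^ 2 * L ^ ((1 : ℝ) / 2)) *
        Real.exp (-(c' / 10 * (L / Real.log Q))) + 80 * Real.sqrt (P * (D + 4)) * (L ^ 2 * L) *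
        (Q : ℝ) ^ (-(1 / 2) : ℝ) + 80 * L ^ 2 * (Q : ℝ) ^ (-(1 / 2) : ℝ) := by ring
    _ ≤ 3 * sw (S₁ + S₂ + S₃) Q X := by linarith

end Pool.Agent.Lib.H68T
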