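import Pool.Agent.Lib.H68X.XDefs
import Pool.Agent.Lib.H68X.XMU
import Pool.Agent.Lib.H68T.MAIN

/-!
# Chunk XMAIN: the `L¹` norm of the main parts, all frequencies
-/

open Finset MeasureTheory

namespace Pool.Agent.Lib.H68T

/-- As `main_L1` (file `H68T/MAIN.lean`), for a subset `S` of `PC Q`, with `Mu_of_inv` instead of
`Mu_small` (and `mean_value`, whose sum over `PC Q` dominates the sum over `S`). -/
theorem main_L1_of_inv (c' C : ℝ) (hc' : 0 < c') : ∃ K : ℝ, 1 ≤ K ∧ ∀ Q X : ℕ, Reg K Q X →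
    ∀ S ⊆ PC Q, (∀ p ∈ S, InvStmt c' C Q p) →
    ∑ p ∈ S, ∫ t in (-(Q : ℝ) ^ 7)..((Q : ℝ) ^ 7),
      ‖FF X (fun m => (hmain Q X m : ℂ) * p.2 (m : ZMod p.1)) t‖ ≤ sw K Q X := by
  obtain ⟨C₁, K₁, hC, hK₁⟩ := main_integral
  obtain ⟨K₂, hK₂1, hK₂⟩ := Mu_of_inv c' C hc'
  obtain ⟨K₃, hK₃⟩ := mean_value
  obtain ⟨K₄, hK₄1, hK₄⟩ := sw_of_Q (64 * C₁) 7 1 one_pos
  obtain ⟨K₅, hK₅0, hK₅1, hK₅⟩ := sw_absorb (200 * Real.pi * C₁) 7 K₂ (by linarith)
  have a1 : 0 ≤ |K₁| := abs_nonneg _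
  have a3 : 0 ≤ |K₃| := abs_nonneg _
  have b1 : K₁ ≤ |K₁| := le_abs_self _
  have b3 : K₃ ≤ |K₃| := le_abs_self _
  refine ⟨|K₁| + K₂ + |K₃| + K₄ + K₅ + 10, by linarith, ?_⟩
  intro Q X hreg S hSQ hS
  have hpi := Real.pi_pos
  have hKpos : 0 ≤ |K₁| + K₂ + |K₃| + K₄ + K₅ + 10 := by linarith
  have r1 : Reg K₁ Q X := hreg.mono hKpos (by linarith)
  have r2 : Reg K₂ Q X := hreg.mono hKpos (by linarith)
  have r3 : Reg K₃ Q X := hreg.mono hKpos (by linarith)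
  have r4 : Reg K₄ Q X := hreg.mono hKpos (by linarith)
  have r6 : Reg K₅ Q X := hreg.mono hKpos (by linarith)
  have r5 : Reg 10 Q X := hreg.mono hKpos (by linarith)
  set L : ℝ := Real.log X with hL
  have hLe : Real.exp 10 ≤ L := r5.logX_ge (by norm_num)
  have hL10 : 10 ≤ L := by
    have := Real.add_one_le_exp (10 : ℝ)
    linarith
  have hL0 : 0 < L := by linarith
  have hX : 1 ≤ X := r5.X_pos (by norm_num)
  have hQ10 : (10 : ℝ) ≤ Q := r5.Q_ge (by norm_num)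
  have hQ0 : (0 : ℝ) < Q := by linarith
  have hQ1 : 1 ≤ Q := r5.Q_pos (by norm_num)
  set w : ℝ := sw K₂ Q X with hw
  have hw0 : 0 < w := sw_pos K₂ Q X hQ1
  set T₁ : ℝ := (Q : ℝ) ^ 7 with hT₁
  set T₂ : ℝ := (Q : ℝ) ^ 10 with hT₂
  set T₃ : ℝ := (Q : ℝ) ^ 11 with hT₃
  have hT₁0 : 0 < T₁ := by positivity
  have hT₂0 : 0 < T₂ := by positivity
  have hT₃0 : 0 < T₃ := by positivity
  have h12 : T₁ ≤ T₂ := pow_le_pow_right₀ (by linarith) (by norm_num)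
  have h3 : T₁ + T₂ ≤ T₃ := by
    have : T₃ = T₂ * Q := by rw [hT₃, hT₂]; ring
    rw [this]
    nlinarith
  have hlog : 1 + Real.log (60 * X) ≤ 2 * L := by
    have hX0 : (X : ℝ) ≠ 0 := by positivity
    rw [Real.log_mul (by norm_num) hX0, ← hL]
    have : Real.log 60 ≤ 5 := by
      rw [Real.log_le_iff_le_exp (by norm_num)]
      have h1 : (2.7 : ℝ) ≤ Real.exp 1 := by
        have := Real.exp_one_gt_d9
        linarith
      have h2 : Real.exp 5 = Real.exp 1 ^ 5 := by rw [← Real.exp_nat_mul]; norm_num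
      rw [h2]
      have h3 : (2.7 : ℝ) ^ 5 ≤ Real.exp 1 ^ 5 := pow_le_pow_left₀ (by norm_num) h1 5
      have h4 : (60 : ℝ) ≤ 2.7 ^ 5 := by norm_num
      linarith
    linarith
  have key : ∀ p ∈ S, ∫ t in (-T₁)..T₁,
      ‖FF X (fun m => (hmain Q X m : ℂ) * p.2 (m : ZMod p.1)) t‖ ≤
      C₁ * L ^ (4 : ℝ) * (Real.pi * (w * ∫ t in (-T₃)..T₃, ‖Mu X p t‖ ^ 2) +
        2 / T₂ * (2 * T₁ * (2 * L) ^ 3)) := by
    intro p hp
    have hp1 : 1 ≤ p.1 := (mem_PC.mp (hSQ hp)).1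
    have hcont := (continuous_Mu X p).norm
    have hMi := main_int (fun t => ‖Mu X p t‖) hcont (fun t => norm_nonneg _) (2 * L)
      w T₁ T₂ T₃ (fun t => (Mu_le X p t hX).trans hlog)
      (fun t ht => hK₂ Q X r2 p hp1 (hS p hp) t ht) hT₁0.le hT₂0 h3
    have hi : IntervalIntegrable (fun t => C₁ * L ^ (4 : ℝ) *
        ∫ τ : ℝ, (1 + τ ^ 2)⁻¹ * ‖Mu X p (t + τ)‖ ^ 3) volume (-T₁) T₁ := by
      refine IntervalIntegrable.const_mul ?_ _
      rw [intervalIntegrable_iff_integrableOn_Ioc_of_le (by linarith)]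
      have hint : Integrable (Function.uncurry fun t τ : ℝ => (1 + τ ^ 2)⁻¹ *
          ‖Mu X p (t + τ)‖ ^ 3) ((volume.restrict (Set.Ioc (-T₁) T₁)).prod volume) := by
        have e1 : Integrable (fun z : ℝ × ℝ => (1 : ℝ) * (1 + z.2 ^ 2)⁻¹)
            ((volume.restrict (Set.Ioc (-T₁) T₁)).prod volume) :=
          (integrable_const (1 : ℝ)).mul_prod integrable_inv_one_add_sq
        have hcM : Continuous (fun z : ℝ × ℝ => ‖Mu X p (z.1 + z.2)‖ ^ 3) :=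
          ((continuous_Mu X p).comp (continuous_fst.add continuous_snd)).norm.pow 3
        have e2 := e1.mul_bdd (g := fun z : ℝ × ℝ => ‖Mu X p (z.1 + z.2)‖ ^ 3) (c := (2 * L) ^ 3)
          hcM.aestronglyMeasurable (Filter.Eventually.of_forall fun z => by
            rw [Real.norm_of_nonneg (by positivity)]
            exact pow_le_pow_left₀ (norm_nonneg _) ((Mu_le X p _ hX).trans hlog) 3)
        refine e2.congr (Filter.Eventually.of_forall fun z => ?_)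
        simp [Function.uncurry]
      exact hint.integral_prod_left
    have hstep : ∫ t in (-T₁)..T₁,
        ‖FF X (fun m => (hmain Q X m : ℂ) * p.2 (m : ZMod p.1)) t‖ ≤
        ∫ t in (-T₁)..T₁, C₁ * L ^ (4 : ℝ) *
          ∫ τ : ℝ, (1 + τ ^ 2)⁻¹ * ‖Mu X p (t + τ)‖ ^ 3 := by
      refine intervalIntegral.integral_mono_on (by linarith)
        ((main_cont_FF X _).norm.intervalIntegrable _ _) hi fun t _ => ?_
      exact hK₁ Q X r1 p hp1 t
    refine hstep.trans ?_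
    rw [intervalIntegral.integral_const_mul]
    exact mul_le_mul_of_nonneg_left hMi (by positivity)
  refine (Finset.sum_le_sum key).trans ?_
  rw [← Finset.mul_sum, Finset.sum_add_distrib, ← Finset.mul_sum, ← Finset.mul_sum,
    Finset.sum_const, nsmul_eq_mul]
  have hsub : ∑ p ∈ S, ∫ t in (-T₃)..T₃, ‖Mu X p t‖ ^ 2 ≤
      ∑ p ∈ PC Q, ∫ t in (-T₃)..T₃, ‖Mu X p t‖ ^ 2 :=
    Finset.sum_le_sum_of_subset_of_nonneg hSQ fun p _ _ =>
      intervalIntegral.integral_nonneg (by linarith) fun t _ => by positivity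
  have hmv := hsub.trans (hK₃ Q X r3)
  have hcard : (S.card : ℝ) ≤ (Q : ℝ) ^ 2 := by
    have h1 := (Finset.card_le_card hSQ).trans (card_PC_le Q)
    exact_mod_cast h1
  have hK4 := hK₄ Q X r4
  have hK5 := hK₅ Q X r6
  have hpart1 : C₁ * L ^ (4 : ℝ) * (Real.pi * (w *
      ∑ p ∈ S, ∫ t in (-T₃)..T₃, ‖Mu X p t‖ ^ 2)) ≤
      sw (|K₁| + K₂ + |K₃| + K₄ + K₅ + 10) Q X / 2 := by
    calc C₁ * L ^ (4 : ℝ) * (Real.pi * (w *
          ∑ p ∈ S, ∫ t in (-T₃)..T₃, ‖Mu X p t‖ ^ 2))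
        ≤ C₁ * L ^ (4 : ℝ) * (Real.pi * (w * (100 * L ^ (3 : ℝ)))) := by
          gcongr
      _ = (200 * Real.pi * C₁ * L ^ (7 : ℝ) * w) / 2 := by
          have : L ^ (7 : ℝ) = L ^ (4 : ℝ) * L ^ (3 : ℝ) := by
            rw [← Real.rpow_add hL0]
            norm_num
          rw [this]
          ring
      _ ≤ sw K₅ Q X / 2 := by
          refine div_le_div_of_nonneg_right hK5 (by norm_num)
      _ ≤ _ := by
          refine div_le_div_of_nonneg_right ?_ (by norm_num)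
          exact sw_mono (by linarith) (by linarith) hQ1
  have hpart2 : C₁ * L ^ (4 : ℝ) * ((S.card : ℝ) * (2 / T₂ * (2 * T₁ * (2 * L) ^ 3))) ≤
      sw (|K₁| + K₂ + |K₃| + K₄ + K₅ + 10) Q X / 2 := by
    calc C₁ * L ^ (4 : ℝ) * ((S.card : ℝ) * (2 / T₂ * (2 * T₁ * (2 * L) ^ 3)))
        ≤ C₁ * L ^ (4 : ℝ) * ((Q : ℝ) ^ 2 * (2 / T₂ * (2 * T₁ * (2 * L) ^ 3))) := by
          gcongr
      _ = (64 * C₁ * L ^ (7 : ℝ) * (Q : ℝ) ^ (-1 : ℝ)) / 2 := by
          have e1 : L ^ (7 : ℝ) = L ^ (4 : ℝ) * L ^ 3 := by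
            rw [← Real.rpow_natCast L 3, ← Real.rpow_add hL0]
            norm_num
          rw [e1, hT₁, hT₂, Real.rpow_neg_one]
          field_simp
          ring
      _ ≤ sw K₄ Q X / 2 := div_le_div_of_nonneg_right hK4 (by norm_num)
      _ ≤ _ := by
          refine div_le_div_of_nonneg_right ?_ (by norm_num)
          exact sw_mono (by linarith) (by linarith) hQ1
  rw [mul_add]
  linarith

end Pool.Agent.Lib.H68T
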