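import Pool.Agent.Lib.H68X.XDefs
import Pool.Agent.Lib.H68X.XMAIN
import Pool.Agent.Lib.H68T.D2

/-!
# Chunk XD2A: non-trivial characters
-/

open Finset MeasureTheory

namespace Pool.Agent.Lib.H68T

/-- As `L1_nontrivial` (file `H68T/D2A.lean`), for `S ⊆ PC Q`, `p0 ∉ S`. -/
theorem L1_rest (c' C : ℝ) (hc' : 0 < c') : ∃ K : ℝ, 1 ≤ K ∧ ∀ Q X : ℕ, Reg K Q X →
    ∀ S ⊆ PC Q, p0 ∉ S → (∀ p ∈ S, InvStmt c' C Q p) →
    ∑ p ∈ S, ∫ t in (-(Q : ℝ) ^ 7)..((Q : ℝ) ^ 7), ‖FL X p t‖ ≤ sw K Q X := by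
  obtain ⟨K₁, hK₁⟩ := decomposition
  obtain ⟨K₂, hK₂⟩ := long_small
  obtain ⟨K₃, hK₃1, hK₃⟩ := main_L1_of_inv c' C hc'
  obtain ⟨K₄, hK₄1, hK₄⟩ := sw_of_Q 8 7 2 two_pos
  obtain ⟨K₅, hK₅0, hK₅1, hK₅⟩ := sw_absorb 2 0 K₃ (by linarith)
  have a1 : 0 ≤ |K₁| := abs_nonneg _
  have a2 : 0 ≤ |K₂| := abs_nonneg _
  have b1 : K₁ ≤ |K₁| := le_abs_self _
  have b2 : K₂ ≤ |K₂| := le_abs_self _
  refine ⟨|K₁| + |K₂| + K₃ + K₄ + K₅ + 10, by linarith, ?_⟩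
  intro Q X hreg S hSQ hS0 hS
  have hKpos : 0 ≤ |K₁| + |K₂| + K₃ + K₄ + K₅ + 10 := by linarith
  have r1 : Reg K₁ Q X := hreg.mono hKpos (by linarith)
  have r2 : Reg K₂ Q X := hreg.mono hKpos (by linarith)
  have r3 : Reg K₃ Q X := hreg.mono hKpos (by linarith)
  have r4 : Reg K₄ Q X := hreg.mono hKpos (by linarith)
  have r6 : Reg K₅ Q X := hreg.mono hKpos (by linarith)
  have r5 : Reg 10 Q X := hreg.mono hKpos (by linarith)
  set L : ℝ := Real.log X with hL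
  have hL10 : 10 ≤ L := by
    have h1 := r5.logX_ge (by norm_num)
    have := Real.add_one_le_exp (10 : ℝ)
    linarith
  have hL0 : 0 < L := by linarith
  have hQ10 : (10 : ℝ) ≤ Q := r5.Q_ge (by norm_num)
  have hQ0 : (0 : ℝ) < Q := by linarith
  have hQ1 : 1 ≤ Q := r5.Q_pos (by norm_num)
  obtain ⟨α, hα, hdec⟩ := hK₁ Q X r1
  set T₁ : ℝ := (Q : ℝ) ^ 7 with hT₁
  have hT₁0 : 0 < T₁ := by positivity
  set D : ℝ := 2 * (L ^ (7 : ℝ) * (Q : ℝ) ^ (-11 : ℝ)) with hD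
  have hD0 : 0 ≤ D := by positivity
  have key : ∀ p ∈ S, ∫ t in (-T₁)..T₁, ‖FL X p t‖ ≤
      (∫ t in (-T₁)..T₁, ‖FF X (fun m => (hmain Q X m : ℂ) * p.2 (m : ZMod p.1)) t‖) +
        2 * T₁ * D := by
    intro p hpS
    have hp : p ∈ PC Q := hSQ hpS
    have hp0 : p ≠ p0 := fun h => hS0 (h ▸ hpS)
    have hp1 : 1 ≤ p.1 := (mem_PC.mp hp).1
    have hcF : Continuous (fun t => ‖FF X (fun m => (hmain Q X m : ℂ) * p.2 (m : ZMod p.1)) t‖) :=
      (main_cont_FF X _).norm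
    have hcL : Continuous (fun t => ‖FL X p t‖) := (main_cont_FF X _).norm
    have h1 : ∫ t in (-T₁)..T₁, ‖FL X p t‖ ≤ ∫ t in (-T₁)..T₁,
        (‖FF X (fun m => (hmain Q X m : ℂ) * p.2 (m : ZMod p.1)) t‖ + D) := by
      refine intervalIntegral.integral_mono_on (by linarith) (hcL.intervalIntegrable _ _)
        ((hcF.add continuous_const).intervalIntegrable _ _) fun t ht => ?_
      have ht' : |t| ≤ T₁ := abs_le.2 ⟨ht.1, ht.2⟩
      rw [hdec p hp1 t]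
      refine (norm_add_le _ _).trans (add_le_add le_rfl ?_)
      exact d2a_long Q X α _ _ (by positivity) hα p t
        (fun j hj a ha => hK₂ Q X r2 p hp hp0 j hj a ha t ht')
    refine h1.trans ?_
    rw [intervalIntegral.integral_add (hcF.intervalIntegrable _ _)
      (continuous_const.intervalIntegrable _ _), intervalIntegral.integral_const, smul_eq_mul]
    refine le_of_eq ?_
    ring
  refine (Finset.sum_le_sum key).trans ?_
  rw [Finset.sum_add_distrib, Finset.sum_const, nsmul_eq_mul]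
  have hcard : (S.card : ℝ) ≤ (Q : ℝ) ^ 2 := by
    have h1 := (Finset.card_le_card hSQ).trans (card_PC_le Q)
    exact_mod_cast h1
  have hpart1 : ∑ p ∈ S, ∫ t in (-T₁)..T₁,
      ‖FF X (fun m => (hmain Q X m : ℂ) * p.2 (m : ZMod p.1)) t‖ ≤
      sw (|K₁| + |K₂| + K₃ + K₄ + K₅ + 10) Q X / 2 := by
    have h1 := hK₃ Q X r3 S hSQ hS
    have h2 := hK₅ Q X r6
    rw [Real.rpow_zero, mul_one] at h2
    have h3 : sw K₅ Q X ≤ sw (|K₁| + |K₂| + K₃ + K₄ + K₅ + 10) Q X :=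
      sw_mono (by linarith) (by linarith) hQ1
    linarith
  have hpart2 : (S.card : ℝ) * (2 * T₁ * D) ≤
      sw (|K₁| + |K₂| + K₃ + K₄ + K₅ + 10) Q X / 2 := by
    have h2 := hK₄ Q X r4
    have h3 : sw K₄ Q X ≤ sw (|K₁| + |K₂| + K₃ + K₄ + K₅ + 10) Q X :=
      sw_mono (by linarith) (by linarith) hQ1
    have h4 : (S.card : ℝ) * (2 * T₁ * D) ≤ (8 * L ^ (7 : ℝ) * (Q : ℝ) ^ (-2 : ℝ)) / 2 := by
      calc (S.card : ℝ) * (2 * T₁ * D)
          ≤ (Q : ℝ) ^ 2 * (2 * T₁ * D) := by gcongr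
        _ = (8 * L ^ (7 : ℝ) * (Q : ℝ) ^ (-2 : ℝ)) / 2 := by
            rw [hD, hT₁, Real.rpow_neg hQ0.le, Real.rpow_neg hQ0.le]
            have e1 : (Q : ℝ) ^ (11 : ℝ) = (Q : ℝ) ^ 11 := by
              rw [← Real.rpow_natCast]
              norm_num
            have e2 : (Q : ℝ) ^ (2 : ℝ) = (Q : ℝ) ^ 2 := by
              rw [← Real.rpow_natCast]
              norm_num
            rw [e1, e2]
            field_simp
            ring
    linarith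
  linarith

end Pool.Agent.Lib.H68T
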