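import Pool.Agent.Lib.H68X.XDefs
import Pool.Agent.Lib.H68T.PNTE

/-!
# Chunk XPN0: prime number theorem with error `sw`
-/

open Finset

namespace Pool.Agent.Lib.H68T

theorem XPN0_log60 : Real.log 60 ≤ 7 := by
  have e1 : Real.log 60 ≤ Real.log (2 ^ 7) := Real.log_le_log (by norm_num) (by norm_num)
  rw [Real.log_pow] at e1
  have := Real.log_two_lt_d9
  push_cast at e1
  linarith

theorem XPN0_log120 : Real.log 120 ≤ 7 := by
  have e1 : Real.log 120 ≤ Real.log (2 ^ 7) := Real.log_le_log (by norm_num) (by norm_num)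
  rw [Real.log_pow] at e1
  have := Real.log_two_lt_d9
  push_cast at e1
  linarith

/-- the terms of the smoothed sum -/
theorem XPN0_terms {P C L E q T2 T1 u U V : ℝ} (hP : 0 < P) (hC : 0 ≤ C) (hL : 10 ≤ L) (hE : 0 < E)
    (hq : 0 < q) (hu : 0 < u) (h1 : U ≤ u * E) (hT2 : T2⁻¹ ≤ q) (hT1 : T1⁻¹ ≤ q) (hV0 : 0 ≤ V)
    (hV : V ≤ 2 * L) (hqu : 1 ≤ q * u) :
    P * ((C + 1) * L * U + (C + 1) * L * u / T2 + u * V ^ 2 / T1) + 3 ≤
      (2 * P * (C + 1) + 4 * P + 3) * L ^ 2 * (E + q) * u := by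
  have hL0 : 0 < L := by linarith
  have hLL : L ≤ L ^ 2 := le_self_pow₀ (by linarith) two_ne_zero
  have t1 : P * ((C + 1) * L * U) ≤ P * (C + 1) * L ^ 2 * E * u := by
    calc P * ((C + 1) * L * U) ≤ P * ((C + 1) * L * (u * E)) := by gcongr
      _ ≤ P * ((C + 1) * L ^ 2 * (u * E)) := by gcongr
      _ = _ := by ring
  have t2 : P * ((C + 1) * L * u / T2) ≤ P * (C + 1) * L ^ 2 * q * u := by
    rw [div_eq_mul_inv]
    calc P * ((C + 1) * L * u * T2⁻¹) ≤ P * ((C + 1) * L * u * q) := by gcongr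
      _ ≤ P * ((C + 1) * L ^ 2 * u * q) := by gcongr
      _ = _ := by ring
  have t3 : P * (u * V ^ 2 / T1) ≤ 4 * P * L ^ 2 * q * u := by
    have h8 : V ^ 2 ≤ (2 * L) ^ 2 := pow_le_pow_left₀ hV0 hV 2
    rw [div_eq_mul_inv]
    calc P * (u * V ^ 2 * T1⁻¹) ≤ P * (u * V ^ 2 * q) := by gcongr
      _ ≤ P * (u * (2 * L) ^ 2 * q) := by gcongr
      _ = _ := by ring
  have t4 : (3 : ℝ) ≤ 3 * L ^ 2 * q * u := by
    have h4 : 1 ≤ L ^ 2 := one_le_pow₀ (by linarith)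
    have h5 : 1 * 1 ≤ L ^ 2 * (q * u) := mul_le_mul h4 (by linarith) (by norm_num) (by positivity)
    linarith
  have h10 : 0 ≤ (P * (C + 1) * L ^ 2 * (E + q) + 4 * P * L ^ 2 * E + 3 * L ^ 2 * E) * u := by
    positivity
  linarith

/-- `κ` is small -/
theorem XPN0_kappa {M L E e q f u₀ : ℝ} (hM3 : 3 ≤ M) (hL : 10 ≤ L) (he0 : 0 < e)
    (heE : e ^ 2 = E) (hf0 : 0 < f) (hfq : f ^ 2 = q) (hu₀ : 0 < u₀) (hqu : 1 ≤ q * u₀)
    (h1 : 2 * M * L ^ 2 * E ≤ 1) (h2 : 2 * M * L ^ 2 * q ≤ 1) :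
    0 < M * L ^ 2 * (E + q) ∧ M * L ^ 2 * (E + q) ≤ 1 ∧ 1 ≤ M * L ^ 2 * (E + q) * u₀ ∧
      √(M * L ^ 2 * (E + q)) ≤ √M * L * (e + f) := by
  have hM0 : 0 < M := by linarith
  have hL0 : 0 < L := by linarith
  have hE0 : 0 < E := by rw [← heE]; positivity
  have hq0 : 0 < q := by rw [← hfq]; positivity
  refine ⟨by positivity, ?_, ?_, ?_⟩
  · have h4 : M * L ^ 2 * (E + q) = (2 * M * L ^ 2 * E) / 2 + (2 * M * L ^ 2 * q) / 2 := by ring
    rw [h4]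
    linarith
  · have h3 : 1 ≤ M * L ^ 2 :=
      one_le_mul_of_one_le_of_one_le (by linarith) (one_le_pow₀ (by linarith))
    have h4 : 1 * q ≤ M * L ^ 2 * (E + q) :=
      mul_le_mul h3 (by linarith) hq0.le (by positivity)
    rw [one_mul] at h4
    exact hqu.trans (mul_le_mul_of_nonneg_right h4 hu₀.le)
  · rw [Real.sqrt_le_iff]
    refine ⟨by positivity, ?_⟩
    have h3 : √M ^ 2 = M := Real.sq_sqrt hM0.le
    have h4 : (√M * L * (e + f)) ^ 2 = M * L ^ 2 * (e + f) ^ 2 := by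
      rw [mul_pow, mul_pow, h3]
    rw [h4]
    refine mul_le_mul_of_nonneg_left ?_ (by positivity)
    rw [← heE, ← hfq]
    have h5 : (e + f) ^ 2 = e ^ 2 + f ^ 2 + 2 * (e * f) := by ring
    have h6 := mul_pos he0 hf0
    linarith

/-- the lower end `X^(1/5)` -/
theorem XPN0_u0 {X : ℝ} (hX0 : 0 < X) (hy : (2 : ℝ) ≤ X ^ ((1 : ℝ) / 20)) :
    (16 : ℝ) ≤ X ^ ((1 : ℝ) / 5) ∧ X ^ ((1 : ℝ) / 5) ≤ X / 8 ∧
      Real.log (X ^ ((1 : ℝ) / 5)) = Real.log X / 5 := by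
  have hy4 : X ^ ((1 : ℝ) / 5) = (X ^ ((1 : ℝ) / 20)) ^ 4 := by
    rw [← Real.rpow_natCast, ← Real.rpow_mul hX0.le]
    norm_num
  have hy20 : X = (X ^ ((1 : ℝ) / 20)) ^ 20 := by
    rw [← Real.rpow_natCast, ← Real.rpow_mul hX0.le]
    norm_num
  refine ⟨?_, ?_, ?_⟩
  · rw [hy4]
    have := pow_le_pow_left₀ (by norm_num) hy 4
    linarith
  · rw [hy4]
    conv_rhs => rw [hy20]
    generalize X ^ ((1 : ℝ) / 20) = y at hy
    have h1 : (2 : ℝ) ^ 16 ≤ y ^ 16 := pow_le_pow_left₀ (by norm_num) hy 16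
    have h2 : y ^ 20 = y ^ 4 * y ^ 16 := by ring
    have h3 : 0 < y ^ 4 := by positivity
    rw [le_div_iff₀ (by norm_num), h2]
    exact mul_le_mul_of_nonneg_left (by linarith) h3.le
  · rw [Real.log_rpow hX0]
    ring

theorem XPN0_pow {u L lQ c' : ℝ} (hu0 : 0 < u) (hlQ : 0 < lQ) (hc' : 0 < c')
    (hlogu : L / 5 ≤ Real.log u) :
    u ^ (1 - c' / lQ) ≤ u * Real.exp (-(c' / 5 * (L / lQ))) := by
  rw [Real.rpow_sub hu0, Real.rpow_one, div_eq_mul_inv, ← Real.rpow_neg hu0.le]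
  refine mul_le_mul_of_nonneg_left ?_ hu0.le
  rw [Real.rpow_def_of_pos hu0]
  refine Real.exp_le_exp.2 ?_
  have h3 : L / 5 * (c' / lQ) ≤ Real.log u * (c' / lQ) :=
    mul_le_mul_of_nonneg_right hlogu (by positivity)
  have h4 : c' / 5 * (L / lQ) = L / 5 * (c' / lQ) := by ring
  rw [h4]
  linarith

/-- The common part of `pnt_sw` and `exc_sum_sw`: from the smoothed sums (Perron) to the sums. -/
theorem XPN0_core (P C c' : ℝ) (hP : 0 < P) (hC : 0 ≤ C) (hc' : 0 < c') :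
    ∃ K : ℝ, 1 ≤ K ∧ ∀ Q X : ℕ, Reg K Q X →
    (c' / Real.log Q ≤ 1 / 2 ∧ 3 ≤ (X : ℝ) ^ ((1 : ℝ) / 5) ∧
      C * Real.log Q ≤ (C + 1) * Real.log X ∧ 1 ≤ (C + 1) * Real.log X ∧ 0 < Real.log Q ∧
      (1 : ℝ) ≤ Q) ∧
    ∀ b : ℕ → ℂ, (∀ n, 1 ≤ n → ‖b n‖ ≤ 1 + Real.log n) →
    (∀ u : ℝ, (X : ℝ) ^ ((1 : ℝ) / 5) ≤ u → u ≤ 2 * (60 * (X : ℝ)) →
      ‖∑ n ∈ Icc 1 ⌊u⌋₊, b n * (1 - n / u)‖ ≤
        P * ((C + 1) * Real.log X * u ^ (1 - c' / Real.log Q) +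
          (C + 1) * Real.log X * u / ((Q : ℝ) ^ 11) ^ 2 +
          u * (1 + Real.log u) ^ 2 / (Q : ℝ) ^ 11) + 3) →
    ∀ u : ℝ, (X : ℝ) / 8 ≤ u → u ≤ 60 * X → ‖∑ n ∈ Icc 1 ⌊u⌋₊, b n‖ ≤ u * sw K Q X := by
  obtain ⟨M, hM⟩ : ∃ M : ℝ, M = 2 * P * (C + 1) + 4 * P + 3 := ⟨_, rfl⟩
  have hM3 : 3 ≤ M := by
    have : 0 ≤ 2 * P * (C + 1) := by positivity
    rw [hM]
    linarith
  have hM0 : 0 < M := by linarith
  obtain ⟨K₂, hK₂1, hK₂⟩ := reg_exp_le (2 * M) 2 (c' / 5) (by positivity)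
  obtain ⟨K₃, hK₃1, hK₃⟩ := reg_log_le (2 * M) 2 10 (by norm_num)
  obtain ⟨K₆, hK₆1, hK₆⟩ := reg_pow_le 1 10 (1 / 5) (by norm_num)
  obtain ⟨K₇, hK₇1, hK₇⟩ := reg_pow_le 2 0 (1 / 20) (by norm_num)
  obtain ⟨K₈, hK₈1, hK₈⟩ := sw_of_exp (80 * √M) 2 (c' / 10) (by positivity)
  obtain ⟨K₉, hK₉1, hK₉⟩ := sw_of_Q (80 * √M) 2 5 (by norm_num)
  obtain ⟨K, hK⟩ : ∃ K : ℝ, K = K₂ + K₃ + K₆ + K₇ + K₈ + K₉ + 2 * c' + 10 := ⟨_, rfl⟩
  have hK1 : 1 ≤ K := by rw [hK]; linarith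
  refine ⟨K, hK1, ?_⟩
  intro Q X hreg
  have hKpos : 0 ≤ K := by linarith
  have r1 : Reg (2 * c' + 10) Q X := hreg.mono hKpos (by rw [hK]; linarith)
  have r2 : Reg K₂ Q X := hreg.mono hKpos (by rw [hK]; linarith)
  have r3 : Reg K₃ Q X := hreg.mono hKpos (by rw [hK]; linarith)
  have r6 : Reg K₆ Q X := hreg.mono hKpos (by rw [hK]; linarith)
  have r7 : Reg K₇ Q X := hreg.mono hKpos (by rw [hK]; linarith)
  have r8 : Reg K₈ Q X := hreg.mono hKpos (by rw [hK]; linarith)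
  have r9 : Reg K₉ Q X := hreg.mono hKpos (by rw [hK]; linarith)
  have hQ1n : 1 ≤ Q := hreg.Q_pos hK1
  have s8 : sw K₈ Q X ≤ sw K Q X := sw_mono (by linarith) (by rw [hK]; linarith) hQ1n
  have s9 : sw K₉ Q X ≤ sw K Q X := sw_mono (by linarith) (by rw [hK]; linarith) hQ1n
  have hLbig : 10 ≤ Real.log X := by
    have h1 := r1.logX_ge (by linarith)
    have := Real.add_one_le_exp (2 * c' + 10)
    linarith
  have hQ10 : (10 : ℝ) ≤ Q := by
    have := r1.Q_ge (by linarith)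
    linarith
  have hlQbig : 2 * c' + 10 ≤ Real.log Q := r1.logQ_ge (by linarith)
  have hlQ0 : 0 < Real.log Q := by linarith
  have hlQL : Real.log Q ≤ Real.log X := by
    have h1 := r1.logQ_le (by linarith)
    have h2 : 1 * Real.log Q ≤ (2 * c' + 10) * Real.log Q :=
      mul_le_mul_of_nonneg_right (by linarith) hlQ0.le
    linarith
  have hX0 : (0 : ℝ) < X := by exact_mod_cast r1.X_pos (by linarith)
  obtain ⟨hu₀16, hu₀X, hlogu₀⟩ := XPN0_u0 hX0 (by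
    have := hK₇ Q X r7
    rwa [Real.rpow_zero, mul_one] at this)
  have g1 := hK₈ Q X r8
  have g2 := hK₉ Q X r9
  have k2 := hK₂ Q X r2
  have k3 := hK₃ Q X r3
  have k6 := hK₆ Q X r6
  rw [Real.rpow_two] at g1 g2 k2 k3
  rw [one_mul, show ((10 : ℝ)) = ((10 : ℕ) : ℝ) by norm_num, Real.rpow_natCast] at k6
  rw [show ((10 : ℝ)) = ((10 : ℕ) : ℝ) by norm_num, Real.rpow_natCast] at k3
  have hη1 : c' / Real.log Q ≤ 1 / 2 := by
    rw [div_le_iff₀ hlQ0]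
    linarith
  clear hK₂ hK₃ hK₆ hK₇ hK₈ hK₉ r1 r2 r3 r6 r7 r8 r9 hreg
  generalize Real.log (Q : ℝ) = lQ at *
  have hCL : 0 ≤ C * Real.log X := mul_nonneg hC (by linarith)
  have hCQ : C * lQ ≤ C * Real.log X := mul_le_mul_of_nonneg_left hlQL hC
  refine ⟨⟨hη1, by linarith, by linarith, by linarith, hlQ0, by linarith⟩, ?_⟩
  intro b hb hsm
  -- the numbers
  have hQ0 : (0 : ℝ) < Q := by linarith
  obtain ⟨hκ0, hκ1, hκu, hsq⟩ := XPN0_kappa (M := M) (L := Real.log X)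
    (E := Real.exp (-(c' / 5 * (Real.log X / lQ))))
    (e := Real.exp (-(c' / 10 * (Real.log X / lQ)))) (q := ((Q : ℝ) ^ 10)⁻¹)
    (f := (Q : ℝ) ^ (-(5 : ℝ))) (u₀ := (X : ℝ) ^ ((1 : ℝ) / 5)) hM3 hLbig (Real.exp_pos _)
    (by
      rw [← Real.exp_nat_mul]
      congr 1
      push_cast
      ring) (Real.rpow_pos_of_pos hQ0 _)
    (by
      rw [← Real.rpow_natCast, ← Real.rpow_mul hQ0.le, ← Real.rpow_natCast (Q : ℝ) 10,
        ← Real.rpow_neg hQ0.le]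
      norm_num) (by linarith)
    (by
      rw [← div_eq_inv_mul, le_div_iff₀ (by positivity), one_mul]
      exact k6) k2
    (by
      rw [← div_eq_mul_inv, div_le_one (by positivity)]
      exact k3)
  have hqu : 1 ≤ ((Q : ℝ) ^ 10)⁻¹ * (X : ℝ) ^ ((1 : ℝ) / 5) := by
    rw [← div_eq_inv_mul, le_div_iff₀ (by positivity), one_mul]
    exact k6
  have huns := unsmooth b _ ((X : ℝ) ^ ((1 : ℝ) / 5)) (60 * X) hκ0 hκ1 (by linarith) hκu hb
    (fun u hu1 hu2 => by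
      have hu0 : 0 < u := by linarith
      refine (hsm u hu1 hu2).trans ?_
      rw [hM]
      have hlogu : Real.log X / 5 ≤ Real.log u := by
        rw [← hlogu₀]
        exact Real.log_le_log (by linarith) hu1
      have hlogu2 : 1 + Real.log u ≤ 2 * Real.log X := by
        have h2 : Real.log u ≤ Real.log (120 * X) := Real.log_le_log hu0 (by linarith)
        rw [Real.log_mul (by norm_num) hX0.ne'] at h2
        have h3 := XPN0_log120
        linarith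
      have hQ1 : (1 : ℝ) ≤ Q := by linarith
      refine XPN0_terms hP hC hLbig (Real.exp_pos _) (by positivity) hu0
        (XPN0_pow hu0 hlQ0 hc' hlogu) ?_ ?_ (by linarith) hlogu2 ?_
      · rw [← pow_mul]
        exact inv_anti₀ (by positivity) (pow_le_pow_right₀ hQ1 (by norm_num))
      · exact inv_anti₀ (by positivity) (pow_le_pow_right₀ hQ1 (by norm_num))
      · exact hqu.trans (mul_le_mul_of_nonneg_left hu1 (by positivity)))
  intro u hu1 hu2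
  have hu0 : 0 < u := by linarith
  refine (huns u (by linarith) hu2).trans ?_
  have hlogu2 : 1 + Real.log u ≤ 2 * Real.log X := by
    have h2 : Real.log u ≤ Real.log (60 * X) := Real.log_le_log hu0 (by linarith)
    rw [Real.log_mul (by norm_num) hX0.ne'] at h2
    have h3 := XPN0_log60
    linarith
  have hlogu0 : 0 ≤ 1 + Real.log u := by
    have := Real.log_nonneg (show 1 ≤ u by linarith)
    linarith
  generalize Real.exp (-(c' / 10 * (Real.log X / lQ))) = e at *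
  generalize (Q : ℝ) ^ (-(5 : ℝ)) = f at *
  generalize Real.log (X : ℝ) = L at *
  generalize √M = m at *
  have h5 : 0 ≤ m * L * (e + f) := le_trans (Real.sqrt_nonneg _) hsq
  calc 20 * √(M * L ^ 2 * (Real.exp (-(c' / 5 * (L / lQ))) + ((Q : ℝ) ^ 10)⁻¹)) * u *
        (1 + Real.log u) ≤ 20 * (m * L * (e + f)) * u * (2 * L) := by gcongr
    _ = u * ((80 * m * L ^ 2 * e) / 2 + (80 * m * L ^ 2 * f) / 2) := by ring
    _ ≤ u * sw K Q X := by
        refine mul_le_mul_of_nonneg_left ?_ hu0.le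
        linarith

/-- As `pnt_error` (file `H68T/PNTE.lean`), with the full error term: the zero-free region gives
`exp (-c' log X/(2 log Q))` and the truncation at `T = Q^12` gives a negative power of `Q`, up to
constants and powers of `log X`; the square root in `unsmooth` only changes the constants. Use
`sw_of_exp`, `sw_of_Q`, `sw_absorb` instead of `reg_exp_le`, `reg_log_le`. (In `unsmooth` take for
instance `κ' = C log X (exp (-c' log X/(2 log Q)) + Q^(-10))`, which is at most `1`.) -/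
theorem pnt_sw : ∃ K : ℝ, 1 ≤ K ∧ ∀ Q X : ℕ, Reg K Q X → ∀ u : ℝ, (X : ℝ) / 8 ≤ u →
    u ≤ 60 * X → |∑ m ∈ Icc 1 ⌊u⌋₊, (ArithmeticFunction.vonMangoldt m - 1)| ≤
      u * sw K Q X := by
  obtain ⟨c', C, K₁, hc', hC, hinv⟩ := zeta_all
  obtain ⟨P, hP, hper⟩ := perron
  obtain ⟨K₂, hK₂1, hK₂⟩ := XPN0_core P C c' hP hC.le hc'
  refine ⟨|K₁| + K₂, by linarith [abs_nonneg K₁], fun Q X hreg => ?_⟩
  have a1 : 0 ≤ |K₁| := abs_nonneg _
  have b1 : K₁ ≤ |K₁| := le_abs_self _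
  have r2 : Reg K₂ Q X := hreg.mono (by linarith) (by linarith)
  have hQK : K₁ ≤ Q := by
    have := hreg.Q_ge (by linarith)
    linarith
  obtain ⟨⟨hη1, hu3, hCB, hB1, hlQ0, hQ1⟩, hcore⟩ := hK₂ Q X r2
  obtain ⟨g, hg1, hg2, hg3⟩ := hinv Q hQK
  have hsw : sw K₂ Q X ≤ sw (|K₁| + K₂) Q X :=
    sw_mono (by linarith) (by linarith) (hreg.Q_pos (by linarith))
  set η : ℝ := c' / Real.log Q with hη
  have hη0 : 0 < η := by positivity
  set T : ℝ := (Q : ℝ) ^ 11 with hT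
  have hT1 : 1 ≤ T := one_le_pow₀ hQ1
  have hT2 : T ≤ (Q : ℝ) ^ 12 := pow_le_pow_right₀ hQ1 (by norm_num)
  have hmem : ∀ s : ℂ, 1 - η ≤ s.re → s.re ≤ 2 → |s.im| ≤ T → s ∈ Rg c' Q := by
    intro s h1 h2 h3
    exact ⟨h1, h2, h3.trans hT2⟩
  have hf1 : AnalyticOnNhd ℂ g {s | 1 - η ≤ s.re ∧ s.re ≤ 2 ∧ |s.im| ≤ T} := by
    intro s hs
    exact hg1 _ (hmem s hs.1 hs.2.1 hs.2.2)
  have hLam : ∀ n : ℕ, 1 ≤ n → 0 ≤ ArithmeticFunction.vonMangoldt n ∧
      ArithmeticFunction.vonMangoldt n ≤ Real.log n := fun n _ =>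
    ⟨ArithmeticFunction.vonMangoldt_nonneg, ArithmeticFunction.vonMangoldt_le_log⟩
  have hfin := hcore (fun n => ((ArithmeticFunction.vonMangoldt n - 1 : ℝ) : ℂ))
    (fun n hn => by
        obtain ⟨h2, h3⟩ := hLam n hn
        rw [Complex.norm_real, Real.norm_eq_abs, abs_le]
        constructor <;> linarith) (fun u hu1 hu2 => by
    have h1 := hper (fun n => (ArithmeticFunction.vonMangoldt n : ℂ)) g 1 η T
      ((C + 1) * Real.log X) u (by simp) hη0 hη1 hT1 (by linarith) hB1 (fun n hn => by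
        obtain ⟨h2, h3⟩ := hLam n hn
        rw [Complex.norm_real, Real.norm_of_nonneg h2]
        linarith) hf1
      (fun s h1 h2 h3 => (hg3 _ (hmem s h1 h2 h3)).trans hCB)
      (fun s hs => hg2 s hs)
    have hone := PNTE_ces u (by linarith)
    have hsplit : (∑ n ∈ Icc 1 ⌊u⌋₊, ((ArithmeticFunction.vonMangoldt n - 1 : ℝ) : ℂ) *
        (1 - n / u)) =
        (∑ n ∈ Icc 1 ⌊u⌋₊, (ArithmeticFunction.vonMangoldt n : ℂ) * (1 - n / u) -
          1 * (u / 2 - 1 + 1 / (2 * u))) -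
        (∑ n ∈ Icc 1 ⌊u⌋₊, (1 : ℂ) * (1 - n / u) - 1 * (u / 2 - 1 + 1 / (2 * u))) := by
      rw [sub_sub_sub_cancel_right, ← Finset.sum_sub_distrib]
      refine Finset.sum_congr rfl fun n _ => ?_
      push_cast
      ring
    rw [hsplit]
    exact (norm_sub_le _ _).trans (add_le_add h1 hone))
  intro u hu1 hu2
  have h1 := hfin u hu1 hu2
  have h2 : (∑ n ∈ Icc 1 ⌊u⌋₊, ((ArithmeticFunction.vonMangoldt n - 1 : ℝ) : ℂ)) =
      ((∑ n ∈ Icc 1 ⌊u⌋₊, (ArithmeticFunction.vonMangoldt n - 1) : ℝ) : ℂ) := by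
    push_cast
    rfl
  rw [h2, Complex.norm_real, Real.norm_eq_abs] at h1
  have hu0 : 0 ≤ u := le_trans (by positivity) hu1
  exact h1.trans (mul_le_mul_of_nonneg_left hsw hu0)

/-- Partial summation, general form. -/
theorem XPN0_abel : ∃ D : ℝ, 1 ≤ D ∧ ∀ X : ℕ, 1000 ≤ Real.log X → ∀ (t δ : ℝ) (b : ℕ → ℂ), 0 ≤ δ →
    (∀ m : ℕ, (X : ℝ) / 8 ≤ m → (m : ℝ) ≤ 60 * X → ‖∑ k ∈ Icc 1 m, b k‖ ≤ m * δ) →
    ‖∑ m ∈ Icc 1 (60 * X), b m * PNTE_phi X t m‖ ≤ (1 + |t|) * (D * Real.log X * δ) := by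
  obtain ⟨D, hD0, hD⟩ := PNTE_w_lip
  refine ⟨2 * (D + 1), by linarith, fun X hX t δ b hδ0 hb => ?_⟩
  set L : ℝ := Real.log X with hL
  have hX0 : (0 : ℝ) < X := by
    rcases Nat.eq_zero_or_pos X with h | h
    · rw [hL, h] at hX
      simp at hX
      linarith
    · exact_mod_cast h
  have hX1 : 1 ≤ X := by exact_mod_cast hX0
  have hX1000 : (1000 : ℝ) ≤ X := by
    have := Real.log_le_sub_one_of_pos hX0
    linarith
  have hL0 : 0 < L := by linarith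
  rw [PNTE_abel]
  have hlast : PNTE_phi X t (60 * X + 1) = 0 := by
    unfold PNTE_phi
    rw [MAINI_v_zero hX1 (by omega)]
    simp
  rw [hlast, mul_zero, zero_add]
  have hterm : ∀ m ∈ Icc 1 (60 * X), ‖(∑ k ∈ Icc 1 m, b k) *
      (PNTE_phi X t m - PNTE_phi X t (m + 1))‖ ≤ δ * ((D + 1) * (1 + |t|)) * (m : ℝ)⁻¹ := by
    intro m hm
    obtain ⟨hm1, hm2⟩ := mem_Icc.mp hm
    have hm0 : (0 : ℝ) < m := by exact_mod_cast hm1
    have ht : 0 ≤ |t| := abs_nonneg t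
    by_cases hcase : (m : ℝ) < X / 8
    · have h1 : PNTE_phi X t m = 0 := by
        unfold PNTE_phi
        rw [PNTE_v_zero hX1000 hm1 (by linarith)]
        simp
      have h2 : PNTE_phi X t (m + 1) = 0 := by
        unfold PNTE_phi
        rw [PNTE_v_zero hX1000 (by omega) (by push_cast; linarith)]
        simp
      rw [h1, h2, sub_zero, mul_zero, norm_zero]
      positivity
    · push Not at hcase
      have hm2' : (m : ℝ) ≤ 60 * X := by exact_mod_cast hm2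
      have h2 := hb m hcase hm2'
      rw [norm_mul]
      calc ‖∑ k ∈ Icc 1 m, b k‖ * ‖PNTE_phi X t m - PNTE_phi X t (m + 1)‖
          ≤ (m * δ) * ((D + 1) * (1 + |t|) * ((m : ℝ) ^ 2)⁻¹) :=
            mul_le_mul h2 (PNTE_phi_diff hD0 hD hX1 t m hm1) (norm_nonneg _) (by positivity)
        _ = δ * ((D + 1) * (1 + |t|)) * (m * ((m : ℝ) ^ 2)⁻¹) := by ring
        _ = δ * ((D + 1) * (1 + |t|)) * (m : ℝ)⁻¹ := by
            congr 1
            field_simp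
  refine (norm_sum_le _ _).trans ((Finset.sum_le_sum hterm).trans ?_)
  rw [← Finset.mul_sum]
  have hharm := MAINI_harm (60 * X)
  have hlog : Real.log ((60 * X : ℕ) : ℝ) ≤ 7 + L := by
    push_cast
    rw [Real.log_mul (by norm_num) hX0.ne', ← hL]
    have h3 := XPN0_log60
    linarith
  have ht : 0 ≤ |t| := abs_nonneg t
  calc δ * ((D + 1) * (1 + |t|)) * ∑ m ∈ Icc 1 (60 * X), (m : ℝ)⁻¹
      ≤ δ * ((D + 1) * (1 + |t|)) * (2 * L) := by
        refine mul_le_mul_of_nonneg_left ?_ (by positivity)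
        linarith
    _ = (1 + |t|) * (2 * (D + 1) * L * δ) := by ring

/-- As `FL_sub_F0_le`, by partial summation from `pnt_sw`. -/
theorem FL0_sw : ∃ K : ℝ, 1 ≤ K ∧ ∀ Q X : ℕ, Reg K Q X → ∀ t : ℝ,
    ‖FL X p0 t - F0 X t‖ ≤ (1 + |t|) * sw K Q X := by
  obtain ⟨D, hD1, hD⟩ := XPN0_abel
  obtain ⟨K₁, hK₁1, hK₁⟩ := pnt_sw
  obtain ⟨K₂, hK₂1, hK₂2, hK₂⟩ := sw_absorb D 1 K₁ (by linarith)
  refine ⟨K₂ + 1000, by linarith, fun Q X hreg t => ?_⟩
  have r1 : Reg K₁ Q X := hreg.mono (by linarith) (by linarith)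
  have r2 : Reg K₂ Q X := hreg.mono (by linarith) (by linarith)
  have hL : 1000 ≤ Real.log X := by
    have h1 := hreg.logX_ge (by linarith)
    have := Real.add_one_le_exp (K₂ + 1000)
    linarith
  have hdiff : FL X p0 t - F0 X t = ∑ m ∈ Icc 1 (60 * X),
      ((ArithmeticFunction.vonMangoldt m - 1 : ℝ) : ℂ) * PNTE_phi X t m := by
    unfold FL F0 FF
    rw [← Finset.sum_sub_distrib]
    refine Finset.sum_congr rfl fun m _ => ?_
    have h1 : p0.2 (m : ZMod p0.1) = 1 := by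
      show (1 : DirichletCharacter ℂ 1) (m : ZMod 1) = 1
      rw [Subsingleton.elim (m : ZMod 1) 1, map_one]
    unfold PNTE_phi
    simp only [h1]
    push_cast
    ring
  rw [hdiff]
  have hQ := hreg.Q_pos (by linarith)
  refine (hD X hL t (sw K₁ Q X) _ (sw_pos _ _ _ hQ).le fun m hm1 hm2 => ?_).trans ?_
  · have h1 := hK₁ Q X r1 m hm1 hm2
    rw [Nat.floor_natCast] at h1
    have h3 : (∑ k ∈ Icc 1 m, ((ArithmeticFunction.vonMangoldt k - 1 : ℝ) : ℂ)) =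
        ((∑ k ∈ Icc 1 m, (ArithmeticFunction.vonMangoldt k - 1) : ℝ) : ℂ) := by
      push_cast
      rfl
    rw [h3, Complex.norm_real, Real.norm_eq_abs]
    exact h1
  · refine mul_le_mul_of_nonneg_left ?_ (by positivity)
    have h1 := hK₂ Q X r2
    rw [Real.rpow_one] at h1
    exact h1.trans (sw_mono (by linarith) (by linarith) hQ)

end Pool.Agent.Lib.H68T
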