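import Pool.Agent.Lib.H68X.XDefs
import Pool.Agent.Lib.H68X.XMAIN
import Pool.Agent.Lib.H68X.XPN0
import Pool.Agent.Lib.H68T.D2

/-!
# Chunk XD2B: the trivial character
-/

open Finset MeasureTheory

namespace Pool.Agent.Lib.H68T

/-- `sw K₁ ≤ 1` in the regime `Reg (K₁ + 2)` -/
theorem XD2B_sw_le_one {K₁ : ℝ} (hK₁ : 1 ≤ K₁) {Q X : ℕ} (h : Reg K₁ Q X) : sw K₁ Q X ≤ 1 := by
  have hll : 1 ≤ Real.log (Real.log X) := hK₁.trans h.1
  have hlQ : 1 ≤ Real.log Q := hK₁.trans (h.logQ_ge hK₁)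
  have hQ : (0:ℝ) < Q := by exact_mod_cast h.Q_pos hK₁
  have hK0 : 0 < K₁ := by linarith
  have h1 : 1 ≤ Real.log X / (K₁ * Real.log Q) := by
    rw [le_div_iff₀ (by positivity), one_mul]
    have h2 := h.2.2
    have h3 : K₁ * Real.log Q ≤ K₁ * (Real.log Q * Real.log (Real.log X)) := by
      apply mul_le_mul_of_nonneg_left _ hK0.le
      nlinarith
    linarith
  have he : Real.exp (-1 : ℝ) ≤ 1 / 2 := by
    have := Real.exp_neg_one_lt_d9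
    linarith
  have e1 : Real.exp (-(Real.log X / (K₁ * Real.log Q))) ≤ 1 / 2 :=
    (Real.exp_le_exp.2 (by linarith)).trans he
  have e2 : (Q : ℝ) ^ (-(1 / K₁)) ≤ 1 / 2 := by
    rw [Real.rpow_def_of_pos hQ]
    refine (Real.exp_le_exp.2 ?_).trans he
    have h4 : K₁ ≤ Real.log Q := h.logQ_ge hK₁
    have h5 : 1 ≤ Real.log Q * (1 / K₁) := by
      rw [mul_one_div, le_div_iff₀ hK0, one_mul]
      exact h4
    linarith
  unfold sw
  linarith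

/-- The kernel bound: high frequencies by `B/t²`, low frequencies by `(1 + |t|) s`, with
`T₀ = s^(-1/3)`. -/
theorem XD2B_kernel {s B T₀ t b : ℝ} (hs : 0 < s) (hB : 0 ≤ B) (hT₀ : 1 ≤ T₀)
    (hlo : |t| ≤ T₀ → b ≤ (1 + |t|) * s) (hhi : T₀ < |t| → b ≤ B / t ^ 2) :
    b ≤ (2 * (1 + T₀) * s + 2 * B / T₀ ^ 2) * (1 + (t / T₀) ^ 2)⁻¹ := by
  have hT₀0 : 0 < T₀ := by linarith
  have hkt : 0 < 1 + (t / T₀) ^ 2 := by positivity
  rcases le_or_gt |t| T₀ with hcase | hcase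
  · have h1 := hlo hcase
    have hk2 : (1 : ℝ) / 2 ≤ (1 + (t / T₀) ^ 2)⁻¹ := by
      rw [one_div]
      refine inv_anti₀ hkt ?_
      have : (t / T₀) ^ 2 ≤ 1 := by
        rw [← sq_abs, abs_div, abs_of_pos hT₀0]
        have : |t| / T₀ ≤ 1 := by rw [div_le_one hT₀0]; exact hcase
        exact pow_le_one₀ (by positivity) this
      linarith
    have h2 : (1 + |t|) * s ≤ (1 + T₀) * s := by gcongr
    calc b ≤ (1 + T₀) * s := h1.trans h2
      _ = (2 * (1 + T₀) * s) * (1 / 2) := by ring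
      _ ≤ (2 * (1 + T₀) * s + 2 * B / T₀ ^ 2) * (1 + (t / T₀) ^ 2)⁻¹ := by
          refine mul_le_mul ?_ hk2 (by norm_num) (by positivity)
          have : 0 ≤ 2 * B / T₀ ^ 2 := by positivity
          linarith
  · have ht0 : 0 < t ^ 2 := by
      have : t ≠ 0 := by
        intro h0
        rw [h0, abs_zero] at hcase
        linarith
      positivity
    have h7 : 1 / t ^ 2 ≤ 2 / T₀ ^ 2 * (1 + (t / T₀) ^ 2)⁻¹ := by
      have e : 2 / T₀ ^ 2 * (1 + (t / T₀) ^ 2)⁻¹ = 2 / (T₀ ^ 2 + t ^ 2) := by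
        field_simp
      rw [e, div_le_div_iff₀ ht0 (by positivity)]
      have : T₀ ^ 2 ≤ t ^ 2 := by
        rw [← sq_abs t]
        exact pow_le_pow_left₀ hT₀0.le hcase.le 2
      linarith
    calc b ≤ B / t ^ 2 := hhi hcase
      _ = B * (1 / t ^ 2) := by ring
      _ ≤ B * (2 / T₀ ^ 2 * (1 + (t / T₀) ^ 2)⁻¹) := mul_le_mul_of_nonneg_left h7 hB
      _ = (2 * B / T₀ ^ 2) * (1 + (t / T₀) ^ 2)⁻¹ := by ring
      _ ≤ _ := by
          refine mul_le_mul_of_nonneg_right ?_ (by positivity)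
          have : 0 ≤ 2 * (1 + T₀) * s := by positivity
          linarith

/-- `D π T₀` for `T₀ = s^(-1/3)` -/
theorem XD2B_int {s B : ℝ} (hs : 0 < s) (hs1 : s ≤ 1) (hB : 0 ≤ B) :
    (2 * (1 + s ^ (-(1 / 3) : ℝ)) * s + 2 * B / (s ^ (-(1 / 3) : ℝ)) ^ 2) *
      (Real.pi * s ^ (-(1 / 3) : ℝ)) ≤ Real.pi * (4 + 2 * B) * s ^ (1 / 3 : ℝ) := by
  have hpi := Real.pi_pos
  obtain ⟨r, hr⟩ : ∃ r : ℝ, r = s ^ (1 / 3 : ℝ) := ⟨_, rfl⟩
  have hr0 : 0 < r := by rw [hr]; positivity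
  have hr1 : r ≤ 1 := by rw [hr]; exact Real.rpow_le_one hs.le hs1 (by norm_num)
  have hrs : s = r ^ 3 := by
    rw [hr, ← Real.rpow_natCast, ← Real.rpow_mul hs.le]
    norm_num
  have hri : s ^ (-(1 / 3) : ℝ) = r⁻¹ := by rw [hr, Real.rpow_neg hs.le]
  rw [hri, ← hr, hrs]
  have e : (2 * (1 + r⁻¹) * r ^ 3 + 2 * B / r⁻¹ ^ 2) * (Real.pi * r⁻¹) =
      Real.pi * (2 * (r + 1) + 2 * B) * r := by
    field_simp
  rw [e]
  have : 2 * (r + 1) ≤ 4 := by linarith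
  gcongr

/-- As `L1_trivial` (file `H68T/D2B.lean`), without any hypothesis on real zeros (`inv_zeta` for `p0`,
`main_L1_of_inv` for `S = {p0}`), with `T₁ = (sw K₁ Q X)^(-1/3)`, `K₁` the constant of `FL0_sw`
(`1 ≤ T₁ ≤ Q^7` for `Reg K Q X`): the low frequencies contribute at most
`2 T₁ (1 + T₁) sw K₁ ≤ 4 (sw K₁)^(1/3)`, the long parts at most
`C (log X)^8/T₁ + (log X)^8 Q^(-4)`, the main part `sw`. Use `sw_rpow`, `sw_absorb`, `sw_of_Q`. -/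
theorem L1_trivial_sw : ∃ K : ℝ, 1 ≤ K ∧ ∀ Q X : ℕ, Reg K Q X →
    ∫ t in (-(Q : ℝ) ^ 7)..((Q : ℝ) ^ 7), ‖FL X p0 t - F0 X t‖ ≤ sw K Q X := by
  obtain ⟨Kd, hKd⟩ := decomposition
  obtain ⟨C, Kl, hC, hKl⟩ := long_triv
  obtain ⟨c', C', Kz, hc', hC', hz⟩ := inv_zeta
  obtain ⟨Km, hKm1, hKm⟩ := main_L1_of_inv c' C' hc'
  obtain ⟨Kf, hKf1, hKf⟩ := FL0_sw
  obtain ⟨Kq, hKq1, hKq⟩ := sw_of_Q 6 7 4 (by norm_num)
  have hpi := Real.pi_pos
  have hKf3 : 0 < Kf / (1 / 3) := by positivity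
  obtain ⟨Ke, hKe0, hKe1, hKe⟩ := sw_absorb (Real.pi * (4 + 6 * C)) 8 (Kf / (1 / 3)) hKf3
  obtain ⟨M, hM⟩ : ∃ M : ℝ, M = Km + Kq + Ke := ⟨_, rfl⟩
  have hM0 : 0 < M := by rw [hM]; linarith
  obtain ⟨Kg, hKg0, hKg1, hKg⟩ := sw_absorb 3 0 M hM0
  refine ⟨Kg + |Kd| + |Kl| + |Kz| + Km + Kf + Kq + Ke + 30, by
    have := abs_nonneg Kd; have := abs_nonneg Kl; have := abs_nonneg Kz; linarith, ?_⟩
  intro Q X hreg
  have a1 : 0 ≤ |Kd| := abs_nonneg _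
  have a2 : 0 ≤ |Kl| := abs_nonneg _
  have a3 : 0 ≤ |Kz| := abs_nonneg _
  have b1 : Kd ≤ |Kd| := le_abs_self _
  have b2 : Kl ≤ |Kl| := le_abs_self _
  have b3 : Kz ≤ |Kz| := le_abs_self _
  have hKpos : 0 ≤ Kg + |Kd| + |Kl| + |Kz| + Km + Kf + Kq + Ke + 30 := by linarith
  have r1 : Reg Kd Q X := hreg.mono hKpos (by linarith)
  have r2 : Reg Kl Q X := hreg.mono hKpos (by linarith)
  have r3 : Reg Km Q X := hreg.mono hKpos (by linarith)
  have r4 : Reg Kf Q X := hreg.mono hKpos (by linarith)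
  have r5 : Reg Kq Q X := hreg.mono hKpos (by linarith)
  have r6 : Reg Ke Q X := hreg.mono hKpos (by linarith)
  have r7 : Reg 30 Q X := hreg.mono hKpos (by linarith)
  have r8 : Reg Kg Q X := hreg.mono hKpos (by linarith)
  have r9 : Reg (|Kz| + 1) Q X := hreg.mono hKpos (by linarith)
  set L : ℝ := Real.log X with hL
  have hL1 : 1 ≤ L := r7.logX_ge_one (by norm_num)
  have hL0 : 0 < L := by linarith
  have hQ10 : (30 : ℝ) ≤ Q := r7.Q_ge (by norm_num)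
  have hQ0 : (0 : ℝ) < Q := by linarith
  have hQ1 : 1 ≤ Q := r7.Q_pos (by norm_num)
  have hQ2 : 2 ≤ Q := by
    have : (2 : ℝ) ≤ Q := by linarith
    exact_mod_cast this
  have hX1 : 1 ≤ X := r7.X_pos (by norm_num)
  have hQX : 20 * Real.log Q + 3 ≤ L := by
    have h1 := r7.logQ_le (by norm_num)
    have h2 := r7.logQ_ge (by norm_num)
    linarith
  have hzQ : Kz ≤ Q := by
    have := r9.Q_ge (by linarith)
    linarith
  obtain ⟨α, hα, hdec⟩ := hKd Q X r1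
  set T₁ : ℝ := (Q : ℝ) ^ 7 with hT₁
  have hT₁0 : 0 < T₁ := by positivity
  obtain ⟨s, hs⟩ : ∃ s : ℝ, s = sw Kf Q X := ⟨_, rfl⟩
  have hs0 : 0 < s := by rw [hs]; exact sw_pos _ _ _ hQ1
  have hs1 : s ≤ 1 := by rw [hs]; exact XD2B_sw_le_one hKf1 r4
  set T₀ : ℝ := s ^ (-(1 / 3) : ℝ) with hT₀
  have hT₀1 : 1 ≤ T₀ := by
    rw [hT₀, Real.rpow_neg hs0.le]
    exact (one_le_inv₀ (by positivity)).2 (Real.rpow_le_one hs0.le hs1 (by norm_num))
  have hT₀0 : 0 < T₀ := by linarith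
  have hp0 : p0 ∈ PC Q := p0_mem hQ1
  have hL7 : 1 ≤ L ^ (7 : ℝ) := Real.one_le_rpow hL1 (by norm_num)
  have hL8 : L ^ (8 : ℝ) = L ^ (7 : ℝ) * L := by
    rw [show (8 : ℝ) = 7 + 1 by norm_num, Real.rpow_add hL0, Real.rpow_one]
  set B : ℝ := 3 * C * L ^ (8 : ℝ) with hB
  have hB0 : 0 ≤ B := by positivity
  set D : ℝ := 2 * (1 + T₀) * s + 2 * B / T₀ ^ 2 with hD
  have hcF : Continuous (fun t => ‖FF X (fun m => (hmain Q X m : ℂ) * p0.2 (m : ZMod p0.1)) t‖) :=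
    (main_cont_FF X _).norm
  have hcL : Continuous (fun t => ‖FL X p0 t - F0 X t‖) :=
    ((main_cont_FF X _).sub (main_cont_FF X _)).norm
  have hck : Continuous (fun t : ℝ => (1 + (t / T₀) ^ 2)⁻¹) := by
    refine Continuous.inv₀ (by fun_prop) fun t => ?_
    positivity
  have key : ∀ t ∈ Set.Icc (-T₁) T₁, ‖FL X p0 t - F0 X t‖ ≤
      ‖FF X (fun m => (hmain Q X m : ℂ) * p0.2 (m : ZMod p0.1)) t‖ +
        3 * L ^ (7 : ℝ) * (Q : ℝ) ^ (-11 : ℝ) + D * (1 + (t / T₀) ^ 2)⁻¹ := by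
    intro t ht
    have ht' : |t| ≤ T₁ := abs_le.2 ⟨ht.1, ht.2⟩
    have hFF0 : 0 ≤ ‖FF X (fun m => (hmain Q X m : ℂ) * p0.2 (m : ZMod p0.1)) t‖ := norm_nonneg _
    have hmid0 : 0 ≤ 3 * L ^ (7 : ℝ) * (Q : ℝ) ^ (-11 : ℝ) := by positivity
    have hk := XD2B_kernel (s := s) (B := B) (T₀ := T₀) (t := t)
      (b := ‖FL X p0 t - F0 X t‖ -
        ‖FF X (fun m => (hmain Q X m : ℂ) * p0.2 (m : ZMod p0.1)) t‖ -
        3 * L ^ (7 : ℝ) * (Q : ℝ) ^ (-11 : ℝ)) hs0 hB0 hT₀1 ?_ ?_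
    · rw [← hD] at hk
      linarith
    · intro _
      have h1 := hKf Q X r4 t
      rw [← hs] at h1
      linarith
    · intro hcase
      have ht1 : 1 ≤ |t| := by linarith
      have ht0 : 0 < t ^ 2 := by
        have : t ≠ 0 := by
          intro h0
          rw [h0] at ht1
          norm_num at ht1
        positivity
      set E : ℝ := C * L / t ^ 2 + (Q : ℝ) ^ (-11 : ℝ) with hE
      have hE0 : 0 ≤ E := by positivity
      have h1 : ‖F0 X t‖ ≤ E := by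
        rw [d2b_F0 Q X hX1 hQ1 hQX t]
        exact hKl Q X r2 0 (by simp) 1 le_rfl t ht1 ht'
      have h2 := d2b_long Q X α _ E hE0 hα p0 t
        (fun j hj a ha => hKl Q X r2 j hj a ha t ht1 ht')
      have h3 : ‖FL X p0 t - F0 X t‖ ≤
          ‖FF X (fun m => (hmain Q X m : ℂ) * p0.2 (m : ZMod p0.1)) t‖ +
            2 * (L ^ (7 : ℝ) * E) + E := by
        refine (norm_sub_le _ _).trans (add_le_add ?_ h1)
        rw [hdec p0 le_rfl t]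
        exact (norm_add_le _ _).trans (add_le_add le_rfl h2)
      have h4 : 2 * (L ^ (7 : ℝ) * E) + E ≤ 3 * L ^ (7 : ℝ) * E := by nlinarith
      have h5 : 3 * L ^ (7 : ℝ) * E = 3 * L ^ (7 : ℝ) * (Q : ℝ) ^ (-11 : ℝ) +
          B / t ^ 2 := by
        rw [hE, hB, hL8]
        ring
      linarith
  have hD0 : 0 ≤ D := by rw [hD]; positivity
  have hstep : ∫ t in (-T₁)..T₁, ‖FL X p0 t - F0 X t‖ ≤
      (∫ t in (-T₁)..T₁, ‖FF X (fun m => (hmain Q X m : ℂ) * p0.2 (m : ZMod p0.1)) t‖) +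
        2 * T₁ * (3 * L ^ (7 : ℝ) * (Q : ℝ) ^ (-11 : ℝ)) + D * (Real.pi * T₀) := by
    have h1 : ∫ t in (-T₁)..T₁, ‖FL X p0 t - F0 X t‖ ≤ ∫ t in (-T₁)..T₁,
        (‖FF X (fun m => (hmain Q X m : ℂ) * p0.2 (m : ZMod p0.1)) t‖ +
        3 * L ^ (7 : ℝ) * (Q : ℝ) ^ (-11 : ℝ) + D * (1 + (t / T₀) ^ 2)⁻¹) :=
      intervalIntegral.integral_mono_on (by linarith) (hcL.intervalIntegrable _ _)
        (((hcF.add continuous_const).add (continuous_const.mul hck)).intervalIntegrable _ _) key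
    refine h1.trans ?_
    have hci1 : Continuous (fun t =>
        ‖FF X (fun m => (hmain Q X m : ℂ) * p0.2 (m : ZMod p0.1)) t‖ +
        3 * L ^ (7 : ℝ) * (Q : ℝ) ^ (-11 : ℝ)) := hcF.add continuous_const
    have hci2 : Continuous (fun t : ℝ => D * (1 + (t / T₀) ^ 2)⁻¹) := continuous_const.mul hck
    have hci3 : Continuous (fun _ : ℝ => 3 * L ^ (7 : ℝ) * (Q : ℝ) ^ (-11 : ℝ)) :=
      continuous_const
    rw [intervalIntegral.integral_add (hci1.intervalIntegrable _ _)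
      (hci2.intervalIntegrable _ _),
      intervalIntegral.integral_add (hcF.intervalIntegrable _ _)
      (hci3.intervalIntegrable _ _), intervalIntegral.integral_const, smul_eq_mul,
      intervalIntegral.integral_const_mul]
    have h2 := mul_le_mul_of_nonneg_left (d2b_kernel T₀ T₁ hT₀0 hT₁0.le) hD0
    have e : (T₁ - -T₁) * (3 * L ^ (7 : ℝ) * (Q : ℝ) ^ (-11 : ℝ)) =
        2 * T₁ * (3 * L ^ (7 : ℝ) * (Q : ℝ) ^ (-11 : ℝ)) := by ring
    rw [e]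
    linarith
  have hKmM : sw Km Q X ≤ sw M Q X := sw_mono (by linarith) (by rw [hM]; linarith) hQ1
  have hKqM : sw Kq Q X ≤ sw M Q X := sw_mono (by linarith) (by rw [hM]; linarith) hQ1
  have hKeM : sw Ke Q X ≤ sw M Q X := sw_mono (by linarith) (by rw [hM]; linarith) hQ1
  have hpart1 : ∫ t in (-T₁)..T₁,
      ‖FF X (fun m => (hmain Q X m : ℂ) * p0.2 (m : ZMod p0.1)) t‖ ≤ sw M Q X := by
    have h1 := hKm Q X r3 {p0} (Finset.singleton_subset_iff.2 hp0) (fun p hp => by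
      rw [Finset.mem_singleton.1 hp]
      exact hz Q hzQ)
    rw [Finset.sum_singleton] at h1
    exact h1.trans hKmM
  have hpart2 : 2 * T₁ * (3 * L ^ (7 : ℝ) * (Q : ℝ) ^ (-11 : ℝ)) ≤ sw M Q X := by
    refine le_trans (le_of_eq ?_) ((hKq Q X r5).trans hKqM)
    have e1 : (Q : ℝ) ^ (-4 : ℝ) = T₁ * (Q : ℝ) ^ (-11 : ℝ) := by
      rw [hT₁, ← Real.rpow_natCast, ← Real.rpow_add hQ0]
      norm_num
    rw [e1]
    ring
  have hpart3 : D * (Real.pi * T₀) ≤ sw M Q X := by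
    refine le_trans ?_ ((hKe Q X r6).trans hKeM)
    have h1 := XD2B_int hs0 hs1 hB0
    rw [← hT₀, ← hD] at h1
    refine h1.trans ?_
    have h2 : s ^ (1 / 3 : ℝ) ≤ sw (Kf / (1 / 3)) Q X := by
      rw [hs]
      exact sw_rpow Kf (1 / 3) (by linarith) (by norm_num) (by norm_num) Q X hQ2
    have h3 : 4 + 2 * B ≤ (4 + 6 * C) * L ^ (8 : ℝ) := by
      have : 1 ≤ L ^ (8 : ℝ) := Real.one_le_rpow hL1 (by norm_num)
      rw [hB]
      nlinarith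
    calc Real.pi * (4 + 2 * B) * s ^ (1 / 3 : ℝ)
        ≤ Real.pi * ((4 + 6 * C) * L ^ (8 : ℝ)) * sw (Kf / (1 / 3)) Q X := by gcongr
      _ = Real.pi * (4 + 6 * C) * L ^ (8 : ℝ) * sw (Kf / (1 / 3)) Q X := by ring
  have hfin := hKg Q X r8
  rw [Real.rpow_zero, mul_one] at hfin
  have hlast : sw Kg Q X ≤ sw (Kg + |Kd| + |Kl| + |Kz| + Km + Kf + Kq + Ke + 30) Q X :=
    sw_mono (by linarith) (by linarith) hQ1
  linarith

end Pool.Agent.Lib.H68T
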