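import Pool.Agent.Lib.H68X.XDefs
import Pool.Agent.Lib.H68X.XMU
import Pool.Agent.Lib.H68T.MS
import Pool.Agent.Lib.H68T.MAINI

/-!
# Chunk XMU1: Möbius polynomials of the exceptional character, high frequencies
-/

open Finset

namespace Pool.Agent.Lib.H68T

/-- As `Mu_small` (file `H68T/MS.lean`) and `Mu_of_inv` (`XMU`), from `InvHigh`, for `4 ≤ |t| ≤ Q^11`: now `T = |t| - 1 ≥ 3|t|/4`, so that
`1 ≤ |Im (s + it)| ≤ 2|t| ≤ Q^12` on the rectangle `|Im s| ≤ T`. `perron` gives for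
`X^(1/5) ≤ u ≤ 2X` the bound `κ u`, `κ = C (log X (exp (-c' log X/(5 log Q))) + (log X)^3/|t|)`.
If `κ ≤ 1`: `unsmooth` (`√κ ≤ ... + C (log X)^(3/2) |t|^(-1/2)`) and partial summation, in total
`C' (log X)^2 √κ ≤ sw + (log X)^4 |t|^(-1/2)` (`log X` is large). If `κ > 1`: the exponential part is
`≤ 1/2`, so `|t| ≤ 2 C (log X)^3` and `(log X)^4 |t|^(-1/2) ≥ (log X)^(5/2)/√(2C)` exceeds the trivial
bound `Mu_le`. -/
theorem Mu_of_high (c' C : ℝ) (hc' : 0 < c') : ∃ K : ℝ, 1 ≤ K ∧ ∀ Q X : ℕ, Reg K Q X →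
    ∀ p : Σ r : ℕ, DirichletCharacter ℂ r, 1 ≤ p.1 → InvHigh c' C Q p →
    ∀ t : ℝ, 4 ≤ |t| → |t| ≤ (Q : ℝ) ^ 11 →
    ‖Mu X p t‖ ≤ sw K Q X + (Real.log X) ^ (4 : ℝ) * |t| ^ (-(1 / 2) : ℝ) := by
  set D : ℝ := |C| + 1 with hD
  have hD1 : 1 ≤ D := by have := abs_nonneg C; linarith
  have hCD : C ≤ D := by have := le_abs_self C; linarith
  obtain ⟨K₁, hK₁1, hcore⟩ := XMU_core
  obtain ⟨P, K₂, hP, hK₂1, hper⟩ := XMU_ces
  obtain ⟨K₃, hK₃1, hK₃⟩ := reg_exp_le (4 * P * D) 1 (c' / 5) (by positivity)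
  obtain ⟨K₆, hK₆1, hK₆⟩ := reg_pow_le 4 1 (1 / 5) (by norm_num)
  set G : ℝ := 4 / 3 * (P * (D + 4)) with hG
  have hG0 : 0 < G := by positivity
  -- error terms
  obtain ⟨S₁, hS₁1, hS₁⟩ := sw_of_exp (80 * Real.sqrt (P * D)) (2 + 1 / 2) (c' / 10) (by positivity)
  obtain ⟨S₃, hS₃1, hS₃⟩ := sw_of_Q 80 2 (1 / 2) (by norm_num)
  obtain ⟨S, hS1, hS2, hS⟩ := sw_absorb 2 0 (S₁ + S₃) (by linarith)
  refine ⟨K₁ + K₂ + K₃ + K₆ + S₁ + S₃ + S + 2 * c' + 80 * Real.sqrt G + 4 * G + 10, by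
    have := Real.sqrt_nonneg G
    linarith, ?_⟩
  intro Q X hreg p hp1 hinv t ht4 ht
  have hsG := Real.sqrt_nonneg G
  have hKpos : 0 ≤ K₁ + K₂ + K₃ + K₆ + S₁ + S₃ + S + 2 * c' + 80 * Real.sqrt G + 4 * G + 10 := by
    linarith
  have r0 : Reg (2 * c' + 80 * Real.sqrt G + 4 * G + 10) Q X := hreg.mono hKpos (by linarith)
  have r1 : Reg K₁ Q X := hreg.mono hKpos (by linarith)
  have r2 : Reg K₂ Q X := hreg.mono hKpos (by linarith)
  have r3 : Reg K₃ Q X := hreg.mono hKpos (by linarith)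
  have r6 : Reg K₆ Q X := hreg.mono hKpos (by linarith)
  have s1 : Reg S₁ Q X := hreg.mono hKpos (by linarith)
  have s3 : Reg S₃ Q X := hreg.mono hKpos (by linarith)
  have s4 : Reg S Q X := hreg.mono hKpos (by linarith)
  set L : ℝ := Real.log X with hL
  have hLbig : 2 * c' + 80 * Real.sqrt G + 4 * G + 10 ≤ L := by
    have h1 := r0.logX_ge (by linarith)
    have := Real.add_one_le_exp (2 * c' + 80 * Real.sqrt G + 4 * G + 10)
    linarith
  have hL10 : 10 ≤ L := by linarith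
  have hL0 : 0 < L := by linarith
  have hL1 : 1 ≤ L := by linarith
  have hQbig : 2 * c' + 80 * Real.sqrt G + 4 * G + 10 ≤ Q := r0.Q_ge (by linarith)
  have hQ10 : (10 : ℝ) ≤ Q := by linarith
  have hQ0 : (0 : ℝ) < Q := by linarith
  have hQ1 : (1 : ℝ) ≤ Q := by linarith
  have hQn : 1 ≤ Q := by exact_mod_cast hQ1
  have hlQbig : 2 * c' + 80 * Real.sqrt G + 4 * G + 10 ≤ Real.log Q := r0.logQ_ge (by linarith)
  have hlQ0 : 0 < Real.log Q := by linarith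
  have hlQL : Real.log Q ≤ L := by
    have h1 := r0.logQ_le (by linarith)
    have h2 : 1 * Real.log Q ≤ (2 * c' + 80 * Real.sqrt G + 4 * G + 10) * Real.log Q :=
      mul_le_mul_of_nonneg_right (by linarith) hlQ0.le
    linarith
  have hX1 : 1 ≤ X := r0.X_pos (by linarith)
  have hX0 : (0 : ℝ) < X := by exact_mod_cast hX1
  obtain ⟨g, hg1, hg2, hg3⟩ := hinv
  have hη1 : c' / Real.log Q ≤ 1 / 2 := by
    rw [div_le_iff₀ hlQ0]
    linarith
  have ht0 : 0 < |t| := by linarith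
  set T : ℝ := |t| - 1 with hT
  have hT1 : 1 ≤ T := by linarith
  have hT0 : 0 < T := by linarith
  have hTt : 3 / 4 * |t| ≤ T := by linarith
  set B : ℝ := D * L with hB
  have hLL : L ≤ L ^ 2 := by
    rw [sq]
    exact le_mul_of_one_le_left hL0.le hL1
  have hB1 : 1 ≤ B := by
    rw [hB]
    exact one_le_mul_of_one_le_of_one_le hD1 hL1
  have hCB : C * Real.log Q ≤ B := by
    rw [hB]
    calc C * Real.log Q ≤ D * Real.log Q := mul_le_mul_of_nonneg_right hCD hlQ0.le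
      _ ≤ D * L := mul_le_mul_of_nonneg_left hlQL (by linarith)
  have hmem : ∀ s : ℂ, 1 - c' / Real.log Q ≤ s.re → s.re ≤ 2 → |s.im| ≤ T →
      s + t * Complex.I ∈ Rg c' Q ∧ 1 ≤ |(s + t * Complex.I).im| := by
    intro s h1 h2 h3
    have e : (s + t * Complex.I).im = s.im + t := by simp
    refine ⟨⟨?_, ?_, ?_⟩, ?_⟩
    · simpa using h1
    · simpa using h2
    · rw [e]
      refine (abs_add_le _ _).trans ?_
      have : (Q : ℝ) ^ 12 = (Q : ℝ) ^ 11 * Q := by ring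
      have h4 : 0 ≤ (Q : ℝ) ^ 11 := by positivity
      have h5 : (Q : ℝ) ^ 11 * 2 ≤ (Q : ℝ) ^ 11 * Q :=
        mul_le_mul_of_nonneg_left (by linarith) h4
      rw [this]
      linarith
    · rw [e]
      have h4 := abs_sub_abs_le_abs_sub t (-s.im)
      rw [abs_neg, sub_neg_eq_add, add_comm t] at h4
      linarith
  have hces := hper Q X r2 p t c' T B (fun s => g (s + t * Complex.I)) hc' hη1 hT1 hB1
    (by
      intro s hs
      have h0 := hmem s hs.1 hs.2.1 hs.2.2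
      have h1 := hg1 _ ⟨h0.1, h0.2⟩
      exact AnalyticAt.fun_comp h1 (by fun_prop))
    (fun s h1 h2 h3 => (hg3 _ (hmem s h1 h2 h3).1 (hmem s h1 h2 h3).2).trans hCB)
    (fun s hs => by
      rw [ms_LSeries]
      have : (1 : ℝ) < (s + t * Complex.I).re := by simpa using hs
      rw [← hg2 _ this])
  set E : ℝ := Real.exp (-(c' / 5 * (L / Real.log Q))) with hE
  have hE0 : 0 < E := Real.exp_pos _
  set κ : ℝ := P * D * L * E + G * L ^ 2 / |t| + 1 / Q with hκ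
  have hκ0 : 0 < κ := by positivity
  have hTT : T ≤ T ^ 2 := by
    rw [sq]
    exact le_mul_of_one_le_left hT0.le hT1
  have hinvT : 1 / T ≤ 4 / 3 / |t| := by
    rw [div_le_div_iff₀ hT0 ht0]
    linarith
  have hκ' : P * (B * E + B / T ^ 2 + 4 * L ^ 2 / T) ≤ κ := by
    have e1 : B / T ^ 2 ≤ D * L ^ 2 * (4 / 3 / |t|) := by
      have : D * L ≤ D * L ^ 2 := mul_le_mul_of_nonneg_left hLL (by linarith)
      calc B / T ^ 2 ≤ D * L ^ 2 / T ^ 2 := by rw [hB]; gcongr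
        _ ≤ D * L ^ 2 / T := by gcongr
        _ = D * L ^ 2 * (1 / T) := by ring
        _ ≤ _ := by gcongr
    have e2 : 4 * L ^ 2 / T ≤ 4 * L ^ 2 * (4 / 3 / |t|) := by
      calc 4 * L ^ 2 / T = 4 * L ^ 2 * (1 / T) := by ring
        _ ≤ _ := by gcongr
    have e3 : 0 ≤ 1 / (Q : ℝ) := by positivity
    calc P * (B * E + B / T ^ 2 + 4 * L ^ 2 / T)
        ≤ P * (B * E + D * L ^ 2 * (4 / 3 / |t|) + 4 * L ^ 2 * (4 / 3 / |t|)) := by gcongr
      _ = P * D * L * E + G * L ^ 2 / |t| := by rw [hB, hG]; ring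
      _ ≤ κ := by rw [hκ]; linarith
  have k1 : 4 * P * D * L * E ≤ 1 := by
    have := hK₃ Q X r3
    rw [Real.rpow_one] at this
    exact this
  have k4 : 1 / (Q : ℝ) ≤ 1 / 10 := by
    apply one_div_le_one_div_of_le (by norm_num) hQ10
  have hL4 : L ^ (4 : ℝ) = L ^ 4 := by
    rw [← Real.rpow_natCast L 4]
    norm_num
  have hti : |t| ^ (-(1 / 2) : ℝ) = (Real.sqrt |t|)⁻¹ := by
    rw [Real.rpow_neg ht0.le, ← Real.sqrt_eq_rpow]
  rw [hL4, hti]
  have hst0 : 0 < Real.sqrt |t| := Real.sqrt_pos.2 ht0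
  rcases le_or_gt κ 1 with hκ1 | hκ1
  · have hκu : 1 ≤ κ * (X : ℝ) ^ ((1 : ℝ) / 5) := by
      have k1 : 4 * (Q : ℝ) ≤ (X : ℝ) ^ ((1 : ℝ) / 5) := by
        have := hK₆ Q X r6
        rw [Real.rpow_one] at this
        exact this
      have k2 : 1 / (Q : ℝ) ≤ κ := by
        rw [hκ]
        have : 0 ≤ P * D * L * E + G * L ^ 2 / |t| := by positivity
        linarith
      calc (1 : ℝ) = 1 / Q * Q := by field_simp
        _ ≤ κ * (X : ℝ) ^ ((1 : ℝ) / 5) := by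
            apply mul_le_mul k2 (by linarith) hQ0.le hκ0.le
    have hmain := hcore Q X r1 p t κ hκ0 hκ1 hκu (fun u hu1 hu2 => by
      refine (hces u hu1 hu2).trans ?_
      have hu0 : 0 ≤ u := le_trans (Real.rpow_nonneg hX0.le _) hu1
      exact mul_le_mul_of_nonneg_right hκ' hu0)
    refine hmain.trans ?_
    have hsq := XMU_sqrt3 (P * D * L * E) (G * L ^ 2 / |t|) (1 / Q) (by positivity)
      (by positivity) (by positivity)
    rw [← hκ] at hsq
    have q1 : Real.sqrt (P * D * L * E) = Real.sqrt (P * D) * L ^ ((1 : ℝ) / 2) *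
        Real.exp (-(c' / 10 * (L / Real.log Q))) := by
      rw [Real.sqrt_mul (by positivity), Real.sqrt_mul (by positivity), Real.sqrt_eq_rpow L, hE,
        ← Real.exp_half]
      congr 2
      ring
    have q2 : Real.sqrt (G * L ^ 2 / |t|) = Real.sqrt G * L * (Real.sqrt |t|)⁻¹ := by
      rw [Real.sqrt_div (by positivity), Real.sqrt_mul (by positivity), Real.sqrt_sq hL0.le,
        div_eq_mul_inv]
    have q3 : Real.sqrt (1 / Q) = (Q : ℝ) ^ (-(1 / 2) : ℝ) := by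
      rw [Real.sqrt_div zero_le_one, Real.sqrt_one, Real.rpow_neg hQ0.le, ← Real.sqrt_eq_rpow,
        one_div]
    rw [q1, q2, q3] at hsq
    have w1 := hS₁ Q X s1
    have w3 := hS₃ Q X s3
    rw [← hL] at w1 w3
    have p1 : L ^ ((2 : ℝ) + 1 / 2) = L ^ 2 * L ^ ((1 : ℝ) / 2) := by
      rw [Real.rpow_add hL0, Real.rpow_two]
    have p3 : L ^ (2 : ℝ) = L ^ 2 := Real.rpow_two L
    rw [p1] at w1
    rw [p3] at w3
    have m1 : sw S₁ Q X ≤ sw (S₁ + S₃) Q X := sw_mono (by linarith) (by linarith) hQn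
    have m3 : sw S₃ Q X ≤ sw (S₁ + S₃) Q X := sw_mono (by linarith) (by linarith) hQn
    have m4 := hS Q X s4
    rw [Real.rpow_zero, mul_one] at m4
    have m5 : sw S Q X ≤
        sw (K₁ + K₂ + K₃ + K₆ + S₁ + S₃ + S + 2 * c' + 80 * Real.sqrt G + 4 * G + 10) Q X :=
      sw_mono (by linarith) (by linarith) hQn
    have m6 : 80 * L ^ 2 * (Real.sqrt G * L * (Real.sqrt |t|)⁻¹) ≤ L ^ 4 * (Real.sqrt |t|)⁻¹ := by
      have e1 : 80 * Real.sqrt G ≤ L := by linarith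
      have e2 : 0 ≤ L ^ 3 * (Real.sqrt |t|)⁻¹ := by positivity
      calc 80 * L ^ 2 * (Real.sqrt G * L * (Real.sqrt |t|)⁻¹) =
          (80 * Real.sqrt G) * (L ^ 3 * (Real.sqrt |t|)⁻¹) := by ring
        _ ≤ L * (L ^ 3 * (Real.sqrt |t|)⁻¹) := mul_le_mul_of_nonneg_right e1 e2
        _ = _ := by ring
    calc 80 * L ^ 2 * Real.sqrt κ ≤ 80 * L ^ 2 * (Real.sqrt (P * D) * L ^ ((1 : ℝ) / 2) *
        Real.exp (-(c' / 10 * (L / Real.log Q))) + Real.sqrt G * L * (Real.sqrt |t|)⁻¹ +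
        (Q : ℝ) ^ (-(1 / 2) : ℝ)) := by gcongr
      _ = 80 * Real.sqrt (P * D) * (L ^ 2 * L ^ ((1 : ℝ) / 2)) *
          Real.exp (-(c' / 10 * (L / Real.log Q))) +
          80 * L ^ 2 * (Real.sqrt G * L * (Real.sqrt |t|)⁻¹) +
          80 * L ^ 2 * (Q : ℝ) ^ (-(1 / 2) : ℝ) := by ring
      _ ≤ 2 * sw (S₁ + S₃) Q X + L ^ 4 * (Real.sqrt |t|)⁻¹ := by linarith
      _ ≤ _ := by linarith
  · -- trivial bound
    have h1 : 1 / 2 ≤ G * L ^ 2 / |t| := by
      rw [hκ] at hκ1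
      linarith
    have h2 : |t| ≤ 2 * G * L ^ 2 := by
      rw [le_div_iff₀ ht0] at h1
      linarith
    have h3 : Real.sqrt |t| ≤ Real.sqrt (2 * G) * L := by
      rw [← Real.sqrt_sq hL0.le, ← Real.sqrt_mul (by positivity)]
      exact Real.sqrt_le_sqrt h2
    have h4 : Real.sqrt (2 * G) ≤ L := by
      rw [Real.sqrt_le_left hL0.le]
      linarith
    have h5 : Real.sqrt |t| ≤ L ^ 2 := by
      calc Real.sqrt |t| ≤ Real.sqrt (2 * G) * L := h3
        _ ≤ L * L := mul_le_mul_of_nonneg_right h4 hL0.le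
        _ = L ^ 2 := by ring
    have h6 := Mu_le X p t hX1
    have h7 : Real.log (60 * X) ≤ 5 + L := by
      rw [Real.log_mul (by norm_num) hX0.ne', ← hL]
      have : Real.log 60 ≤ 5 := by
        rw [Real.log_le_iff_le_exp (by norm_num)]
        have h8 : (2.7 : ℝ) ≤ Real.exp 1 := by
          have := Real.exp_one_gt_d9
          linarith
        have h9 : Real.exp 5 = Real.exp 1 ^ 5 := by
          rw [← Real.exp_nat_mul]
          norm_num
        rw [h9]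
        calc (60 : ℝ) ≤ 2.7 ^ 5 := by norm_num
          _ ≤ Real.exp 1 ^ 5 := pow_le_pow_left₀ (by norm_num) h8 5
      linarith
    have h8 : L ^ 2 ≤ L ^ 4 * (Real.sqrt |t|)⁻¹ := by
      rw [← div_eq_mul_inv, le_div_iff₀ hst0]
      calc L ^ 2 * Real.sqrt |t| ≤ L ^ 2 * L ^ 2 := by gcongr
        _ = L ^ 4 := by ring
    have h9 : 0 < sw (K₁ + K₂ + K₃ + K₆ + S₁ + S₃ + S + 2 * c' + 80 * Real.sqrt G + 4 * G + 10)
        Q X := sw_pos _ Q X hQn
    have h10 : 6 + L ≤ L ^ 2 := by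
      have h11 : 10 * L ≤ L ^ 2 := by
        rw [sq]
        exact mul_le_mul_of_nonneg_right hL10 hL0.le
      linarith
    linarith

end Pool.Agent.Lib.H68T
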