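import Pool.Agent.Lib.H68X.XDefs
import Pool.Agent.Lib.H68X.XMU1
import Pool.Agent.Lib.H68T.MAIN

/-!
# Chunk XMAIN1: the main part of the exceptional character, high frequencies
-/

open Finset MeasureTheory

namespace Pool.Agent.Lib.H68T

/-- the set `|τ| > R` (up to a point) -/
def XMAIN1_U (R : ℝ) : Set ℝ := Set.Ioi R ∪ Set.Iic (-R)

theorem XMAIN1_Um (R : ℝ) : MeasurableSet (XMAIN1_U R) :=
  measurableSet_Ioi.union measurableSet_Iic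

theorem XMAIN1_not {R τ : ℝ} (h : τ ∉ XMAIN1_U R) : |τ| ≤ R := by
  unfold XMAIN1_U at h
  rw [Set.mem_union, not_or] at h
  obtain ⟨ha, hb⟩ := h
  simp only [Set.mem_Ioi, Set.mem_Iic, not_lt, not_le] at ha hb
  exact abs_le.2 ⟨hb.le, ha⟩

theorem XMAIN1_tail {R : ℝ} (hR : 0 < R) :
    ∫ τ, (XMAIN1_U R).indicator (fun τ : ℝ => (1 + τ ^ 2)⁻¹) τ ≤ 2 / R := by
  have hi1 : Integrable (fun τ : ℝ => (1 + τ ^ 2)⁻¹) := integrable_inv_one_add_sq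
  rw [integral_indicator (XMAIN1_Um R)]
  unfold XMAIN1_U
  rw [setIntegral_union ?_ measurableSet_Iic hi1.integrableOn
    hi1.integrableOn, integral_Ioi_inv_one_add_sq, integral_Iic_inv_one_add_sq, Real.arctan_neg]
  · have := main_tail R hR
    have e : 2 / R = 1 / R + 1 / R := by ring
    rw [e]
    linarith
  · rw [Set.disjoint_left]
    intro x hx hx'
    simp only [Set.mem_Ioi, Set.mem_Iic] at hx hx'
    linarith

theorem XMAIN1_intg {M : ℝ → ℝ} (hM : Continuous M) (h0 : ∀ t, 0 ≤ M t) {B : ℝ}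
    (hB : ∀ t, M t ≤ B) (a b : ℝ) :
    Integrable (Function.uncurry fun t τ : ℝ => (1 + τ ^ 2)⁻¹ * M (t + τ) ^ 3)
      ((volume.restrict (Set.Ioc a b)).prod volume) := by
  have e1 : Integrable (fun z : ℝ × ℝ => (1 : ℝ) * (1 + z.2 ^ 2)⁻¹)
      ((volume.restrict (Set.Ioc a b)).prod volume) :=
    (integrable_const (1 : ℝ)).mul_prod integrable_inv_one_add_sq
  have e2 := e1.mul_bdd (g := fun z : ℝ × ℝ => M (z.1 + z.2) ^ 3) (c := B ^ 3)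
    (by fun_prop) (Filter.Eventually.of_forall fun z => by
      rw [Real.norm_of_nonneg (pow_nonneg (h0 _) 3)]
      exact pow_le_pow_left₀ (h0 _) (hB _) 3)
  refine e2.congr (Filter.Eventually.of_forall fun z => ?_)
  simp [Function.uncurry]

/-- moving the window -/
theorem XMAIN1_sq {M : ℝ → ℝ} (hM : Continuous M) (h0 : ∀ t, 0 ≤ M t) {S a b τ T₃ : ℝ}
    (hab : a ≤ b) (hS : ∀ t ∈ Set.Icc a b, M (t + τ) ≤ S) (hS0 : 0 ≤ S) (h3 : -T₃ ≤ a + τ)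
    (h4 : b + τ ≤ T₃) :
    ∫ t in a..b, M (t + τ) ^ 3 ≤ S * ∫ t in (-T₃)..T₃, M t ^ 2 := by
  have h5 : ∫ t in a..b, M (t + τ) ^ 3 ≤ ∫ t in a..b, S * M (t + τ) ^ 2 := by
    refine intervalIntegral.integral_mono_on hab
      (Continuous.intervalIntegrable (by fun_prop) _ _)
      (Continuous.intervalIntegrable (by fun_prop) _ _) fun t ht => ?_
    calc M (t + τ) ^ 3 = M (t + τ) * M (t + τ) ^ 2 := by ring
      _ ≤ S * M (t + τ) ^ 2 := mul_le_mul_of_nonneg_right (hS t ht) (by positivity)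
  refine h5.trans ?_
  rw [intervalIntegral.integral_const_mul]
  refine mul_le_mul_of_nonneg_left ?_ hS0
  rw [intervalIntegral.integral_comp_add_right (fun t => M t ^ 2) τ]
  refine intervalIntegral.integral_mono_interval h3 (by linarith) h4
    (Filter.Eventually.of_forall fun t => ?_)
    (Continuous.intervalIntegrable (by fun_prop) _ _)
  show 0 ≤ M t ^ 2
  positivity

theorem XMAIN1_int (M : ℝ → ℝ) (hM : Continuous M) (h0 : ∀ t, 0 ≤ M t) (B S a b R₁ R₂ T₃ : ℝ)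
    (hab : a ≤ b) (hB : ∀ t, M t ≤ B) (hS : ∀ t ∈ Set.Icc a b, ∀ τ, |τ| ≤ R₁ → M (t + τ) ≤ S)
    (hS0 : 0 ≤ S) (hR₁ : 0 < R₁) (hR : R₁ ≤ R₂) (h3 : -T₃ + R₂ ≤ a) (h4 : b + R₂ ≤ T₃) :
    ∫ t in a..b, ∫ τ : ℝ, (1 + τ ^ 2)⁻¹ * M (t + τ) ^ 3 ≤
      Real.pi * (S * ∫ t in (-T₃)..T₃, M t ^ 2) + 2 / R₁ * (B * ∫ t in (-T₃)..T₃, M t ^ 2) +
        2 / R₂ * ((b - a) * B ^ 3) := by
  have hB0 : 0 ≤ B := (h0 0).trans (hB 0)
  have hR₂ : 0 < R₂ := hR₁.trans_le hR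
  have hint := XMAIN1_intg hM h0 hB a b
  rw [intervalIntegral.integral_of_le hab, integral_integral_swap hint]
  set I : ℝ := ∫ t in (-T₃)..T₃, M t ^ 2 with hI
  have hI0 : 0 ≤ I := intervalIntegral.integral_nonneg (by linarith) fun t _ => by positivity
  have hb : ∀ τ : ℝ, ∫ t in Set.Ioc a b, (1 + τ ^ 2)⁻¹ * M (t + τ) ^ 3 ≤
      (1 + τ ^ 2)⁻¹ * (S * I) +
        (XMAIN1_U R₁).indicator (fun τ : ℝ => (1 + τ ^ 2)⁻¹) τ * (B * I) +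
        (XMAIN1_U R₂).indicator (fun τ : ℝ => (1 + τ ^ 2)⁻¹) τ * ((b - a) * B ^ 3) := by
    intro τ
    have hτ : 0 ≤ (1 + τ ^ 2)⁻¹ := by positivity
    rw [integral_const_mul, ← intervalIntegral.integral_of_le hab]
    have n1 : 0 ≤ (1 + τ ^ 2)⁻¹ * (S * I) := by positivity
    have hind : ∀ R, 0 ≤ (XMAIN1_U R).indicator (fun τ : ℝ => (1 + τ ^ 2)⁻¹) τ := fun R =>
      Set.indicator_nonneg (fun x _ => by positivity) τ
    have n2 := mul_nonneg (hind R₁) (mul_nonneg hB0 hI0)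
    have n3 := mul_nonneg (hind R₂) (mul_nonneg (sub_nonneg.2 hab) (pow_nonneg hB0 3))
    by_cases hτ2 : τ ∈ XMAIN1_U R₂
    · have h5 : ∫ t in a..b, M (t + τ) ^ 3 ≤ ∫ t in a..b, B ^ 3 := by
        refine intervalIntegral.integral_mono_on hab
          (Continuous.intervalIntegrable (by fun_prop) _ _)
          (Continuous.intervalIntegrable (by fun_prop) _ _) fun t _ => ?_
        exact pow_le_pow_left₀ (h0 _) (hB _) 3
      rw [intervalIntegral.integral_const, smul_eq_mul] at h5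
      have h6 := mul_le_mul_of_nonneg_left h5 hτ
      have h7 : (XMAIN1_U R₂).indicator (fun τ : ℝ => (1 + τ ^ 2)⁻¹) τ = (1 + τ ^ 2)⁻¹ :=
        Set.indicator_of_mem hτ2 _
      rw [h7] at n3 ⊢
      linarith
    · have hτ3 := XMAIN1_not hτ2
      obtain ⟨hτ4, hτ5⟩ := abs_le.1 hτ3
      by_cases hτ1 : τ ∈ XMAIN1_U R₁
      · have h5 := XMAIN1_sq hM h0 (S := B) (T₃ := T₃) (τ := τ) hab (fun t _ => hB _) hB0
          (by linarith) (by linarith)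
        have h6 := mul_le_mul_of_nonneg_left h5 hτ
        have h7 : (XMAIN1_U R₁).indicator (fun τ : ℝ => (1 + τ ^ 2)⁻¹) τ = (1 + τ ^ 2)⁻¹ :=
          Set.indicator_of_mem hτ1 _
        rw [h7] at n2 ⊢
        rw [← hI] at h6
        linarith
      · have h5 := XMAIN1_sq hM h0 (S := S) (T₃ := T₃) (τ := τ) hab
          (fun t ht => hS t ht τ (XMAIN1_not hτ1)) hS0 (by linarith) (by linarith)
        have h6 := mul_le_mul_of_nonneg_left h5 hτ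
        rw [← hI] at h6
        linarith
  have hi1 : Integrable (fun τ : ℝ => (1 + τ ^ 2)⁻¹) := integrable_inv_one_add_sq
  have hi2 : ∀ R, Integrable ((XMAIN1_U R).indicator (fun τ : ℝ => (1 + τ ^ 2)⁻¹)) := fun R =>
    hi1.indicator (XMAIN1_Um R)
  have j1 := hi1.mul_const (S * I)
  have j2 := (hi2 R₁).mul_const (B * I)
  have j3 := (hi2 R₂).mul_const ((b - a) * B ^ 3)
  refine (integral_mono hint.integral_prod_right ((j1.add j2).add j3) hb).trans ?_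
  rw [integral_add' (j1.add j2) j3, integral_add' j1 j2, integral_mul_const, integral_mul_const,
    integral_mul_const, integral_univ_inv_one_add_sq]
  refine add_le_add (add_le_add le_rfl ?_) ?_
  · exact mul_le_mul_of_nonneg_right (XMAIN1_tail hR₁) (by positivity)
  · exact mul_le_mul_of_nonneg_right (XMAIN1_tail hR₂)
      (mul_nonneg (sub_nonneg.2 hab) (pow_nonneg hB0 3))

/-- one interval -/
theorem XMAIN1_one {C L : ℝ} {Q X : ℕ} (hC : 0 ≤ C) (hL : 0 < L) (hX : 1 ≤ X)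
    (p : Σ r : ℕ, DirichletCharacter ℂ r)
    (hmain : ∀ t, ‖FF X (fun m => (hmain Q X m : ℂ) * p.2 (m : ZMod p.1)) t‖ ≤
      C * L ^ (4 : ℝ) * ∫ τ : ℝ, (1 + τ ^ 2)⁻¹ * ‖Mu X p (t + τ)‖ ^ 3)
    (hB : ∀ t, ‖Mu X p t‖ ≤ 2 * L) {S a b R₁ R₂ T₃ I₀ : ℝ}
    (hab : a ≤ b) (hS : ∀ t ∈ Set.Icc a b, ∀ τ, |τ| ≤ R₁ → ‖Mu X p (t + τ)‖ ≤ S)
    (hS0 : 0 ≤ S) (hR₁ : 0 < R₁) (hR : R₁ ≤ R₂) (h3 : -T₃ + R₂ ≤ a) (h4 : b + R₂ ≤ T₃)
    (hI : ∫ t in (-T₃)..T₃, ‖Mu X p t‖ ^ 2 ≤ I₀) :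
    ∫ t in a..b, ‖FF X (fun m => (H68T.hmain Q X m : ℂ) * p.2 (m : ZMod p.1)) t‖ ≤
      C * L ^ (4 : ℝ) * (Real.pi * (S * I₀) + 2 / R₁ * (2 * L * I₀) +
        2 / R₂ * ((b - a) * (2 * L) ^ 3)) := by
  have hcont := (continuous_Mu X p).norm
  have hpi := Real.pi_pos
  have hR₂ : 0 < R₂ := hR₁.trans_le hR
  have hMi := XMAIN1_int (fun t => ‖Mu X p t‖) hcont (fun t => norm_nonneg _) (2 * L) S a b R₁ R₂ T₃
    hab hB hS hS0 hR₁ hR h3 h4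
  have hi : IntervalIntegrable (fun t => C * L ^ (4 : ℝ) *
      ∫ τ : ℝ, (1 + τ ^ 2)⁻¹ * ‖Mu X p (t + τ)‖ ^ 3) volume a b := by
    refine IntervalIntegrable.const_mul ?_ _
    rw [intervalIntegrable_iff_integrableOn_Ioc_of_le hab]
    exact (XMAIN1_intg (M := fun t => ‖Mu X p t‖) hcont (fun t => norm_nonneg _) hB a
      b).integral_prod_left
  have hstep : ∫ t in a..b,
      ‖FF X (fun m => (H68T.hmain Q X m : ℂ) * p.2 (m : ZMod p.1)) t‖ ≤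
      ∫ t in a..b, C * L ^ (4 : ℝ) *
        ∫ τ : ℝ, (1 + τ ^ 2)⁻¹ * ‖Mu X p (t + τ)‖ ^ 3 := by
    refine intervalIntegral.integral_mono_on hab
      ((main_cont_FF X _).norm.intervalIntegrable _ _) hi fun t _ => ?_
    exact hmain t
  refine hstep.trans ?_
  rw [intervalIntegral.integral_const_mul]
  refine mul_le_mul_of_nonneg_left (hMi.trans ?_) (by positivity)
  have i1 := mul_le_mul_of_nonneg_left (mul_le_mul_of_nonneg_left hI hS0) hpi.le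
  have i2 := mul_le_mul_of_nonneg_left (mul_le_mul_of_nonneg_left hI
    (by positivity : 0 ≤ 2 * L)) (by positivity : 0 ≤ 2 / R₁)
  linarith

/-- High frequencies `T₁ ≤ |t| ≤ Q^7` (`T₁ ≥ 8`). From `main_integral`,
`∫_{T₁ ≤ |t| ≤ Q^7} ‖FF‖ ≤ C (log X)^4 ∫∫ (1+τ²)^(-1) ‖M(t+τ)‖³ dτ dt`.
Part `|τ| ≤ |t|/2`: then `4 ≤ T₁/2 ≤ |t+τ| ≤ Q^11`, so by `Mu_of_high`
`‖M(t+τ)‖ ≤ sw K₁ + (log X)^4 (T₁/2)^(-1/2)`, and `mean_value` for the remaining `‖M‖²`: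
at most `C (log X)^4 π 100 (log X)^3 (sw K₁ + 2 (log X)^4 T₁^(-1/2))`.
Part `|t|/2 < |τ| ≤ Q^10`: `‖M‖ ≤ 2 log X` (`Mu_le`), `∫_{|τ| > T₁/2} (1+τ²)^(-1) ≤ 4/T₁`, `mean_value`:
at most `C (log X)^4 · 2 log X · 100 (log X)^3 · 4/T₁`. Part `|τ| > Q^10`: as in `main_L1`. -/
theorem main_L1_high (c' C : ℝ) (hc' : 0 < c') : ∃ K : ℝ, 1 ≤ K ∧ ∀ Q X : ℕ, Reg K Q X →
    ∀ p ∈ PC Q, InvHigh c' C Q p → ∀ T₁ : ℝ, 8 ≤ T₁ → T₁ ≤ (Q : ℝ) ^ 7 →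
    (∫ t in T₁..((Q : ℝ) ^ 7),
      ‖FF X (fun m => (hmain Q X m : ℂ) * p.2 (m : ZMod p.1)) t‖) +
    (∫ t in (-(Q : ℝ) ^ 7)..(-T₁),
      ‖FF X (fun m => (hmain Q X m : ℂ) * p.2 (m : ZMod p.1)) t‖) ≤
      sw K Q X + (Real.log X) ^ (15 : ℝ) * T₁ ^ (-(1 / 2) : ℝ) := by
  obtain ⟨C₁, K₁, hC₁, hK₁⟩ := main_integral
  obtain ⟨K₂, hK₂1, hK₂⟩ := Mu_of_high c' C hc'
  obtain ⟨K₃, hK₃⟩ := mean_value
  obtain ⟨K₄, hK₄1, hK₄2, hK₄⟩ := sw_absorb (400 * Real.pi * C₁) 7 K₂ (by linarith)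
  obtain ⟨K₅, hK₅1, hK₅⟩ := sw_of_Q (64 * C₁) 7 3 (by norm_num)
  have hpi := Real.pi_pos
  have a1 : 0 ≤ |K₁| := abs_nonneg _
  have a3 : 0 ≤ |K₃| := abs_nonneg _
  have b1 : K₁ ≤ |K₁| := le_abs_self _
  have b3 : K₃ ≤ |K₃| := le_abs_self _
  have a4 : 0 ≤ 400 * Real.pi * C₁ + 1600 * C₁ := by positivity
  obtain ⟨K, hK⟩ : ∃ K : ℝ, K = |K₁| + K₂ + |K₃| + K₄ + K₅ +
    (400 * Real.pi * C₁ + 1600 * C₁) + 10 := ⟨_, rfl⟩
  have hK1 : 1 ≤ K := by rw [hK]; linarith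
  refine ⟨K, hK1, ?_⟩
  intro Q X hreg p hp hinv T₁ hT₁ hT₁Q
  have hKpos : 0 ≤ K := by linarith
  have r1 : Reg K₁ Q X := hreg.mono hKpos (by rw [hK]; linarith)
  have r2 : Reg K₂ Q X := hreg.mono hKpos (by rw [hK]; linarith)
  have r3 : Reg K₃ Q X := hreg.mono hKpos (by rw [hK]; linarith)
  have r4 : Reg K₄ Q X := hreg.mono hKpos (by rw [hK]; linarith)
  have r5 : Reg K₅ Q X := hreg.mono hKpos (by rw [hK]; linarith)
  have hQn := hreg.Q_pos hK1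
  have s4 : sw K₄ Q X ≤ sw K Q X := sw_mono (by linarith) (by rw [hK]; linarith) hQn
  have s5 : sw K₅ Q X ≤ sw K Q X := sw_mono (by linarith) (by rw [hK]; linarith) hQn
  have hsw2 := (sw_pos K₂ Q X hQn).le
  have hLK : K ≤ Real.log X := by
    have h1 := hreg.logX_ge (by linarith)
    have := Real.add_one_le_exp K
    linarith
  have hQ10 : (10 : ℝ) ≤ Q := by
    have := hreg.Q_ge hK1
    rw [hK] at this
    linarith
  have hQ0 : (0 : ℝ) < Q := by linarith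
  have hX : 1 ≤ X := hreg.X_pos (by linarith)
  have k1 := hK₁ Q X r1 p (mem_PC.mp hp).1
  have k2 := hK₂ Q X r2 p (mem_PC.mp hp).1 hinv
  have k3 := hK₃ Q X r3
  have k4 := hK₄ Q X r4
  have k5 := hK₅ Q X r5
  have hlog : 1 + Real.log (60 * X) ≤ 2 * Real.log X := by
    have hX0 : (X : ℝ) ≠ 0 := by positivity
    rw [Real.log_mul (by norm_num) hX0]
    have : Real.log 60 ≤ 5 := by
      rw [Real.log_le_iff_le_exp (by norm_num)]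
      have h1 : (2.7 : ℝ) ≤ Real.exp 1 := by
        have := Real.exp_one_gt_d9
        linarith
      have h2 : Real.exp 5 = Real.exp 1 ^ 5 := by rw [← Real.exp_nat_mul]; norm_num
      rw [h2]
      have h3 : (2.7 : ℝ) ^ 5 ≤ Real.exp 1 ^ 5 := pow_le_pow_left₀ (by norm_num) h1 5
      have h4 : (60 : ℝ) ≤ 2.7 ^ 5 := by norm_num
      linarith
    rw [hK] at hLK
    linarith
  have hMB : ∀ t, ‖Mu X p t‖ ≤ 2 * Real.log X := fun t => (Mu_le X p t hX).trans hlog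
  have hLbig : 400 * Real.pi * C₁ + 1600 * C₁ + 10 ≤ Real.log X := by
    rw [hK] at hLK
    linarith
  clear hK₁ hK₂ hK₃ hK₄ hK₅ r1 r2 r3 r4 r5 hreg hlog hLK hinv
  obtain ⟨L, hL⟩ : ∃ L : ℝ, L = Real.log X := ⟨_, rfl⟩
  rw [← hL] at k1 k2 k3 k4 k5 hMB hLbig ⊢
  have hL0 : 0 < L := by linarith
  have hI : ∫ t in (-(Q : ℝ) ^ 11)..((Q : ℝ) ^ 11), ‖Mu X p t‖ ^ 2 ≤ 100 * L ^ (3 : ℝ) := by
    refine le_trans ?_ k3
    refine single_le_sum (f := fun p => ∫ t in (-(Q : ℝ) ^ 11)..((Q : ℝ) ^ 11), ‖Mu X p t‖ ^ 2)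
      (fun p _ => ?_) hp
    exact intervalIntegral.integral_nonneg (by linarith [pow_pos hQ0 11]) fun t _ => by positivity
  -- powers of `Q`
  have hQ1 : (1 : ℝ) ≤ Q := by linarith
  have q7 : (Q : ℝ) ^ 7 ≤ (Q : ℝ) ^ 10 := pow_le_pow_right₀ hQ1 (by norm_num)
  have q11 : 10 * (Q : ℝ) ^ 10 ≤ (Q : ℝ) ^ 11 := by
    have : (Q : ℝ) ^ 11 = Q * (Q : ℝ) ^ 10 := by ring
    rw [this]
    exact mul_le_mul_of_nonneg_right hQ10 (by positivity)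
  have q10 : 0 < (Q : ℝ) ^ 10 := by positivity
  set v : ℝ := T₁ ^ (-(1 / 2) : ℝ) with hv
  have hT₁0 : 0 < T₁ := by linarith
  have hv0 : 0 < v := Real.rpow_pos_of_pos hT₁0 _
  have hTv : 1 / T₁ ≤ v := by
    rw [hv, one_div, ← Real.rpow_neg_one]
    exact Real.rpow_le_rpow_of_exponent_le (by linarith) (by norm_num)
  have hT2v : (T₁ / 2) ^ (-(1 / 2) : ℝ) ≤ 2 * v := by
    rw [hv, Real.div_rpow hT₁0.le (by norm_num), div_eq_mul_inv, mul_comm 2]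
    refine mul_le_mul_of_nonneg_left ?_ (by positivity)
    rw [← Real.rpow_neg (by norm_num)]
    calc (2 : ℝ) ^ (-(-(1 / 2)) : ℝ) ≤ (2 : ℝ) ^ (1 : ℝ) :=
          Real.rpow_le_rpow_of_exponent_le (by norm_num) (by norm_num)
      _ = 2 := Real.rpow_one 2
  have hS0 : 0 ≤ sw K₂ Q X + L ^ (4 : ℝ) * (2 * v) := by positivity
  have hbd : ∀ s : ℝ, T₁ / 2 ≤ |s| → |s| ≤ (Q : ℝ) ^ 11 →
      ‖Mu X p s‖ ≤ sw K₂ Q X + L ^ (4 : ℝ) * (2 * v) := by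
    intro s h1 h2
    refine (k2 s (by linarith) h2).trans ?_
    refine add_le_add le_rfl (mul_le_mul_of_nonneg_left ?_ (by positivity))
    refine le_trans ?_ hT2v
    exact Real.rpow_le_rpow_of_nonpos (by linarith) h1 (by norm_num)
  have m1 := XMAIN1_one hC₁.le hL0 hX p k1 hMB (S := sw K₂ Q X + L ^ (4 : ℝ) * (2 * v))
    (a := T₁) (b := (Q : ℝ) ^ 7) (R₁ := T₁ / 2) (R₂ := (Q : ℝ) ^ 10) (T₃ := (Q : ℝ) ^ 11)
    (I₀ := 100 * L ^ (3 : ℝ)) hT₁Q (fun t ht τ hτ => by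
      obtain ⟨h1, h2⟩ := abs_le.1 hτ
      refine hbd _ ?_ ?_
      · rw [abs_of_pos (by linarith [ht.1])]
        linarith [ht.1]
      · rw [abs_of_pos (by linarith [ht.1])]
        linarith [ht.2]) hS0 (by linarith) (by linarith) (by linarith) (by linarith) hI
  have m2 := XMAIN1_one hC₁.le hL0 hX p k1 hMB (S := sw K₂ Q X + L ^ (4 : ℝ) * (2 * v))
    (a := -(Q : ℝ) ^ 7) (b := -T₁) (R₁ := T₁ / 2) (R₂ := (Q : ℝ) ^ 10) (T₃ := (Q : ℝ) ^ 11)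
    (I₀ := 100 * L ^ (3 : ℝ)) (by linarith) (fun t ht τ hτ => by
      obtain ⟨h1, h2⟩ := abs_le.1 hτ
      refine hbd _ ?_ ?_
      · rw [abs_of_neg (by linarith [ht.2])]
        linarith [ht.2]
      · rw [abs_of_neg (by linarith [ht.2])]
        linarith [ht.1]) hS0 (by linarith) (by linarith) (by linarith) (by linarith) hI
  refine (add_le_add m1 m2).trans ?_
  have e4 : L ^ (4 : ℝ) = L ^ 4 := by
    rw [show (4 : ℝ) = ((4 : ℕ) : ℝ) by norm_num, Real.rpow_natCast]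
  have e3 : L ^ (3 : ℝ) = L ^ 3 := by
    rw [show (3 : ℝ) = ((3 : ℕ) : ℝ) by norm_num, Real.rpow_natCast]
  have e7 : L ^ (7 : ℝ) = L ^ 7 := by
    rw [show (7 : ℝ) = ((7 : ℕ) : ℝ) by norm_num, Real.rpow_natCast]
  have e15 : L ^ (15 : ℝ) = L ^ 15 := by
    rw [show (15 : ℝ) = ((15 : ℕ) : ℝ) by norm_num, Real.rpow_natCast]
  have eQ : (Q : ℝ) ^ (-(3 : ℝ)) = ((Q : ℝ) ^ 3)⁻¹ := by
    rw [Real.rpow_neg hQ0.le, show (3 : ℝ) = ((3 : ℕ) : ℝ) by norm_num, Real.rpow_natCast]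
  rw [e7] at k4 k5
  rw [eQ] at k5
  rw [e4, e3, e15]
  generalize sw K₂ Q X = s2 at *
  generalize Real.pi = π at *
  have w : ∀ c d : ℝ, d - c ≤ (Q : ℝ) ^ 7 → 2 / (Q : ℝ) ^ 10 * ((d - c) * (2 * L) ^ 3) ≤
      16 * L ^ 3 * ((Q : ℝ) ^ 3)⁻¹ := by
    intro c d hcd
    calc 2 / (Q : ℝ) ^ 10 * ((d - c) * (2 * L) ^ 3) ≤
          2 / (Q : ℝ) ^ 10 * ((Q : ℝ) ^ 7 * (2 * L) ^ 3) := by gcongr
      _ = 16 * L ^ 3 * ((Q : ℝ) ^ 3)⁻¹ := by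
          field_simp
          ring
  have w1 := w T₁ ((Q : ℝ) ^ 7) (by linarith)
  have w2 := w (-(Q : ℝ) ^ 7) (-T₁) (by linarith)
  have w3 : 2 / (T₁ / 2) * (2 * L * (100 * L ^ 3)) ≤ 800 * L ^ 4 * v := by
    have : 2 / (T₁ / 2) * (2 * L * (100 * L ^ 3)) = 800 * L ^ 4 * (1 / T₁) := by
      field_simp
      ring
    rw [this]
    exact mul_le_mul_of_nonneg_left hTv (by positivity)
  have hL1 : 1 ≤ L := by linarith
  have hfin : C₁ * L ^ 4 * (π * ((s2 + L ^ 4 * (2 * v)) * (100 * L ^ 3)) +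
      2 / (T₁ / 2) * (2 * L * (100 * L ^ 3)) +
      2 / (Q : ℝ) ^ 10 * (((Q : ℝ) ^ 7 - T₁) * (2 * L) ^ 3)) +
      C₁ * L ^ 4 * (π * ((s2 + L ^ 4 * (2 * v)) * (100 * L ^ 3)) +
      2 / (T₁ / 2) * (2 * L * (100 * L ^ 3)) +
      2 / (Q : ℝ) ^ 10 * ((-T₁ - -(Q : ℝ) ^ 7) * (2 * L) ^ 3)) ≤
      C₁ * L ^ 4 * (π * ((s2 + L ^ 4 * (2 * v)) * (100 * L ^ 3)) + 800 * L ^ 4 * v +
        16 * L ^ 3 * ((Q : ℝ) ^ 3)⁻¹) +
      C₁ * L ^ 4 * (π * ((s2 + L ^ 4 * (2 * v)) * (100 * L ^ 3)) + 800 * L ^ 4 * v +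
        16 * L ^ 3 * ((Q : ℝ) ^ 3)⁻¹) := by
    gcongr
  refine hfin.trans ?_
  have g1 : C₁ * L ^ 4 * (π * ((s2 + L ^ 4 * (2 * v)) * (100 * L ^ 3)) + 800 * L ^ 4 * v +
        16 * L ^ 3 * ((Q : ℝ) ^ 3)⁻¹) +
      C₁ * L ^ 4 * (π * ((s2 + L ^ 4 * (2 * v)) * (100 * L ^ 3)) + 800 * L ^ 4 * v +
        16 * L ^ 3 * ((Q : ℝ) ^ 3)⁻¹) =
      (400 * π * C₁ * L ^ 7 * s2) / 2 + (64 * C₁ * L ^ 7 * ((Q : ℝ) ^ 3)⁻¹) / 2 +
        ((400 * π * C₁) * L ^ 3 + 1600 * C₁) * L ^ 8 * v := by ring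
  rw [g1]
  have g2 : ((400 * π * C₁) * L ^ 3 + 1600 * C₁) * L ^ 8 * v ≤ L ^ 15 * v := by
    refine mul_le_mul_of_nonneg_right ?_ hv0.le
    have h1 : (400 * π * C₁) * L ^ 3 + 1600 * C₁ ≤ (400 * π * C₁ + 1600 * C₁) * L ^ 3 := by
      have h2 : 1 ≤ L ^ 3 := one_le_pow₀ hL1
      have h3 : 1600 * C₁ * 1 ≤ 1600 * C₁ * L ^ 3 := mul_le_mul_of_nonneg_left h2 (by positivity)
      linarith
    calc ((400 * π * C₁) * L ^ 3 + 1600 * C₁) * L ^ 8 ≤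
          ((400 * π * C₁ + 1600 * C₁) * L ^ 3) * L ^ 8 :=
          mul_le_mul_of_nonneg_right h1 (by positivity)
      _ ≤ (L * L ^ 3) * L ^ 8 := by
          refine mul_le_mul_of_nonneg_right (mul_le_mul_of_nonneg_right ?_ (by positivity))
            (by positivity)
          linarith
      _ = L ^ 12 := by ring
      _ ≤ L ^ 15 := pow_le_pow_right₀ hL1 (by norm_num)
  linarith

end Pool.Agent.Lib.H68T
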