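import Pool.Agent.Lib.H68T.RegL
import Pool.Agent.Lib.H68T.INVS

/-!
# Project H68X: exceptional zeros included (definitions)

All statements of this project are about the same objects as in `Lib/H68T`; errors are measured
by `sw K Q X = exp (-log X/(K log Q)) + Q^(-1/K)`.
-/

open Finset

namespace Pool.Agent.Lib.H68T

noncomputable section

/-- The error measure. It increases with `K`. -/
def sw (K : ℝ) (Q X : ℕ) : ℝ :=
  Real.exp (-(Real.log X / (K * Real.log Q))) + (Q : ℝ) ^ (-(1 / K))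

/-- `β` is a real zero, close to `1`, of the real primitive character `ψ ≠ 1` of conductor
`r ≤ Q`. -/
def Exc (c : ℝ) (Q r : ℕ) [NeZero r] (ψ : DirichletCharacter ℂ r) (β : ℝ) : Prop :=
  r ≤ Q ∧ ψ.IsPrimitive ∧ ψ ≠ 1 ∧ ψ ^ 2 = 1 ∧ 1 - c / Real.log Q ≤ β ∧ β < 1 ∧
    ψ.LFunction (β : ℂ) = 0

/-- As `InvStmt`, only for `|Im s| ≥ 1`. -/
def InvHigh (c' C : ℝ) (Q : ℕ) (p : Σ r : ℕ, DirichletCharacter ℂ r) : Prop :=
  ∃ g : ℂ → ℂ, AnalyticOnNhd ℂ g (Rg c' Q ∩ {s | 1 ≤ |s.im|}) ∧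
    (∀ s : ℂ, 1 < s.re → g s = LSeries (fun n => (ArithmeticFunction.moebius n : ℂ) *
      p.2 (n : ZMod p.1)) s) ∧ ∀ s ∈ Rg c' Q, 1 ≤ |s.im| → ‖g s‖ ≤ C * Real.log Q

/-- Control of `-L'/L(s,ψ) + 1/(s-β)` in the rectangle. -/
def LogStmt (c' C : ℝ) (Q : ℕ) (p : Σ r : ℕ, DirichletCharacter ℂ r) (β : ℝ) : Prop :=
  ∃ g : ℂ → ℂ, AnalyticOnNhd ℂ g (Rg c' Q) ∧
    (∀ s : ℂ, 1 < s.re → g s = LSeries (fun n => (ArithmeticFunction.vonMangoldt n : ℂ) *
      p.2 (n : ZMod p.1)) s + 1 / (s - β)) ∧ ∀ s ∈ Rg c' Q, ‖g s‖ ≤ C * Real.log Q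

/-- Everything known about L-functions at a level `Q` with the exceptional zero `β` of `ψ`. -/
structure ExcData (c' C : ℝ) (Q r : ℕ) (ψ : DirichletCharacter ℂ r) (β : ℝ) : Prop where
  mem : (⟨r, ψ⟩ : Σ r : ℕ, DirichletCharacter ℂ r) ∈ PC Q
  ne : (⟨r, ψ⟩ : Σ r : ℕ, DirichletCharacter ℂ r) ≠ p0
  sq : ψ ^ 2 = 1
  half : 1 / 2 ≤ β
  lt : β < 1
  log : LogStmt c' C Q ⟨r, ψ⟩ β
  high : InvHigh c' C Q ⟨r, ψ⟩
  inv : ∀ p ∈ PC Q, p ≠ ⟨r, ψ⟩ → InvStmt c' C Q p

/-- `∑ m^(β-1) v(m) m^(-1-it)` -/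
def Fb (X : ℕ) (β t : ℝ) : ℂ := FF X (fun m => (((m : ℝ) ^ (β - 1) : ℝ) : ℂ)) t

/-- The model with exceptional term: `ε = ψ(m) = ±1`. -/
def Mod (Q r : ℕ) (ε β : ℝ) (m : ℤ) : ℝ := G Q m - ε * (m : ℝ) ^ (β - 1) * Gam Q r m

/-- The tail of the singular series at difference `d`. -/
def tl (Q W : ℕ) (d : ℤ) : ℝ :=
  16 * ∑ q ∈ (Icc 1 Q).filter (fun q => Q < q ^ 2 ∧ Nat.Coprime q W ∧ Squarefree q),
    (Nat.totient (Nat.gcd q d.natAbs) : ℝ) / (Nat.totient q : ℝ) ^ 2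

/-- `∑_{w ∣ W, w q ≤ Q} μ²(w)/φ(w)` -/
def TW (Q W q : ℕ) : ℝ :=
  ∑ w ∈ W.divisors.filter (fun w => w * q ≤ Q),
    (ArithmeticFunction.moebius w : ℝ) ^ 2 / (Nat.totient w : ℝ)

/-- `(r/φ(r)) ∑_{w ∣ W, (w,r) = 1, w r q ≤ Q} μ²(w)/φ(w)` -/
def TWr (Q W r q : ℕ) : ℝ :=
  (r : ℝ) / (Nat.totient r : ℝ) *
    ∑ w ∈ W.divisors.filter (fun w => Nat.Coprime w r ∧ w * r * q ≤ Q),
      (ArithmeticFunction.moebius w : ℝ) ^ 2 / (Nat.totient w : ℝ)

/-- The squares and products of the singular part: the moduli `q ≤ Q` coprime to `W`. -/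
def QW (Q W : ℕ) : Finset ℕ := (Icc 1 Q).filter (fun q => Nat.Coprime q W)

/-- At least half of the admissible `k`-sets have a prime translate, for all large `x`, in the
whole range of the problem. -/
def MostHave : Prop :=
  open Classical in
  ∀ δ : ℝ, 0 < δ → δ < 1 → ∃ x₀ : ℝ, ∀ x : ℝ, x₀ ≤ x → ∀ k : ℕ, 1 ≤ k →
    (k : ℝ) ≤ (Real.log x) ^ (1 - δ) →
    2 * (((range (⌊x ^ (1 - δ)⌋₊ + 1)).powersetCard k).filter (fun A => Admissible A ∧
      ¬ HasPrimeTranslate x A)).card ≤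
        (((range (⌊x ^ (1 - δ)⌋₊ + 1)).powersetCard k).filter (fun A => Admissible A)).card

/-- Almost all admissible `k`-sets have a prime translate, for all large `x`, in the
whole range of the problem. -/
def AlmostAllHave : Prop :=
  open Classical in
  ∀ δ : ℝ, 0 < δ → δ < 1 → ∃ x₀ : ℝ, ∀ x : ℝ, x₀ ≤ x → ∀ k : ℕ, 1 ≤ k →
    (k : ℝ) ≤ (Real.log x) ^ (1 - δ) →
    ((((range (⌊x ^ (1 - δ)⌋₊ + 1)).powersetCard k).filter (fun A => Admissible A ∧
      ¬ HasPrimeTranslate x A)).card : ℝ) ≤ (Real.log x) ^ (-(δ / 5)) *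
        ((((range (⌊x ^ (1 - δ)⌋₊ + 1)).powersetCard k).filter
          (fun A => Admissible A)).card : ℝ)

/-- No strong exceptional zeros: for every `ε > 0` and all large `r`, no real primitive character
modulo `r` has a real zero in `[1 - exp (-(log r)^ε), 1]`. -/
def NoSiegel : Prop :=
  ∀ ε : ℝ, 0 < ε → ∃ r₀ : ℕ, ∀ r : ℕ, r₀ ≤ r → ∀ [NeZero r], ∀ ψ : DirichletCharacter ℂ r,
    ψ.IsPrimitive → ψ ≠ 1 → ψ ^ 2 = 1 → ∀ σ : ℝ, 1 - Real.exp (-(Real.log r) ^ ε) ≤ σ → σ ≤ 1 →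
    ψ.LFunction (σ : ℂ) ≠ 0

end

/-! ## Monotonicity -/

theorem Rg_mono {c c' : ℝ} {Q : ℕ} (h : c ≤ c') : Rg c Q ⊆ Rg c' Q := by
  rintro s ⟨h1, h2, h3⟩
  refine ⟨?_, h2, h3⟩
  have : c / Real.log Q ≤ c' / Real.log Q := div_le_div_of_nonneg_right h (by positivity)
  linarith

theorem InvStmt.mono {c c' C C' : ℝ} {Q : ℕ} {p : Σ r : ℕ, DirichletCharacter ℂ r}
    (h : InvStmt c' C Q p) (hc : c ≤ c') (hC : C ≤ C') : InvStmt c C' Q p := by
  obtain ⟨g, h1, h2, h3⟩ := h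
  refine ⟨g, h1.mono (Rg_mono hc), h2, fun s hs => (h3 s (Rg_mono hc hs)).trans ?_⟩
  exact mul_le_mul_of_nonneg_right hC (by positivity)

theorem InvHigh.mono {c c' C C' : ℝ} {Q : ℕ} {p : Σ r : ℕ, DirichletCharacter ℂ r}
    (h : InvHigh c' C Q p) (hc : c ≤ c') (hC : C ≤ C') : InvHigh c C' Q p := by
  obtain ⟨g, h1, h2, h3⟩ := h
  refine ⟨g, h1.mono (Set.inter_subset_inter_left _ (Rg_mono hc)), h2, fun s hs hi =>
    (h3 s (Rg_mono hc hs) hi).trans ?_⟩
  exact mul_le_mul_of_nonneg_right hC (by positivity)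

theorem LogStmt.mono {c c' C C' : ℝ} {Q : ℕ} {p : Σ r : ℕ, DirichletCharacter ℂ r} {β : ℝ}
    (h : LogStmt c' C Q p β) (hc : c ≤ c') (hC : C ≤ C') : LogStmt c C' Q p β := by
  obtain ⟨g, h1, h2, h3⟩ := h
  refine ⟨g, h1.mono (Rg_mono hc), h2, fun s hs => (h3 s (Rg_mono hc hs)).trans ?_⟩
  exact mul_le_mul_of_nonneg_right hC (by positivity)

theorem InvStmt.high {c' C : ℝ} {Q : ℕ} {p : Σ r : ℕ, DirichletCharacter ℂ r}
    (h : InvStmt c' C Q p) : InvHigh c' C Q p := by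
  obtain ⟨g, h1, h2, h3⟩ := h
  exact ⟨g, h1.mono Set.inter_subset_left, h2, fun s hs _ => h3 s hs⟩

theorem Good.mono {c c' : ℝ} {Q : ℕ} (h : Good c' Q) (hc : c ≤ c') : Good c Q := by
  intro r _ ψ hr h1 h2 h3 σ hσ hσ1
  refine h r ψ hr h1 h2 h3 σ (le_trans ?_ hσ) hσ1
  have : c / Real.log Q ≤ c' / Real.log Q := div_le_div_of_nonneg_right hc (by positivity)
  linarith

theorem Exc.mono {c c' : ℝ} {Q r : ℕ} [NeZero r] {ψ : DirichletCharacter ℂ r} {β : ℝ}
    (h : Exc c Q r ψ β) (hc : c ≤ c') : Exc c' Q r ψ β := by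
  obtain ⟨h1, h2, h3, h4, h5, h6, h7⟩ := h
  refine ⟨h1, h2, h3, h4, le_trans ?_ h5, h6, h7⟩
  have : c / Real.log Q ≤ c' / Real.log Q := div_le_div_of_nonneg_right hc (by positivity)
  linarith

/-! ## Calculus of `sw` -/

theorem sw_pos (K : ℝ) (Q X : ℕ) (hQ : 0 < Q) : 0 < sw K Q X := by
  unfold sw
  have : (0:ℝ) < Q := by exact_mod_cast hQ
  positivity

theorem sw_mono {K K' : ℝ} {Q X : ℕ} (hK : 0 < K) (hKK : K ≤ K') (hQ : 1 ≤ Q) :
    sw K Q X ≤ sw K' Q X := by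
  unfold sw
  have hQ1 : (1:ℝ) ≤ Q := by exact_mod_cast hQ
  have hlQ : 0 ≤ Real.log Q := Real.log_nonneg hQ1
  have hlX : 0 ≤ Real.log X := by positivity
  have hK' : 0 < K' := hK.trans_le hKK
  apply add_le_add
  · apply Real.exp_le_exp.mpr
    apply neg_le_neg
    rcases eq_or_lt_of_le hlQ with h0 | h0
    · rw [← h0]; simp
    · exact div_le_div_of_nonneg_left hlX (by positivity) (mul_le_mul_of_nonneg_right hKK hlQ)
  · apply Real.rpow_le_rpow_of_exponent_le hQ1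
    apply neg_le_neg
    exact one_div_le_one_div_of_le hK hKK

/-- Absorb constants and powers of `log X` into `sw`. -/
theorem sw_absorb (C A K₁ : ℝ) (hK₁ : 0 < K₁) : ∃ K : ℝ, K₁ ≤ K ∧ 1 ≤ K ∧ ∀ Q X : ℕ,
    Reg K Q X → C * (Real.log X) ^ A * sw K₁ Q X ≤ sw K Q X := by
  set a := |A| + |C| + 2 with hadef
  have hA := abs_nonneg A
  have hCn := abs_nonneg C
  set K := a * K₁ + 1 with hKdef
  have ha2 : 2 ≤ a := by rw [hadef]; linarith
  have hK1 : 1 ≤ K := by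
    rw [hKdef]
    have : 0 ≤ a * K₁ := by positivity
    linarith
  have hKK : K₁ ≤ K := by rw [hKdef]; nlinarith
  refine ⟨K, hKK, hK1, fun Q X h => ?_⟩
  have hK0 : 0 < K := by linarith
  have hlX := h.logX_pos hK0
  have hll : 1 ≤ Real.log (Real.log X) := hK1.trans h.1
  have hlQ : 1 ≤ Real.log Q := hK1.trans (h.logQ_ge hK1)
  have hQ : (0:ℝ) < Q := by exact_mod_cast h.Q_pos hK1
  rcases le_or_gt C 0 with hC0 | hC0
  · have h1 : C * (Real.log X) ^ A ≤ 0 :=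
      mul_nonpos_of_nonpos_of_nonneg hC0 (Real.rpow_nonneg hlX.le _)
    have h2 := mul_nonpos_of_nonpos_of_nonneg h1 (sw_pos K₁ Q X (h.Q_pos hK1)).le
    exact h2.trans (sw_pos K Q X (h.Q_pos hK1)).le
  have hCA : C * (Real.log X) ^ A ≤ Real.exp ((a - 1) * Real.log (Real.log X)) := by
    have h1 : C ≤ Real.exp ((1 + |C|) * Real.log (Real.log X)) := by
      have : C ≤ Real.exp C := by linarith [Real.add_one_le_exp C]
      refine this.trans (Real.exp_le_exp.mpr ?_)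
      have : C ≤ |C| := le_abs_self C
      nlinarith
    rw [Real.rpow_def_of_pos hlX]
    calc C * Real.exp (Real.log (Real.log X) * A)
        ≤ Real.exp ((1 + |C|) * Real.log (Real.log X)) * Real.exp (Real.log (Real.log X) * A) :=
          mul_le_mul_of_nonneg_right h1 (Real.exp_pos _).le
      _ = Real.exp ((1 + |C| + A) * Real.log (Real.log X)) := by rw [← Real.exp_add]; ring_nf
      _ ≤ _ := by
          apply Real.exp_le_exp.mpr
          apply mul_le_mul_of_nonneg_right _ (by linarith)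
          rw [hadef]
          linarith [le_abs_self A]
  have hr2 : K * Real.log (Real.log X) ≤ Real.log X / Real.log Q := by
    rw [le_div_iff₀ (by linarith)]
    have := h.2.2
    nlinarith
  have hr1 : K * Real.log (Real.log X) ≤ Real.log Q := h.2.1
  have hkey : (a - 1) * Real.log (Real.log X) ≤
      (1 / K₁ - 1 / K) * (K * Real.log (Real.log X)) := by
    have h1 : (1 / K₁ - 1 / K) * (K * Real.log (Real.log X)) =
        (K / K₁ - 1) * Real.log (Real.log X) := by field_simp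
    rw [h1]
    apply mul_le_mul_of_nonneg_right _ (by linarith)
    have : a ≤ K / K₁ := by
      rw [le_div_iff₀ hK₁, hKdef]; linarith
    linarith
  have hinv : 0 ≤ 1 / K₁ - 1 / K := by
    have := one_div_le_one_div_of_le hK₁ hKK
    linarith
  unfold sw
  rw [mul_add]
  apply add_le_add
  · calc C * (Real.log X) ^ A * Real.exp (-(Real.log X / (K₁ * Real.log Q)))
        ≤ Real.exp ((a - 1) * Real.log (Real.log X)) *
            Real.exp (-(Real.log X / (K₁ * Real.log Q))) :=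
          mul_le_mul_of_nonneg_right hCA (Real.exp_pos _).le
      _ = Real.exp ((a - 1) * Real.log (Real.log X) - Real.log X / (K₁ * Real.log Q)) := by
          rw [← Real.exp_add]; ring_nf
      _ ≤ _ := by
          apply Real.exp_le_exp.mpr
          have h1 : Real.log X / (K₁ * Real.log Q) = (1 / K₁) * (Real.log X / Real.log Q) := by
            field_simp
          have h2 : Real.log X / (K * Real.log Q) = (1 / K) * (Real.log X / Real.log Q) := by
            field_simp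
          rw [h1, h2]
          have h3 := mul_le_mul_of_nonneg_left hr2 hinv
          linarith
  · calc C * (Real.log X) ^ A * (Q : ℝ) ^ (-(1 / K₁))
        ≤ Real.exp ((a - 1) * Real.log (Real.log X)) * (Q : ℝ) ^ (-(1 / K₁)) :=
          mul_le_mul_of_nonneg_right hCA (Real.rpow_nonneg hQ.le _)
      _ = Real.exp ((a - 1) * Real.log (Real.log X) - (1 / K₁) * Real.log Q) := by
          rw [Real.rpow_def_of_pos hQ, ← Real.exp_add]; ring_nf
      _ ≤ Real.exp (Real.log Q * (-(1 / K))) := by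
          apply Real.exp_le_exp.mpr
          have h3 := mul_le_mul_of_nonneg_left hr1 hinv
          linarith
      _ = _ := by rw [Real.rpow_def_of_pos hQ]

/-- Negative powers of `Q` are absorbed in `sw`. -/
theorem sw_of_Q (C A ε : ℝ) (hε : 0 < ε) : ∃ K : ℝ, 1 ≤ K ∧ ∀ Q X : ℕ, Reg K Q X →
    C * (Real.log X) ^ A * (Q : ℝ) ^ (-ε) ≤ sw K Q X := by
  obtain ⟨K, hK1, hK2, hK⟩ := sw_absorb |C| A (1 / ε) (by positivity)
  refine ⟨K, hK2, fun Q X h => le_trans ?_ (hK Q X h)⟩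
  have hlX := h.logX_pos (by linarith)
  have hQ : (0:ℝ) < Q := by exact_mod_cast h.Q_pos hK2
  have h1 : C * (Real.log X) ^ A ≤ |C| * (Real.log X) ^ A :=
    mul_le_mul_of_nonneg_right (le_abs_self C) (Real.rpow_nonneg hlX.le _)
  calc C * (Real.log X) ^ A * (Q : ℝ) ^ (-ε) ≤ |C| * (Real.log X) ^ A * (Q : ℝ) ^ (-ε) :=
        mul_le_mul_of_nonneg_right h1 (Real.rpow_nonneg hQ.le _)
    _ ≤ |C| * (Real.log X) ^ A * sw (1 / ε) Q X := by
        apply mul_le_mul_of_nonneg_left _ (by positivity)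
        unfold sw
        have : (-(1 / (1 / ε)) : ℝ) = -ε := by field_simp
        rw [this]
        linarith [Real.exp_pos (-(Real.log X / (1 / ε * Real.log Q)))]

/-- The saving of the zero-free region is absorbed in `sw`. -/
theorem sw_of_exp (C A c : ℝ) (hc : 0 < c) : ∃ K : ℝ, 1 ≤ K ∧ ∀ Q X : ℕ, Reg K Q X →
    C * (Real.log X) ^ A * Real.exp (-(c * (Real.log X / Real.log Q))) ≤ sw K Q X := by
  obtain ⟨K, hK1, hK2, hK⟩ := sw_absorb |C| A (1 / c) (by positivity)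
  refine ⟨K, hK2, fun Q X h => le_trans ?_ (hK Q X h)⟩
  have hlX := h.logX_pos (by linarith)
  have hQ : (0:ℝ) < Q := by exact_mod_cast h.Q_pos hK2
  have h1 : C * (Real.log X) ^ A ≤ |C| * (Real.log X) ^ A :=
    mul_le_mul_of_nonneg_right (le_abs_self C) (Real.rpow_nonneg hlX.le _)
  calc C * (Real.log X) ^ A * Real.exp (-(c * (Real.log X / Real.log Q)))
      ≤ |C| * (Real.log X) ^ A * Real.exp (-(c * (Real.log X / Real.log Q))) :=
        mul_le_mul_of_nonneg_right h1 (Real.exp_pos _).le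
    _ ≤ |C| * (Real.log X) ^ A * sw (1 / c) Q X := by
        apply mul_le_mul_of_nonneg_left _ (by positivity)
        unfold sw
        have : Real.log X / (1 / c * Real.log Q) = c * (Real.log X / Real.log Q) := by
          field_simp
        rw [this]
        linarith [Real.rpow_nonneg hQ.le (-(1 / (1 / c)))]

/-- `(sw K)^θ ≤ 2 sw (K/θ)` for `0 < θ ≤ 1`. -/
theorem sw_rpow (K θ : ℝ) (hK : 0 < K) (hθ : 0 < θ) (hθ1 : θ ≤ 1) (Q X : ℕ) (hQ : 2 ≤ Q) :
    (sw K Q X) ^ θ ≤ sw (K / θ) Q X := by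
  have hQ0 : (0:ℝ) < Q := by
    have : 0 < Q := by omega
    exact_mod_cast this
  unfold sw
  have h1 := Real.rpow_add_le_add_rpow (Real.exp_pos (-(Real.log X / (K * Real.log Q)))).le
    (Real.rpow_nonneg hQ0.le (-(1 / K))) hθ.le hθ1
  refine h1.trans (le_of_eq ?_)
  congr 1
  · rw [← Real.exp_mul]
    congr 1
    rw [neg_mul]
    congr 1
    have : K / θ * Real.log Q = (K * Real.log Q) / θ := by ring
    rw [this, div_div_eq_mul_div, div_mul_eq_mul_div]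
  · rw [← Real.rpow_mul hQ0.le]
    congr 1
    rw [one_div_div]
    ring

end Pool.Agent.Lib.H68T
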