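import Pool.Agent.Lib.H68T.PER
import Pool.Agent.Lib.H68X.XDefs

/-!
# Chunk XPER: Perron's formula with a pole at `β`
-/

open Finset MeasureTheory

namespace Pool.Agent.Lib.H68T

/-- `∫_1^u y^(β-1) (1 - y/u) dy` in closed form -/
noncomputable def xperC (β u : ℝ) : ℝ :=
  1 / (β * (β + 1)) * u ^ β - 1 / β + 1 / (β + 1) * (1 / u)

theorem xper_int (β u : ℝ) (hβ1 : 1 / 2 ≤ β) (hu : 1 ≤ u) :
    ∫ y in (1 : ℝ)..u, y ^ (β - 1) * (1 - y / u) = xperC β u := by
  have hu0 : 0 < u := by linarith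
  have hβ0 : β ≠ 0 := by linarith
  have hβ3 : β + 1 ≠ 0 := by linarith
  have h0 : (0 : ℝ) ∉ Set.uIcc 1 u := by
    rw [Set.uIcc_of_le hu]
    intro h
    linarith [h.1]
  have e : ∫ y in (1 : ℝ)..u, y ^ (β - 1) * (1 - y / u) =
      ∫ y in (1 : ℝ)..u, (y ^ (β - 1) - 1 / u * y ^ β) := by
    apply intervalIntegral.integral_congr
    intro y hy
    rw [Set.uIcc_of_le hu] at hy
    have hy0 : 0 < y := by linarith [hy.1]
    have h1 : y ^ β = y ^ (β - 1) * y := by
      conv_lhs => rw [show β = (β - 1) + 1 by ring]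
      rw [Real.rpow_add hy0, Real.rpow_one]
    simp only
    rw [h1]
    ring
  have i1 : IntervalIntegrable (fun y : ℝ => y ^ (β - 1)) volume 1 u :=
    intervalIntegral.intervalIntegrable_rpow (Or.inr h0)
  have i2 : IntervalIntegrable (fun y : ℝ => y ^ β) volume 1 u :=
    intervalIntegral.intervalIntegrable_rpow (Or.inr h0)
  rw [e, intervalIntegral.integral_sub i1 (i2.const_mul _), intervalIntegral.integral_const_mul,
    integral_rpow (Or.inl (by linarith)), integral_rpow (Or.inl (by linarith))]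
  rw [show β - 1 + 1 = β by ring, Real.one_rpow, Real.one_rpow, Real.rpow_add hu0, Real.rpow_one]
  unfold xperC
  field_simp
  ring

theorem xper_integrable2 (β : ℝ) (hβ2 : β ≤ 1) (σ : ℝ) (hσ : 1 < σ) :
    Integrable (fun y : ℝ => (1 : ℂ) / (((σ : ℂ) + y * Complex.I - β) *
      (((σ : ℂ) + y * Complex.I) * ((σ : ℂ) + y * Complex.I + 1)))) := by
  have h1 := PER_integrable1 σ hσ.le
  refine Integrable.mono' (g := fun y => (1 / (σ - 1)) * ‖(1 : ℂ) / (((σ : ℂ) + y * Complex.I) *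
      ((σ : ℂ) + y * Complex.I + 1))‖)
    (h1.norm.const_mul _) ?_ ?_
  · refine Continuous.aestronglyMeasurable ?_
    refine Continuous.div continuous_const (by fun_prop) ?_
    intro y
    refine mul_ne_zero ?_ (mul_ne_zero ?_ ?_)
    · intro h
      have := congrArg Complex.re h
      simp at this
      linarith
    · intro h
      have := congrArg Complex.re h
      simp at this
      linarith
    · intro h
      have := congrArg Complex.re h
      simp at this
      linarith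
  · refine Filter.Eventually.of_forall fun y => ?_
    have h2 : σ - 1 ≤ ‖(σ : ℂ) + y * Complex.I - β‖ := by
      have := Complex.abs_re_le_norm ((σ : ℂ) + y * Complex.I - β)
      simp at this
      refine le_trans ?_ ((le_abs_self _).trans this)
      linarith
    have h3 : 1 / ‖(σ : ℂ) + y * Complex.I - β‖ ≤ 1 / (σ - 1) :=
      one_div_le_one_div_of_le (by linarith) h2
    have e : (1 : ℂ) / (((σ : ℂ) + y * Complex.I - β) *
        (((σ : ℂ) + y * Complex.I) * ((σ : ℂ) + y * Complex.I + 1))) =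
        (1 / ((σ : ℂ) + y * Complex.I - β)) * (1 / (((σ : ℂ) + y * Complex.I) *
          ((σ : ℂ) + y * Complex.I + 1))) := by
      rw [one_div_mul_one_div]
    rw [e, norm_mul]
    refine mul_le_mul_of_nonneg_right ?_ (norm_nonneg _)
    rw [norm_div, norm_one]
    exact h3

theorem xper_kernel2 (β : ℝ) (hβ1 : 1 / 2 ≤ β) (hβ2 : β ≤ 1) (σ : ℝ) (hσ : 1 < σ) (u : ℝ)
    (hu : 1 < u) :
    (2 * Real.pi : ℂ) * ((xperC β u : ℝ) : ℂ) =
      ∫ y : ℝ, (u : ℂ) ^ ((σ : ℂ) + y * Complex.I) * (1 / (((σ : ℂ) + y * Complex.I - β) *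
        (((σ : ℂ) + y * Complex.I) * ((σ : ℂ) + y * Complex.I + 1)))) := by
  have hβ0 : (β : ℂ) ≠ 0 := by
    have : β ≠ 0 := by linarith
    exact_mod_cast this
  have hβ3 : (β : ℂ) + 1 ≠ 0 := by
    have : β + 1 ≠ 0 := by linarith
    exact_mod_cast this
  set g : ℝ → ℂ := fun y => (1 / (β * (β + 1)) : ℂ) • Set.indicator (Set.Ioc 0 1)
      (fun t => (t : ℂ) ^ (-β : ℂ) : ℝ → ℂ) y -
    (1 / β : ℂ) • Set.indicator (Set.Ioc 0 1) (fun _ => 1 : ℝ → ℂ) y +
    (1 / (β + 1) : ℂ) • Set.indicator (Set.Ioc 0 1) (fun t => (t : ℂ) ^ (1 : ℂ) : ℝ → ℂ) y with hg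
  have hM : ∀ s : ℂ, 1 < s.re → HasMellin g s (1 / ((s - β) * (s * (s + 1)))) := by
    intro s hs
    have h1 := hasMellin_const_smul (hasMellin_one_Ioc (s := s) (by linarith)).1 (1 / β : ℂ)
    have h2 := hasMellin_const_smul (hasMellin_cpow_Ioc 1 (s := s) (by simp; linarith)).1
      (1 / (β + 1) : ℂ)
    have h3 := hasMellin_const_smul (hasMellin_cpow_Ioc (-β : ℂ) (s := s) (by simp; linarith)).1
      (1 / (β * (β + 1)) : ℂ)
    have h4 := hasMellin_sub h3.1 h1.1
    have h5 := hasMellin_add h4.1 h2.1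
    rw [h4.2, h3.2, h2.2, h1.2, (hasMellin_one_Ioc (s := s) (by linarith)).2,
      (hasMellin_cpow_Ioc 1 (s := s) (by simp; linarith)).2,
      (hasMellin_cpow_Ioc (-β : ℂ) (s := s) (by simp; linarith)).2] at h5
    have e : (1 / (β * (β + 1)) : ℂ) • (1 / (s + -β)) - (1 / β : ℂ) • (1 / s) +
        (1 / (β + 1) : ℂ) • (1 / (s + 1)) =
        1 / ((s - β) * (s * (s + 1))) := by
      have hs0 : s ≠ 0 := by
        intro h; rw [h] at hs; simp at hs; linarith
      have hs1 : s + 1 ≠ 0 := by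
        intro h
        have := congrArg Complex.re h
        simp at this
        linarith
      have hs2 : s - β ≠ 0 := by
        intro h
        have := congrArg Complex.re h
        simp at this
        linarith
      rw [show s + -(β : ℂ) = s - β by ring, smul_eq_mul, smul_eq_mul, smul_eq_mul]
      field_simp
      ring
    rw [e] at h5
    exact h5
  have hmel : ∀ y : ℝ, mellin g ((σ : ℂ) + y * Complex.I) =
      1 / (((σ : ℂ) + y * Complex.I - β) *
        (((σ : ℂ) + y * Complex.I) * ((σ : ℂ) + y * Complex.I + 1))) := by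
    intro y
    exact (hM _ (by simp; linarith)).2
  have hu0 : 0 < u := by linarith
  have hinv : (0 : ℝ) < 1 / u := by positivity
  have hinv1 : 1 / u < 1 := by rw [div_lt_one hu0]; exact hu
  have hgeq : ∀ y : ℝ, 0 < y → y < 1 → g y =
      ((1 / (β * (β + 1)) * y ^ (-β) - 1 / β + 1 / (β + 1) * y : ℝ) : ℂ) := by
    intro y hy h
    simp only [hg]
    have hm : y ∈ Set.Ioc (0:ℝ) 1 := ⟨hy, h.le⟩
    rw [Set.indicator_of_mem hm, Set.indicator_of_mem hm, Set.indicator_of_mem hm,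
      Complex.cpow_one, smul_eq_mul, smul_eq_mul, smul_eq_mul]
    push_cast
    rw [Complex.ofReal_cpow hy.le]
    push_cast
    ring
  have hcont : ContinuousAt g (1 / u) := by
    have h1 : ContinuousAt (fun y : ℝ =>
        ((1 / (β * (β + 1)) * y ^ (-β) - 1 / β + 1 / (β + 1) * y : ℝ) : ℂ)) (1 / u) := by
      refine Complex.continuous_ofReal.continuousAt.comp ?_
      refine ContinuousAt.add (ContinuousAt.sub (ContinuousAt.mul continuousAt_const
        (Real.continuousAt_rpow_const _ _ (Or.inl hinv.ne'))) continuousAt_const) (by fun_prop)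
    refine h1.congr ?_
    filter_upwards [lt_mem_nhds hinv, gt_mem_nhds hinv1] with y hy hy1
    exact (hgeq y hy hy1).symm
  have hvert : Complex.VerticalIntegrable (mellin g) σ := by
    unfold Complex.VerticalIntegrable
    refine (xper_integrable2 β hβ2 σ hσ).congr ?_
    exact Filter.Eventually.of_forall fun y => (hmel y).symm
  have key := mellinInv_mellin_eq σ g hinv (hM σ (by simp; linarith)).1 hvert hcont
  rw [hgeq _ hinv hinv1] at key
  have e2 : (1 / (β * (β + 1)) * (1 / u) ^ (-β) - 1 / β + 1 / (β + 1) * (1 / u) : ℝ) =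
      xperC β u := by
    unfold xperC
    rw [one_div u, Real.inv_rpow hu0.le, Real.rpow_neg hu0.le, inv_inv]
  rw [e2] at key
  rw [← key]
  unfold mellinInv
  rw [Complex.real_smul, ← mul_assoc]
  have hpi : (2 * Real.pi : ℂ) * ((1 / (2 * Real.pi) : ℝ) : ℂ) = 1 := by
    push_cast
    have : (Real.pi : ℂ) ≠ 0 := by exact_mod_cast Real.pi_ne_zero
    field_simp
  rw [hpi, one_mul]
  refine integral_congr_ae (Filter.Eventually.of_forall fun y => ?_)
  simp only [smul_eq_mul]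
  rw [hmel y]
  congr 1
  rw [one_div, Complex.ofReal_inv, Complex.inv_cpow _ _ (by
    rw [Complex.arg_ofReal_of_nonneg hu0.le]; exact Real.pi_pos.ne), Complex.cpow_neg, inv_inv]

theorem xper_main (a : ℕ → ℂ) (f : ℂ → ℂ) (κ : ℂ) (β η T B u : ℝ) (hκ : ‖κ‖ ≤ 1) (hβ1 : 1 / 2 ≤ β) (hβ2 : β ≤ 1)
    (hη0 : 0 < η) (hη1 : η ≤ 1 / 2) (hT : 1 ≤ T) (hu : 3 ≤ u) (hB : 1 ≤ B)
    (ha : ∀ n, 1 ≤ n → ‖a n‖ ≤ 1 + Real.log n)
    (hf : AnalyticOnNhd ℂ f {s | 1 - η ≤ s.re ∧ s.re ≤ 2 ∧ |s.im| ≤ T})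
    (hfB : ∀ s : ℂ, 1 - η ≤ s.re → s.re ≤ 2 → |s.im| ≤ T → ‖f s‖ ≤ B)
    (hfL : ∀ s : ℂ, 1 < s.re → f s = LSeries a s - κ / (s - β)) :
    ‖∑ n ∈ Icc 1 ⌊u⌋₊, a n * (1 - n / u) - κ * ((xperC β u : ℝ) : ℂ)‖ ≤
      10 * (B * u ^ (1 - η) + B * u / T ^ 2 + u * (1 + Real.log u) ^ 2 / T) := by
  have hu0 : 0 < u := by linarith
  have hu0' : (u : ℂ) ≠ 0 := by exact_mod_cast hu0.ne'
  have hlog1 : 1 ≤ Real.log u := by
    rw [Real.le_log_iff_exp_le hu0]
    have := Real.exp_one_lt_d9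
    linarith
  have hlog0 : 0 < Real.log u := by linarith
  set ε : ℝ := 1 / Real.log u with hε
  have hε0 : 0 < ε := by positivity
  have hε1 : ε ≤ 1 := by rw [hε, div_le_one hlog0]; exact hlog1
  set σ : ℝ := 1 + ε with hσdef
  have hσ : 1 < σ := by linarith
  have hσ2 : σ ≤ 2 := by linarith
  have huσ : u ^ σ = u * Real.exp 1 := by
    rw [hσdef, Real.rpow_add hu0, Real.rpow_one, Real.rpow_def_of_pos hu0 ε, hε,
      mul_one_div_cancel hlog0.ne']
  have he3 : Real.exp 1 ≤ 3 := by have := Real.exp_one_lt_d9; linarith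
  -- Dirichlet series bound
  obtain ⟨hsm, hts⟩ := PER_tsum ε hε0
  have htb : ∀ n : ℕ, ‖LSeries.term a (σ : ℂ) n‖ ≤ (1 + Real.log n) * (n : ℝ) ^ (-(1 + ε)) := by
    intro n
    by_cases hn : n = 0
    · subst hn
      simp only [LSeries.term_zero, norm_zero]
      simp only [Nat.cast_zero, Real.log_zero, add_zero, one_mul]
      exact Real.rpow_nonneg le_rfl _
    · have hnpos : (0 : ℝ) < n := by exact_mod_cast Nat.pos_of_ne_zero hn
      rw [LSeries.norm_term_eq, if_neg hn]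
      simp only [Complex.ofReal_re]
      rw [Real.rpow_neg hnpos.le, ← div_eq_mul_inv]
      exact div_le_div_of_nonneg_right (ha n (by omega)) (Real.rpow_nonneg hnpos.le _)
  have hs : Summable (fun n => ‖LSeries.term a (σ : ℂ) n‖) :=
    Summable.of_nonneg_of_le (fun n => norm_nonneg _) htb hsm
  have hA : ∑' n, ‖LSeries.term a (σ : ℂ) n‖ ≤ 4 * (1 + Real.log u) ^ 2 := by
    refine (hs.tsum_le_tsum htb hsm).trans (hts.trans ?_)
    have : 2 / ε = 2 * Real.log u := by rw [hε]; field_simp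
    rw [this]
    nlinarith
  obtain ⟨hL1, hL2, hL3⟩ := PER_series a σ u _ hσ (by linarith) hs hA
  have hK := xper_kernel2 β hβ1 hβ2 σ hσ u (by linarith)
  have hKint : Integrable (fun y : ℝ => (u : ℂ) ^ ((σ : ℂ) + y * Complex.I) *
      (1 / (((σ : ℂ) + y * Complex.I - β) *
        (((σ : ℂ) + y * Complex.I) * ((σ : ℂ) + y * Complex.I + 1))))) := by
    have h1 := xper_integrable2 β hβ2 σ hσ
    refine Integrable.bdd_mul (c := u ^ σ) h1 (Continuous.aestronglyMeasurable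
      (Continuous.const_cpow (by fun_prop) (Or.inl hu0'))) ?_
    refine Filter.Eventually.of_forall fun y => ?_
    rw [Complex.norm_cpow_eq_rpow_re_of_pos hu0]
    simp
  -- the function on the line
  set F : ℂ → ℂ := fun s => f s * ((u : ℂ) ^ s * (1 / (s * (s + 1)))) with hFdef
  have hline : ∀ y : ℝ, F ((σ : ℂ) + y * Complex.I) =
      LSeries a ((σ : ℂ) + y * Complex.I) *
        ((u : ℂ) ^ ((σ : ℂ) + y * Complex.I) * (1 / (((σ : ℂ) + y * Complex.I) *
        ((σ : ℂ) + y * Complex.I + 1)))) - κ * ((u : ℂ) ^ ((σ : ℂ) + y * Complex.I) *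
      (1 / (((σ : ℂ) + y * Complex.I - β) *
        (((σ : ℂ) + y * Complex.I) * ((σ : ℂ) + y * Complex.I + 1))))) := by
    intro y
    simp only [hFdef]
    rw [hfL _ (by simp; linarith)]
    rw [← one_div_mul_one_div ((σ : ℂ) + y * Complex.I - β)]
    ring
  have hFint : Integrable (fun y : ℝ => F ((σ : ℂ) + y * Complex.I)) := by
    simp only [hline]
    exact hL2.sub (hKint.const_mul κ)
  have hD : (2 * Real.pi : ℂ) * (∑ n ∈ Icc 1 ⌊u⌋₊, a n * (1 - n / u) -
      κ * ((xperC β u : ℝ) : ℂ)) = ∫ y : ℝ, F ((σ : ℂ) + y * Complex.I) := by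
    simp only [hline]
    rw [integral_sub hL2 (hKint.const_mul κ), integral_const_mul, ← hL3, ← hK]
    ring
  -- bound of F on the line
  have hkap : ∀ y : ℝ, ‖f ((σ : ℂ) + y * Complex.I)‖ ≤ 5 * (1 + Real.log u) ^ 2 := by
    intro y
    rw [hfL _ (by simp; linarith)]
    refine (norm_sub_le _ _).trans ?_
    have h1 : ‖κ / ((σ : ℂ) + y * Complex.I - β)‖ ≤ Real.log u := by
      rw [norm_div]
      have h2 : ε ≤ ‖(σ : ℂ) + y * Complex.I - β‖ := by
        have := Complex.abs_re_le_norm ((σ : ℂ) + y * Complex.I - β)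
        simp at this
        refine le_trans ?_ ((le_abs_self _).trans this)
        linarith
      calc ‖κ‖ / ‖(σ : ℂ) + y * Complex.I - β‖ ≤ 1 / ε :=
            div_le_div₀ zero_le_one hκ hε0 h2
        _ = Real.log u := by rw [hε]; field_simp
    have := hL1 y
    nlinarith
  have hFb : ∀ y : ℝ, ‖F ((σ : ℂ) + y * Complex.I)‖ ≤
      (15 * u * (1 + Real.log u) ^ 2) * (1 + y ^ 2)⁻¹ := by
    intro y
    simp only [hFdef]
    rw [norm_mul, norm_mul, Complex.norm_cpow_eq_rpow_re_of_pos hu0]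
    have h1 := PER_den σ y 1 one_pos (by nlinarith) le_rfl (by linarith)
    have h2 : ((σ : ℂ) + y * Complex.I).re = σ := by simp
    rw [h2, huσ]
    have h3 := hkap y
    have h4 : 0 ≤ (1 + y ^ 2)⁻¹ := by positivity
    calc ‖f ((σ : ℂ) + y * Complex.I)‖ * (u * Real.exp 1 *
          ‖(1 : ℂ) / (((σ : ℂ) + y * Complex.I) * ((σ : ℂ) + y * Complex.I + 1))‖)
        ≤ (5 * (1 + Real.log u) ^ 2) * (u * 3 * (1 / 1 * (1 + y ^ 2)⁻¹)) := by
          gcongr
      _ = _ := by ring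
  -- splitting of the integral
  have hsplit := integral_add_compl (μ := volume) (s := Set.Ioc (-T) T) measurableSet_Ioc hFint
  have htail : ‖∫ y in (Set.Ioc (-T) T)ᶜ, F ((σ : ℂ) + y * Complex.I)‖ ≤
      (15 * u * (1 + Real.log u) ^ 2) * (2 / T) := by
    have h1 : ‖∫ y in (Set.Ioc (-T) T)ᶜ, F ((σ : ℂ) + y * Complex.I)‖ ≤
        ∫ y in (Set.Ioc (-T) T)ᶜ, (15 * u * (1 + Real.log u) ^ 2) * (1 + y ^ 2)⁻¹ :=
      norm_integral_le_of_norm_le (integrable_inv_one_add_sq.const_mul _).integrableOn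
        (Filter.Eventually.of_forall hFb)
    refine h1.trans ?_
    rw [integral_const_mul]
    refine mul_le_mul_of_nonneg_left ?_ (by positivity)
    have h2 := integral_add_compl (μ := volume) (s := Set.Ioc (-T) T) measurableSet_Ioc
      integrable_inv_one_add_sq
    rw [integral_univ_inv_one_add_sq, ← intervalIntegral.integral_of_le (by linarith),
      integral_inv_one_add_sq] at h2
    have h3 : Real.arctan T⁻¹ = Real.pi / 2 - Real.arctan T :=
      Real.arctan_inv_of_pos (by linarith)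
    rw [Real.arctan_neg] at h2
    have h4 : Real.arctan T⁻¹ ≤ T⁻¹ := by
      have h6 := Real.le_tan (x := Real.arctan T⁻¹)
        (Real.arctan_nonneg.mpr (by positivity)) (Real.arctan_lt_pi_div_two _)
      rwa [Real.tan_arctan] at h6
    have h5 : 2 / T = 2 * T⁻¹ := by rw [div_eq_mul_inv]
    rw [h5]
    linarith
  -- contour shift
  have hT0 : 0 < T := by linarith
  have hFd : ∀ s : ℂ, 1 - η ≤ s.re → s.re ≤ 2 → |s.im| ≤ T → DifferentiableAt ℂ F s := by
    intro s h1 h2 h3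
    simp only [hFdef]
    have hs0 : s ≠ 0 := by
      intro h; rw [h] at h1; simp at h1; linarith
    have hs1 : s + 1 ≠ 0 := by
      intro h
      have := congrArg Complex.re h
      simp at this
      linarith
    refine (hf s ⟨h1, h2, h3⟩).differentiableAt.mul (DifferentiableAt.mul ?_ ?_)
    · exact differentiableAt_id.const_cpow (Or.inl hu0')
    · exact (differentiableAt_const _).div (differentiableAt_id.mul
        (differentiableAt_id.add (differentiableAt_const _))) (mul_ne_zero hs0 hs1)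
  set z : ℂ := ⟨1 - η, -T⟩ with hz
  set w : ℂ := ⟨σ, T⟩ with hw
  have hrect := Complex.integral_boundary_rect_eq_zero_of_differentiableOn F z w (by
    intro s hs
    rw [Complex.mem_reProdIm, hz, hw] at hs
    simp only at hs
    rw [Set.uIcc_of_le (by linarith), Set.uIcc_of_le (by linarith)] at hs
    exact (hFd s hs.1.1 (hs.1.2.trans hσ2) (abs_le.mpr hs.2)).differentiableWithinAt)
  simp only [hz, hw] at hrect
  -- vertical side
  have hv : ‖∫ y : ℝ in (-T)..T, F (((1 - η : ℝ) : ℂ) + y * Complex.I)‖ ≤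
      4 * (B * u ^ (1 - η)) * Real.pi := by
    have h1 : ∀ y ∈ Set.Ioc (-T) T, ‖F (((1 - η : ℝ) : ℂ) + y * Complex.I)‖ ≤
        4 * (B * u ^ (1 - η)) * (1 + y ^ 2)⁻¹ := by
      intro y hy
      simp only [hFdef]
      rw [norm_mul, norm_mul, Complex.norm_cpow_eq_rpow_re_of_pos hu0]
      have h2 := PER_den (1 - η) y (1 / 4) (by norm_num) (by nlinarith) (by norm_num)
        (by linarith)
      have h3 : (((1 - η : ℝ) : ℂ) + y * Complex.I).re = 1 - η := by simp
      have h4 : (((1 - η : ℝ) : ℂ) + y * Complex.I).im = y := by simp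
      rw [h3]
      have h5 := hfB (((1 - η : ℝ) : ℂ) + y * Complex.I) (by rw [h3]) (by rw [h3]; linarith)
        (by rw [h4]; exact abs_le.mpr ⟨hy.1.le, hy.2⟩)
      have h6 : 0 ≤ (1 + y ^ 2)⁻¹ := by positivity
      have h7 : 0 ≤ u ^ (1 - η) := Real.rpow_nonneg hu0.le _
      calc ‖f (((1 - η : ℝ) : ℂ) + y * Complex.I)‖ * (u ^ (1 - η) *
            ‖(1 : ℂ) / ((((1 - η : ℝ) : ℂ) + y * Complex.I) *
              (((1 - η : ℝ) : ℂ) + y * Complex.I + 1))‖)
          ≤ B * (u ^ (1 - η) * (1 / (1 / 4) * (1 + y ^ 2)⁻¹)) := by gcongr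
        _ = _ := by ring
    have h8 := intervalIntegral.norm_integral_le_of_norm_le (μ := volume) (a := -T) (b := T)
      (by linarith)
      (g := fun y => 4 * (B * u ^ (1 - η)) * (1 + y ^ 2)⁻¹)
      (Filter.Eventually.of_forall h1)
      (integrable_inv_one_add_sq.const_mul _).intervalIntegrable
    refine h8.trans ?_
    rw [intervalIntegral.integral_const_mul, integral_inv_one_add_sq, Real.arctan_neg]
    refine mul_le_mul_of_nonneg_left ?_ (by positivity)
    have := Real.arctan_lt_pi_div_two T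
    linarith
  -- horizontal sides
  have hh : ∀ t : ℝ, |t| = T → ‖∫ x : ℝ in (1 - η)..σ, F ((x : ℂ) + (t : ℂ) * Complex.I)‖ ≤
      3 * (B * u / T ^ 2) * (3 / 2) := by
    intro t ht
    have h1 : ∀ x ∈ Set.uIoc (1 - η) σ, ‖F ((x : ℂ) + (t : ℂ) * Complex.I)‖ ≤
        3 * (B * u / T ^ 2) := by
      intro x hx
      rw [Set.uIoc_of_le (by linarith)] at hx
      simp only [hFdef]
      rw [norm_mul, norm_mul, Complex.norm_cpow_eq_rpow_re_of_pos hu0]
      have h3 : ((x : ℂ) + (t : ℂ) * Complex.I).re = x := by simp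
      have h4 : ((x : ℂ) + (t : ℂ) * Complex.I).im = t := by simp
      rw [h3]
      have h5 := hfB ((x : ℂ) + (t : ℂ) * Complex.I) (by rw [h3]; exact hx.1.le)
        (by rw [h3]; linarith [hx.2]) (by rw [h4]; exact ht.le)
      have h6 : u ^ x ≤ u * 3 := by
        calc u ^ x ≤ u ^ σ := Real.rpow_le_rpow_of_exponent_le (by linarith) hx.2
          _ = u * Real.exp 1 := huσ
          _ ≤ u * 3 := by gcongr
      have h7 : ‖(1 : ℂ) / (((x : ℂ) + (t : ℂ) * Complex.I) *
          ((x : ℂ) + (t : ℂ) * Complex.I + 1))‖ ≤ 1 / T ^ 2 := by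
        rw [norm_div, norm_one, norm_mul]
        have h8 : T ≤ ‖(x : ℂ) + (t : ℂ) * Complex.I‖ := by
          have := Complex.abs_im_le_norm ((x : ℂ) + (t : ℂ) * Complex.I)
          rwa [h4, ht] at this
        have h9 : T ≤ ‖(x : ℂ) + (t : ℂ) * Complex.I + 1‖ := by
          have := Complex.abs_im_le_norm ((x : ℂ) + (t : ℂ) * Complex.I + 1)
          rw [Complex.add_im, h4, Complex.one_im, add_zero, ht] at this
          exact this
        refine one_div_le_one_div_of_le (by positivity) ?_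
        nlinarith
      have h10 : 0 ≤ u ^ x := Real.rpow_nonneg hu0.le _
      calc ‖f ((x : ℂ) + (t : ℂ) * Complex.I)‖ * (u ^ x *
            ‖(1 : ℂ) / (((x : ℂ) + (t : ℂ) * Complex.I) *
          ((x : ℂ) + (t : ℂ) * Complex.I + 1))‖)
          ≤ B * ((u * 3) * (1 / T ^ 2)) := by gcongr
        _ = _ := by ring
    refine (intervalIntegral.norm_integral_le_of_norm_le_const h1).trans ?_
    refine mul_le_mul_of_nonneg_left ?_ (by positivity)
    rw [abs_of_nonneg (by linarith)]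
    linarith
  have hh1 := hh (-T) (by rw [abs_neg, abs_of_pos hT0])
  have hh2 := hh T (abs_of_pos hT0)
  -- the central part
  have hcent : ‖∫ y : ℝ in (-T)..T, F ((σ : ℂ) + y * Complex.I)‖ ≤
      4 * (B * u ^ (1 - η)) * Real.pi + 9 * (B * u / T ^ 2) := by
    have e1 : Complex.I • (∫ y : ℝ in (-T)..T, F ((σ : ℂ) + y * Complex.I)) =
        Complex.I • (∫ y : ℝ in (-T)..T, F (((1 - η : ℝ) : ℂ) + y * Complex.I)) +
        (∫ x : ℝ in (1 - η)..σ, F ((x : ℂ) + (T : ℂ) * Complex.I)) -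
        (∫ x : ℝ in (1 - η)..σ, F ((x : ℂ) + ((-T : ℝ) : ℂ) * Complex.I)) := by
      linear_combination hrect
    have e2 : ‖∫ y : ℝ in (-T)..T, F ((σ : ℂ) + y * Complex.I)‖ =
        ‖Complex.I • (∫ y : ℝ in (-T)..T, F ((σ : ℂ) + y * Complex.I))‖ := by
      rw [norm_smul, Complex.norm_I, one_mul]
    rw [e2, e1]
    refine (norm_sub_le _ _).trans ?_
    have h1 := norm_add_le (Complex.I • (∫ y : ℝ in (-T)..T, F (((1 - η : ℝ) : ℂ) + y * Complex.I)))
      (∫ x : ℝ in (1 - η)..σ, F ((x : ℂ) + (T : ℂ) * Complex.I))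
    rw [norm_smul, Complex.norm_I, one_mul] at h1
    linarith
  -- conclusion
  rw [← intervalIntegral.integral_of_le (by linarith)] at hsplit
  have hfin : 2 * Real.pi * ‖∑ n ∈ Icc 1 ⌊u⌋₊, a n * (1 - n / u) -
      κ * ((xperC β u : ℝ) : ℂ)‖ ≤ 4 * (B * u ^ (1 - η)) * Real.pi + 9 * (B * u / T ^ 2) +
        (15 * u * (1 + Real.log u) ^ 2) * (2 / T) := by
    have e3 : ‖(2 * Real.pi : ℂ)‖ = 2 * Real.pi := by
      rw [norm_mul, Complex.norm_real, Real.norm_of_nonneg Real.pi_pos.le]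
      simp
    rw [← e3, ← norm_mul, hD, ← hsplit]
    exact (norm_add_le _ _).trans (add_le_add hcent htail)
  have hpi3 : 3 ≤ Real.pi := Real.pi_gt_three.le
  have hP : 0 ≤ B * u ^ (1 - η) := mul_nonneg (by linarith) (Real.rpow_nonneg hu0.le _)
  have hQ : 0 ≤ B * u / T ^ 2 := by positivity
  have hR : 0 ≤ u * (1 + Real.log u) ^ 2 / T := by positivity
  set P := B * u ^ (1 - η)
  set Q' := B * u / T ^ 2
  set R := u * (1 + Real.log u) ^ 2 / T with hRdef
  have e4 : (15 * u * (1 + Real.log u) ^ 2) * (2 / T) = 30 * R := by rw [hRdef]; ring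
  rw [e4] at hfin
  have h1 : 2 * Real.pi * ‖∑ n ∈ Icc 1 ⌊u⌋₊, a n * (1 - n / u) -
      κ * ((xperC β u : ℝ) : ℂ)‖ ≤ 2 * Real.pi * (10 * (P + Q' + R)) := by
    refine hfin.trans ?_
    nlinarith
  exact le_of_mul_le_mul_left h1 (by positivity)

/-- `perron` (file `H68T/PER1.lean`) with the pole at `β ∈ [1/2, 1]` instead of `1`: the main term is
now `κ ∫_1^u n^(β-1) (1 - n/u) dn`, since `∫_1^∞ n^(β-1) n^(-s) dn = 1/(s-β)` for `Re s > β` and
(same argument as for `perron`, integrating the kernel formula over real `n ≥ 1`)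
`∫_1^u n^(β-1) (1 - n/u) dn = (1/2π) ∫ u^s/((s-β) s (s+1)) dy` on the line `Re s = σ₀ = 1 + 1/log u`;
`|1/(s-β)| ≤ 1/(σ₀-1) = log u` there, as before. The rest of the proof (contour shift for `f`) is
unchanged. -/
theorem perron_beta : ∃ C : ℝ, 0 < C ∧ ∀ (a : ℕ → ℂ) (f : ℂ → ℂ) (κ : ℂ) (β η T B u : ℝ),
    ‖κ‖ ≤ 1 → 1 / 2 ≤ β → β ≤ 1 →
    0 < η → η ≤ 1 / 2 → 1 ≤ T → 3 ≤ u → 1 ≤ B → (∀ n, 1 ≤ n → ‖a n‖ ≤ 1 + Real.log n) →
    AnalyticOnNhd ℂ f {s | 1 - η ≤ s.re ∧ s.re ≤ 2 ∧ |s.im| ≤ T} →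
    (∀ s : ℂ, 1 - η ≤ s.re → s.re ≤ 2 → |s.im| ≤ T → ‖f s‖ ≤ B) →
    (∀ s : ℂ, 1 < s.re → f s = LSeries a s - κ / (s - β)) →
    ‖∑ n ∈ Icc 1 ⌊u⌋₊, a n * (1 - n / u) -
        κ * ((∫ y in (1 : ℝ)..u, y ^ (β - 1) * (1 - y / u) : ℝ) : ℂ)‖ ≤
      C * (B * u ^ (1 - η) + B * u / T ^ 2 + u * (1 + Real.log u) ^ 2 / T) :=
  ⟨10, by norm_num, fun a f κ β η T B u hκ hβ1 hβ2 hη0 hη1 hT hu hB ha hf hfB hfL => by
    rw [xper_int β u hβ1 (by linarith)]
    exact xper_main a f κ β η T B u hκ hβ1 hβ2 hη0 hη1 hT hu hB ha hf hfB hfL⟩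

end Pool.Agent.Lib.H68T
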