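import Pool.Agent.Lib.H68X.XDefs
import Pool.Agent.Lib.H68X.XPER
import Pool.Agent.Lib.H68X.XPN0
import Pool.Agent.Lib.H68T.PNTE

/-!
# Chunk XPN1: the exceptional character at small frequencies
-/

open Finset

namespace Pool.Agent.Lib.H68T

/-- the weight of the Cesàro sum -/
theorem XPN1_anti {β u : ℝ} (hβ1 : β ≤ 1) (hu : 1 ≤ u) :
    AntitoneOn (fun y : ℝ => y ^ (β - 1) * (1 - y / u)) (Set.Icc 1 u) := by
  intro x hx y hy hxy
  have hx0 : 0 < x := by linarith [hx.1]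
  have hy0 : 0 < y := by linarith [hy.1]
  have hu0 : 0 < u := by linarith
  have h1 : y ^ (β - 1) ≤ x ^ (β - 1) :=
    Real.rpow_le_rpow_of_nonpos hx0 hxy (by linarith)
  have h2 : 1 - y / u ≤ 1 - x / u := by
    have := div_le_div_of_nonneg_right hxy hu0.le
    linarith
  have h3 : 0 ≤ 1 - y / u := by
    have := (div_le_one hu0).2 hy.2
    linarith
  exact mul_le_mul h1 h2 h3 (Real.rpow_nonneg hx0.le _)

theorem XPN1_bd {β u y : ℝ} (hβ1 : β ≤ 1) (hu : 1 ≤ u) (hy : y ∈ Set.Icc 1 u) :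
    0 ≤ y ^ (β - 1) * (1 - y / u) ∧ y ^ (β - 1) * (1 - y / u) ≤ 1 := by
  have hy0 : 0 < y := by linarith [hy.1]
  have hu0 : 0 < u := by linarith
  have h1 : 0 ≤ y ^ (β - 1) := Real.rpow_nonneg hy0.le _
  have h2 : y ^ (β - 1) ≤ 1 := Real.rpow_le_one_of_one_le_of_nonpos hy.1 (by linarith)
  have h3 : 0 ≤ 1 - y / u := by
    have := (div_le_one hu0).2 hy.2
    linarith
  have h4 : 1 - y / u ≤ 1 := by
    have : 0 ≤ y / u := by positivity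
    linarith
  exact ⟨mul_nonneg h1 h3, mul_le_one₀ h2 h3 h4⟩

/-- the Cesàro sum of `n^(β-1)` and the integral -/
theorem XPN1_ces {β u : ℝ} (hβ1 : β ≤ 1) (hu : 1 ≤ u) :
    |∑ n ∈ Icc 1 ⌊u⌋₊, (n : ℝ) ^ (β - 1) * (1 - n / u) -
      ∫ y in (1 : ℝ)..u, y ^ (β - 1) * (1 - y / u)| ≤ 3 := by
  set h : ℝ → ℝ := fun y => y ^ (β - 1) * (1 - y / u) with hh
  set N : ℕ := ⌊u⌋₊ with hN
  have hu0 : 0 < u := by linarith
  have hNu : (N : ℝ) ≤ u := Nat.floor_le hu0.le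
  have huN : u < (N : ℝ) + 1 := Nat.lt_floor_add_one u
  have hN1 : 1 ≤ N := Nat.le_floor (by simpa using hu)
  have hN1' : (1 : ℝ) ≤ N := by exact_mod_cast hN1
  have ha : AntitoneOn h (Set.Icc 1 u) := XPN1_anti hβ1 hu
  have hb : ∀ y ∈ Set.Icc 1 u, 0 ≤ h y ∧ h y ≤ 1 := fun y hy => XPN1_bd hβ1 hu hy
  have ha' : AntitoneOn h (Set.Icc ((1 : ℕ) : ℝ) (N : ℝ)) := by
    refine ha.mono ?_
    rw [Nat.cast_one]
    exact Set.Icc_subset_Icc_right hNu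
  have e1 := ha'.integral_le_sum_Ico hN1
  have e2 := ha'.sum_le_integral_Ico hN1
  rw [Nat.cast_one] at e1 e2
  have hint : ∀ a b : ℝ, 1 ≤ a → b ≤ u → a ≤ b → IntervalIntegrable h MeasureTheory.volume a b := by
    intro a b h1 h2 h3
    refine (ha.mono ?_).intervalIntegrable
    rw [Set.uIcc_of_le h3]
    exact Set.Icc_subset_Icc h1 h2
  have e3 : ∫ y in (1 : ℝ)..u, h y = (∫ y in (1 : ℝ)..(N : ℝ), h y) + ∫ y in (N : ℝ)..u, h y :=
    (intervalIntegral.integral_add_adjacent_intervals (hint 1 N le_rfl hNu hN1')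
      (hint N u hN1' le_rfl hNu)).symm
  have e4 : 0 ≤ ∫ y in (N : ℝ)..u, h y :=
    intervalIntegral.integral_nonneg hNu fun y hy => (hb y ⟨hN1'.trans hy.1, hy.2⟩).1
  have e5 : ∫ y in (N : ℝ)..u, h y ≤ 1 := by
    have h1 : ∫ y in (N : ℝ)..u, h y ≤ ∫ _ in (N : ℝ)..u, (1 : ℝ) :=
      intervalIntegral.integral_mono_on hNu (hint N u hN1' le_rfl hNu)
        intervalIntegrable_const fun y hy => (hb y ⟨hN1'.trans hy.1, hy.2⟩).2
    rw [intervalIntegral.integral_const, smul_eq_mul, mul_one] at h1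
    linarith
  have s1 : ∑ n ∈ Ico 1 N, h (n : ℝ) ≤ ∑ n ∈ Icc 1 N, h (n : ℝ) := by
    refine sum_le_sum_of_subset_of_nonneg (fun n hn => ?_) fun n hn _ => ?_
    · rw [mem_Ico] at hn
      exact mem_Icc.2 ⟨hn.1, hn.2.le⟩
    · rw [mem_Icc] at hn
      refine (hb n ⟨?_, ?_⟩).1
      · exact_mod_cast hn.1
      · exact le_trans (by exact_mod_cast hn.2) hNu
  have s2 : ∑ n ∈ Icc 1 N, h (n : ℝ) = h 1 + ∑ n ∈ Ico 1 N, h ((n + 1 : ℕ) : ℝ) := by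
    have h1 : Icc 1 N = Ico 1 (N + 1) := by
      ext n
      simp only [mem_Icc, mem_Ico]
      omega
    rw [h1, Finset.sum_eq_sum_Ico_succ_bot (by omega),
      Finset.sum_Ico_add' (fun n : ℕ => h (n : ℝ)) 1 N 1, Nat.cast_one]
  have s3 := hb 1 ⟨le_rfl, hu⟩
  have s4 : ∑ n ∈ Icc 1 N, (n : ℝ) ^ (β - 1) * (1 - n / u) = ∑ n ∈ Icc 1 N, h (n : ℝ) := rfl
  have s5 : ∫ y in (1 : ℝ)..u, y ^ (β - 1) * (1 - y / u) = ∫ y in (1 : ℝ)..u, h y := rfl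
  rw [s4, s5, abs_le]
  constructor <;> linarith

/-- `|∑_{m ≤ u} (Λ(m) ψ(m) + m^(β-1))| ≤ u sw` for `X/8 ≤ u ≤ 60 X`: `perron_beta` with `κ = -1`,
`f = g` from `LogStmt`, `T = Q^12`, `η = min c' .../log Q` (at most `1/2`), and
`∑_{n ≤ u} n^(β-1) (1 - n/u) = ∫_1^u y^(β-1) (1 - y/u) dy + O(1)` (monotone integrand); then
`unsmooth` for `a_n = Λ(n) ψ(n) + n^(β-1)` (`‖a_n‖ ≤ 1 + log n`). Errors as in `XPN0`. -/
theorem exc_sum_sw (c' C : ℝ) (hc' : 0 < c') : ∃ K : ℝ, 1 ≤ K ∧ ∀ Q X : ℕ, Reg K Q X →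
    ∀ p : Σ r : ℕ, DirichletCharacter ℂ r, 1 ≤ p.1 → ∀ β : ℝ, 1 / 2 ≤ β → β < 1 →
    LogStmt c' C Q p β → ∀ u : ℝ, (X : ℝ) / 8 ≤ u → u ≤ 60 * X →
    ‖∑ m ∈ Icc 1 ⌊u⌋₊, ((ArithmeticFunction.vonMangoldt m : ℂ) * p.2 (m : ZMod p.1) +
      (((m : ℝ) ^ (β - 1) : ℝ) : ℂ))‖ ≤ u * sw K Q X := by
  obtain ⟨P, hP, hper⟩ := perron_beta
  obtain ⟨K₂, hK₂1, hK₂⟩ := XPN0_core P |C| c' hP (abs_nonneg C) hc'
  refine ⟨K₂, hK₂1, fun Q X r2 p _ β hβ0 hβ1 hlog => ?_⟩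
  obtain ⟨⟨hη1, hu3, hCB, hB1, hlQ0, hQ1⟩, hcore⟩ := hK₂ Q X r2
  obtain ⟨g, hg1, hg2, hg3⟩ := hlog
  set η : ℝ := c' / Real.log Q with hη
  have hη0 : 0 < η := by positivity
  set T : ℝ := (Q : ℝ) ^ 11 with hT
  have hT1 : 1 ≤ T := one_le_pow₀ hQ1
  have hT2 : T ≤ (Q : ℝ) ^ 12 := pow_le_pow_right₀ hQ1 (by norm_num)
  have hmem : ∀ s : ℂ, 1 - η ≤ s.re → s.re ≤ 2 → |s.im| ≤ T → s ∈ Rg c' Q := by
    intro s h1 h2 h3
    exact ⟨h1, h2, h3.trans hT2⟩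
  have hf1 : AnalyticOnNhd ℂ g {s | 1 - η ≤ s.re ∧ s.re ≤ 2 ∧ |s.im| ≤ T} := by
    intro s hs
    exact hg1 _ (hmem s hs.1 hs.2.1 hs.2.2)
  have hCC : C * Real.log Q ≤ |C| * Real.log Q :=
    mul_le_mul_of_nonneg_right (le_abs_self C) hlQ0.le
  have hnorm : ∀ n : ℕ, 1 ≤ n → ‖(ArithmeticFunction.vonMangoldt n : ℂ) * p.2 (n : ZMod p.1)‖ ≤
      Real.log n := by
    intro n _
    rw [norm_mul, Complex.norm_real, Real.norm_of_nonneg ArithmeticFunction.vonMangoldt_nonneg]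
    have h1 := p.2.norm_le_one (n : ZMod p.1)
    have h2 := ArithmeticFunction.vonMangoldt_le_log (n := n)
    have h3 := ArithmeticFunction.vonMangoldt_nonneg (n := n)
    calc ArithmeticFunction.vonMangoldt n * ‖p.2 (n : ZMod p.1)‖ ≤
          ArithmeticFunction.vonMangoldt n * 1 := mul_le_mul_of_nonneg_left h1 h3
      _ ≤ Real.log n := by linarith
  refine hcore (fun n => (ArithmeticFunction.vonMangoldt n : ℂ) * p.2 (n : ZMod p.1) +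
      (((n : ℝ) ^ (β - 1) : ℝ) : ℂ)) (fun n hn => ?_) (fun u hu1 hu2 => ?_)
  · refine (norm_add_le _ _).trans ?_
    have hn1 : (1 : ℝ) ≤ n := by exact_mod_cast hn
    have h1 : ‖(((n : ℝ) ^ (β - 1) : ℝ) : ℂ)‖ ≤ 1 := by
      rw [Complex.norm_real, Real.norm_of_nonneg (Real.rpow_nonneg (by linarith) _)]
      exact Real.rpow_le_one_of_one_le_of_nonpos hn1 (by linarith)
    have h2 := hnorm n hn
    linarith
  · have h1 := hper (fun n => (ArithmeticFunction.vonMangoldt n : ℂ) * p.2 (n : ZMod p.1)) g (-1) β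
      η T ((|C| + 1) * Real.log X) u (by simp) hβ0 hβ1.le hη0 hη1 hT1 (by linarith) hB1
      (fun n hn => by
        have h2 := hnorm n hn
        linarith) hf1
      (fun s h1 h2 h3 => ((hg3 _ (hmem s h1 h2 h3)).trans hCC).trans hCB)
      (fun s hs => by
        rw [hg2 s hs]
        ring)
    have hone := XPN1_ces (β := β) (u := u) hβ1.le (by linarith)
    have hsplit : (∑ n ∈ Icc 1 ⌊u⌋₊, ((ArithmeticFunction.vonMangoldt n : ℂ) *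
        p.2 (n : ZMod p.1) + (((n : ℝ) ^ (β - 1) : ℝ) : ℂ)) * (1 - n / u)) =
        (∑ n ∈ Icc 1 ⌊u⌋₊, (ArithmeticFunction.vonMangoldt n : ℂ) * p.2 (n : ZMod p.1) *
          (1 - n / u) - (-1) * ((∫ y in (1 : ℝ)..u, y ^ (β - 1) * (1 - y / u) : ℝ) : ℂ)) +
        ((∑ n ∈ Icc 1 ⌊u⌋₊, (n : ℝ) ^ (β - 1) * (1 - n / u) -
          ∫ y in (1 : ℝ)..u, y ^ (β - 1) * (1 - y / u) : ℝ) : ℂ) := by
      simp only [add_mul, Finset.sum_add_distrib]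
      push_cast
      ring
    rw [hsplit]
    refine (norm_add_le _ _).trans (add_le_add h1 ?_)
    rw [Complex.norm_real, Real.norm_eq_abs]
    exact hone

/-- Partial summation, as in `FL_sub_F0_le` (file `H68T/PNTE.lean`). -/
theorem exc_FL_sw (c' C : ℝ) (hc' : 0 < c') : ∃ K : ℝ, 1 ≤ K ∧ ∀ Q X : ℕ, Reg K Q X →
    ∀ p : Σ r : ℕ, DirichletCharacter ℂ r, 1 ≤ p.1 → ∀ β : ℝ, 1 / 2 ≤ β → β < 1 →
    LogStmt c' C Q p β → ∀ t : ℝ, ‖FL X p t + Fb X β t‖ ≤ (1 + |t|) * sw K Q X := by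
  obtain ⟨D, hD1, hD⟩ := XPN0_abel
  obtain ⟨K₁, hK₁1, hK₁⟩ := exc_sum_sw c' C hc'
  obtain ⟨K₂, hK₂1, hK₂2, hK₂⟩ := sw_absorb D 1 K₁ (by linarith)
  refine ⟨K₂ + 1000, by linarith, fun Q X hreg p hp β hβ0 hβ1 hlog t => ?_⟩
  have r1 : Reg K₁ Q X := hreg.mono (by linarith) (by linarith)
  have r2 : Reg K₂ Q X := hreg.mono (by linarith) (by linarith)
  have hL : 1000 ≤ Real.log X := by
    have h1 := hreg.logX_ge (by linarith)
    have := Real.add_one_le_exp (K₂ + 1000)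
    linarith
  have hdiff : FL X p t + Fb X β t = ∑ m ∈ Icc 1 (60 * X),
      ((ArithmeticFunction.vonMangoldt m : ℂ) * p.2 (m : ZMod p.1) +
        (((m : ℝ) ^ (β - 1) : ℝ) : ℂ)) * PNTE_phi X t m := by
    unfold FL Fb FF
    rw [← Finset.sum_add_distrib]
    refine Finset.sum_congr rfl fun m _ => ?_
    unfold PNTE_phi
    ring
  rw [hdiff]
  have hQ := hreg.Q_pos (by linarith)
  refine (hD X hL t (sw K₁ Q X) _ (sw_pos _ _ _ hQ).le fun m hm1 hm2 => ?_).trans ?_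
  · have h1 := hK₁ Q X r1 p hp β hβ0 hβ1 hlog m hm1 hm2
    rw [Nat.floor_natCast] at h1
    exact h1
  · refine mul_le_mul_of_nonneg_left ?_ (by positivity)
    have h1 := hK₂ Q X r2
    rw [Real.rpow_one] at h1
    exact h1.trans (sw_mono (by linarith) (by linarith) hQ)

end Pool.Agent.Lib.H68T
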