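import Pool.Agent.Lib.H68X.XDefs
import Pool.Agent.Lib.H68X.XMAIN1
import Pool.Agent.Lib.H68X.XPN1
import Pool.Agent.Lib.H68X.XFB
import Pool.Agent.Lib.H68T.D2

/-!
# Chunk XD2C: the exceptional character
-/

open Finset MeasureTheory

namespace Pool.Agent.Lib.H68T

/-- `sw K₁ ≤ 1` in the regime `Reg K₁` -/
theorem XD2C_sw_le_one {K₁ : ℝ} (hK₁ : 1 ≤ K₁) {Q X : ℕ} (h : Reg K₁ Q X) : sw K₁ Q X ≤ 1 := by
  have hll : 1 ≤ Real.log (Real.log X) := hK₁.trans h.1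
  have hlQ : 1 ≤ Real.log Q := hK₁.trans (h.logQ_ge hK₁)
  have hQ : (0:ℝ) < Q := by exact_mod_cast h.Q_pos hK₁
  have hK0 : 0 < K₁ := by linarith
  have h1 : 1 ≤ Real.log X / (K₁ * Real.log Q) := by
    rw [le_div_iff₀ (by positivity), one_mul]
    have h2 := h.2.2
    have h3 : K₁ * Real.log Q ≤ K₁ * (Real.log Q * Real.log (Real.log X)) := by
      apply mul_le_mul_of_nonneg_left _ hK0.le
      exact le_mul_of_one_le_right (by linarith) hll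
    linarith
  have he : Real.exp (-1 : ℝ) ≤ 1 / 2 := by
    have := Real.exp_neg_one_lt_d9
    linarith
  have e1 : Real.exp (-(Real.log X / (K₁ * Real.log Q))) ≤ 1 / 2 :=
    (Real.exp_le_exp.2 (by linarith)).trans he
  have e2 : (Q : ℝ) ^ (-(1 / K₁)) ≤ 1 / 2 := by
    rw [Real.rpow_def_of_pos hQ]
    refine (Real.exp_le_exp.2 ?_).trans he
    have h4 : K₁ ≤ Real.log Q := h.logQ_ge hK₁
    have h5 : 1 ≤ Real.log Q * (1 / K₁) := by
      rw [mul_one_div, le_div_iff₀ hK0, one_mul]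
      exact h4
    linarith
  unfold sw
  linarith

theorem XD2C_aux1 (C a b : ℝ) (hC : 0 ≤ C) (h : a ≤ b) : C * (a + b) ≤ 2 * C * (1 + b) := by
  have := mul_le_mul_of_nonneg_left h hC
  linarith

theorem XD2C_aux2 (T : ℝ) (hT : 1 ≤ T) : 2 * T * (1 + T) ≤ 4 * T ^ 2 := by
  nlinarith

theorem XD2C_aux3 (T S u : ℝ) (hS : 0 ≤ S) (hu : 0 ≤ u) :
    (T - S) * u + (-S - -T) * u ≤ 2 * T * u := by
  have := mul_nonneg hS hu
  linarith

/-- The integral over a subinterval of `T₁ ≤ |t| ≤ Q^7`. -/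
theorem XD2C_part {f g : ℝ → ℝ} {T₁ T a b u B : ℝ} (hf : Continuous f) (hg : Continuous g)
    (hab : a ≤ b) (ha : -T ≤ a) (hb : b ≤ T) (hT₁ : 0 < T₁) (hB : 0 ≤ B)
    (h : ∀ t ∈ Set.Icc a b, f t ≤ g t + u + B * (1 + (t / T₁) ^ 2)⁻¹) :
    ∫ t in a..b, f t ≤ (∫ t in a..b, g t) + (b - a) * u + B * (Real.pi * T₁) := by
  have hck : Continuous (fun t : ℝ => (1 + (t / T₁) ^ 2)⁻¹) := by
    refine Continuous.inv₀ (by fun_prop) fun t => ?_
    positivity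
  have hci1 : Continuous (fun t => g t + u) := hg.add continuous_const
  have hci2 : Continuous (fun t : ℝ => B * (1 + (t / T₁) ^ 2)⁻¹) := continuous_const.mul hck
  have h1 : ∫ t in a..b, f t ≤ ∫ t in a..b, (g t + u + B * (1 + (t / T₁) ^ 2)⁻¹) :=
    intervalIntegral.integral_mono_on hab (hf.intervalIntegrable _ _)
      ((hci1.add hci2).intervalIntegrable _ _) h
  refine h1.trans ?_
  rw [intervalIntegral.integral_add (hci1.intervalIntegrable _ _) (hci2.intervalIntegrable _ _),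
    intervalIntegral.integral_add (hg.intervalIntegrable _ _)
      (continuous_const.intervalIntegrable _ _), intervalIntegral.integral_const, smul_eq_mul,
      intervalIntegral.integral_const_mul]
  have hT0 : 0 ≤ T := by linarith
  have h2 : ∫ t in a..b, (1 + (t / T₁) ^ 2)⁻¹ ≤ ∫ t in (-T)..T, (1 + (t / T₁) ^ 2)⁻¹ := by
    refine intervalIntegral.integral_mono_interval ha hab hb ?_ (hck.intervalIntegrable _ _)
    filter_upwards with t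
    simp only [Pi.zero_apply]
    positivity
  have h3 := mul_le_mul_of_nonneg_left (h2.trans (d2b_kernel T₁ T hT₁ hT0)) hB
  linarith

/-- As `L1_trivial_sw`: `T₁ = max 8 ((sw K₁ Q X)^(-1/3))`, `K₁` the constant of `exc_FL_sw` (it is at
most `Q^7`). For `|t| ≤ T₁`: `exc_FL_sw`. For `T₁ ≤ |t| ≤ Q^7`:
`‖FL + Fb‖ ≤ ‖FL‖ + ‖Fb‖`; `Fb_bound` (integral `≤ 2C/T₁ + 2 Q^(-4)`); `decomposition`,
`long_small` (the long parts, `p ≠ p0`) and `main_L1_high`. -/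
theorem L1_exc (c' C : ℝ) (hc' : 0 < c') : ∃ K : ℝ, 1 ≤ K ∧ ∀ Q X : ℕ, Reg K Q X →
    ∀ p ∈ PC Q, p ≠ p0 → ∀ β : ℝ, 1 / 2 ≤ β → β < 1 → LogStmt c' C Q p β → InvHigh c' C Q p →
    ∫ t in (-(Q : ℝ) ^ 7)..((Q : ℝ) ^ 7), ‖FL X p t + Fb X β t‖ ≤ sw K Q X := by
  obtain ⟨Kd, hKd⟩ := decomposition
  obtain ⟨Kl, hKl⟩ := long_small
  obtain ⟨Cb, Kb, hCb, hKb1, hKb⟩ := Fb_bound
  obtain ⟨Km, hKm1, hKm⟩ := main_L1_high c' C hc'
  obtain ⟨Kf, hKf1, hKf⟩ := exc_FL_sw c' C hc'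
  obtain ⟨Kq, hKq1, hKq⟩ := sw_of_Q 6 7 4 (by norm_num)
  have hpi := Real.pi_pos
  have hKf3 : 0 < Kf / (1 / 6) := by positivity
  obtain ⟨Ke, hKe0, hKe1, hKe⟩ := sw_absorb (257 + 4 * Real.pi * Cb) 15 (Kf / (1 / 6)) hKf3
  obtain ⟨M, hM⟩ : ∃ M : ℝ, M = Km + Kq + Ke := ⟨_, rfl⟩
  have hM0 : 0 < M := by rw [hM]; linarith
  obtain ⟨Kg, hKg0, hKg1, hKg⟩ := sw_absorb 3 0 M hM0
  refine ⟨Kg + |Kd| + |Kl| + Kb + Km + Kf + Kq + Ke + 30, by
    have := abs_nonneg Kd; have := abs_nonneg Kl; linarith, ?_⟩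
  intro Q X hreg p hp hpp β hβ hβ1 hlog hhigh
  have a1 : 0 ≤ |Kd| := abs_nonneg _
  have a2 : 0 ≤ |Kl| := abs_nonneg _
  have b1 : Kd ≤ |Kd| := le_abs_self _
  have b2 : Kl ≤ |Kl| := le_abs_self _
  have hKpos : 0 ≤ Kg + |Kd| + |Kl| + Kb + Km + Kf + Kq + Ke + 30 := by linarith
  have r1 : Reg Kd Q X := hreg.mono hKpos (by linarith)
  have r2 : Reg Kl Q X := hreg.mono hKpos (by linarith)
  have r3 : Reg Km Q X := hreg.mono hKpos (by linarith)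
  have r4 : Reg Kf Q X := hreg.mono hKpos (by linarith)
  have r5 : Reg Kq Q X := hreg.mono hKpos (by linarith)
  have r6 : Reg Ke Q X := hreg.mono hKpos (by linarith)
  have r7 : Reg 30 Q X := hreg.mono hKpos (by linarith)
  have r8 : Reg Kg Q X := hreg.mono hKpos (by linarith)
  have r9 : Reg Kb Q X := hreg.mono hKpos (by linarith)
  have hp1 : 1 ≤ p.1 := (mem_PC.1 hp).1
  set L : ℝ := Real.log X with hL
  have hL1 : 1 ≤ L := r7.logX_ge_one (by norm_num)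
  have hL0 : 0 < L := by linarith
  have hQ10 : (30 : ℝ) ≤ Q := r7.Q_ge (by norm_num)
  have hQ0 : (0 : ℝ) < Q := by linarith
  have hQ1 : 1 ≤ Q := r7.Q_pos (by norm_num)
  have hQ1' : (1 : ℝ) ≤ Q := by linarith
  have hQ2 : 2 ≤ Q := by
    have : (2 : ℝ) ≤ Q := by linarith
    exact_mod_cast this
  have hX1 : 1 ≤ X := r7.X_pos (by norm_num)
  obtain ⟨α, hα, hdec⟩ := hKd Q X r1
  set T : ℝ := (Q : ℝ) ^ 7 with hT
  have hT0 : 0 < T := by positivity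
  obtain ⟨s, hs⟩ : ∃ s : ℝ, s = sw Kf Q X := ⟨_, rfl⟩
  have hs0 : 0 < s := by rw [hs]; exact sw_pos _ _ _ hQ1
  have hs1 : s ≤ 1 := by rw [hs]; exact XD2C_sw_le_one hKf1 r4
  obtain ⟨r, hr⟩ : ∃ r : ℝ, r = s ^ (1 / 3 : ℝ) := ⟨_, rfl⟩
  have hr0 : 0 < r := by rw [hr]; positivity
  have hr1 : r ≤ 1 := by rw [hr]; exact Real.rpow_le_one hs0.le hs1 (by norm_num)
  have hrs : s = r ^ 3 := by
    rw [hr, ← Real.rpow_natCast, ← Real.rpow_mul hs0.le]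
    norm_num
  obtain ⟨T₁, hT₁⟩ : ∃ T₁ : ℝ, T₁ = max 8 r⁻¹ := ⟨_, rfl⟩
  have hT₁8 : 8 ≤ T₁ := by rw [hT₁]; exact le_max_left _ _
  have hT₁0 : 0 < T₁ := by linarith
  have hT₁r : r⁻¹ ≤ T₁ := by rw [hT₁]; exact le_max_right _ _
  have hrinv : 1 ≤ r⁻¹ := (one_le_inv₀ hr0).2 hr1
  have hT₁le : T₁ ≤ 8 * r⁻¹ := by
    rw [hT₁]
    exact max_le (by linarith) (by linarith)
  have hT₁T : T₁ ≤ T := by
    rw [hT₁]
    refine max_le ?_ ?_
    · rw [hT]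
      have : (Q : ℝ) ≤ (Q : ℝ) ^ 7 := le_self_pow₀ hQ1' (by norm_num)
      linarith
    · have h1 : (Q : ℝ) ^ (-(1 / Kf)) ≤ s := by
        rw [hs]
        unfold sw
        have := Real.exp_pos (-(Real.log X / (Kf * Real.log Q)))
        linarith
      have h2 : (Q : ℝ)⁻¹ ≤ s := by
        refine le_trans ?_ h1
        rw [← Real.rpow_neg_one]
        refine Real.rpow_le_rpow_of_exponent_le hQ1' ?_
        have : 1 / Kf ≤ 1 := (div_le_one (by linarith)).2 hKf1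
        linarith
      have h3 : s ≤ r := by
        rw [hrs]
        calc r ^ 3 ≤ r ^ 1 := pow_le_pow_of_le_one hr0.le hr1 (by norm_num)
          _ = r := pow_one r
      have h4 : r⁻¹ ≤ Q := by
        rw [inv_le_comm₀ hr0 hQ0]
        exact h2.trans h3
      have : (Q : ℝ) ≤ (Q : ℝ) ^ 7 := le_self_pow₀ hQ1' (by norm_num)
      rw [hT]
      linarith
  have hL7 : 1 ≤ L ^ (7 : ℝ) := Real.one_le_rpow hL1 (by norm_num)
  have hcF : Continuous (fun t => ‖FF X (fun m => (hmain Q X m : ℂ) * p.2 (m : ZMod p.1)) t‖) :=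
    (main_cont_FF X _).norm
  have hcL : Continuous (fun t => ‖FL X p t + Fb X β t‖) :=
    ((main_cont_FF X _).add (main_cont_FF X _)).norm
  obtain ⟨u, hu⟩ : ∃ u : ℝ, u = 3 * L ^ (7 : ℝ) * (Q : ℝ) ^ (-11 : ℝ) := ⟨_, rfl⟩
  have hu0 : 0 ≤ u := by rw [hu]; positivity
  -- pointwise bound at high frequencies
  have key : ∀ t : ℝ, T₁ ≤ |t| → |t| ≤ T → ‖FL X p t + Fb X β t‖ ≤
      ‖FF X (fun m => (hmain Q X m : ℂ) * p.2 (m : ZMod p.1)) t‖ + u +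
        (2 * Cb / T₁ ^ 2) * (1 + (t / T₁) ^ 2)⁻¹ := by
    intro t ht1 ht
    have hE0 : (0 : ℝ) ≤ (Q : ℝ) ^ (-11 : ℝ) := by positivity
    have h1 := d2b_long Q X α _ _ hE0 hα p t
      (fun j hj a ha => hKl Q X r2 p hp hpp j hj a ha t ht)
    have h2 : ‖Fb X β t‖ ≤ Cb / (1 + t ^ 2) + (Q : ℝ) ^ (-11 : ℝ) := by
      refine hKb Q X r9 β hβ hβ1.le t (ht.trans ?_)
      rw [hT]
      exact pow_le_pow_right₀ hQ1' (by norm_num)
    have h3 : ‖FL X p t‖ ≤ ‖FF X (fun m => (hmain Q X m : ℂ) * p.2 (m : ZMod p.1)) t‖ +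
        2 * (L ^ (7 : ℝ) * (Q : ℝ) ^ (-11 : ℝ)) := by
      rw [hdec p hp1 t]
      exact (norm_add_le _ _).trans (add_le_add le_rfl h1)
    have h4 : Cb / (1 + t ^ 2) ≤ (2 * Cb / T₁ ^ 2) * (1 + (t / T₁) ^ 2)⁻¹ := by
      have e : (2 * Cb / T₁ ^ 2) * (1 + (t / T₁) ^ 2)⁻¹ = 2 * Cb / (T₁ ^ 2 + t ^ 2) := by
        field_simp
      rw [e, div_le_div_iff₀ (by positivity) (by positivity)]
      have : T₁ ^ 2 ≤ t ^ 2 := by
        rw [← sq_abs t]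
        exact pow_le_pow_left₀ hT₁0.le ht1 2
      exact XD2C_aux1 Cb (T₁ ^ 2) (t ^ 2) (by linarith) this
    have h5 : (Q : ℝ) ^ (-11 : ℝ) ≤ L ^ (7 : ℝ) * (Q : ℝ) ^ (-11 : ℝ) :=
      le_mul_of_one_le_left hE0 hL7
    have h6 := norm_add_le (FL X p t) (Fb X β t)
    rw [hu]
    linarith
  -- splitting
  have hB0 : 0 ≤ 2 * Cb / T₁ ^ 2 := by positivity
  have hint : ∀ a b : ℝ, IntervalIntegrable (fun t => ‖FL X p t + Fb X β t‖) volume a b :=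
    fun a b => hcL.intervalIntegrable a b
  have hsplit : ∫ t in (-T)..T, ‖FL X p t + Fb X β t‖ =
      (∫ t in (-T)..(-T₁), ‖FL X p t + Fb X β t‖) +
      (∫ t in (-T₁)..T₁, ‖FL X p t + Fb X β t‖) +
      ∫ t in T₁..T, ‖FL X p t + Fb X β t‖ := by
    rw [intervalIntegral.integral_add_adjacent_intervals (hint _ _) (hint _ _),
      intervalIntegral.integral_add_adjacent_intervals (hint _ _) (hint _ _)]
  have hlow : ∫ t in (-T₁)..T₁, ‖FL X p t + Fb X β t‖ ≤ 256 * r := by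
    have h1 : ∫ t in (-T₁)..T₁, ‖FL X p t + Fb X β t‖ ≤ ∫ _t in (-T₁)..T₁, (1 + T₁) * s := by
      refine intervalIntegral.integral_mono_on (by linarith) (hint _ _)
        (continuous_const.intervalIntegrable _ _) fun t ht => ?_
      have h2 := hKf Q X r4 p hp1 β hβ hβ1 hlog t
      rw [← hs] at h2
      refine h2.trans ?_
      have : |t| ≤ T₁ := abs_le.2 ⟨ht.1, ht.2⟩
      gcongr
    refine h1.trans ?_
    rw [intervalIntegral.integral_const, smul_eq_mul]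
    have h3 : (T₁ - -T₁) * ((1 + T₁) * s) ≤ 4 * T₁ ^ 2 * s := by
      have : (T₁ - -T₁) * ((1 + T₁) * s) = 2 * T₁ * (1 + T₁) * s := by ring
      rw [this]
      have h4 : 2 * T₁ * (1 + T₁) ≤ 4 * T₁ ^ 2 := XD2C_aux2 T₁ (by linarith)
      gcongr
    refine h3.trans ?_
    have h5 : T₁ ^ 2 ≤ (8 * r⁻¹) ^ 2 := by gcongr
    calc 4 * T₁ ^ 2 * s ≤ 4 * (8 * r⁻¹) ^ 2 * s := by gcongr
      _ = 256 * r := by
        rw [hrs]
        field_simp
        norm_num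
  have hhi1 := XD2C_part (T := T) (u := u) hcL hcF (show T₁ ≤ T from hT₁T) (by linarith) le_rfl
    hT₁0 hB0 (fun t ht => key t (by rw [abs_of_nonneg (by linarith [ht.1])]; exact ht.1)
      (by rw [abs_of_nonneg (by linarith [ht.1])]; exact ht.2))
  have hhi2 := XD2C_part (T := T) (u := u) hcL hcF (show -T ≤ -T₁ by linarith) le_rfl
    (by linarith) hT₁0 hB0
    (fun t ht => key t (by rw [abs_of_nonpos (by linarith [ht.2])]; linarith [ht.2])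
      (by rw [abs_of_nonpos (by linarith [ht.2])]; linarith [ht.1]))
  have hmain := hKm Q X r3 p hp hhigh T₁ hT₁8 hT₁T
  -- `T₁^(-1/2) ≤ s^(1/6)`
  obtain ⟨w, hw⟩ : ∃ w : ℝ, w = s ^ (1 / 6 : ℝ) := ⟨_, rfl⟩
  have hw0 : 0 < w := by rw [hw]; positivity
  have hw1 : w ≤ 1 := by rw [hw]; exact Real.rpow_le_one hs0.le hs1 (by norm_num)
  have hwr : r = w ^ 2 := by
    rw [hr, hw, ← Real.rpow_natCast, ← Real.rpow_mul hs0.le]
    norm_num
  have hT₁half : T₁ ^ (-(1 / 2) : ℝ) ≤ w := by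
    have h1 : T₁ ^ (-(1 / 2) : ℝ) ≤ (r⁻¹) ^ (-(1 / 2) : ℝ) :=
      Real.rpow_le_rpow_of_nonpos (by positivity) hT₁r (by norm_num)
    refine h1.trans (le_of_eq ?_)
    rw [Real.rpow_neg (by positivity), ← Real.inv_rpow (by positivity), inv_inv, hwr,
      ← Real.sqrt_eq_rpow, Real.sqrt_sq hw0.le]
  have hrw : r ≤ w := by
    rw [hwr, sq]
    exact mul_le_of_le_one_left hw0.le hw1
  have hinvT : 2 * Cb / T₁ ^ 2 * (Real.pi * T₁) ≤ 2 * Real.pi * Cb * w := by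
    have e : 2 * Cb / T₁ ^ 2 * (Real.pi * T₁) = 2 * Real.pi * Cb * T₁⁻¹ := by
      field_simp
    rw [e]
    have h1 : T₁⁻¹ ≤ r := by
      rw [inv_le_comm₀ hT₁0 hr0]
      exact hT₁r
    have h2 : T₁⁻¹ ≤ w := h1.trans hrw
    gcongr
  have hKmM : sw Km Q X ≤ sw M Q X := sw_mono (by linarith) (by rw [hM]; linarith) hQ1
  have hKqM : sw Kq Q X ≤ sw M Q X := sw_mono (by linarith) (by rw [hM]; linarith) hQ1
  have hKeM : sw Ke Q X ≤ sw M Q X := sw_mono (by linarith) (by rw [hM]; linarith) hQ1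
  have hpart2 : 2 * T * u ≤ sw M Q X := by
    refine le_trans (le_of_eq ?_) ((hKq Q X r5).trans hKqM)
    have e1 : (Q : ℝ) ^ (-4 : ℝ) = T * (Q : ℝ) ^ (-11 : ℝ) := by
      rw [hT, ← Real.rpow_natCast, ← Real.rpow_add hQ0]
      norm_num
    rw [e1, hu]
    ring
  have hpart3 : 256 * r + L ^ (15 : ℝ) * T₁ ^ (-(1 / 2) : ℝ) +
      2 * (2 * Cb / T₁ ^ 2 * (Real.pi * T₁)) ≤ sw M Q X := by
    refine le_trans ?_ ((hKe Q X r6).trans hKeM)
    have h2 : w ≤ sw (Kf / (1 / 6)) Q X := by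
      rw [hw, hs]
      exact sw_rpow Kf (1 / 6) (by linarith) (by norm_num) (by norm_num) Q X hQ2
    have hL15 : 1 ≤ L ^ (15 : ℝ) := Real.one_le_rpow hL1 (by norm_num)
    have h3 : L ^ (15 : ℝ) * T₁ ^ (-(1 / 2) : ℝ) ≤ L ^ (15 : ℝ) * w := by gcongr
    have h4 : 256 * r ≤ 256 * (L ^ (15 : ℝ) * w) := by
      have : w ≤ L ^ (15 : ℝ) * w := le_mul_of_one_le_left hw0.le hL15
      linarith
    have h5 : 4 * Real.pi * Cb * w ≤ 4 * Real.pi * Cb * (L ^ (15 : ℝ) * w) := by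
      have : w ≤ L ^ (15 : ℝ) * w := le_mul_of_one_le_left hw0.le hL15
      gcongr
    calc 256 * r + L ^ (15 : ℝ) * T₁ ^ (-(1 / 2) : ℝ) + 2 * (2 * Cb / T₁ ^ 2 * (Real.pi * T₁))
        ≤ (257 + 4 * Real.pi * Cb) * L ^ (15 : ℝ) * w := by linarith
      _ ≤ (257 + 4 * Real.pi * Cb) * L ^ (15 : ℝ) * sw (Kf / (1 / 6)) Q X := by gcongr
  have hfin := hKg Q X r8
  rw [Real.rpow_zero, mul_one] at hfin
  have hlast : sw Kg Q X ≤ sw (Kg + |Kd| + |Kl| + Kb + Km + Kf + Kq + Ke + 30) Q X :=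
    sw_mono (by linarith) (by linarith) hQ1
  have hu2 : (T - T₁) * u + (-T₁ - -T) * u ≤ 2 * T * u := XD2C_aux3 T T₁ u hT₁0.le hu0
  rw [hsplit]
  linarith

end Pool.Agent.Lib.H68T
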