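import Pool.Agent.Lib.H68X.XDefs
import Pool.Agent.Lib.H68T.CQ
import Pool.Agent.Lib.H68T.GAM

/-!
# Chunk XG1: the model at integers coprime to `W`
-/

open Finset

namespace Pool.Agent.Lib.H68T

/-! ### auxiliary lemmas -/

theorem XG1_eq (f g : ArithmeticFunction ℝ) (hf : f.IsMultiplicative) (hg : g.IsMultiplicative)
    {n : ℕ} (hn : n ≠ 0) (h : ∀ p ∈ n.primeFactors, ∀ k, 1 ≤ k → f (p ^ k) = g (p ^ k)) :
    f n = g n := by
  rw [hf.multiplicative_factorization f hn, hg.multiplicative_factorization g hn]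
  refine Finset.prod_congr rfl fun p hp => ?_
  have hp' : p ∈ n.primeFactors := by simpa using hp
  refine h p hp' _ ?_
  rw [Nat.mem_primeFactors] at hp'
  exact (hp'.1.dvd_iff_one_le_factorization hn).1 hp'.2.1

theorem XG1_F_nsq (r : ℕ) (m : ℤ) {n : ℕ} (hn : ¬ Squarefree n) : GAM_F r m n = 0 := by
  rcases Nat.eq_zero_or_pos n with rfl | hpos
  · simp
  have hn0 : n ≠ 0 := by omega
  rw [(GAM_F_mult r m).multiplicative_factorization _ hn0]
  rw [Nat.squarefree_iff_factorization_le_one hn0] at hn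
  push Not at hn
  obtain ⟨p, hp⟩ := hn
  have hpn : p ∈ n.primeFactors := by
    rw [← Nat.support_factorization, Finsupp.mem_support_iff]
    omega
  refine Finset.prod_eq_zero (i := p) (by rwa [Nat.support_factorization]) ?_
  obtain ⟨k, hk⟩ := Nat.exists_eq_add_of_le (show 2 ≤ n.factorization p by omega)
  change GAM_F r m (p ^ n.factorization p) = 0
  rw [hk, add_comm 2 k]
  exact GAM_F_prime_pow r m p k (Nat.prime_of_mem_primeFactors hpn)

theorem XG1_F1 (m : ℤ) (q : ℕ) : GAM_F 1 m q =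
    (ArithmeticFunction.moebius q : ℝ) / (Nat.totient q : ℝ) * cq q m := by
  rw [GAM_identity, ArithmeticFunction.pdiv_apply, ArithmeticFunction.pmul_apply, GAM_c_apply,
    ArithmeticFunction.intCoe_apply]
  change _ / ((Nat.totient q : ℕ) : ℝ) = _
  ring

/-- `μ²/φ` -/
noncomputable def XG1_K : ArithmeticFunction ℝ :=
  (((ArithmeticFunction.moebius : ArithmeticFunction ℤ) : ArithmeticFunction ℝ).pmul
    ((ArithmeticFunction.moebius : ArithmeticFunction ℤ) : ArithmeticFunction ℝ)).pdiv GAM_phi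

theorem XG1_K_apply (n : ℕ) : XG1_K n =
    (ArithmeticFunction.moebius n : ℝ) ^ 2 / (Nat.totient n : ℝ) := by
  unfold XG1_K
  rw [ArithmeticFunction.pdiv_apply, ArithmeticFunction.pmul_apply,
    ArithmeticFunction.intCoe_apply]
  change _ / ((Nat.totient n : ℕ) : ℝ) = _
  ring

theorem XG1_K_mult : XG1_K.IsMultiplicative :=
  (ArithmeticFunction.isMultiplicative_moebius.intCast.pmul
    ArithmeticFunction.isMultiplicative_moebius.intCast).pdiv GAM_phi_mult

theorem XG1_not_dvd {n p : ℕ} {m : ℤ} (h : IsCoprime (n : ℤ) m) (hp : p ∈ n.primeFactors) :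
    ¬ (p : ℤ) ∣ m := by
  rw [Nat.mem_primeFactors] at hp
  have h1 : IsCoprime (p : ℤ) m := by
    obtain ⟨k, hk⟩ := hp.2.1
    rw [hk, Nat.cast_mul, IsCoprime.mul_left_iff] at h
    exact h.1
  exact (Nat.prime_iff_prime_int.mp hp.1).coprime_iff_not_dvd.1 h1

theorem XG1_F_cop (r : ℕ) (m : ℤ) {n : ℕ} (hn : n ≠ 0) (hm : IsCoprime (n : ℤ) m)
    (hr : Nat.Coprime n r) : GAM_F r m n = XG1_K n := by
  refine XG1_eq _ _ (GAM_F_mult r m) XG1_K_mult hn fun p hp k hk => ?_
  have hpp := Nat.prime_of_mem_primeFactors hp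
  have h1 := XG1_not_dvd hm hp
  have h2 : ¬ p ∣ r := fun h => by
    have := Nat.dvd_gcd (Nat.dvd_of_mem_primeFactors hp) h
    rw [hr] at this
    exact hpp.one_lt.ne' (Nat.dvd_one.1 this)
  rcases Nat.lt_or_ge 1 k with hk1 | hk1
  · obtain ⟨j, hj⟩ := Nat.exists_eq_add_of_le (show 2 ≤ k by omega)
    rw [hj, add_comm 2 j, GAM_F_prime_pow _ _ _ _ hpp, XG1_K_apply,
      ArithmeticFunction.moebius_apply_prime_pow hpp (by omega), if_neg (by omega)]
    simp
  · have hk' : k = 1 := by omega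
    rw [hk', pow_one, GAM_F_prime _ _ _ hpp, if_neg h1, if_neg h2, XG1_K_apply,
      ArithmeticFunction.moebius_apply_prime hpp, Nat.totient_prime hpp,
      Nat.cast_sub hpp.one_lt.le]
    norm_num

theorem XG1_F_ncop (r : ℕ) (m : ℤ) {n : ℕ} (hn : n ≠ 0) (hm : IsCoprime (n : ℤ) m)
    (hr : ¬ Nat.Coprime n r) : GAM_F r m n = 0 := by
  obtain ⟨p, hp, h1, h2⟩ := Nat.Prime.not_coprime_iff_dvd.1 hr
  have hpn : p ∈ n.primeFactors := Nat.mem_primeFactors.2 ⟨hp, h1, hn⟩
  rw [(GAM_F_mult r m).multiplicative_factorization _ hn]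
  refine Finset.prod_eq_zero (i := p) (by rwa [Nat.support_factorization]) ?_
  change GAM_F r m (p ^ n.factorization p) = 0
  have hk : 1 ≤ n.factorization p := (hp.dvd_iff_one_le_factorization hn).1 h1
  rcases Nat.lt_or_ge 1 (n.factorization p) with hk1 | hk1
  · obtain ⟨j, hj⟩ := Nat.exists_eq_add_of_le (show 2 ≤ n.factorization p by omega)
    rw [hj, add_comm 2 j, GAM_F_prime_pow _ _ _ _ hp]
  · have hk' : n.factorization p = 1 := by omega
    rw [hk', pow_one, GAM_F_prime _ _ _ hp, if_neg (XG1_not_dvd hm hpn), if_pos h2]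

theorem XG1_F_r (r : ℕ) (m : ℤ) {n : ℕ} (hn : n ≠ 0) (hr : Nat.Coprime n r) :
    GAM_F r m n = GAM_F 1 m n := by
  refine XG1_eq _ _ (GAM_F_mult r m) (GAM_F_mult 1 m) hn fun p hp k hk => ?_
  have hpp := Nat.prime_of_mem_primeFactors hp
  have h2 : ¬ p ∣ r := fun h => by
    have := Nat.dvd_gcd (Nat.dvd_of_mem_primeFactors hp) h
    rw [hr] at this
    exact hpp.one_lt.ne' (Nat.dvd_one.1 this)
  have h3 : ¬ p ∣ 1 := fun h => hpp.one_lt.ne' (Nat.dvd_one.1 h)
  rcases Nat.lt_or_ge 1 k with hk1 | hk1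
  · obtain ⟨j, hj⟩ := Nat.exists_eq_add_of_le (show 2 ≤ k by omega)
    rw [hj, add_comm 2 j, GAM_F_prime_pow _ _ _ _ hpp, GAM_F_prime_pow _ _ _ _ hpp]
  · have hk' : k = 1 := by omega
    rw [hk', pow_one, GAM_F_prime _ _ _ hpp, GAM_F_prime _ _ _ hpp, if_neg h2, if_neg h3]

/-- splitting off the part dividing `W` -/
theorem XG1_split (f : ArithmeticFunction ℝ) (hf : f.IsMultiplicative)
    (hsq : ∀ n, ¬ Squarefree n → f n = 0) (Q W : ℕ) (hW : 0 < W) :
    ∑ q ∈ Icc 1 Q, f q = ∑ q ∈ QW Q W, f q *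
      ∑ w ∈ W.divisors.filter (fun w => w * q ≤ Q), f w := by
  have h1 : ∑ q ∈ Icc 1 Q, f q = ∑ q ∈ (Icc 1 Q).filter Squarefree, f q := by
    rw [Finset.sum_filter]
    refine Finset.sum_congr rfl fun q _ => ?_
    split_ifs with h
    · rfl
    · exact hsq q h
  have h2 : ∑ q ∈ QW Q W, f q * ∑ w ∈ W.divisors.filter (fun w => w * q ≤ Q), f w =
      ∑ x ∈ ((QW Q W) ×ˢ W.divisors).filter
        (fun x => x.2 * x.1 ≤ Q ∧ Squarefree (x.2 * x.1)), f (x.2 * x.1) := by
    rw [Finset.sum_filter, Finset.sum_product]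
    refine Finset.sum_congr rfl fun q hq => ?_
    rw [Finset.mul_sum, Finset.sum_filter]
    refine Finset.sum_congr rfl fun w hw => ?_
    have hqW : Nat.Coprime q W := (mem_filter.1 hq).2
    have hwW : w ∣ W := (Nat.mem_divisors.1 hw).1
    have hwq : Nat.Coprime w q := (Nat.Coprime.coprime_dvd_right hwW hqW).symm
    simp only
    by_cases h3 : w * q ≤ Q
    · by_cases h4 : Squarefree (w * q)
      · rw [if_pos h3, if_pos ⟨h3, h4⟩, hf.map_mul_of_coprime hwq, mul_comm]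
      · rw [if_pos h3, if_neg (fun h => h4 h.2), mul_comm, ← hf.map_mul_of_coprime hwq,
          hsq _ h4]
    · rw [if_neg h3, if_neg (fun h => h3 h.1)]
  rw [h1, h2]
  refine Finset.sum_nbij' (fun q => (q / Nat.gcd q W, Nat.gcd q W)) (fun x => x.2 * x.1)
    ?_ ?_ ?_ ?_ ?_
  · intro q hq
    rw [mem_filter, mem_Icc] at hq
    obtain ⟨⟨hq1, hq2⟩, hq3⟩ := hq
    have hg0 : 0 < Nat.gcd q W := Nat.gcd_pos_of_pos_left _ (by omega)
    have hmul : Nat.gcd q W * (q / Nat.gcd q W) = q := Nat.mul_div_cancel' (Nat.gcd_dvd_left _ _)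
    have hq0 : 0 < q / Nat.gcd q W := Nat.div_pos (Nat.gcd_le_left _ (by omega)) hg0
    have hle : q / Nat.gcd q W ≤ Q := (Nat.div_le_self _ _).trans hq2
    have hcop : Nat.Coprime (q / Nat.gcd q W) W := by
      rw [Nat.coprime_iff_gcd_eq_one]
      by_contra hne
      obtain ⟨p, hp, hpd⟩ := Nat.exists_prime_and_dvd hne
      have h5 : p ∣ q / Nat.gcd q W := hpd.trans (Nat.gcd_dvd_left _ _)
      have h6 : p ∣ W := hpd.trans (Nat.gcd_dvd_right _ _)
      have h7 : p ∣ q := h5.trans (Nat.div_dvd_of_dvd (Nat.gcd_dvd_left _ _))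
      have h8 : p ∣ Nat.gcd q W := Nat.dvd_gcd h7 h6
      have h9 : p * p ∣ q := by
        rw [← hmul]
        exact Nat.mul_dvd_mul h8 h5
      have := hq3 p h9
      exact hp.one_lt.ne' (Nat.isUnit_iff.1 this)
    rw [mem_filter, mem_product]
    refine ⟨⟨?_, ?_⟩, ?_, ?_⟩
    · unfold QW
      rw [mem_filter, mem_Icc]
      exact ⟨⟨hq0, hle⟩, hcop⟩
    · exact Nat.mem_divisors.2 ⟨Nat.gcd_dvd_right _ _, hW.ne'⟩
    · simp only [hmul]
      exact hq2
    · simp only [hmul]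
      exact hq3
  · intro x hx
    rw [mem_filter, mem_product] at hx
    obtain ⟨⟨h3, h4⟩, h5, h6⟩ := hx
    rw [mem_filter, mem_Icc]
    exact ⟨⟨Nat.pos_of_ne_zero h6.ne_zero, h5⟩, h6⟩
  · intro q hq
    exact Nat.mul_div_cancel' (Nat.gcd_dvd_left _ _)
  · rintro ⟨a, w⟩ hx
    rw [mem_filter, mem_product] at hx
    obtain ⟨⟨h3, h4⟩, h5, h6⟩ := hx
    unfold QW at h3
    rw [mem_filter] at h3
    simp only at h3 h4 h5 h6 ⊢
    have hw0 : 0 < w := Nat.pos_of_mem_divisors h4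
    have hg : Nat.gcd (w * a) W = w := by
      rw [Nat.Coprime.gcd_mul_right_cancel w h3.2]
      exact Nat.gcd_eq_left (Nat.mem_divisors.1 h4).1
    rw [hg, Nat.mul_div_cancel_left _ hw0]
  · intro q hq
    congr 1
    exact (Nat.mul_div_cancel' (Nat.gcd_dvd_left _ _)).symm

theorem XG1_cop_of_dvd {w W : ℕ} {m : ℤ} (h : w ∣ W) (hm : IsCoprime m (W : ℤ)) :
    IsCoprime (w : ℤ) m :=
  (IsCoprime.of_isCoprime_of_dvd_right hm (Int.natCast_dvd_natCast.2 h)).symm

/-- Every squarefree `q ≤ Q` is `q' w` with `w = gcd(q, W)` (squarefree, divides `W`) and `q'` coprime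
to `W`; `c_q = c_{q'} c_w`, `c_w(m) = μ(w)` for `(m, w) = 1` (`cq_squarefree`), `μ(q) = μ(q') μ(w)`,
`φ(q) = φ(q') φ(w)`. -/
theorem G_coprime (Q W : ℕ) (hW : 0 < W) (m : ℤ) (hm : IsCoprime m (W : ℤ)) :
    G Q m = ∑ q ∈ QW Q W, (ArithmeticFunction.moebius q : ℝ) / (Nat.totient q : ℝ) * cq q m *
      TW Q W q := by
  have h1 : G Q m = ∑ q ∈ Icc 1 Q, GAM_F 1 m q := by
    unfold G
    exact Finset.sum_congr rfl fun q _ => (XG1_F1 m q).symm
  rw [h1, XG1_split _ (GAM_F_mult 1 m) (fun n hn => XG1_F_nsq 1 m hn) Q W hW]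
  refine Finset.sum_congr rfl fun q _ => ?_
  rw [XG1_F1]
  congr 1
  unfold TW
  refine Finset.sum_congr rfl fun w hw => ?_
  rw [mem_filter] at hw
  have hw0 := (Nat.pos_of_mem_divisors hw.1).ne'
  rw [XG1_F_cop 1 m hw0 (XG1_cop_of_dvd (Nat.mem_divisors.1 hw.1).1 hm) (Nat.coprime_one_right w),
    XG1_K_apply]

/-- The same for `Γ_r`, `r ∣ W`. By the computation in the docstring of `abs_Gam_le`
(file `H68T/GAM2.lean`; see the auxiliary lemmas there): for `(m, r) = 1` and `q = r q'` the inner sum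
`∑_{d ∣ q, r ∣ d, (d,m)=1} μ(q/d) d/φ(d)` is `(r/φ(r)) μ(q') c_{q'}(m)/φ(q')` if `q'` is squarefree and
coprime to `r`, and `0` otherwise. Then write `q' = q'' w` with `w = gcd(q', W)` (coprime to `r`) as in
`G_coprime`. -/
theorem Gam_coprime (Q W r : ℕ) (hW : 0 < W) (hr : r ∣ W) (m : ℤ)
    (hm : IsCoprime m (W : ℤ)) :
    Gam Q r m = ∑ q ∈ QW Q W, (ArithmeticFunction.moebius q : ℝ) / (Nat.totient q : ℝ) *
      cq q m * TWr Q W r q := by
  have hr0 : 0 < r := Nat.pos_of_dvd_of_pos hr hW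
  have hrm : IsCoprime (r : ℤ) m := XG1_cop_of_dvd hr hm
  have himg : (Icc 1 Q).filter (fun q => r ∣ q) = (Icc 1 (Q / r)).image (fun q => r * q) := by
    ext q
    simp only [mem_filter, mem_Icc, mem_image]
    constructor
    · rintro ⟨⟨h1, h2⟩, ⟨e, rfl⟩⟩
      refine ⟨e, ⟨?_, ?_⟩, rfl⟩
      · rcases Nat.eq_zero_or_pos e with rfl | h
        · simp at h1
        · exact h
      · rw [Nat.le_div_iff_mul_le (by omega), mul_comm]
        exact h2
    · rintro ⟨e, ⟨h1, h2⟩, rfl⟩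
      refine ⟨⟨Nat.mul_pos (by omega) (by omega), ?_⟩, Dvd.intro _ rfl⟩
      rw [Nat.le_div_iff_mul_le (by omega), mul_comm] at h2
      exact h2
  have hGam : Gam Q r m = (r : ℝ) / Nat.totient r * ∑ q ∈ Icc 1 (Q / r), GAM_F r m q := by
    unfold Gam
    rw [himg, Finset.sum_image (fun a _ b _ h => Nat.eq_of_mul_eq_mul_left (by omega) h),
      Finset.mul_sum]
    refine Finset.sum_congr rfl (fun q hq => ?_)
    rw [mem_Icc] at hq
    exact GAM_inner r m hr0.ne' hrm q (by omega)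
  rw [hGam, XG1_split _ (GAM_F_mult r m) (fun n hn => XG1_F_nsq r m hn) (Q / r) W hW,
    Finset.mul_sum]
  have hsub : QW (Q / r) W ⊆ QW Q W := by
    unfold QW
    refine Finset.filter_subset_filter _ (Finset.Icc_subset_Icc_right (Nat.div_le_self _ _))
  rw [← Finset.sum_subset hsub]
  · refine Finset.sum_congr rfl fun q hq => ?_
    unfold QW at hq
    rw [mem_filter, mem_Icc] at hq
    have hqr : Nat.Coprime q r := Nat.Coprime.coprime_dvd_right hr hq.2
    rw [XG1_F_r r m (by omega) hqr, XG1_F1]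
    have hsum : ∑ w ∈ W.divisors.filter (fun w => w * q ≤ Q / r), GAM_F r m w =
        ∑ w ∈ W.divisors.filter (fun w => Nat.Coprime w r ∧ w * r * q ≤ Q),
          (ArithmeticFunction.moebius w : ℝ) ^ 2 / (Nat.totient w : ℝ) := by
      rw [Finset.sum_filter, Finset.sum_filter]
      refine Finset.sum_congr rfl fun w hw => ?_
      have hw0 := (Nat.pos_of_mem_divisors hw).ne'
      have hwm := XG1_cop_of_dvd (Nat.mem_divisors.1 hw).1 hm
      have hiff : w * q ≤ Q / r ↔ w * r * q ≤ Q := by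
        rw [Nat.le_div_iff_mul_le hr0]
        have : w * q * r = w * r * q := by ring
        rw [this]
      by_cases h1 : Nat.Coprime w r
      · by_cases h2 : w * q ≤ Q / r
        · rw [if_pos h2, if_pos ⟨h1, hiff.1 h2⟩, XG1_F_cop r m hw0 hwm h1, XG1_K_apply]
        · rw [if_neg h2, if_neg (fun h => h2 (hiff.2 h.2))]
      · rw [XG1_F_ncop r m hw0 hwm h1, ite_self]
        exact (if_neg (fun h : _ ∧ _ => h1 h.1)).symm
    rw [hsum]
    unfold TWr
    ring
  · intro q hq hnq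
    unfold QW at hq hnq
    rw [mem_filter, mem_Icc] at hq hnq
    have h1 : Q / r < q := by
      by_contra hc
      exact hnq ⟨⟨hq.1.1, by omega⟩, hq.2⟩
    have h2 : TWr Q W r q = 0 := by
      unfold TWr
      rw [Finset.filter_false_of_mem, Finset.sum_empty, mul_zero]
      rintro w hw ⟨-, h3⟩
      have hw0 := Nat.pos_of_mem_divisors hw
      rw [Nat.div_lt_iff_lt_mul hr0] at h1
      have h4 : 1 * (r * q) ≤ w * (r * q) := Nat.mul_le_mul_right _ hw0
      have h5 : w * r * q = w * (r * q) := by ring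
      have h6 : q * r = r * q := by ring
      omega
    rw [h2, mul_zero]

end Pool.Agent.Lib.H68T
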