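import Pool.Agent.Lib.H68X.XDefs
import Pool.Agent.Lib.H68T.CQ
import Pool.Agent.Lib.H68T.CG1

/-!
# Chunk XPAIR: correlations of weighted Ramanujan expansions along a class
-/

open Finset

namespace Pool.Agent.Lib.H68T

/-- Abel summation: a bounded monotone weight costs a factor `2`: if all partial sums of `g` over
`[0, N)`, `N ≤ M`, are at most `E` in norm, and `a` is antitone or monotone with values in `[0, D]`,
then `‖∑_{c<M} a c g c‖ ≤ 2 D E`. -/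
theorem weighted_sum (M : ℕ) (a : ℕ → ℝ) (g : ℕ → ℂ) (D E : ℝ) (hD : 0 ≤ D)
    (hE : ∀ N ≤ M, ‖∑ c ∈ range N, g c‖ ≤ E) (ha0 : ∀ c, 0 ≤ a c) (haD : ∀ c, a c ≤ D)
    (hmon : Antitone a ∨ Monotone a) :
    ‖∑ c ∈ range M, (a c : ℂ) * g c‖ ≤ 2 * D * E := by
  have hE0 : 0 ≤ E := (norm_nonneg _).trans (hE 0 (Nat.zero_le _))
  rcases Nat.eq_zero_or_pos M with h0 | hM
  · subst h0
    simp only [range_zero, sum_empty, norm_zero]
    positivity
  have h1 := Finset.sum_range_by_parts (fun c => (a c : ℂ)) g M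
  simp only [smul_eq_mul] at h1
  rw [h1]
  have h2 : ‖(a (M - 1) : ℂ) * ∑ i ∈ range M, g i‖ ≤ a (M - 1) * E := by
    rw [norm_mul, Complex.norm_real, Real.norm_eq_abs, abs_of_nonneg (ha0 _)]
    exact mul_le_mul_of_nonneg_left (hE M le_rfl) (ha0 _)
  have h3 : ‖∑ i ∈ range (M - 1), ((a (i + 1) : ℂ) - (a i : ℂ)) * ∑ j ∈ range (i + 1), g j‖ ≤
      (∑ i ∈ range (M - 1), |a (i + 1) - a i|) * E := by
    refine (norm_sum_le _ _).trans ?_
    rw [sum_mul]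
    apply sum_le_sum
    intro i hi
    rw [mem_range] at hi
    rw [norm_mul, ← Complex.ofReal_sub, Complex.norm_real, Real.norm_eq_abs]
    exact mul_le_mul_of_nonneg_left (hE (i + 1) (by omega)) (abs_nonneg _)
  have h4 : a (M - 1) + ∑ i ∈ range (M - 1), |a (i + 1) - a i| ≤ 2 * D := by
    rcases hmon with hm | hm
    · have h5 : ∑ i ∈ range (M - 1), |a (i + 1) - a i| = ∑ i ∈ range (M - 1), (a i - a (i + 1)) := by
        apply sum_congr rfl
        intro i _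
        rw [abs_sub_comm, abs_of_nonneg]
        have := hm (Nat.le_succ i)
        linarith
      rw [h5, sum_range_sub']
      have := haD 0
      linarith
    · have h5 : ∑ i ∈ range (M - 1), |a (i + 1) - a i| = ∑ i ∈ range (M - 1), (a (i + 1) - a i) := by
        apply sum_congr rfl
        intro i _
        rw [abs_of_nonneg]
        have := hm (Nat.le_succ i)
        linarith
      rw [h5, sum_range_sub]
      have := haD (M - 1)
      have := ha0 0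
      linarith
  calc _ ≤ a (M - 1) * E + (∑ i ∈ range (M - 1), |a (i + 1) - a i|) * E :=
        (norm_sub_le _ _).trans (add_le_add h2 h3)
    _ = (a (M - 1) + ∑ i ∈ range (M - 1), |a (i + 1) - a i|) * E := by ring
    _ ≤ 2 * D * E := mul_le_mul_of_nonneg_right h4 hE0

/-- real version of `weighted_sum` -/
theorem XPAIR_weighted (M : ℕ) (a : ℕ → ℝ) (g : ℕ → ℝ) (D E : ℝ) (hD : 0 ≤ D)
    (hE : ∀ N ≤ M, |∑ c ∈ range N, g c| ≤ E) (ha0 : ∀ c, 0 ≤ a c) (haD : ∀ c, a c ≤ D)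
    (hmon : Antitone a ∨ Monotone a) :
    |∑ c ∈ range M, a c * g c| ≤ 2 * D * E := by
  have h := weighted_sum M a (fun c => (g c : ℂ)) D E hD (fun N hN => ?_) ha0 haD hmon
  · have h1 : ∑ c ∈ range M, (a c : ℂ) * (g c : ℂ) = ((∑ c ∈ range M, a c * g c : ℝ) : ℂ) := by
      push_cast
      rfl
    rw [h1, Complex.norm_real, Real.norm_eq_abs] at h
    exact h
  · have h1 : ∑ c ∈ range N, (g c : ℂ) = ((∑ c ∈ range N, g c : ℝ) : ℂ) := by
      push_cast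
      rfl
    rw [h1, Complex.norm_real, Real.norm_eq_abs]
    exact hE N hN

theorem XPAIR_cq_one (m : ℤ) : cq 1 m = 1 := by
  unfold cq
  rw [Nat.divisors_one, filter_singleton, if_pos (by simp)]
  simp

/-- two weights -/
theorem XPAIR_two (M : ℕ) (a a' : ℕ → ℝ) (g : ℕ → ℝ) (D E : ℝ) (hD : 0 ≤ D)
    (hE : ∀ N ≤ M, |∑ c ∈ range N, g c| ≤ E) (ha0 : ∀ c, 0 ≤ a c) (haD : ∀ c, a c ≤ D)
    (hmon : Antitone a ∨ Monotone a) (ha0' : ∀ c, 0 ≤ a' c) (haD' : ∀ c, a' c ≤ D)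
    (hmon' : Antitone a' ∨ Monotone a') :
    |∑ c ∈ range M, a' c * (a c * g c)| ≤ 4 * D ^ 2 * E := by
  have h := XPAIR_weighted M a' (fun c => a c * g c) D (2 * D * E) hD (fun N hN => ?_) ha0' haD' hmon'
  · calc _ ≤ 2 * D * (2 * D * E) := h
      _ = 4 * D ^ 2 * E := by ring
  · exact XPAIR_weighted N a g D E hD (fun N' hN' => hE N' (hN'.trans hN)) ha0 haD hmon

theorem XPAIR_sum_le (Q W : ℕ) :
    ∑ q ∈ QW Q W, |(ArithmeticFunction.moebius q : ℝ) / (Nat.totient q : ℝ)| *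
      ∑ d ∈ q.divisors, (d : ℝ) ≤ (Q : ℝ) ^ 2 := by
  refine le_trans ?_ (cg1_sum_sigma Q)
  have hsub : QW Q W ⊆ Icc 1 Q := filter_subset _ _
  refine le_trans (sum_le_sum_of_subset_of_nonneg hsub (fun q _ _ => by positivity)) ?_
  apply sum_le_sum
  intro q _
  split_ifs with h
  · rw [abs_div, abs_of_nonneg (by positivity : (0 : ℝ) ≤ (Nat.totient q : ℝ)), div_mul_eq_mul_div]
    apply div_le_div_of_nonneg_right _ (by positivity)
    have := cg1_abs_moebius_le q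
    have h2 : (0 : ℝ) ≤ ∑ d ∈ q.divisors, (d : ℝ) := by positivity
    nlinarith
  · rw [ArithmeticFunction.moebius_eq_zero_of_not_squarefree h]
    simp

theorem XPAIR_mem {Q W q : ℕ} (hq : q ∈ QW Q W) : 0 < q ∧ Nat.Coprime q W ∧ q ≤ Q := by
  unfold QW at hq
  rw [mem_filter, mem_Icc] at hq
  exact ⟨hq.1.1, hq.2, hq.1.2⟩

/-- **Weighted correlations.** `m = b + W (s + c)`, `m' = b + W (s' + c)`, weights
`A q c, A' q c ∈ [0, D]`, for each `q` monotone in `c` (antitone or monotone).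

Proof (cf. `H68T/CG1.lean`). Expand `cq q1 m = ∑_{(a,q1)=1} e(a m/q1)`, `cq q2 m' = ∑ e(a' m'/q2)`
(`cq_eq_sum`). The sum over `c` of `e(W c (a/q1 + a'/q2))` over any initial segment is at most
`q1 q2/2` unless `W (a/q1 + a'/q2)` is an integer, i.e. (as `(q_i, W) = 1`, `(a, q1) = (a', q2) = 1`)
`q1 = q2` and `a' ≡ -a`. By `weighted_sum` twice (first weight `A q1`, then `A' q2`) the non-diagonal
terms contribute at most `4 D² q1 q2/2` each, with at most `q1 q2` pairs `(a, a')`, divided by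
`φ(q1) φ(q2) ≥ 1`... in total `≤ 2 D² (∑_{q ≤ Q} q²)² ≤ 2 D² Q^6`. For the diagonal terms the
sum over `a` of `e(a (m - m')/q) = e(a W (s-s')/q)` is `c_q(W (s - s')) = c_q(s - s')`. -/
theorem pair_general (Q M W b s s' : ℕ) (hW : 0 < W) (hb : Nat.Coprime b W)
    (A A' : ℕ → ℕ → ℝ) (D : ℝ) (hD : 0 ≤ D) (hA0 : ∀ q c, 0 ≤ A q c) (hAD : ∀ q c, A q c ≤ D)
    (hA0' : ∀ q c, 0 ≤ A' q c) (hAD' : ∀ q c, A' q c ≤ D)
    (hA : ∀ q, Antitone (A q) ∨ Monotone (A q)) (hA' : ∀ q, Antitone (A' q) ∨ Monotone (A' q)) :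
    |(∑ c ∈ range M,
        (∑ q ∈ QW Q W, (ArithmeticFunction.moebius q : ℝ) / (Nat.totient q : ℝ) *
          cq q ((b : ℤ) + W * (s + c : ℕ)) * A q c) *
        (∑ q ∈ QW Q W, (ArithmeticFunction.moebius q : ℝ) / (Nat.totient q : ℝ) *
          cq q ((b : ℤ) + W * (s' + c : ℕ)) * A' q c)) -
      ∑ q ∈ QW Q W, ((ArithmeticFunction.moebius q : ℝ) / (Nat.totient q : ℝ)) ^ 2 *
        cq q ((s : ℤ) - s') * ∑ c ∈ range M, A q c * A' q c| ≤ 2 * D ^ 2 * (Q : ℝ) ^ 6 := by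
  set α : ℕ → ℝ := fun q => (ArithmeticFunction.moebius q : ℝ) / (Nat.totient q : ℝ) with hα
  set x : ℕ → ℕ → ℕ → ℝ := fun q₁ q₂ c =>
    cq q₁ ((b : ℤ) + W * (s + c : ℕ)) * cq q₂ ((b : ℤ) + W * (s' + c : ℕ)) -
      (if q₁ = q₂ then cq q₁ ((s : ℤ) - s') else 0) with hx
  have hmain : (∑ c ∈ range M,
        (∑ q ∈ QW Q W, α q * cq q ((b : ℤ) + W * (s + c : ℕ)) * A q c) *
        (∑ q ∈ QW Q W, α q * cq q ((b : ℤ) + W * (s' + c : ℕ)) * A' q c)) -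
      ∑ q ∈ QW Q W, (α q) ^ 2 * cq q ((s : ℤ) - s') * ∑ c ∈ range M, A q c * A' q c =
      ∑ q₁ ∈ QW Q W, ∑ q₂ ∈ QW Q W, α q₁ * α q₂ *
        ∑ c ∈ range M, A' q₂ c * (A q₁ c * x q₁ q₂ c) := by
    have h1 : (∑ c ∈ range M,
        (∑ q ∈ QW Q W, α q * cq q ((b : ℤ) + W * (s + c : ℕ)) * A q c) *
        (∑ q ∈ QW Q W, α q * cq q ((b : ℤ) + W * (s' + c : ℕ)) * A' q c)) =
        ∑ q₁ ∈ QW Q W, ∑ q₂ ∈ QW Q W, α q₁ * α q₂ *
        ∑ c ∈ range M, A' q₂ c * (A q₁ c *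
          (cq q₁ ((b : ℤ) + W * (s + c : ℕ)) * cq q₂ ((b : ℤ) + W * (s' + c : ℕ)))) := by
      have h2 : ∀ c ∈ range M,
        (∑ q ∈ QW Q W, α q * cq q ((b : ℤ) + W * (s + c : ℕ)) * A q c) *
        (∑ q ∈ QW Q W, α q * cq q ((b : ℤ) + W * (s' + c : ℕ)) * A' q c) =
        ∑ q₁ ∈ QW Q W, ∑ q₂ ∈ QW Q W, α q₁ * α q₂ *
          (A' q₂ c * (A q₁ c *
          (cq q₁ ((b : ℤ) + W * (s + c : ℕ)) * cq q₂ ((b : ℤ) + W * (s' + c : ℕ))))) := by
        intro c _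
        rw [sum_mul_sum]
        apply sum_congr rfl
        intro q₁ _
        apply sum_congr rfl
        intro q₂ _
        ring
      rw [sum_congr rfl h2, sum_comm]
      apply sum_congr rfl
      intro q₁ _
      rw [sum_comm]
      apply sum_congr rfl
      intro q₂ _
      rw [mul_sum]
    have h3 : ∑ q ∈ QW Q W, (α q) ^ 2 * cq q ((s : ℤ) - s') * ∑ c ∈ range M, A q c * A' q c =
        ∑ q₁ ∈ QW Q W, ∑ q₂ ∈ QW Q W, α q₁ * α q₂ *
        ∑ c ∈ range M, A' q₂ c * (A q₁ c * (if q₁ = q₂ then cq q₁ ((s : ℤ) - s') else 0)) := by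
      apply sum_congr rfl
      intro q₁ hq₁
      symm
      refine (sum_eq_single q₁ ?_ ?_).trans ?_
      · intro q₂ _ hne
        rw [if_neg (Ne.symm hne)]
        simp
      · intro h
        exact absurd hq₁ h
      · rw [if_pos rfl, mul_sum, mul_sum]
        apply sum_congr rfl
        intro c _
        ring
    rw [h1, h3, ← sum_sub_distrib]
    apply sum_congr rfl
    intro q₁ _
    rw [← sum_sub_distrib]
    apply sum_congr rfl
    intro q₂ _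
    rw [← mul_sub, ← sum_sub_distrib]
    congr 1
    apply sum_congr rfl
    intro c _
    rw [hx]
    ring
  rw [hmain]
  rcases Nat.lt_or_ge Q 2 with hQ | hQ
  · have hzero : ∑ q₁ ∈ QW Q W, ∑ q₂ ∈ QW Q W, α q₁ * α q₂ *
        ∑ c ∈ range M, A' q₂ c * (A q₁ c * x q₁ q₂ c) = 0 := by
      apply sum_eq_zero
      intro q₁ hq₁
      apply sum_eq_zero
      intro q₂ hq₂
      have h1 := XPAIR_mem hq₁
      have h2 := XPAIR_mem hq₂
      have e1 : q₁ = 1 := by omega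
      have e2 : q₂ = 1 := by omega
      rw [e1, e2]
      have : ∑ c ∈ range M, A' 1 c * (A 1 c * x 1 1 c) = 0 := by
        apply sum_eq_zero
        intro c _
        rw [hx]
        simp [XPAIR_cq_one]
      rw [this, mul_zero]
    rw [hzero, abs_zero]
    positivity
  have hterm : ∀ q₁ ∈ QW Q W, ∀ q₂ ∈ QW Q W,
      |α q₁ * α q₂ * ∑ c ∈ range M, A' q₂ c * (A q₁ c * x q₁ q₂ c)| ≤
      4 * D ^ 2 * ((|α q₁| * ∑ d ∈ q₁.divisors, (d : ℝ)) *
        (|α q₂| * ∑ d ∈ q₂.divisors, (d : ℝ))) := by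
    intro q₁ hq₁ q₂ hq₂
    have h1 := XPAIR_mem hq₁
    have h2 := XPAIR_mem hq₂
    have h3 := XPAIR_two M (A q₁) (A' q₂) (x q₁ q₂) D
      ((∑ d ∈ q₁.divisors, (d : ℝ)) * ∑ d ∈ q₂.divisors, (d : ℝ)) hD (fun N _ => ?_)
      (hA0 q₁) (hAD q₁) (hA q₁) (hA0' q₂) (hAD' q₂) (hA' q₂)
    · rw [abs_mul, abs_mul]
      calc |α q₁| * |α q₂| * |∑ c ∈ range M, A' q₂ c * (A q₁ c * x q₁ q₂ c)|
          ≤ |α q₁| * |α q₂| * (4 * D ^ 2 * ((∑ d ∈ q₁.divisors, (d : ℝ)) *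
            ∑ d ∈ q₂.divisors, (d : ℝ))) := mul_le_mul_of_nonneg_left h3 (by positivity)
        _ = _ := by ring
    · have h4 := cg1_corr q₁ q₂ W b s s' N h1.1 h2.1 h1.2.1 h2.2.1
      have h5 : ∑ c ∈ range N, x q₁ q₂ c = ∑ c ∈ range N, cq q₁ ((b : ℤ) + W * (s + c : ℕ)) *
          cq q₂ ((b : ℤ) + W * (s' + c : ℕ)) -
          N * (if q₁ = q₂ then cq q₁ ((s : ℤ) - s') else 0) := by
        rw [hx]
        simp only
        rw [sum_sub_distrib, sum_const, card_range, nsmul_eq_mul]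
      rw [h5]
      exact h4
  set Y : ℕ → ℝ := fun q => |α q| * ∑ d ∈ q.divisors, (d : ℝ) with hY
  have hS : ∑ q ∈ QW Q W, Y q ≤ (Q : ℝ) ^ 2 := XPAIR_sum_le Q W
  have hS0 : 0 ≤ ∑ q ∈ QW Q W, Y q := by
    apply sum_nonneg
    intro q _
    rw [hY]
    positivity
  have hQ2 : (2 : ℝ) ≤ Q := by exact_mod_cast hQ
  calc |∑ q₁ ∈ QW Q W, ∑ q₂ ∈ QW Q W, α q₁ * α q₂ *
        ∑ c ∈ range M, A' q₂ c * (A q₁ c * x q₁ q₂ c)|
      ≤ ∑ q₁ ∈ QW Q W, ∑ q₂ ∈ QW Q W, 4 * D ^ 2 * (Y q₁ * Y q₂) :=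
        (abs_sum_le_sum_abs _ _).trans (sum_le_sum fun q₁ hq₁ =>
          (abs_sum_le_sum_abs _ _).trans (sum_le_sum fun q₂ hq₂ => hterm q₁ hq₁ q₂ hq₂))
    _ = 4 * D ^ 2 * ((∑ q ∈ QW Q W, Y q) * (∑ q ∈ QW Q W, Y q)) := by
        rw [sum_mul_sum, mul_sum]
        apply sum_congr rfl
        intro q₁ _
        rw [mul_sum]
    _ ≤ 4 * D ^ 2 * ((Q : ℝ) ^ 2 * (Q : ℝ) ^ 2) := by
        apply mul_le_mul_of_nonneg_left _ (by positivity)
        exact mul_le_mul hS hS hS0 (by positivity)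
    _ ≤ 2 * D ^ 2 * (Q : ℝ) ^ 6 := by
        have h6 : (4 : ℝ) ≤ (Q : ℝ) ^ 2 := by nlinarith
        have h7 : 0 ≤ D ^ 2 * (Q : ℝ) ^ 4 := by positivity
        nlinarith

/-- **Weighted mean.** Same proof, one sum: only `q = 1` gives a non-trivial contribution
(`W a/q ∈ ℤ` with `(q, W) = 1 = (a, q)` forces `q = 1`). -/
theorem mean_general (Q M W b s : ℕ) (hW : 0 < W) (hQ : 1 ≤ Q) (hb : Nat.Coprime b W)
    (A : ℕ → ℕ → ℝ) (D : ℝ) (hD : 0 ≤ D) (hA0 : ∀ q c, 0 ≤ A q c) (hAD : ∀ q c, A q c ≤ D)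
    (hA : ∀ q, Antitone (A q) ∨ Monotone (A q)) :
    |(∑ c ∈ range M, ∑ q ∈ QW Q W, (ArithmeticFunction.moebius q : ℝ) / (Nat.totient q : ℝ) *
        cq q ((b : ℤ) + W * (s + c : ℕ)) * A q c) - ∑ c ∈ range M, A 1 c| ≤
      D * (Q : ℝ) ^ 3 := by
  set α : ℕ → ℝ := fun q => (ArithmeticFunction.moebius q : ℝ) / (Nat.totient q : ℝ) with hα
  have h1mem : 1 ∈ QW Q W := by
    unfold QW
    rw [mem_filter, mem_Icc]
    exact ⟨⟨le_rfl, hQ⟩, Nat.coprime_one_left W⟩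
  have hα1 : α 1 = 1 := by simp [hα]
  have hmain : (∑ c ∈ range M, ∑ q ∈ QW Q W, α q * cq q ((b : ℤ) + W * (s + c : ℕ)) * A q c) -
      ∑ c ∈ range M, A 1 c = ∑ q ∈ (QW Q W).erase 1,
        α q * ∑ c ∈ range M, A q c * cq q ((b : ℤ) + W * (s + c : ℕ)) := by
    rw [sum_comm, ← add_sum_erase _ _ h1mem]
    have h2 : ∑ c ∈ range M, α 1 * cq 1 ((b : ℤ) + W * (s + c : ℕ)) * A 1 c =
        ∑ c ∈ range M, A 1 c := by
      apply sum_congr rfl
      intro c _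
      rw [hα1, XPAIR_cq_one]
      ring
    rw [h2, add_sub_cancel_left]
    apply sum_congr rfl
    intro q _
    rw [mul_sum]
    apply sum_congr rfl
    intro c _
    ring
  rw [hmain]
  have hterm : ∀ q ∈ (QW Q W).erase 1,
      |α q * ∑ c ∈ range M, A q c * cq q ((b : ℤ) + W * (s + c : ℕ))| ≤
      2 * D * (|α q| * ∑ d ∈ q.divisors, (d : ℝ)) := by
    intro q hq
    rw [mem_erase] at hq
    have h1 := XPAIR_mem hq.2
    have h3 := XPAIR_weighted M (A q) (fun c => cq q ((b : ℤ) + W * (s + c : ℕ))) D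
      (∑ d ∈ q.divisors, (d : ℝ)) hD (fun N _ => ?_) (hA0 q) (hAD q) (hA q)
    · rw [abs_mul]
      calc |α q| * |∑ c ∈ range M, A q c * cq q ((b : ℤ) + W * (s + c : ℕ))|
          ≤ |α q| * (2 * D * ∑ d ∈ q.divisors, (d : ℝ)) :=
            mul_le_mul_of_nonneg_left h3 (abs_nonneg _)
        _ = _ := by ring
    · have h4 := cg1_corr q 1 W b s s N h1.1 one_pos h1.2.1 (Nat.coprime_one_left W)
      rw [if_neg hq.1, mul_zero, sub_zero] at h4
      simp only [XPAIR_cq_one, mul_one, Nat.divisors_one, sum_singleton, Nat.cast_one] at h4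
      exact h4
  have hS := XPAIR_sum_le Q W
  rw [← add_sum_erase _ _ h1mem] at hS
  have hS1 : |(ArithmeticFunction.moebius 1 : ℝ) / (Nat.totient 1 : ℝ)| *
      ∑ d ∈ (1 : ℕ).divisors, (d : ℝ) = 1 := by simp
  rw [hS1] at hS
  have hQ1 : (1 : ℝ) ≤ Q := by exact_mod_cast hQ
  calc |∑ q ∈ (QW Q W).erase 1,
        α q * ∑ c ∈ range M, A q c * cq q ((b : ℤ) + W * (s + c : ℕ))|
      ≤ ∑ q ∈ (QW Q W).erase 1, 2 * D * (|α q| * ∑ d ∈ q.divisors, (d : ℝ)) :=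
        (abs_sum_le_sum_abs _ _).trans (sum_le_sum hterm)
    _ = 2 * D * ∑ q ∈ (QW Q W).erase 1, (|α q| * ∑ d ∈ q.divisors, (d : ℝ)) := by
        rw [mul_sum]
    _ ≤ 2 * D * ((Q : ℝ) ^ 2 - 1) := by
        apply mul_le_mul_of_nonneg_left _ (by positivity)
        linarith
    _ ≤ D * (Q : ℝ) ^ 3 := by
        have h5 : 2 * ((Q : ℝ) ^ 2 - 1) ≤ (Q : ℝ) ^ 3 := by
          rcases Nat.lt_or_ge Q 2 with h6 | h6
          · have : Q = 1 := by omega
            rw [this]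
            norm_num
          · have h7 : (2 : ℝ) ≤ Q := by exact_mod_cast h6
            nlinarith [sq_nonneg (Q : ℝ)]
        nlinarith

end Pool.Agent.Lib.H68T
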