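import Pool.Agent.Lib.H68X.XDefs
import Pool.Agent.Lib.H68T.CG1

/-!
# Chunk XTW: the divisor sums `TW`, `TWr`
-/

open Finset

namespace Pool.Agent.Lib.H68T

theorem XTW_term_nonneg (w : ℕ) :
    0 ≤ (ArithmeticFunction.moebius w : ℝ) ^ 2 / (Nat.totient w : ℝ) := by positivity

/-- `n / φ(n)` depends only on the set of primes dividing `n`. -/
theorem XTW_ratio {a b : ℕ} (ha : 0 < a) (hb : 0 < b) (h : a.primeFactors = b.primeFactors) :
    (a : ℝ) / (Nat.totient a : ℝ) = (b : ℝ) / (Nat.totient b : ℝ) := by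
  have hφa : (0 : ℝ) < (Nat.totient a : ℝ) := by exact_mod_cast Nat.totient_pos.mpr ha
  have hφb : (0 : ℝ) < (Nat.totient b : ℝ) := by exact_mod_cast Nat.totient_pos.mpr hb
  have h1 := congrArg (fun n : ℕ => (n : ℝ)) (Nat.totient_mul_prod_primeFactors a)
  have h2 := congrArg (fun n : ℕ => (n : ℝ)) (Nat.totient_mul_prod_primeFactors b)
  simp only [Nat.cast_mul] at h1 h2
  rw [h] at h1
  have hP : (0 : ℝ) < ((∏ p ∈ b.primeFactors, (p - 1) : ℕ) : ℝ) := by
    have : 0 < ∏ p ∈ b.primeFactors, (p - 1) := by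
      apply Finset.prod_pos
      intro p hp
      have := (Nat.prime_of_mem_primeFactors hp).two_le
      omega
    exact_mod_cast this
  rw [div_eq_div_iff hφa.ne' hφb.ne']
  have h3 : ((a : ℝ) * (Nat.totient b : ℝ)) * ((∏ p ∈ b.primeFactors, (p - 1) : ℕ) : ℝ) =
      ((b : ℝ) * (Nat.totient a : ℝ)) * ((∏ p ∈ b.primeFactors, (p - 1) : ℕ) : ℝ) := by
    calc ((a : ℝ) * (Nat.totient b : ℝ)) * ((∏ p ∈ b.primeFactors, (p - 1) : ℕ) : ℝ)
        = (Nat.totient b : ℝ) * ((a : ℝ) * ((∏ p ∈ b.primeFactors, (p - 1) : ℕ) : ℝ)) := by ring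
      _ = (Nat.totient b : ℝ) * ((Nat.totient a : ℝ) * ((∏ p ∈ b.primeFactors, p : ℕ) : ℝ)) := by
          rw [h1]
      _ = (Nat.totient a : ℝ) * ((Nat.totient b : ℝ) * ((∏ p ∈ b.primeFactors, p : ℕ) : ℝ)) := by
          ring
      _ = (Nat.totient a : ℝ) * ((b : ℝ) * ((∏ p ∈ b.primeFactors, (p - 1) : ℕ) : ℝ)) := by
          rw [h2]
      _ = _ := by ring
  exact mul_right_cancel₀ hP.ne' h3

theorem XTW_full (W r : ℕ) (hW : 0 < W) (hr : r ∣ W) :
    (r : ℝ) / (Nat.totient r : ℝ) *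
      ∑ w ∈ W.divisors.filter (fun w => Nat.Coprime w r),
        (ArithmeticFunction.moebius w : ℝ) ^ 2 / (Nat.totient w : ℝ) =
      (W : ℝ) / Nat.totient W := by
  have hr0 : 0 < r := Nat.pos_of_dvd_of_pos hr hW
  set P := W.primeFactors.filter (fun p => ¬ p ∣ r) with hP
  have hpf : ∀ p ∈ P, p.Prime := fun p hp =>
    Nat.prime_of_mem_primeFactors (mem_of_mem_filter p hp)
  set V := ∏ p ∈ P, p with hV
  have hVpf : V.primeFactors = P := Nat.primeFactors_prod hpf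
  have hV0 : 0 < V := Finset.prod_pos fun p hp => (hpf p hp).pos
  have hVW : V ∣ W := by
    refine dvd_trans ?_ (Nat.prod_primeFactors_dvd W)
    exact Finset.prod_dvd_prod_of_subset _ _ _ (filter_subset _ _)
  have hVr : Nat.Coprime V r := by
    rw [hV]
    apply Nat.Coprime.prod_left
    intro p hp
    exact (Nat.Prime.coprime_iff_not_dvd (hpf p hp)).mpr (mem_filter.mp hp).2
  have hsum : ∑ w ∈ W.divisors.filter (fun w => Nat.Coprime w r),
        (ArithmeticFunction.moebius w : ℝ) ^ 2 / (Nat.totient w : ℝ) =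
      ∑ w ∈ V.divisors, (ArithmeticFunction.moebius w : ℝ) ^ 2 / (Nat.totient w : ℝ) := by
    symm
    apply Finset.sum_subset
    · intro w hw
      rw [mem_filter, Nat.mem_divisors]
      have hwV := Nat.dvd_of_mem_divisors hw
      exact ⟨⟨hwV.trans hVW, hW.ne'⟩, Nat.Coprime.coprime_dvd_left hwV hVr⟩
    · intro w hw hwV
      rw [mem_filter, Nat.mem_divisors] at hw
      have hns : ¬ Squarefree w := by
        intro hs
        apply hwV
        rw [Nat.mem_divisors]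
        refine ⟨?_, hV0.ne'⟩
        rw [← Nat.prod_primeFactors_of_squarefree hs]
        apply Finset.prod_dvd_prod_of_subset
        intro p hp
        rw [hP, mem_filter]
        refine ⟨Nat.primeFactors_mono hw.1.1 hW.ne' hp, fun hpr => ?_⟩
        have hpp := Nat.prime_of_mem_primeFactors hp
        have hpw := Nat.dvd_of_mem_primeFactors hp
        have := Nat.dvd_gcd hpw hpr
        rw [hw.2] at this
        exact hpp.one_lt.ne' (Nat.dvd_one.mp this)
      rw [ArithmeticFunction.moebius_eq_zero_of_not_squarefree hns]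
      simp
  rw [hsum, cg1_T_full V hV0]
  have h1 : (r : ℝ) / (Nat.totient r : ℝ) * ((V : ℝ) / (Nat.totient V : ℝ)) =
      ((r * V : ℕ) : ℝ) / (Nat.totient (r * V) : ℝ) := by
    rw [Nat.totient_mul hVr.symm]
    push_cast
    rw [div_mul_div_comm]
  rw [h1]
  apply XTW_ratio (Nat.mul_pos hr0 hV0) hW
  rw [Nat.primeFactors_mul hr0.ne' hV0.ne', hVpf, hP]
  ext p
  simp only [mem_union, mem_filter, Nat.mem_primeFactors]
  constructor
  · rintro (⟨h1, h2, -⟩ | ⟨h1, -⟩)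
    · exact ⟨h1, h2.trans hr, hW.ne'⟩
    · exact h1
  · rintro ⟨h1, h2, h3⟩
    by_cases hpr : p ∣ r
    · exact Or.inl ⟨h1, hpr, hr0.ne'⟩
    · exact Or.inr ⟨⟨h1, h2, h3⟩, hpr⟩

theorem TW_nonneg (Q W q : ℕ) : 0 ≤ TW Q W q :=
  sum_nonneg fun w _ => XTW_term_nonneg w

/-- `∑_{w ∣ W} μ²(w)/φ(w) = W/φ(W)` -/
theorem TW_le (Q W q : ℕ) (hW : 0 < W) : TW Q W q ≤ (W : ℝ) / Nat.totient W := by
  rw [← cg1_T_full W hW]
  exact sum_le_sum_of_subset_of_nonneg (filter_subset _ _) fun w _ _ => XTW_term_nonneg w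

theorem TW_eq (Q W q : ℕ) (hW : 0 < W) (h : W * q ≤ Q) :
    TW Q W q = (W : ℝ) / Nat.totient W := by
  rw [← cg1_T_full W hW, TW]
  congr 1
  apply filter_true_of_mem
  intro w hw
  exact (Nat.mul_le_mul_right q (Nat.divisor_le hw)).trans h

theorem TWr_nonneg (Q W r q : ℕ) : 0 ≤ TWr Q W r q := by
  unfold TWr
  exact mul_nonneg (by positivity) (sum_nonneg fun w _ => XTW_term_nonneg w)

/-- `(r/φ(r)) ∑_{w ∣ W, (w, r) = 1} μ²(w)/φ(w) = W/φ(W)` for `r ∣ W`: product over the primes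
dividing `W`. -/
theorem TWr_le (Q W r q : ℕ) (hW : 0 < W) (hr : r ∣ W) :
    TWr Q W r q ≤ (W : ℝ) / Nat.totient W := by
  rw [← XTW_full W r hW hr, TWr]
  apply mul_le_mul_of_nonneg_left _ (by positivity)
  apply sum_le_sum_of_subset_of_nonneg _ fun w _ _ => XTW_term_nonneg w
  intro w hw
  rw [mem_filter] at hw ⊢
  exact ⟨hw.1, hw.2.1⟩

/-- All divisors `w` of `W` coprime to `r` satisfy `w r ∣ W`, so `w r q ≤ W q ≤ Q`. -/
theorem TWr_eq (Q W r q : ℕ) (hW : 0 < W) (hr : r ∣ W) (h : W * q ≤ Q) :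
    TWr Q W r q = (W : ℝ) / Nat.totient W := by
  rw [← XTW_full W r hW hr, TWr]
  congr 2
  apply filter_congr
  intro w hw
  constructor
  · exact fun h => h.1
  · intro hc
    refine ⟨hc, ?_⟩
    have h1 : w * r ∣ W := Nat.Coprime.mul_dvd_of_dvd_of_dvd hc (Nat.dvd_of_mem_divisors hw) hr
    exact (Nat.mul_le_mul_right q (Nat.le_of_dvd hW h1)).trans h

end Pool.Agent.Lib.H68T
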