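import Pool.Agent.Lib.H68X.XDefs
import Pool.Agent.Lib.H68X.XG1
import Pool.Agent.Lib.H68X.XTW
import Pool.Agent.Lib.H68X.XPAIR
import Pool.Agent.Lib.H68T.CG1

/-!
# Chunk XCG: pair correlations and means of the model with exceptional term
-/

open Finset

namespace Pool.Agent.Lib.H68T

/-- The weight `m^(β-1)` along the class. -/
noncomputable def XCG_w (W b s : ℕ) (β : ℝ) (c : ℕ) : ℝ :=
  ((b + W * (s + c) : ℕ) : ℝ) ^ (β - 1)

theorem XCG_one_le (W b s c : ℕ) (hW : 0 < W) (hs : 1 ≤ s) :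
    (1 : ℝ) ≤ ((b + W * (s + c) : ℕ) : ℝ) := by
  have h : 1 ≤ b + W * (s + c) := by
    have : 1 ≤ W * (s + c) := Nat.mul_pos hW (by omega)
    omega
  exact_mod_cast h

theorem XCG_w_nonneg (W b s : ℕ) (β : ℝ) (c : ℕ) : 0 ≤ XCG_w W b s β c := by
  unfold XCG_w
  positivity

theorem XCG_w_le (W b s : ℕ) (β : ℝ) (c : ℕ) (hW : 0 < W) (hs : 1 ≤ s) (hβ1 : β ≤ 1) :
    XCG_w W b s β c ≤ 1 := by
  unfold XCG_w
  exact Real.rpow_le_one_of_one_le_of_nonpos (XCG_one_le W b s c hW hs) (by linarith)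

theorem XCG_w_anti (W b s : ℕ) (β : ℝ) (hW : 0 < W) (hs : 1 ≤ s) (hβ1 : β ≤ 1) :
    Antitone (XCG_w W b s β) := by
  intro c c' hcc
  unfold XCG_w
  apply Real.rpow_le_rpow_of_nonpos
  · exact lt_of_lt_of_le one_pos (XCG_one_le W b s c hW hs)
  · have h : b + W * (s + c) ≤ b + W * (s + c') := by
      have := Nat.mul_le_mul_left W (Nat.add_le_add_left hcc s)
      omega
    exact_mod_cast h
  · linarith

/-- The weighted expansion along the class. -/
noncomputable def XCG_S (Q W b s : ℕ) (A : ℕ → ℕ → ℝ) (c : ℕ) : ℝ :=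
  ∑ q ∈ QW Q W, (ArithmeticFunction.moebius q : ℝ) / (Nat.totient q : ℝ) *
    cq q ((b : ℤ) + W * (s + c : ℕ)) * A q c

theorem XCG_Mod_eq (Q W r b s c : ℕ) (β ε : ℝ) (hW : 0 < W) (hr : r ∣ W)
    (hb : Nat.Coprime b W) :
    Mod Q r ε β ((b : ℤ) + W * (s + c : ℕ)) =
      XCG_S Q W b s (fun q _ => TW Q W q) c -
        ε * XCG_S Q W b s (fun q c => XCG_w W b s β c * TWr Q W r q) c := by
  have hm : IsCoprime ((b : ℤ) + W * (s + c : ℕ)) (W : ℤ) := cg1_class_coprime hb (s + c)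
  unfold Mod XCG_S
  rw [G_coprime Q W hW _ hm, Gam_coprime Q W r hW hr _ hm, mul_sum, mul_sum]
  congr 1
  apply sum_congr rfl
  intro q _
  have hc : (((b : ℤ) + W * (s + c : ℕ) : ℤ) : ℝ) ^ (β - 1) = XCG_w W b s β c := by
    unfold XCG_w
    congr 1
  rw [hc]
  ring

theorem XCG_W_sq (Q W : ℕ) (hW : 0 < W) (hWQ : W ^ 100 ≤ Q) : W ^ 2 ≤ Q :=
  (Nat.pow_le_pow_right hW (by norm_num)).trans hWQ

theorem XCG_D_sq (Q W : ℕ) (hW : 0 < W) (hWQ : W ^ 100 ≤ Q) :
    ((W : ℝ) / Nat.totient W) ^ 2 ≤ Q := by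
  have h1 : (1 : ℝ) ≤ Nat.totient W := by exact_mod_cast Nat.totient_pos.mpr hW
  have h2 : (W : ℝ) / Nat.totient W ≤ W := div_le_self (by positivity) h1
  calc ((W : ℝ) / Nat.totient W) ^ 2 ≤ (W : ℝ) ^ 2 := pow_le_pow_left₀ (by positivity) h2 2
    _ ≤ Q := by exact_mod_cast XCG_W_sq Q W hW hWQ

/-- The diagonal terms. -/
theorem XCG_cq_le (q : ℕ) (d : ℤ) :
    ((ArithmeticFunction.moebius q : ℝ) / (Nat.totient q : ℝ)) ^ 2 * |cq q d| ≤
      if Squarefree q then (Nat.totient (Nat.gcd q d.natAbs) : ℝ) / (Nat.totient q : ℝ) ^ 2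
      else 0 := by
  split_ifs with h
  · have h1 : (ArithmeticFunction.moebius q : ℝ) ^ 2 = 1 := by
      exact_mod_cast ArithmeticFunction.moebius_sq_eq_one_of_squarefree h
    rw [div_pow, h1, cq_squarefree q h d, abs_mul, one_div, inv_mul_eq_div]
    apply div_le_div_of_nonneg_right _ (by positivity)
    have h2 := cg1_abs_moebius_le (q / Nat.gcd q d.natAbs)
    have h3 : |(Nat.totient (Nat.gcd q d.natAbs) : ℝ)| = Nat.totient (Nat.gcd q d.natAbs) :=
      abs_of_nonneg (by positivity)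
    rw [h3]
    have h4 : (0 : ℝ) ≤ Nat.totient (Nat.gcd q d.natAbs) := by positivity
    nlinarith
  · rw [ArithmeticFunction.moebius_eq_zero_of_not_squarefree h]
    simp

/-- **Pair correlation of the model.** `|ε| ≤ 1`, `1/2 ≤ β ≤ 1`, `b + W s ≥ 1` etc. so that
`0 ≤ m^(β-1) ≤ 1`.

Proof. All `m = b + W(s+c)` are coprime to `W`, so by `G_coprime`, `Gam_coprime`
`Mod(m) = ∑_{q ∈ QW Q W} (μ(q)/φ(q)) c_q(m) (A q c - ε B q c)`, `A q c = TW Q W q` (constant in `c`),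
`B q c = m^(β-1) TWr Q W r q` (antitone in `c`), both in `[0, W/φ(W)]`. Expand the product into four
correlations and apply `pair_general` to each (`D = W/φ(W) ≤ W ≤ Q`): up to
`8 D² Q^6 ≤ Q^9` the sum is
`∑_q μ²(q)/φ(q)² c_q(s-s') ∑_c (A q c - ε B q c)(A' q c - ε B' q c)`.
For `q² ≤ Q` (so `W q ≤ Q` as `W^100 ≤ Q`; `Q ≥ 1`) by `TW_eq`, `TWr_eq` the inner product is
`(W/φ(W))² (1 - ε m^(β-1))(1 - ε m'^(β-1)) ≥ 0`, and `c_q(d) ≤ φ((q,d))` for squarefree `q`; as in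
`G_pair` (see the auxiliary lemmas in `H68T/CG1.lean`)
`∑_{q ∈ QW, squarefree} φ((q,d))/φ(q)² ≤ G0 Q W * gp Q W d`. For `q² > Q` the inner product is
at most `4 (W/φ(W))²` in absolute value: these terms are at most `(W/φ(W))² M tl Q W (s - s')`. -/
theorem x_pair (Q M W r b s s' : ℕ) (β ε : ℝ) (hW : 0 < W) (hWQ : W ^ 100 ≤ Q) (hr : r ∣ W)
    (hb : Nat.Coprime b W) (hs : 1 ≤ s) (hs' : 1 ≤ s') (hss : s ≠ s') (hβ : 1 / 2 ≤ β)
    (hβ1 : β ≤ 1) (hε : |ε| ≤ 1) (hQ : 8 ≤ Q) :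
    ∑ c ∈ range M, Mod Q r ε β ((b : ℤ) + W * (s + c : ℕ)) *
        Mod Q r ε β ((b : ℤ) + W * (s' + c : ℕ)) ≤
      ((W : ℝ) / Nat.totient W) ^ 2 *
        ((∑ c ∈ range M, (1 - ε * ((b + W * (s + c) : ℕ) : ℝ) ^ (β - 1)) *
            (1 - ε * ((b + W * (s' + c) : ℕ) : ℝ) ^ (β - 1))) *
          (G0 Q W * gp Q W ((s : ℤ) - s')) + M * tl Q W ((s : ℤ) - s')) + (Q : ℝ) ^ 9 := by
  have hε' := abs_le.mp hε
  set D : ℝ := (W : ℝ) / Nat.totient W with hD
  have hD0 : 0 ≤ D := by positivity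
  set d : ℤ := (s : ℤ) - s' with hd
  set A : ℕ → ℕ → ℝ := fun q _ => TW Q W q with hA
  set B : ℕ → ℕ → ℝ := fun q c => XCG_w W b s β c * TWr Q W r q with hB
  set B' : ℕ → ℕ → ℝ := fun q c => XCG_w W b s' β c * TWr Q W r q with hB'
  have hA0 : ∀ q c, 0 ≤ A q c := fun q _ => TW_nonneg Q W q
  have hAD : ∀ q c, A q c ≤ D := fun q _ => TW_le Q W q hW
  have hAm : ∀ q, Antitone (A q) ∨ Monotone (A q) := fun q => Or.inl (fun _ _ _ => le_refl _)
  have hB0 : ∀ q c, 0 ≤ B q c := fun q c =>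
    mul_nonneg (XCG_w_nonneg W b s β c) (TWr_nonneg Q W r q)
  have hB0' : ∀ q c, 0 ≤ B' q c := fun q c =>
    mul_nonneg (XCG_w_nonneg W b s' β c) (TWr_nonneg Q W r q)
  have hBD : ∀ q c, B q c ≤ D := fun q c => by
    have h1 := XCG_w_le W b s β c hW hs hβ1
    have h2 := XCG_w_nonneg W b s β c
    have h3 := TWr_nonneg Q W r q
    have h4 := TWr_le Q W r q hW hr
    calc XCG_w W b s β c * TWr Q W r q ≤ 1 * TWr Q W r q := mul_le_mul_of_nonneg_right h1 h3
      _ ≤ D := by rw [one_mul]; exact h4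
  have hBD' : ∀ q c, B' q c ≤ D := fun q c => by
    have h1 := XCG_w_le W b s' β c hW hs' hβ1
    have h2 := XCG_w_nonneg W b s' β c
    have h3 := TWr_nonneg Q W r q
    have h4 := TWr_le Q W r q hW hr
    calc XCG_w W b s' β c * TWr Q W r q ≤ 1 * TWr Q W r q := mul_le_mul_of_nonneg_right h1 h3
      _ ≤ D := by rw [one_mul]; exact h4
  have hBm : ∀ q, Antitone (B q) ∨ Monotone (B q) := fun q =>
    Or.inl (fun c c' h => mul_le_mul_of_nonneg_right (XCG_w_anti W b s β hW hs hβ1 h)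
      (TWr_nonneg Q W r q))
  have hBm' : ∀ q, Antitone (B' q) ∨ Monotone (B' q) := fun q =>
    Or.inl (fun c c' h => mul_le_mul_of_nonneg_right (XCG_w_anti W b s' β hW hs' hβ1 h)
      (TWr_nonneg Q W r q))
  -- the four correlations
  have hAA := abs_le.mp (pair_general Q M W b s s' hW hb A A D hD0 hA0 hAD hA0 hAD hAm hAm)
  have hAB := abs_le.mp (pair_general Q M W b s s' hW hb A B' D hD0 hA0 hAD hB0' hBD' hAm hBm')
  have hBA := abs_le.mp (pair_general Q M W b s s' hW hb B A D hD0 hB0 hBD hA0 hAD hBm hAm)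
  have hBB := abs_le.mp (pair_general Q M W b s s' hW hb B B' D hD0 hB0 hBD hB0' hBD' hBm hBm')
  set T : (ℕ → ℕ → ℝ) → (ℕ → ℕ → ℝ) → ℝ := fun U V => ∑ c ∈ range M,
    XCG_S Q W b s U c * XCG_S Q W b s' V c with hT
  set Z : (ℕ → ℕ → ℝ) → (ℕ → ℕ → ℝ) → ℝ := fun U V =>
    ∑ q ∈ QW Q W, ((ArithmeticFunction.moebius q : ℝ) / (Nat.totient q : ℝ)) ^ 2 *
        cq q d * ∑ c ∈ range M, U q c * V q c with hZ
  have hAA' : |T A A - Z A A| ≤ 2 * D ^ 2 * (Q : ℝ) ^ 6 := abs_le.mpr hAA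
  have hAB' : |T A B' - Z A B'| ≤ 2 * D ^ 2 * (Q : ℝ) ^ 6 := abs_le.mpr hAB
  have hBA' : |T B A - Z B A| ≤ 2 * D ^ 2 * (Q : ℝ) ^ 6 := abs_le.mpr hBA
  have hBB' : |T B B' - Z B B'| ≤ 2 * D ^ 2 * (Q : ℝ) ^ 6 := abs_le.mpr hBB
  clear hAA hAB hBA hBB
  have hE0 : 0 ≤ 2 * D ^ 2 * (Q : ℝ) ^ 6 := by positivity
  have hexp : ∑ c ∈ range M, Mod Q r ε β ((b : ℤ) + W * (s + c : ℕ)) *
        Mod Q r ε β ((b : ℤ) + W * (s' + c : ℕ)) =
      T A A - ε * T A B' - ε * T B A + ε ^ 2 * T B B' := by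
    simp only [hT]
    rw [mul_sum, mul_sum, mul_sum, ← sum_sub_distrib, ← sum_sub_distrib, ← sum_add_distrib]
    apply sum_congr rfl
    intro c _
    rw [XCG_Mod_eq Q W r b s c β ε hW hr hb, XCG_Mod_eq Q W r b s' c β ε hW hr hb]
    simp only [hA, hB, hB']
    ring
  have herr : T A A - ε * T A B' - ε * T B A + ε ^ 2 * T B B' ≤
      Z A A - ε * Z A B' - ε * Z B A + ε ^ 2 * Z B B' + 8 * D ^ 2 * (Q : ℝ) ^ 6 := by
    have e1 := (le_abs_self _).trans hAA'
    have e2 : -ε * (T A B' - Z A B') ≤ 2 * D ^ 2 * (Q : ℝ) ^ 6 := by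
      refine (le_abs_self _).trans ?_
      rw [abs_mul, abs_neg]
      calc |ε| * |T A B' - Z A B'| ≤ 1 * (2 * D ^ 2 * (Q : ℝ) ^ 6) :=
            mul_le_mul hε hAB' (abs_nonneg _) (by norm_num)
        _ = _ := one_mul _
    have e3 : -ε * (T B A - Z B A) ≤ 2 * D ^ 2 * (Q : ℝ) ^ 6 := by
      refine (le_abs_self _).trans ?_
      rw [abs_mul, abs_neg]
      calc |ε| * |T B A - Z B A| ≤ 1 * (2 * D ^ 2 * (Q : ℝ) ^ 6) :=
            mul_le_mul hε hBA' (abs_nonneg _) (by norm_num)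
        _ = _ := one_mul _
    have e4 : ε ^ 2 * (T B B' - Z B B') ≤ 2 * D ^ 2 * (Q : ℝ) ^ 6 := by
      refine (le_abs_self _).trans ?_
      rw [abs_mul]
      have e5 : |ε ^ 2| ≤ 1 := by
        rw [abs_pow]
        exact pow_le_one₀ (abs_nonneg _) hε
      calc |ε ^ 2| * |T B B' - Z B B'| ≤ 1 * (2 * D ^ 2 * (Q : ℝ) ^ 6) :=
            mul_le_mul e5 hBB' (abs_nonneg _) (by norm_num)
        _ = _ := one_mul _
    linarith
  -- the error term
  have hQr : (8 : ℝ) ≤ Q := by exact_mod_cast hQ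
  have herr2 : 8 * D ^ 2 * (Q : ℝ) ^ 6 ≤ (Q : ℝ) ^ 9 := by
    have h1 : D ^ 2 ≤ Q := XCG_D_sq Q W hW hWQ
    calc 8 * D ^ 2 * (Q : ℝ) ^ 6 ≤ Q * Q * (Q : ℝ) ^ 6 := by gcongr
      _ = (Q : ℝ) ^ 8 := by ring
      _ ≤ (Q : ℝ) ^ 9 := pow_le_pow_right₀ (by linarith) (by norm_num)
  -- the main term
  set I : ℕ → ℝ := fun q => ∑ c ∈ range M, (A q c - ε * B q c) * (A q c - ε * B' q c) with hI
  have hmain : Z A A - ε * Z A B' - ε * Z B A + ε ^ 2 * Z B B' =
      ∑ q ∈ QW Q W, ((ArithmeticFunction.moebius q : ℝ) / (Nat.totient q : ℝ)) ^ 2 *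
        cq q d * I q := by
    simp only [hZ, hI]
    rw [mul_sum, mul_sum, mul_sum, ← sum_sub_distrib, ← sum_sub_distrib, ← sum_add_distrib]
    apply sum_congr rfl
    intro q _
    have h1 : ∑ c ∈ range M, (A q c - ε * B q c) * (A q c - ε * B' q c) =
        ∑ c ∈ range M, A q c * A q c - ε * ∑ c ∈ range M, A q c * B' q c -
          ε * ∑ c ∈ range M, B q c * A q c + ε ^ 2 * ∑ c ∈ range M, B q c * B' q c := by
      rw [mul_sum, mul_sum, mul_sum, ← sum_sub_distrib, ← sum_sub_distrib, ← sum_add_distrib]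
      apply sum_congr rfl
      intro c _
      ring
    rw [h1]
    ring
  set Sg : ℝ := ∑ c ∈ range M, (1 - ε * ((b + W * (s + c) : ℕ) : ℝ) ^ (β - 1)) *
            (1 - ε * ((b + W * (s' + c) : ℕ) : ℝ) ^ (β - 1)) with hSg
  have hone : ∀ t : ℕ, 1 ≤ t → ∀ c : ℕ, 0 ≤ 1 - ε * ((b + W * (t + c) : ℕ) : ℝ) ^ (β - 1) := by
    intro t ht c
    have h1 := XCG_w_le W b t β c hW ht hβ1
    have h2 := XCG_w_nonneg W b t β c
    unfold XCG_w at h1 h2
    nlinarith
  have hSg0 : 0 ≤ Sg := sum_nonneg fun c _ => mul_nonneg (hone s hs c) (hone s' hs' c)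
  have hIsmall : ∀ q : ℕ, q ^ 2 ≤ Q → I q = D ^ 2 * Sg := by
    intro q hq
    have hWq : W * q ≤ Q := by
      have h1 := XCG_W_sq Q W hW hWQ
      have h2 : (W * q) ^ 2 ≤ Q ^ 2 := by
        calc (W * q) ^ 2 = W ^ 2 * q ^ 2 := by ring
          _ ≤ Q * Q := Nat.mul_le_mul h1 hq
          _ = Q ^ 2 := by ring
      exact (Nat.pow_le_pow_iff_left (by norm_num)).mp h2
    simp only [hI, hSg]
    rw [mul_sum]
    apply sum_congr rfl
    intro c _
    simp only [hA, hB, hB']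
    rw [TW_eq Q W q hW hWq, TWr_eq Q W r q hW hr hWq]
    unfold XCG_w
    ring
  have hIbig : ∀ q : ℕ, |I q| ≤ M * (4 * D ^ 2) := by
    intro q
    simp only [hI]
    refine (abs_sum_le_sum_abs _ _).trans ?_
    calc ∑ c ∈ range M, |(A q c - ε * B q c) * (A q c - ε * B' q c)|
        ≤ ∑ _c ∈ range M, 4 * D ^ 2 := by
          apply sum_le_sum
          intro c _
          rw [abs_mul]
          have key : ∀ u v : ℝ, 0 ≤ u → u ≤ D → 0 ≤ v → v ≤ D → |u - ε * v| ≤ 2 * D := by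
            intro u v hu hu' hv hv'
            have h1 : |ε * v| ≤ D := by
              rw [abs_mul, abs_of_nonneg hv]
              calc |ε| * v ≤ 1 * D := mul_le_mul hε hv' hv (by norm_num)
                _ = D := one_mul _
            have h2 := abs_le.mp h1
            rw [abs_le]
            constructor <;> linarith
          have h1 := key _ _ (hA0 q c) (hAD q c) (hB0 q c) (hBD q c)
          have h2 := key _ _ (hA0 q c) (hAD q c) (hB0' q c) (hBD' q c)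
          calc |A q c - ε * B q c| * |A q c - ε * B' q c| ≤ (2 * D) * (2 * D) :=
                mul_le_mul h1 h2 (abs_nonneg _) (by positivity)
            _ = 4 * D ^ 2 := by ring
      _ = M * (4 * D ^ 2) := by rw [sum_const, card_range, nsmul_eq_mul]
  have hbound : ∑ q ∈ QW Q W, ((ArithmeticFunction.moebius q : ℝ) / (Nat.totient q : ℝ)) ^ 2 *
        cq q d * I q ≤ D ^ 2 * (Sg * (G0 Q W * gp Q W d) + M * tl Q W d) := by
    rw [← sum_filter_add_sum_filter_not (QW Q W) (fun q => q ^ 2 ≤ Q)]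
    have p1 : ∑ q ∈ (QW Q W).filter (fun q => q ^ 2 ≤ Q),
        ((ArithmeticFunction.moebius q : ℝ) / (Nat.totient q : ℝ)) ^ 2 * cq q d * I q ≤
        D ^ 2 * (Sg * (G0 Q W * gp Q W d)) := by
      calc ∑ q ∈ (QW Q W).filter (fun q => q ^ 2 ≤ Q),
            ((ArithmeticFunction.moebius q : ℝ) / (Nat.totient q : ℝ)) ^ 2 * cq q d * I q
          ≤ ∑ q ∈ (QW Q W).filter (fun q => q ^ 2 ≤ Q),
            (D ^ 2 * Sg) * (((ArithmeticFunction.moebius q : ℝ) / (Nat.totient q : ℝ)) ^ 2 *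
              |cq q d|) := by
            apply sum_le_sum
            intro q hq
            rw [hIsmall q (mem_filter.mp hq).2]
            have h1 : 0 ≤ D ^ 2 * Sg := by positivity
            have h2 : 0 ≤ ((ArithmeticFunction.moebius q : ℝ) / (Nat.totient q : ℝ)) ^ 2 := by
              positivity
            calc _ = (D ^ 2 * Sg) * (((ArithmeticFunction.moebius q : ℝ) /
                  (Nat.totient q : ℝ)) ^ 2 * cq q d) := by ring
              _ ≤ _ := by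
                  gcongr
                  exact le_abs_self _
        _ = (D ^ 2 * Sg) * ∑ q ∈ (QW Q W).filter (fun q => q ^ 2 ≤ Q),
              ((ArithmeticFunction.moebius q : ℝ) / (Nat.totient q : ℝ)) ^ 2 * |cq q d| := by
            exact (mul_sum _ _ _).symm
        _ ≤ (D ^ 2 * Sg) * ∑ q ∈ QW Q W,
              ((ArithmeticFunction.moebius q : ℝ) / (Nat.totient q : ℝ)) ^ 2 * |cq q d| := by
            apply mul_le_mul_of_nonneg_left _ (by positivity)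
            apply sum_le_sum_of_subset_of_nonneg (filter_subset _ _)
            intro q _ _
            positivity
        _ ≤ (D ^ 2 * Sg) * (G0 Q W * gp Q W d) := by
            apply mul_le_mul_of_nonneg_left _ (by positivity)
            exact cg1_diag Q W d
        _ = _ := by ring
    have p2 : ∑ q ∈ (QW Q W).filter (fun q => ¬ q ^ 2 ≤ Q),
        ((ArithmeticFunction.moebius q : ℝ) / (Nat.totient q : ℝ)) ^ 2 * cq q d * I q ≤
        D ^ 2 * (M * tl Q W d) := by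
      calc ∑ q ∈ (QW Q W).filter (fun q => ¬ q ^ 2 ≤ Q),
            ((ArithmeticFunction.moebius q : ℝ) / (Nat.totient q : ℝ)) ^ 2 * cq q d * I q
          ≤ ∑ q ∈ (QW Q W).filter (fun q => ¬ q ^ 2 ≤ Q),
            (if Squarefree q then (Nat.totient (Nat.gcd q d.natAbs) : ℝ) /
              (Nat.totient q : ℝ) ^ 2 else 0) * (M * (4 * D ^ 2)) := by
            apply sum_le_sum
            intro q _
            refine (le_abs_self _).trans ?_
            rw [abs_mul, abs_mul]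
            have h2 : |((ArithmeticFunction.moebius q : ℝ) / (Nat.totient q : ℝ)) ^ 2| =
                ((ArithmeticFunction.moebius q : ℝ) / (Nat.totient q : ℝ)) ^ 2 :=
              abs_of_nonneg (by positivity)
            rw [h2]
            have h3 := XCG_cq_le q d
            have h4 : 0 ≤ (if Squarefree q then (Nat.totient (Nat.gcd q d.natAbs) : ℝ) /
              (Nat.totient q : ℝ) ^ 2 else 0) := by
              split_ifs <;> positivity
            exact mul_le_mul h3 (hIbig q) (abs_nonneg _) h4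
        _ = (∑ q ∈ ((QW Q W).filter (fun q => ¬ q ^ 2 ≤ Q)).filter (fun q => Squarefree q),
              (Nat.totient (Nat.gcd q d.natAbs) : ℝ) / (Nat.totient q : ℝ) ^ 2) *
                (M * (4 * D ^ 2)) := by
            rw [← sum_mul, ← sum_filter]
        _ ≤ (16 * ∑ q ∈ ((QW Q W).filter (fun q => ¬ q ^ 2 ≤ Q)).filter
              (fun q => Squarefree q),
              (Nat.totient (Nat.gcd q d.natAbs) : ℝ) / (Nat.totient q : ℝ) ^ 2) *
                (M * D ^ 2) := by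
            have h5 : 0 ≤ ∑ q ∈ ((QW Q W).filter (fun q => ¬ q ^ 2 ≤ Q)).filter
              (fun q => Squarefree q),
              (Nat.totient (Nat.gcd q d.natAbs) : ℝ) / (Nat.totient q : ℝ) ^ 2 :=
              sum_nonneg fun q _ => by positivity
            have h6 : 0 ≤ (M : ℝ) * D ^ 2 := by positivity
            nlinarith [mul_nonneg h5 h6]
        _ = D ^ 2 * (M * tl Q W d) := by
            have h7 : ((QW Q W).filter (fun q => ¬ q ^ 2 ≤ Q)).filter (fun q => Squarefree q) =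
                (Icc 1 Q).filter (fun q => Q < q ^ 2 ∧ Nat.Coprime q W ∧ Squarefree q) := by
              ext q
              simp only [QW, mem_filter, not_le]
              tauto
            rw [h7]
            unfold tl
            ring
    linarith
  rw [hexp]
  calc T A A - ε * T A B' - ε * T B A + ε ^ 2 * T B B'
      ≤ Z A A - ε * Z A B' - ε * Z B A + ε ^ 2 * Z B B' + 8 * D ^ 2 * (Q : ℝ) ^ 6 := herr
    _ ≤ _ := by
        rw [hmain]
        linarith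

/-- **Mean of the model.** As `x_pair`, with `mean_general`; `QW`, `q = 1`: `TW_eq`, `TWr_eq`. -/
theorem x_mean (Q M W r b s : ℕ) (β ε : ℝ) (hW : 0 < W) (hWQ : W ^ 100 ≤ Q) (hr : r ∣ W)
    (hb : Nat.Coprime b W) (hs : 1 ≤ s) (hβ : 1 / 2 ≤ β)
    (hβ1 : β ≤ 1) (hε : |ε| ≤ 1) (hQ : 8 ≤ Q) :
    ((W : ℝ) / Nat.totient W) * (∑ c ∈ range M, (1 - ε * ((b + W * (s + c) : ℕ) : ℝ) ^ (β - 1))) -
        (Q : ℝ) ^ 5 ≤
      ∑ c ∈ range M, Mod Q r ε β ((b : ℤ) + W * (s + c : ℕ)) := by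
  set D : ℝ := (W : ℝ) / Nat.totient W with hD
  have hD0 : 0 ≤ D := by positivity
  set A : ℕ → ℕ → ℝ := fun q _ => TW Q W q with hA
  set B : ℕ → ℕ → ℝ := fun q c => XCG_w W b s β c * TWr Q W r q with hB
  have hA0 : ∀ q c, 0 ≤ A q c := fun q _ => TW_nonneg Q W q
  have hAD : ∀ q c, A q c ≤ D := fun q _ => TW_le Q W q hW
  have hAm : ∀ q, Antitone (A q) ∨ Monotone (A q) := fun q => Or.inl (fun _ _ _ => le_refl _)
  have hB0 : ∀ q c, 0 ≤ B q c := fun q c =>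
    mul_nonneg (XCG_w_nonneg W b s β c) (TWr_nonneg Q W r q)
  have hBD : ∀ q c, B q c ≤ D := fun q c => by
    have h1 := XCG_w_le W b s β c hW hs hβ1
    have h2 := XCG_w_nonneg W b s β c
    have h3 := TWr_nonneg Q W r q
    have h4 := TWr_le Q W r q hW hr
    calc XCG_w W b s β c * TWr Q W r q ≤ 1 * TWr Q W r q := mul_le_mul_of_nonneg_right h1 h3
      _ ≤ D := by rw [one_mul]; exact h4
  have hBm : ∀ q, Antitone (B q) ∨ Monotone (B q) := fun q =>
    Or.inl (fun c c' h => mul_le_mul_of_nonneg_right (XCG_w_anti W b s β hW hs hβ1 h)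
      (TWr_nonneg Q W r q))
  have hA1 := mean_general Q M W b s hW (by omega) hb A D hD0 hA0 hAD hAm
  have hB1 := mean_general Q M W b s hW (by omega) hb B D hD0 hB0 hBD hBm
  have hW1 : W * 1 ≤ Q := by
    have h1 := XCG_W_sq Q W hW hWQ
    nlinarith
  have hexp : ∑ c ∈ range M, Mod Q r ε β ((b : ℤ) + W * (s + c : ℕ)) =
      ∑ c ∈ range M, XCG_S Q W b s A c - ε * ∑ c ∈ range M, XCG_S Q W b s B c := by
    rw [mul_sum, ← sum_sub_distrib]
    apply sum_congr rfl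
    intro c _
    exact XCG_Mod_eq Q W r b s c β ε hW hr hb
  have hA2 : |∑ c ∈ range M, XCG_S Q W b s A c - ∑ c ∈ range M, A 1 c| ≤ D * (Q : ℝ) ^ 3 := hA1
  have hB2 : |∑ c ∈ range M, XCG_S Q W b s B c - ∑ c ∈ range M, B 1 c| ≤ D * (Q : ℝ) ^ 3 := hB1
  have hmain : D * (∑ c ∈ range M, (1 - ε * ((b + W * (s + c) : ℕ) : ℝ) ^ (β - 1))) =
      ∑ c ∈ range M, A 1 c - ε * ∑ c ∈ range M, B 1 c := by
    rw [mul_sum, mul_sum, ← sum_sub_distrib]
    apply sum_congr rfl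
    intro c _
    simp only [hA, hB]
    rw [TW_eq Q W 1 hW hW1, TWr_eq Q W r 1 hW hr hW1]
    unfold XCG_w
    ring
  have e2 : -(D * (Q : ℝ) ^ 3) ≤
      -ε * (∑ c ∈ range M, XCG_S Q W b s B c - ∑ c ∈ range M, B 1 c) := by
    apply neg_le_of_neg_le
    refine (neg_le_abs _).trans ?_
    rw [abs_mul, abs_neg]
    calc |ε| * |∑ c ∈ range M, XCG_S Q W b s B c - ∑ c ∈ range M, B 1 c|
        ≤ 1 * (D * (Q : ℝ) ^ 3) := mul_le_mul hε hB2 (abs_nonneg _) (by norm_num)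
      _ = _ := one_mul _
  have e1 := (abs_le.mp hA2).1
  have hQr : (8 : ℝ) ≤ Q := by exact_mod_cast hQ
  have hDQ : D ≤ Q := by
    have h1 : (1 : ℝ) ≤ Nat.totient W := by exact_mod_cast Nat.totient_pos.mpr hW
    have h2 : D ≤ W := div_le_self (by positivity) h1
    have h3 : (W : ℝ) ≤ Q := by
      have : W ≤ Q := by omega
      exact_mod_cast this
    linarith
  have herr : 2 * (D * (Q : ℝ) ^ 3) ≤ (Q : ℝ) ^ 5 := by
    have h4 : 0 ≤ (Q : ℝ) ^ 3 := by positivity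
    calc 2 * (D * (Q : ℝ) ^ 3) ≤ Q * (Q * (Q : ℝ) ^ 3) := by
          apply mul_le_mul (by linarith) _ (by positivity) (by positivity)
          exact mul_le_mul_of_nonneg_right hDQ h4
      _ = (Q : ℝ) ^ 5 := by ring
  rw [hexp, hmain]
  linarith

/-- Crude bound: `|Mod| ≤ 200 (1 + log Q)^3 dQ(m)` by `abs_G_le`, `abs_Gam_le`. -/
theorem abs_Mod_le (Q r : ℕ) (hr : 1 ≤ r) (hrQ : r ≤ Q) (β ε : ℝ) (hβ1 : β ≤ 1) (hε : |ε| ≤ 1)
    (m : ℤ) (hm : 1 ≤ m) : |Mod Q r ε β m| ≤ 200 * (1 + Real.log Q) ^ 3 * dQ Q m := by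
  have hQ1 : (1 : ℝ) ≤ Q := by exact_mod_cast hr.trans hrQ
  have hL : 0 ≤ Real.log Q := Real.log_nonneg hQ1
  have hd0 : 0 ≤ dQ Q m := by unfold dQ; positivity
  have h1 := abs_G_le Q m
  have h2 := abs_Gam_le Q r hr hrQ m
  have hm1 : (1 : ℝ) ≤ (m : ℝ) := by exact_mod_cast hm
  have h3 : (m : ℝ) ^ (β - 1) ≤ 1 := Real.rpow_le_one_of_one_le_of_nonpos hm1 (by linarith)
  have h4 : 0 ≤ (m : ℝ) ^ (β - 1) := by positivity
  have h5 : |ε * (m : ℝ) ^ (β - 1) * Gam Q r m| ≤ 100 * (1 + Real.log Q) ^ 3 * dQ Q m := by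
    rw [abs_mul, abs_mul, abs_of_nonneg h4]
    have h6 : |ε| * (m : ℝ) ^ (β - 1) ≤ 1 := mul_le_one₀ hε h4 h3
    calc |ε| * (m : ℝ) ^ (β - 1) * |Gam Q r m| ≤ 1 * (100 * (1 + Real.log Q) ^ 3 * dQ Q m) :=
          mul_le_mul h6 h2 (abs_nonneg _) (by norm_num)
      _ = _ := one_mul _
  have h7 : 10 * (1 + Real.log Q) ^ 2 * dQ Q m ≤ 100 * (1 + Real.log Q) ^ 3 * dQ Q m := by
    apply mul_le_mul_of_nonneg_right _ hd0
    have h8 : (1 + Real.log Q) ^ 2 ≤ (1 + Real.log Q) ^ 3 :=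
      pow_le_pow_right₀ (by linarith) (by norm_num)
    have h9 : 0 ≤ (1 + Real.log Q) ^ 3 := by positivity
    linarith
  unfold Mod
  calc |G Q m - ε * (m : ℝ) ^ (β - 1) * Gam Q r m|
      ≤ |G Q m| + |ε * (m : ℝ) ^ (β - 1) * Gam Q r m| := abs_sub _ _
    _ ≤ _ := by linarith

end Pool.Agent.Lib.H68T
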