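import Pool.Agent.Lib.H68X.XDefs
import Pool.Agent.Lib.H68X.XCG
import Pool.Agent.Lib.H68X.XDA
import Pool.Agent.Lib.H68T.BA1
import Pool.Agent.Lib.H68T.BA2

/-!
# Chunk XBA1: primes in a class: mean
-/

open Finset

namespace Pool.Agent.Lib.H68T

theorem XBA1_range {M W b l : ℕ} (hM : 0 < M) (hW : 0 < W) (hb : b < 2 * W) (h1 : M ≤ l)
    (h2 : l < 3 * M) : ((M * W : ℕ) : ℤ) ≤ (b : ℤ) + W * (l : ℕ) ∧
      (b : ℤ) + W * (l : ℕ) ≤ 4 * ((M * W : ℕ) : ℤ) := by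
  have h0 : ((M * W : ℕ) : ℤ) = (M : ℤ) * W := by push_cast; ring
  have h3 : (M : ℤ) ≤ l := by exact_mod_cast h1
  have h4 : (l : ℤ) + 1 ≤ 3 * M := by exact_mod_cast h2
  have h5 : (0 : ℤ) < W := by exact_mod_cast hW
  have h6 : (b : ℤ) < 2 * W := by exact_mod_cast hb
  have h7 : (1 : ℤ) ≤ M := by exact_mod_cast hM
  rw [h0]
  constructor
  · nlinarith
  · nlinarith

theorem XBA1_pre : ∃ K0 : ℝ, 1000 ≤ K0 ∧ ∀ (K : ℝ) (Q M W : ℕ), K0 ≤ K → Reg K Q (M * W) →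
    0 < W → W ^ 100 ≤ Q →
    1000 ≤ Real.log (M * W : ℕ) ∧ 1 + Real.log Q ≤ Real.log (M * W : ℕ) ∧ (1000 : ℝ) ≤ Q ∧
      0 < M ∧ W ≤ Q ∧ (W : ℝ) ≤ (Q : ℝ) ^ (1 / 100 : ℝ) ∧ (Q : ℝ) ^ 10 ≤ M := by
  obtain ⟨K5, hK5, hK5'⟩ := reg_pow_le 1 11 1 (by norm_num)
  refine ⟨|K5| + 1000, by linarith [abs_nonneg K5], ?_⟩
  intro K Q M W hKK hR hW hWQ
  have hK1 : (1:ℝ) ≤ K := by linarith [abs_nonneg K5]
  have hKp : 0 < K := by linarith
  have R5 := hR.mono (K' := K5) hKp.le (by linarith [le_abs_self K5])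
  have hlX : 1000 ≤ Real.log (M * W : ℕ) := by
    have h1 := hR.logX_ge hKp
    have h2 := Real.add_one_le_exp K
    linarith [abs_nonneg K5]
  have hQge : (1000 : ℝ) ≤ Q := by
    have := hR.Q_ge hK1
    linarith [abs_nonneg K5]
  have hQ0 : (0 : ℝ) < Q := by linarith
  have hQ1 : 1 ≤ Q := hR.Q_pos hK1
  have hlogQ : 1000 ≤ Real.log Q := by
    have := hR.logQ_ge hK1
    linarith [abs_nonneg K5]
  have hlQX : 1 + Real.log Q ≤ Real.log (M * W : ℕ) := by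
    have h1 := hR.logQ_le hK1
    have h2 : 1000 * Real.log Q ≤ K * Real.log Q :=
      mul_le_mul_of_nonneg_right (by linarith [abs_nonneg K5]) (by linarith)
    linarith
  have hX0 : 0 < M * W := hR.X_pos hKp
  have hM0 : 0 < M := Nat.pos_of_mul_pos_right hX0
  have hMr : (0 : ℝ) < M := by exact_mod_cast hM0
  have hWr : (0 : ℝ) < W := by exact_mod_cast hW
  have hWleQ : W ≤ Q := by
    calc W = W ^ 1 := (pow_one _).symm
      _ ≤ W ^ 100 := Nat.pow_le_pow_right hW (by norm_num)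
      _ ≤ Q := hWQ
  have hWleQr : (W : ℝ) ≤ Q := by exact_mod_cast hWleQ
  have hWQ' : (W : ℝ) ≤ (Q : ℝ) ^ (1 / 100 : ℝ) := by
    have h1 : ((W : ℝ) ^ 100) ≤ Q := by exact_mod_cast hWQ
    calc (W : ℝ) = ((W : ℝ) ^ (100 : ℕ)) ^ (1 / 100 : ℝ) := by
          rw [← Real.rpow_natCast, ← Real.rpow_mul hWr.le]; norm_num
      _ ≤ (Q : ℝ) ^ (1 / 100 : ℝ) := Real.rpow_le_rpow (by positivity) h1 (by norm_num)
  have hQX : (Q : ℝ) ^ 11 ≤ (M : ℝ) * W := by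
    have := hK5' Q (M * W) R5
    have e1 : (Q : ℝ) ^ (11 : ℝ) = (Q : ℝ) ^ (11 : ℕ) := by
      rw [← Real.rpow_natCast]; norm_num
    rw [e1, Real.rpow_one, one_mul] at this
    push_cast at this
    exact this
  have hQM : (Q : ℝ) ^ 10 ≤ M := by
    have h1 : (Q : ℝ) ^ 10 * W ≤ M * W := by
      calc (Q : ℝ) ^ 10 * W ≤ (Q : ℝ) ^ 10 * Q := mul_le_mul_of_nonneg_left hWleQr (by positivity)
        _ = (Q : ℝ) ^ 11 := by ring
        _ ≤ M * W := hQX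
    exact le_of_mul_le_mul_right h1 hWr
  exact ⟨hlX, hlQX, hQge, hM0, hWleQ, hWQ', hQM⟩

/-- In the class `b` mod `W` (`r ∣ W`) the structured part is `Mod Q r ε β` with `ε = ψ(b) = ±1`:
take real parts in `structured_exc` (`ψ (m) = ψ (b) = ε`). -/
theorem structured_class (c' C : ℝ) (hc' : 0 < c') : ∃ K : ℝ, 1 ≤ K ∧ ∀ Q M W r : ℕ,
    Reg K Q (M * W) → ∀ (ψ : DirichletCharacter ℂ r) (β : ℝ), ExcData c' C Q r ψ β →
    0 < W → r ∣ W → ∀ (b : ℕ) (ε : ℝ), b < 2 * W → ψ (b : ZMod r) = (ε : ℂ) →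
    ∀ l : ℕ, M ≤ l → l < 3 * M →
    |Lk Q (M * W / Q ^ 2) ((b : ℤ) + W * (l : ℕ)) - Mod Q r ε β ((b : ℤ) + W * (l : ℕ))| ≤
        sw K Q (M * W) * dQ Q ((b : ℤ) + W * (l : ℕ)) := by
  obtain ⟨K1, hK11, hK1⟩ := structured_exc c' C hc'
  refine ⟨K1, hK11, ?_⟩
  intro Q M W r hR ψ β hE hW hrW b ε hb hε l hl1 hl2
  have hX0 : 0 < M * W := hR.X_pos (by linarith)
  have hM0 : 0 < M := Nat.pos_of_mul_pos_right hX0
  obtain ⟨h1, h2⟩ := XBA1_range hM0 hW hb hl1 hl2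
  set m : ℤ := (b : ℤ) + W * (l : ℕ) with hm
  have h3 := hK1 Q (M * W) hR r ψ β hE m h1 h2
  have h4 : (m : ZMod r) = (b : ZMod r) := by
    rw [hm]
    push_cast
    have : (W : ZMod r) = 0 := (ZMod.natCast_eq_zero_iff W r).2 hrW
    rw [this, zero_mul, add_zero]
  rw [h4, hε] at h3
  have h5 : ((Lk Q (M * W / Q ^ 2) m - G Q m : ℝ) : ℂ) +
      (Gam Q r m : ℂ) * (ε : ℂ) * (((m : ℝ) ^ (β - 1) : ℝ) : ℂ) =
      ((Lk Q (M * W / Q ^ 2) m - Mod Q r ε β m : ℝ) : ℂ) := by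
    unfold Mod
    push_cast
    ring
  rw [h5, Complex.norm_real, Real.norm_eq_abs] at h3
  exact h3

theorem XBA1_moment {Q M W b s : ℕ} {ℓ : ℝ} (hW : 0 < W) (hbW : Nat.Coprime b W)
    (hℓ : 1 ≤ ℓ) (hlogQ : 0 ≤ Real.log Q) (hlQX : 1 + Real.log Q ≤ ℓ)
    (hQ : (1 : ℝ) ≤ Q) (hQM : (Q : ℝ) ^ 10 ≤ M) :
    ∑ c ∈ range M, dQ Q ((b : ℤ) + W * (s + c : ℕ)) ^ 2 ≤ 2 * M * ℓ ^ 3 := by
  refine (dQ_moment Q M W b s hW hbW).trans ?_
  have hMr : (0 : ℝ) ≤ M := Nat.cast_nonneg M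
  have h2 : (1 + Real.log Q) ^ 3 ≤ ℓ ^ 3 := pow_le_pow_left₀ (by linarith) hlQX _
  have h3 : (M : ℝ) * (1 + Real.log Q) ^ 3 ≤ M * ℓ ^ 3 := mul_le_mul_of_nonneg_left h2 hMr
  have h4 : (Q : ℝ) ^ 2 ≤ M := le_trans (pow_le_pow_right₀ hQ (by norm_num)) hQM
  have h5 : (1 : ℝ) ≤ ℓ ^ 3 := one_le_pow₀ hℓ
  have h6 : (M : ℝ) * 1 ≤ M * ℓ ^ 3 := mul_le_mul_of_nonneg_left h5 hMr
  linarith

/-- **Mean.** As the first part of `class_corr` (file `H68T/BA2.lean`): `lp = Mod + U' + U''` with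
`|U'| ≤ sw dQ` (`structured_class`), `U'' = lp - Lk` (`class_fourier` with `θ = 0`), `x_mean`,
`dQ_moment`. The errors are `M (sw K₁ (log X)^C + W Q^(-1/4) + ...)`, absorbed by `sw_absorb`,
`sw_of_Q`. -/
theorem x_class_mean (c' C : ℝ) (hc' : 0 < c') : ∃ K : ℝ, 1 ≤ K ∧ ∀ Q M W r : ℕ,
    Reg K Q (M * W) → ∀ (ψ : DirichletCharacter ℂ r) (β : ℝ), ExcData c' C Q r ψ β →
    0 < W → W ^ 100 ≤ Q → r ∣ W → ∀ (b : ℕ) (ε : ℝ), b < 2 * W → Nat.Coprime b W → |ε| ≤ 1 →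
    ψ (b : ZMod r) = (ε : ℂ) → ∀ s ∈ Ico M (2 * M),
    (∑ c ∈ range M, (1 - ε * ((b + W * (s + c) : ℕ) : ℝ) ^ (β - 1))) - M * sw K Q (M * W) ≤
      ∑ c ∈ range M, fW W b (s + c) := by
  obtain ⟨K1, hK11, hK1⟩ := structured_class c' C hc'
  obtain ⟨K2, hK2⟩ := class_fourier
  obtain ⟨K3, hK3, hpre⟩ := XBA1_pre
  obtain ⟨K4, hK40, hK41, hK4⟩ := sw_absorb 4 3 (K1 + 10) (by linarith)
  refine ⟨K1 + |K2| + K3 + K4, by linarith [abs_nonneg K2], ?_⟩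
  intro Q M W r hR ψ β hE hW hWQ hrW b ε hb hbW hε hεψ s hs
  set K := K1 + |K2| + K3 + K4 with hK
  have a2 := abs_nonneg K2
  have b2 := le_abs_self K2
  have hK0 : (0 : ℝ) ≤ K := by linarith
  have R1 := hR.mono (K' := K1) hK0 (by linarith)
  have R2 := hR.mono (K' := K2) hK0 (by linarith)
  have R4 := hR.mono (K' := K4) hK0 (by linarith)
  obtain ⟨hlX, hlQX, hQge, hM0, hWleQ, hWQ', hQM⟩ := hpre K Q M W (by linarith) hR hW hWQ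
  have hQ0 : (0 : ℝ) < Q := by linarith
  have hQ1 : 1 ≤ Q := by exact_mod_cast (by linarith : (1:ℝ) ≤ Q)
  have hMr : (0 : ℝ) < M := by exact_mod_cast hM0
  have hWr : (0 : ℝ) < W := by exact_mod_cast hW
  set X := M * W with hX
  have hXMW : (X : ℝ) = M * W := by rw [hX]; push_cast; ring
  set ℓ := Real.log (X : ℕ) with hℓ
  set mm : ℕ → ℤ := fun l => (b : ℤ) + W * (l : ℕ) with hmm
  set Y := X / Q ^ 2 with hY
  set g : ℕ → ℝ := fun l => Mod Q r ε β (mm l) with hgdef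
  set u : ℕ → ℝ := fun l => Lk Q Y (mm l) - Mod Q r ε β (mm l) with hudef
  set v : ℕ → ℝ := fun l => lp (mm l) - Lk Q Y (mm l) with hvdef
  set d : ℕ → ℝ := fun l => dQ Q (mm l) with hddef
  set ρ : ℝ := (Nat.totient W : ℝ) / (W : ℝ) with hρ
  have hφ0 : (0 : ℝ) < Nat.totient W := by exact_mod_cast Nat.totient_pos.mpr hW
  have hr0 : 0 < ρ := div_pos hφ0 hWr
  have hr1 : ρ ≤ 1 := by
    rw [hρ, div_le_one hWr]
    exact_mod_cast Nat.totient_le W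
  have hsum : ∀ l, fW W b l = ρ * (g l + u l + v l) := by
    intro l
    simp only [fW, hgdef, hudef, hvdef, hmm, hρ]
    ring
  have hlogQ : 0 ≤ Real.log Q := Real.log_nonneg (by linarith)
  have hs' := mem_Ico.mp hs
  have hv0 : |∑ c ∈ range M, v (s + c)| ≤ X * (Q : ℝ) ^ (-(1 / 4) : ℝ) := by
    have h1 := hK2 Q M W R2 hW b hb s hs 0
    have h2 : ∑ c ∈ range M, ((lp ((b : ℤ) + W * (s + c : ℕ)) -
      Lk Q (M * W / Q ^ 2) ((b : ℤ) + W * (s + c : ℕ)) : ℝ) : ℂ) * e (c * 0) =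
        ((∑ c ∈ range M, v (s + c) : ℝ) : ℂ) := by
      rw [Complex.ofReal_sum]
      refine sum_congr rfl fun c _ => ?_
      have : e ((c : ℝ) * 0) = 1 := by
        unfold e
        simp
      rw [this, mul_one]
    rw [h2, Complex.norm_real, Real.norm_eq_abs] at h1
    exact h1
  have hgm : (W : ℝ) / Nat.totient W *
      (∑ c ∈ range M, (1 - ε * ((b + W * (s + c) : ℕ) : ℝ) ^ (β - 1))) - (Q : ℝ) ^ 5 ≤
      ∑ c ∈ range M, g (s + c) :=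
    x_mean Q M W r b s β ε hW hWQ hrW hbW (by omega) hE.half hE.lt.le hε
      (by exact_mod_cast (by linarith : (8:ℝ) ≤ Q))
  have e1 : ∑ c ∈ range M, fW W b (s + c) =
      ∑ c ∈ range M, ρ * (g (s + c) + u (s + c) + v (s + c)) :=
    sum_congr rfl fun c _ => hsum (s + c)
  rw [e1]
  set S := ∑ c ∈ range M, (1 - ε * ((b + W * (s + c) : ℕ) : ℝ) ^ (β - 1)) with hS
  have h1 := BA2_mean M g u v d s ρ (sw K1 Q X) (2 * M * ℓ ^ 3) ((Q : ℝ) ^ 5)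
    (X * (Q : ℝ) ^ (-(1 / 4) : ℝ)) ((W : ℝ) / Nat.totient W * S) hr0.le hr1
    (sw_pos K1 Q X hQ1).le
    (fun c _ => one_le_dQ Q hQ1 _)
    (fun c hc => hK1 Q M W r R1 ψ β hE hW hrW b ε hb hεψ (s + c) (by omega)
      (by have := mem_range.mp hc; omega))
    (XBA1_moment hW hbW (by linarith) hlogQ hlQX (by linarith) hQM)
    (by positivity) (by positivity) hgm hv0
  refine le_trans ?_ h1
  have e2 : ρ * ((W : ℝ) / Nat.totient W * S) = S := by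
    rw [hρ]; field_simp
  rw [e2]
  -- absorb the errors
  set σ := sw (K1 + 10) Q X with hσ
  have hσ1 : sw K1 Q X ≤ σ := sw_mono (by linarith) (by linarith) hQ1
  have hq : (Q : ℝ) ^ (-(1 / 10) : ℝ) ≤ σ := by
    refine le_trans ?_ (sw_mono (by norm_num : (0:ℝ) < 10) (by linarith) hQ1)
    unfold sw
    linarith [Real.exp_pos (-(Real.log X / (10 * Real.log Q)))]
  have hσ0 : 0 < σ := sw_pos _ Q X hQ1
  have c1 : (Q : ℝ) ^ 5 ≤ M * σ := by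
    have h2 : (Q : ℝ) ^ 5 ≤ M * (Q : ℝ) ^ (-(1 / 10) : ℝ) := by
      calc (Q : ℝ) ^ 5 ≤ (Q : ℝ) ^ (10 + -(1 / 10) : ℝ) := by
            rw [← Real.rpow_natCast]
            exact Real.rpow_le_rpow_of_exponent_le (by linarith) (by norm_num)
        _ = (Q : ℝ) ^ 10 * (Q : ℝ) ^ (-(1 / 10) : ℝ) := by
            rw [Real.rpow_add hQ0, ← Real.rpow_natCast (Q : ℝ) 10]
            norm_num
        _ ≤ _ := mul_le_mul_of_nonneg_right hQM (Real.rpow_nonneg hQ0.le _)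
    exact h2.trans (mul_le_mul_of_nonneg_left hq hMr.le)
  have c2 : X * (Q : ℝ) ^ (-(1 / 4) : ℝ) ≤ M * σ := by
    rw [hXMW]
    calc (M : ℝ) * W * (Q : ℝ) ^ (-(1 / 4) : ℝ) ≤
          M * (Q : ℝ) ^ (1 / 100 : ℝ) * (Q : ℝ) ^ (-(1 / 4) : ℝ) := by gcongr
      _ = M * (Q : ℝ) ^ (1 / 100 + -(1 / 4) : ℝ) := by rw [mul_assoc, ← Real.rpow_add hQ0]
      _ ≤ M * (Q : ℝ) ^ (-(1 / 10) : ℝ) := by
          refine mul_le_mul_of_nonneg_left ?_ hMr.le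
          exact Real.rpow_le_rpow_of_exponent_le (by linarith) (by norm_num)
      _ ≤ M * σ := mul_le_mul_of_nonneg_left hq hMr.le
  have c3 : sw K1 Q X * (2 * M * ℓ ^ 3) ≤ M * (2 * ℓ ^ 3 * σ) := by
    calc sw K1 Q X * (2 * M * ℓ ^ 3) ≤ σ * (2 * M * ℓ ^ 3) :=
          mul_le_mul_of_nonneg_right hσ1 (by positivity)
      _ = _ := by ring
  have h8 := hK4 Q X R4
  have h9 : (Real.log X) ^ (3 : ℝ) = ℓ ^ 3 := by
    rw [hℓ, ← Real.rpow_natCast]; norm_num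
  rw [h9, ← hσ] at h8
  have h10 : sw K4 Q X ≤ sw K Q X := sw_mono (by linarith) (by linarith) hQ1
  have hℓ3 : 1 ≤ ℓ ^ 3 := one_le_pow₀ (by linarith)
  have h11 : 2 * σ + 2 * ℓ ^ 3 * σ ≤ sw K Q X := by
    have : 2 * σ ≤ 2 * ℓ ^ 3 * σ := by
      have := mul_le_mul_of_nonneg_right hℓ3 hσ0.le
      linarith
    linarith
  have h12 : (M : ℝ) * (2 * σ + 2 * ℓ ^ 3 * σ) ≤ M * sw K Q X :=
    mul_le_mul_of_nonneg_left h11 hMr.le
  have h13 : (M : ℝ) * (2 * σ + 2 * ℓ ^ 3 * σ) = M * σ + M * σ + M * (2 * ℓ ^ 3 * σ) := by ring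
  rw [h13] at h12
  linarith

end Pool.Agent.Lib.H68T
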