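import Pool.Agent.Lib.H68X.XDefs
import Pool.Agent.Lib.H68T.INV

/-!
# Chunk XZ3: the exceptional zero is simple and the only one
-/

open Finset Metric

namespace Pool.Agent.Lib.H68T

private theorem XZ3_diff (N : ℕ) [NeZero N] (χ : DirichletCharacter ℂ N) (hχ : χ ≠ 1) (β : ℝ) :
    Differentiable ℂ (dslope χ.LFunction (β : ℂ)) := by
  rw [← differentiableOn_univ, Complex.differentiableOn_dslope Filter.univ_mem]
  exact (DirichletCharacter.differentiable_LFunction hχ).differentiableOn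

private theorem XZ3_mul (N : ℕ) [NeZero N] (χ : DirichletCharacter ℂ N) (β : ℝ)
    (hL : χ.LFunction (β : ℂ) = 0) (s : ℂ) :
    (s - β) * dslope χ.LFunction (β : ℂ) s = χ.LFunction s := by
  have h := sub_smul_dslope χ.LFunction (β : ℂ) s
  rw [hL, sub_zero, smul_eq_mul] at h
  exact h

/-- Growth of `F(s) = L(s,ψ)/(s-β)` (`dslope`, entire since `L(·,ψ)` is): for `1 ≥ |s - β| ≥ 1/4`
and outside use `F(s) = L(s)/(s-β)` and `LFunction_bound`; inside the disc `|s - β| ≤ 1/4` the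
maximum modulus principle (`Complex.norm_le_of_forall_mem_frontier_norm_le` or similar). -/
theorem dslope_bound (N : ℕ) [NeZero N] (χ : DirichletCharacter ℂ N) (hχ : χ ≠ 1) (β : ℝ)
    (hβ : 3 / 4 ≤ β) (hβ1 : β < 1) (hL : χ.LFunction (β : ℂ) = 0) (s : ℂ) (hs : 1 / 2 ≤ s.re) :
    ‖dslope χ.LFunction (β : ℂ) s‖ ≤ 16 * N * (1 + ‖s‖) := by
  have hF := XZ3_diff N χ hχ β
  have hN : (1 : ℝ) ≤ N := by exact_mod_cast NeZero.one_le
  have hout : ∀ z : ℂ, 1 / 2 ≤ z.re → 1 / 4 ≤ ‖z - β‖ →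
      ‖dslope χ.LFunction (β : ℂ) z‖ ≤ 8 * N * ‖z‖ := by
    intro z hz hzb
    have h1 := LFunction_bound N χ hχ z hz
    rw [← XZ3_mul N χ β hL z, norm_mul] at h1
    have h2 : 1 / 4 * ‖dslope χ.LFunction (β : ℂ) z‖ ≤
        ‖z - β‖ * ‖dslope χ.LFunction (β : ℂ) z‖ :=
      mul_le_mul_of_nonneg_right hzb (norm_nonneg _)
    linarith
  rcases le_or_gt (1 / 4) ‖s - β‖ with h | h
  · refine (hout s hs h).trans ?_
    have : 0 ≤ (N : ℝ) * ‖s‖ := by positivity
    nlinarith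
  · have h1 : ‖dslope χ.LFunction (β : ℂ) s‖ ≤ 10 * N := by
      refine Complex.norm_le_of_forall_mem_frontier_norm_le (U := ball (β : ℂ) (1 / 4))
        isBounded_ball hF.diffContOnCl ?_ (subset_closure (by rwa [mem_ball_iff_norm]))
      intro z hz
      rw [frontier_ball _ (by norm_num), mem_sphere_iff_norm] at hz
      have h3 := Complex.abs_re_le_norm (z - β)
      rw [hz, Complex.sub_re, Complex.ofReal_re] at h3
      have h4 := (abs_le.1 h3).1
      have h5 : ‖z‖ ≤ 5 / 4 := by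
        have h6 : ‖z‖ ≤ ‖z - β‖ + ‖(β : ℂ)‖ := by
          calc ‖z‖ = ‖(z - β) + β‖ := by rw [sub_add_cancel]
            _ ≤ _ := norm_add_le _ _
        rw [hz, Complex.norm_real, Real.norm_of_nonneg (by linarith)] at h6
        linarith
      have h6 := hout z (by linarith) hz.ge
      have h7 : (N : ℝ) * ‖z‖ ≤ N * (5 / 4) := mul_le_mul_of_nonneg_left h5 (by linarith)
      linarith
    refine h1.trans ?_
    have : 0 ≤ (N : ℝ) * ‖s‖ := by positivity
    nlinarith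

/-- All zeros of `F(s) = L(s,ψ)/(s-β)` (in particular `β`, if it were a multiple zero) are to the
left of `1 - c₂/log Q`, if `β ≥ 1 - c₁/log Q`.

Proof. `L = log Q`. A zero `ρ` of `F` is `β` or another zero of `L(·,ψ)`; non-real ones are
excluded by `zero_free_real`; `Re ρ < 1` in all cases. Suppose `ρ` real, `ρ ≥ 1 - c₂/L`. Apply
`landau` to `F` at `s₀ = σ = 1 + a/L`, `R = 1/2`, `M = O(L)` (`dslope_bound`;
`‖F(σ)‖ = ‖L(σ)‖/(σ-β) ≥ (σ-1)/σ`, since `σ - β ≤ 1`): all zeros `ρ'` of `F` in the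
multiset have `Re ρ' < 1 < σ`, so `Re 1/(σ-ρ') > 0`, and `ρ` is one of them:
`Re F'/F(σ) ≥ 1/(σ-ρ) - C' L`. With `L'/L(σ) = 1/(σ-β) + F'/F(σ)`, `one_add_real` and
`vonMangoldt_le`: `0 ≤ 1/(σ-1) + C - 1/(σ-β) - 1/(σ-ρ) + C' L`, i.e.
`1/(a + c₁) + 1/(a + c₂) ≤ 1/a + C''`, false for `a = 1/(4C'')`, `c₁ = c₂ = a/4`
(`8/(5a) > 5/(4a)`). -/
theorem exc_zero_free : ∃ c₁ c₂ K : ℝ, 0 < c₁ ∧ 0 < c₂ ∧ ∀ Q : ℕ, K ≤ Q → ∀ (r : ℕ) [NeZero r]
    (ψ : DirichletCharacter ℂ r), r ≤ Q → ψ ≠ 1 → ψ ^ 2 = 1 → ∀ β : ℝ, 3 / 4 ≤ β →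
    1 - c₁ / Real.log Q ≤ β → β < 1 → ψ.LFunction (β : ℂ) = 0 →
    ∀ ρ : ℂ, dslope ψ.LFunction (β : ℂ) ρ = 0 → |ρ.im| ≤ (Q : ℝ) ^ 12 + 1 →
      ρ.re < 1 - c₂ / Real.log Q := by
  obtain ⟨A, hA, hcore⟩ := lab2_core
  obtain ⟨Cv, hCv, hvM⟩ := vonMangoldt_le
  obtain ⟨c₃, K₃, hc₃, hZ3⟩ := zero_free_real
  set C' : ℝ := Cv + 5 * A + 1 with hC'
  have hC'1 : 1 ≤ C' := by linarith
  have hC'0 : 0 < C' := by linarith
  set a : ℝ := 1 / (4 * C') with ha
  have ha0 : 0 < a := by positivity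
  have haC : C' * a = 1 / 4 := by rw [ha]; field_simp
  refine ⟨a / 4, min (a / 4) c₃, K₃ ⊔ Real.exp (1 + 16 * a + 55 / a), by positivity,
    lt_min (by positivity) hc₃, ?_⟩
  intro Q hQ r _ ψ hrQ hψ hsq β hβ34 hβ hβ1 hz ρ hρ him
  have hQ3 : K₃ ≤ Q := le_sup_left.trans hQ
  have hQ4 : Real.exp (1 + 16 * a + 55 / a) ≤ Q := le_sup_right.trans hQ
  have hQpos : (0 : ℝ) < Q := (Real.exp_pos _).trans_le hQ4
  set L : ℝ := Real.log Q with hL
  have hLge : 1 + 16 * a + 55 / a ≤ L := (Real.le_log_iff_exp_le hQpos).2 hQ4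
  have h55 : 0 < 55 / a := by positivity
  have hL1 : 1 ≤ L := by linarith
  have hL0 : 0 < L := by linarith
  have hQexp : (Q : ℝ) = Real.exp L := (Real.exp_log hQpos).symm
  have hmul := XZ3_mul r ψ β hz
  by_contra hcon
  push Not at hcon
  have hLρ : ψ.LFunction ρ = 0 := by rw [← hmul, hρ, mul_zero]
  have hre : ∀ z : ℂ, dslope ψ.LFunction (β : ℂ) z = 0 → z.re < 1 := by
    intro z h0
    by_contra h1
    have h2 : ψ.LFunction z = 0 := by rw [← hmul, h0, mul_zero]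
    exact DirichletCharacter.LFunction_ne_zero_of_one_le_re ψ (Or.inl hψ) (not_lt.1 h1) h2
  have hρ1 := hre ρ hρ
  have him0 : ρ.im = 0 := by
    by_contra h
    have h1 := hZ3 Q hQ3 r ψ hrQ hψ hsq ρ hLρ h him
    have h2 : min (a / 4) c₃ / L ≤ c₃ / L := div_le_div_of_nonneg_right (min_le_right _ _) hL0.le
    linarith
  have hρr : (ρ.re : ℂ) = ρ := Complex.ext (by simp) (by simp [him0])
  set x : ℝ := a / L with hx
  have hx0 : 0 < x := by positivity
  have hx16 : x ≤ 1 / 16 := by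
    rw [hx, div_le_iff₀ hL0]
    linarith
  have hx4 : a / 4 / L = x / 4 := by rw [hx]; ring
  rw [hx4] at hβ
  have hρx : 1 - x / 4 ≤ ρ.re := by
    have h2 : min (a / 4) c₃ / L ≤ a / 4 / L :=
      div_le_div_of_nonneg_right (min_le_left _ _) hL0.le
    rw [hx4] at h2
    linarith
  set σ : ℝ := 1 + x with hσ
  have hσ1 : 1 < σ := by linarith
  have hσre : ((σ : ℂ)).re = σ := Complex.ofReal_re σ
  have hσ1' : 1 < ((σ : ℂ)).re := by rw [hσre]; exact hσ1
  have hFd := XZ3_diff r ψ hψ β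
  have hσβ : (σ : ℂ) - β ≠ 0 := by
    rw [← Complex.ofReal_sub, Complex.ofReal_ne_zero]
    linarith
  have hnσβ : ‖(σ : ℂ) - β‖ = σ - β := by
    rw [← Complex.ofReal_sub, Complex.norm_real, Real.norm_of_nonneg (by linarith)]
  have hLσ : ψ.LFunction σ ≠ 0 :=
    DirichletCharacter.LFunction_ne_zero_of_one_le_re ψ (Or.inl hψ) hσ1'.le
  have hF0 : dslope ψ.LFunction (β : ℂ) σ ≠ 0 := by
    intro h
    exact hLσ (by rw [← hmul, h, mul_zero])
  have hlow : 4 / 5 * x ≤ ‖dslope ψ.LFunction (β : ℂ) σ‖ := by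
    have h1 := lab2_lower r ψ (σ : ℂ) hσ1'
    rw [← DirichletCharacter.LFunction_eq_LSeries ψ hσ1', hσre, ← hmul, norm_mul, hnσβ] at h1
    have h2 : 4 / 5 * x ≤ (σ - 1) / σ := by
      rw [le_div_iff₀ (by linarith)]
      have e1 : 4 / 5 * σ ≤ 1 := by linarith
      have e2 := mul_le_mul_of_nonneg_left e1 hx0.le
      have e3 : x * (4 / 5 * σ) = 4 / 5 * x * σ := by ring
      linarith
    have h3 : (σ - β) * ‖dslope ψ.LFunction (β : ℂ) σ‖ ≤
        1 * ‖dslope ψ.LFunction (β : ℂ) σ‖ :=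
      mul_le_mul_of_nonneg_right (by linarith) (norm_nonneg _)
    linarith
  have hbd : ∀ s ∈ closedBall (σ : ℂ) (1 / 2), ‖dslope ψ.LFunction (β : ℂ) s‖ ≤
      Real.exp (4 * L) * ‖dslope ψ.LFunction (β : ℂ) σ‖ := by
    intro s hs
    rw [mem_closedBall_iff_norm] at hs
    have h1 := Complex.abs_re_le_norm (s - σ)
    rw [Complex.sub_re, hσre] at h1
    have h2 := (abs_le.1 (h1.trans hs)).1
    have h3 := dslope_bound r ψ hψ β hβ34 hβ1 hz s (by linarith)
    have h4 : ‖s‖ ≤ 7 / 4 := by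
      have h6 : ‖s‖ ≤ ‖s - σ‖ + ‖(σ : ℂ)‖ := by
        calc ‖s‖ = ‖(s - σ) + σ‖ := by rw [sub_add_cancel]
          _ ≤ _ := norm_add_le _ _
      rw [Complex.norm_real, Real.norm_of_nonneg (by linarith)] at h6
      linarith
    have h5 : (r : ℝ) ≤ Q := by exact_mod_cast hrQ
    have h6 : 16 * (r : ℝ) * (1 + ‖s‖) ≤ 44 * Q := by
      have h7 : (r : ℝ) * (1 + ‖s‖) ≤ Q * (11 / 4) :=
        mul_le_mul h5 (by linarith) (by positivity) hQpos.le
      linarith
    have h8 : 44 * (Q : ℝ) ≤ Real.exp (4 * L) * (4 / 5 * x) := by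
      have h9 : 55 / a * L ≤ Real.exp (3 * L) := by
        have e1 : L ≤ Real.exp L := by linarith [Real.add_one_le_exp L]
        have e2 : Real.exp (3 * L) = Real.exp L * Real.exp L * Real.exp L := by
          rw [← Real.exp_add, ← Real.exp_add]
          congr 1
          ring
        have e3 : 55 / a * L ≤ Real.exp L * Real.exp L :=
          mul_le_mul (by linarith) e1 hL0.le (by positivity)
        rw [e2]
        exact e3.trans (le_mul_of_one_le_right (by positivity) (Real.one_le_exp hL0.le))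
      have h10 : Real.exp (4 * L) = Real.exp (3 * L) * Q := by
        rw [hQexp, ← Real.exp_add]
        congr 1
        ring
      rw [h10]
      have h11 : 55 / a * L * (Q * (4 / 5 * x)) ≤ Real.exp (3 * L) * (Q * (4 / 5 * x)) :=
        mul_le_mul_of_nonneg_right h9 (by positivity)
      have h12 : 55 / a * L * (Q * (4 / 5 * x)) = 44 * (Q : ℝ) := by
        rw [hx]
        field_simp
        ring
      linarith
    calc ‖dslope ψ.LFunction (β : ℂ) s‖ ≤ 44 * (Q : ℝ) := h3.trans h6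
      _ ≤ Real.exp (4 * L) * (4 / 5 * x) := h8
      _ ≤ _ := mul_le_mul_of_nonneg_left hlow (Real.exp_pos _).le
  have h1 := hcore (dslope ψ.LFunction (β : ℂ)) (σ : ℂ) (4 * L) (by positivity)
    (fun z _ => hFd.analyticAt z) hF0 hbd (fun z h0 => by
      rw [hσre]
      linarith [hre z h0]) {ρ} (by
      intro ρ' hρ'
      rw [Finset.mem_singleton] at hρ'
      subst hρ'
      refine ⟨hρ, ?_⟩
      rw [← hρr, ← Complex.ofReal_sub, Complex.norm_real, Real.norm_eq_abs, abs_le]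
      constructor <;> linarith)
  rw [Finset.sum_singleton] at h1
  have h2 : (1 / ((σ : ℂ) - ρ)).re = 1 / (σ - ρ.re) := by
    have : (1 / ((σ : ℂ) - ρ)) = ((1 / (σ - ρ.re) : ℝ) : ℂ) := by
      rw [← hρr]
      push_cast
      simp
    rw [this, Complex.ofReal_re]
  rw [h2] at h1
  -- logarithmic derivatives
  have h3 : logDeriv ψ.LFunction (σ : ℂ) = 1 / ((σ : ℂ) - β) +
      logDeriv (dslope ψ.LFunction (β : ℂ)) (σ : ℂ) := by
    have h4 := logDeriv_mul (f := fun z : ℂ => z - β) (g := dslope ψ.LFunction (β : ℂ)) (σ : ℂ)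
      hσβ hF0 (by fun_prop) (hFd _)
    have h5 : (fun z : ℂ => (z - β) * dslope ψ.LFunction (β : ℂ) z) = ψ.LFunction :=
      funext hmul
    rw [h5] at h4
    rw [h4]
    congr 1
    simp [logDeriv]
  have h4 := one_add_real r ψ hsq σ hσ1
  rw [lab1_char r ψ (σ : ℂ) hσ1', h3, Complex.neg_re, Complex.add_re] at h4
  have h5 : (1 / ((σ : ℂ) - β)).re = 1 / (σ - β) := by
    have : (1 / ((σ : ℂ) - β)) = ((1 / (σ - β) : ℝ) : ℂ) := by
      push_cast
      rfl
    rw [this, Complex.ofReal_re]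
  rw [h5] at h4
  have h6 := hvM σ hσ1 (by linarith)
  have h7 : 1 / (σ - 1) = L / a := by
    rw [hσ, add_sub_cancel_left, hx, one_div, inv_div]
  rw [h7] at h6
  have h8 : ∀ y : ℝ, 1 - x / 4 ≤ y → y < 1 → 4 / 5 * (L / a) ≤ 1 / (σ - y) := by
    intro y hy hy1
    have e1 : 4 / 5 * (L / a) = 1 / (5 / 4 * x) := by
      rw [hx]
      field_simp
    rw [e1]
    exact div_le_div_of_nonneg_left (by norm_num) (by linarith) (by linarith)
  have h9 := h8 β hβ hβ1
  have h10 := h8 ρ.re hρx hρ1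
  have h11 : Cv + A * (4 * L + 1) ≤ C' * L := by
    have e1 := mul_le_mul_of_nonneg_left hL1 hCv.le
    have e2 := mul_le_mul_of_nonneg_left hL1 hA.le
    have e3 : C' * L = Cv * L + 5 * (A * L) + L := by rw [hC']; ring
    have e4 : A * (4 * L + 1) = 4 * (A * L) + A * 1 := by ring
    rw [e3, e4]
    linarith
  have h12 : C' * L = 1 / 4 * (L / a) := by
    have : C' = 1 / (4 * a) := by
      rw [eq_div_iff (by positivity)]
      linarith
    rw [this]
    field_simp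
  have h13 : 0 < L / a := by positivity
  linarith

end Pool.Agent.Lib.H68T
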