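import Pool.Agent.Lib.H68X.XDefs
import Pool.Agent.Lib.H68X.XZ3
import Pool.Agent.Lib.H68T.INV

/-!
# Chunk XZ4: the logarithmic derivative of the exceptional L-function
-/

open Finset Metric

namespace Pool.Agent.Lib.H68T

theorem XZ4_dslope_diff {f : ℂ → ℂ} (hf : Differentiable ℂ f) (a : ℂ) :
    Differentiable ℂ (dslope f a) := by
  have h1 := (Complex.differentiableOn_dslope (s := Set.univ) (c := a) Filter.univ_mem
    (f := f)).2 hf.differentiableOn
  exact differentiableOn_univ.1 h1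

/-- The logarithmic derivative of `f(s)/(s-a)` if `f(a) = 0`. -/
theorem XZ4_dslope_logderiv {f : ℂ → ℂ} (hf : Differentiable ℂ f) (a s : ℂ) (ha : f a = 0)
    (hs : s ≠ a) (hfs : f s ≠ 0) :
    deriv (dslope f a) s / dslope f a s = deriv f s / f s - 1 / (s - a) := by
  have hsa : s - a ≠ 0 := sub_ne_zero.2 hs
  have hF : ∀ z : ℂ, dslope f a z * (z - a) = f z := by
    intro z
    rcases eq_or_ne z a with h | h
    · rw [h, ha, sub_self, mul_zero]
    · rw [dslope_of_ne _ h, slope_def_field, ha, sub_zero]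
      have : z - a ≠ 0 := sub_ne_zero.2 h
      field_simp
  have hd := XZ4_dslope_diff hf a
  have h1 : deriv f s = deriv (dslope f a) s * (s - a) + dslope f a s := by
    have h2 : f = fun z => dslope f a z * (z - a) := funext fun z => (hF z).symm
    have h3 : HasDerivAt (fun z => dslope f a z * (z - a))
        (deriv (dslope f a) s * (s - a) + dslope f a s * 1) s :=
      (hd s).hasDerivAt.mul ((hasDerivAt_id s).sub_const a)
    rw [mul_one] at h3
    rw [← h2] at h3
    exact h3.deriv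
  have hFs : dslope f a s ≠ 0 := by
    intro h
    have := hF s
    rw [h, zero_mul] at this
    exact hfs this.symm
  rw [h1, ← hF s]
  field_simp
  ring

/-- `g = -F'/F` with `F(s) = L(s,ψ)/(s-β)` (`dslope`). For `Re s > 1`:
`F'/F = L'/L - 1/(s-β)`, so `g s = LSeries (Λψ) s + 1/(s-β)`
(`DirichletCharacter.LSeries_twist_vonMangoldt_eq`, cf. `INV2_logderiv`). Analytic and bounded on the
rectangle: `exc_zero_free`; let `c₂` be its second constant. For `Re s ≥ 1 + c₂/(3 log Q)`:
`‖g s‖ ≤ L_Λ(Re s) + 1/(Re s - 1) ≤ C log Q` (`norm_LSeries_vM_le`, `vonMangoldt_le`). Otherwise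
`local_bound` for `F` at `s₀ = 1 + c₂/(3 log Q) + i Im s`, `R = 1/2`, `r' = 2c₂/(3 log Q)`, as in
`inv_char`: growth by `dslope_bound`, `‖F(s₀)‖ = ‖L(s₀)‖/‖s₀-β‖ ≥ (σ₀-1)/(σ₀ (2 + Q^12))`,
`‖F'/F(s₀)‖ ≤ L_Λ(σ₀) + 1/(σ₀-1)`. With `c' = c₂/3`. -/
theorem log_exc : ∃ c₁ c' C K : ℝ, 0 < c₁ ∧ 0 < c' ∧ 0 < C ∧ ∀ Q : ℕ, K ≤ Q →
    ∀ (r : ℕ) [NeZero r] (ψ : DirichletCharacter ℂ r), r ≤ Q → ψ.IsPrimitive → ψ ≠ 1 →
    ψ ^ 2 = 1 → ∀ β : ℝ, 3 / 4 ≤ β → 1 - c₁ / Real.log Q ≤ β → β < 1 →
    ψ.LFunction (β : ℂ) = 0 → LogStmt c' C Q ⟨r, ψ⟩ β := by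
  obtain ⟨c₁, c₂, K₂, hc₁, hc₂, hZ⟩ := exc_zero_free
  obtain ⟨C₀, hC₀, hvM⟩ := vonMangoldt_le
  obtain ⟨A, hA, hloc⟩ := local_bound
  set b : ℝ := min c₂ 1 with hb
  have hb0 : 0 < b := by
    rw [hb]
    exact lt_min hc₂ one_pos
  have hb2 : b ≤ c₂ := min_le_left _ _
  have hb4 : b ≤ 1 := min_le_right _ _
  set m : ℝ := 30 + 3 / b with hm
  have hm16 : 30 ≤ m := by
    rw [hm]
    have : 0 ≤ 3 / b := by positivity
    linarith
  refine ⟨c₁, b / 3, 2 * A * (m + 1) + (6 / b + C₀), K₂ ⊔ Real.exp (32 + C₀ + 3 / b), hc₁,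
    by positivity, by positivity, ?_⟩
  intro Q hQ r _ ψ hrQ _hprim hψ hsq β hβ hβQ hβ1 hβ0
  have hQ2 : K₂ ≤ Q := le_sup_left.trans hQ
  have hQ3 : Real.exp (32 + C₀ + 3 / b) ≤ Q := le_sup_right.trans hQ
  have hQpos : (0 : ℝ) < Q := (Real.exp_pos _).trans_le hQ3
  have hZ' := hZ Q hQ2 r ψ hrQ hψ hsq β hβ hβQ hβ1 hβ0
  set L : ℝ := Real.log Q with hL
  have hLge : 32 + C₀ + 3 / b ≤ L := (Real.le_log_iff_exp_le hQpos).2 hQ3
  have h3b : 0 < 3 / b := by positivity
  have hL32 : 32 ≤ L := by linarith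
  have hLpos : 0 < L := by linarith
  have hQexp : (Q : ℝ) = Real.exp L := (Real.exp_log hQpos).symm
  have hQ10 : (32 : ℝ) ≤ Q := by
    rw [hQexp]
    linarith [Real.add_one_le_exp L]
  have hf := DirichletCharacter.differentiable_LFunction hψ
  set F : ℂ → ℂ := dslope ψ.LFunction (β : ℂ) with hF
  have hFd : Differentiable ℂ F := XZ4_dslope_diff hf _
  -- the zeros
  have hzeros : ∀ ρ : ℂ, F ρ = 0 → |ρ.im| ≤ (Q : ℝ) ^ 12 + 1 → ρ.re < 1 - b / L := by
    intro ρ hρ him
    have h1 := hZ' ρ hρ him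
    have : b / L ≤ c₂ / L := div_le_div_of_nonneg_right hb2 hLpos.le
    linarith
  have hbL : 0 < b / L := by positivity
  have hb3L : b / 3 / L = b / L / 3 := by ring
  have hne : ∀ s ∈ Rg (b / 3) Q, F s ≠ 0 := by
    rintro s ⟨h1, _, h3⟩ h0
    rw [← hL, hb3L] at h1
    have := hzeros s h0 (by linarith)
    linarith
  -- the bound to the right of `1`
  have hright : ∀ s : ℂ, 1 < s.re → ‖(ψ.LFunction s)⁻¹‖ ≤ 1 + 1 / (s.re - 1) := by
    intro s hs
    have h1 := INV2_mul r ψ s hs
    have h2 : (ψ.LFunction s)⁻¹ =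
        LSeries (fun n => (ArithmeticFunction.moebius n : ℂ) * ψ (n : ZMod r)) s :=
      inv_eq_of_mul_eq_one_right h1
    rw [h2]
    exact INV2_lseries _ (INV2_norm_le r ψ) s hs
  have hsβ : ∀ s : ℂ, 1 < s.re → s ≠ (β : ℂ) := by
    intro s hs h
    rw [h, Complex.ofReal_re] at hs
    linarith
  have hsβ' : ∀ s : ℂ, 1 < s.re → s.re - 1 ≤ ‖s - (β : ℂ)‖ := by
    intro s hs
    have h1 := Complex.re_le_norm (s - (β : ℂ))
    rw [Complex.sub_re, Complex.ofReal_re] at h1
    linarith
  have hLne : ∀ s : ℂ, 1 < s.re → ψ.LFunction s ≠ 0 := fun s hs =>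
    DirichletCharacter.LFunction_ne_zero_of_one_le_re ψ (Or.inl hψ) hs.le
  have hFlog : ∀ s : ℂ, 1 < s.re → deriv F s / F s =
      deriv ψ.LFunction s / ψ.LFunction s - 1 / (s - (β : ℂ)) := fun s hs =>
    XZ4_dslope_logderiv hf (β : ℂ) s hβ0 (hsβ s hs) (hLne s hs)
  -- the logarithmic derivative to the right of `1`
  have hFright : ∀ s : ℂ, 1 < s.re → s.re ≤ 2 →
      ‖deriv F s / F s‖ ≤ 1 / (s.re - 1) + C₀ + 1 / (s.re - 1) := by
    intro s hs hs2
    rw [hFlog s hs]
    refine (norm_sub_le _ _).trans (add_le_add ?_ ?_)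
    · exact (INV2_logderiv r ψ s hs).trans (hvM s.re hs hs2)
    · rw [norm_div, norm_one]
      exact one_div_le_one_div_of_le (by linarith) (hsβ' s hs)
  refine ⟨fun s => -(deriv F s / F s), ?_, ?_, ?_⟩
  · intro s hs
    exact (((hFd.analyticAt s).deriv).div (hFd.analyticAt s) (hne s hs)).neg
  · intro s hs
    have h1 := DirichletCharacter.LSeries_twist_vonMangoldt_eq ψ hs
    have h2 : ((fun n : ℕ => ψ (n : ZMod r)) * fun n : ℕ => (ArithmeticFunction.vonMangoldt n : ℂ)) =
        fun n : ℕ => (ArithmeticFunction.vonMangoldt n : ℂ) * ψ (n : ZMod r) := by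
      funext n
      simp only [Pi.mul_apply]
      ring
    rw [h2, ← DirichletCharacter.deriv_LFunction_eq_deriv_LSeries ψ hs,
      ← DirichletCharacter.LFunction_eq_LSeries ψ hs] at h1
    simp only
    rw [hFlog s hs, h1]
    ring
  · rintro s hs
    obtain ⟨hs1, hs2, hs3⟩ := id hs
    rw [← hL, hb3L] at hs1
    rw [← hL]
    rw [norm_neg]
    have hbase : ∀ x : ℝ, b / L / 3 ≤ x → 1 / x ≤ 3 / b * L := by
      intro x hx
      rw [div_le_iff₀ (by linarith [show 0 < b / L / 3 by positivity])]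
      calc (1 : ℝ) = 3 / b * L * (b / L / 3) := by field_simp
        _ ≤ 3 / b * L * x := mul_le_mul_of_nonneg_left hx (by positivity)
    have hAm : 0 ≤ 2 * A * (m + 1) * L := by positivity
    rcases le_or_gt (1 + b / L / 3) s.re with hcase | hcase
    · -- right part
      have h1 := hFright s (by linarith [show 0 < b / L / 3 by positivity]) hs2
      have h2 := hbase (s.re - 1) (by linarith)
      have h3 : (2 * A * (m + 1) + (6 / b + C₀)) * L =
          2 * A * (m + 1) * L + (2 * (3 / b * L) + C₀ * L) := by ring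
      have h4 : C₀ ≤ C₀ * L := le_mul_of_one_le_right hC₀.le (by linarith)
      rw [h3]
      linarith
    · -- left part
      have hx3 : 0 < b / L / 3 := by positivity
      set s₀ : ℂ := ⟨1 + b / L / 3, s.im⟩ with hs₀
      have hs₀re : s₀.re = 1 + b / L / 3 := rfl
      have hs₀im : s₀.im = s.im := rfl
      have hbL1 : b / L ≤ 1 / 32 := by
        rw [div_le_div_iff₀ hLpos (by norm_num)]
        linarith
      have hs0gt : 1 < s₀.re := by rw [hs₀re]; linarith
      have hf0 : ψ.LFunction s₀ ≠ 0 := hLne s₀ hs0gt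
      have hinv0 : ‖(ψ.LFunction s₀)⁻¹‖ ≤ 1 + 3 / b * L := by
        have h1 := hright s₀ hs0gt
        have h2 := hbase (s₀.re - 1) (by rw [hs₀re]; linarith)
        linarith
      have hf0pos : 0 < ‖ψ.LFunction s₀‖ := norm_pos_iff.2 hf0
      have hnorms₀ : ‖s₀‖ ≤ 2 + (Q : ℝ) ^ 12 := by
        have h1 := Complex.norm_le_abs_re_add_abs_im s₀
        rw [hs₀re, hs₀im, abs_of_pos (by linarith)] at h1
        linarith
      have hFL : F s₀ * (s₀ - (β : ℂ)) = ψ.LFunction s₀ := by
        rw [hF, dslope_of_ne _ (hsβ s₀ hs0gt), slope_def_field, hβ0, sub_zero]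
        have : s₀ - (β : ℂ) ≠ 0 := sub_ne_zero.2 (hsβ s₀ hs0gt)
        field_simp
      have hF0 : F s₀ ≠ 0 := by
        intro h
        rw [h, zero_mul] at hFL
        exact hf0 hFL.symm
      have hM0 : 0 ≤ m * L := by positivity
      have hQ12 : (32 : ℝ) ^ 12 ≤ (Q : ℝ) ^ 12 := pow_le_pow_left₀ (by norm_num) hQ10 12
      have hQ12' : (100 : ℝ) ≤ (Q : ℝ) ^ 12 := le_trans (by norm_num) hQ12
      have hsβn : ‖s₀ - (β : ℂ)‖ ≤ 2 * (Q : ℝ) ^ 12 := by
        have h1 := norm_sub_le s₀ (β : ℂ)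
        rw [Complex.norm_real, Real.norm_eq_abs, abs_of_pos (by linarith)] at h1
        linarith
      have hres := hloc F s₀ (1 / 2) (m * L) (2 * (b / L / 3)) (by norm_num) hM0
        (by positivity) (by linarith) (fun z _ => hFd.analyticAt z) hF0 ?_ ?_ ?_ s ?_
      · obtain ⟨_, h2, _⟩ := hres
        have h4 : A * (m * L + 1) / (1 / 2) = 2 * A * (m * L + 1) := by ring
        rw [h4] at h2
        have h5 : 2 * A * (m * L + 1) ≤ 2 * A * ((m + 1) * L) := by
          refine mul_le_mul_of_nonneg_left ?_ (by positivity)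
          linarith
        have h6 : (2 * A * (m + 1) + (6 / b + C₀)) * L =
          2 * A * ((m + 1) * L) + (6 / b + C₀) * L := by ring
        have h7 : 0 ≤ (6 / b + C₀) * L := by positivity
        rw [h6]
        linarith
      · -- growth
        intro z hz
        rw [mem_closedBall, dist_eq_norm] at hz
        have hre : 1 / 2 ≤ z.re := by
          have h1 := Complex.abs_re_le_norm (z - s₀)
          rw [Complex.sub_re, hs₀re] at h1
          have h2 := neg_abs_le (z.re - (1 + b / L / 3))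
          linarith
        have h1 := dslope_bound r ψ hψ β hβ hβ1 hβ0 z hre
        have h2 : ‖z‖ ≤ ‖s₀‖ + 1 / 2 := by
          have := norm_add_le (z - s₀) s₀
          rw [sub_add_cancel] at this
          linarith
        have h3 : (r : ℝ) ≤ Q := by exact_mod_cast hrQ
        have h4 : ‖F z‖ ≤ (Q : ℝ) ^ 14 := by
          calc ‖F z‖ ≤ 16 * r * (1 + ‖z‖) := h1
            _ ≤ 16 * Q * (2 * (Q : ℝ) ^ 12) := by
                refine mul_le_mul (by linarith) ?_ (by positivity) (by positivity)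
                linarith
            _ = 32 * (Q : ℝ) ^ 13 := by ring
            _ ≤ Q * (Q : ℝ) ^ 13 := mul_le_mul_of_nonneg_right (by linarith) (by positivity)
            _ = (Q : ℝ) ^ 14 := by ring
        have h5 : 1 ≤ (1 + 3 / b * L) * ‖ψ.LFunction s₀‖ := by
          rw [norm_inv, inv_le_iff_one_le_mul₀ hf0pos] at hinv0
          exact hinv0
        have h6 : 1 + 3 / b * L ≤ (Q : ℝ) ^ 2 := by
          have h7 : L + 1 ≤ Q := by
            rw [hQexp]
            linarith [Real.add_one_le_exp L]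
          calc 1 + 3 / b * L ≤ L * L := by
                have : L * L = (32 + C₀ + 3 / b) * L + (L - (32 + C₀ + 3 / b)) * L := by ring
                have h8 : 0 ≤ (L - (32 + C₀ + 3 / b)) * L :=
                  mul_nonneg (by linarith) hLpos.le
                have h9 : (32 + C₀ + 3 / b) * L = 32 * L + C₀ * L + 3 / b * L := by ring
                have h10 : 0 ≤ C₀ * L := by positivity
                rw [this, h9]
                linarith
            _ ≤ Q * Q := mul_le_mul (by linarith) (by linarith) hLpos.le hQpos.le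
            _ = (Q : ℝ) ^ 2 := by ring
        have h8 : (Q : ℝ) ^ 30 ≤ Real.exp (m * L) := by
          rw [hQexp, ← Real.exp_nat_mul]
          refine Real.exp_le_exp.2 ?_
          push_cast
          exact mul_le_mul_of_nonneg_right hm16 hLpos.le
        have h9 : ‖ψ.LFunction s₀‖ ≤ ‖F s₀‖ * (2 * (Q : ℝ) ^ 12) := by
          rw [← hFL, norm_mul]
          exact mul_le_mul_of_nonneg_left hsβn (norm_nonneg _)
        calc ‖F z‖ ≤ (Q : ℝ) ^ 14 * 1 := by rw [mul_one]; exact h4
          _ ≤ (Q : ℝ) ^ 14 * ((Q : ℝ) ^ 2 * (‖F s₀‖ * (2 * (Q : ℝ) ^ 12))) := by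
              refine mul_le_mul_of_nonneg_left ?_ (by positivity)
              exact h5.trans (mul_le_mul h6 h9 hf0pos.le (by positivity))
          _ = 2 * (Q : ℝ) ^ 28 * ‖F s₀‖ := by ring
          _ ≤ (Q * Q) * (Q : ℝ) ^ 28 * ‖F s₀‖ := by
              refine mul_le_mul_of_nonneg_right (mul_le_mul_of_nonneg_right ?_ (by positivity))
                (norm_nonneg _)
              have : (32 : ℝ) * 32 ≤ Q * Q := mul_le_mul hQ10 hQ10 (by norm_num) hQpos.le
              linarith
          _ = (Q : ℝ) ^ 30 * ‖F s₀‖ := by ring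
          _ ≤ _ := mul_le_mul_of_nonneg_right h8 (norm_nonneg _)
      · -- zeros
        intro ρ hρ hρ0
        have h1 := Complex.abs_im_le_norm (ρ - s₀)
        rw [Complex.sub_im, hs₀im] at h1
        have h2 : |ρ.im| ≤ (Q : ℝ) ^ 12 + 1 := by
          have h3 : |ρ.im| ≤ |ρ.im - s.im| + |s.im| := by
            have := abs_add_le (ρ.im - s.im) s.im
            rwa [sub_add_cancel] at this
          linarith
        have h4 := hzeros ρ hρ0 h2
        rw [hs₀re]
        linarith
      · -- logarithmic derivative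
        have h1 := hFright s₀ hs0gt (by rw [hs₀re]; linarith)
        have h3 : 1 / (s₀.re - 1) = 3 / b * L := by
          have h5 : s₀.re - 1 = b / L / 3 := by rw [hs₀re]; ring
          rw [h5]
          field_simp
        rw [h3] at h1
        have h4 : (m * L + 1) / (1 / 2) = 2 * (m * L + 1) := by ring
        rw [h4]
        have h6 : 2 * (m * L + 1) = 60 * L + 2 * (3 / b * L) + 2 := by rw [hm]; ring
        rw [h6]
        linarith
      · rw [mem_closedBall, dist_eq_norm]
        have h1 : s - s₀ = ((s.re - (1 + b / L / 3) : ℝ) : ℂ) := by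
          apply Complex.ext
          · simp [hs₀re]
          · simp [hs₀im]
        rw [h1, Complex.norm_real, Real.norm_eq_abs, abs_le]
        constructor <;> linarith

end Pool.Agent.Lib.H68T
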