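import Pool.Agent.Lib.H68X.XDefs
import Pool.Agent.Lib.H68X.XZ1
import Pool.Agent.Lib.H68X.XZ2
import Pool.Agent.Lib.H68X.XZ4
import Pool.Agent.Lib.H68T.INVA
import Pool.Agent.Lib.H68T.PAGE

/-!
# Chunk XEX: everything about a level with an exceptional zero
-/

open Finset Metric

namespace Pool.Agent.Lib.H68T

/-- Assembly. `c = min c₀ c₁` (`c₀` from `page`, `c₁` from `log_exc`), `c'` the minimum and `C` the
maximum of the constants of `inv_single c₀`, `inv_zeta`, `inv_high`, `log_exc`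
(`InvStmt.mono` etc. in `XDefs`). For `p ∈ PC Q`, `p ≠ ⟨r, ψ⟩`: `p = p0` by `inv_zeta`; otherwise
`p.2 ≠ 1` (a primitive trivial character has conductor `1`, cf. `INVA.lean`), and if `p.2 ^ 2 = 1` a
real zero in `[1 - c₀/log Q, 1]` would contradict `page`. -/
theorem exc_data : ∃ c c' C K : ℝ, 0 < c ∧ 0 < c' ∧ 0 < C ∧ ∀ Q : ℕ, K ≤ Q →
    ∀ (r : ℕ) [NeZero r] (ψ : DirichletCharacter ℂ r) (β : ℝ), Exc c Q r ψ β →
    ExcData c' C Q r ψ β := by
  obtain ⟨c₀, K₀, hc₀, hpage⟩ := page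
  obtain ⟨c₁, a₁, C₁, K₁, hc₁, ha₁, hC₁, h₁⟩ := log_exc
  obtain ⟨a₂, C₂, K₂, ha₂, hC₂, h₂⟩ := inv_single c₀ hc₀
  obtain ⟨a₃, C₃, K₃, ha₃, hC₃, h₃⟩ := inv_zeta
  obtain ⟨a₄, C₄, K₄, ha₄, hC₄, h₄⟩ := inv_high
  have m1 : min (min a₁ a₂) (min a₃ a₄) ≤ a₁ := (min_le_left _ _).trans (min_le_left _ _)
  have m2 : min (min a₁ a₂) (min a₃ a₄) ≤ a₂ := (min_le_left _ _).trans (min_le_right _ _)
  have m3 : min (min a₁ a₂) (min a₃ a₄) ≤ a₃ := (min_le_right _ _).trans (min_le_left _ _)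
  have m4 : min (min a₁ a₂) (min a₃ a₄) ≤ a₄ := (min_le_right _ _).trans (min_le_right _ _)
  have n1 : C₁ ≤ max (max C₁ C₂) (max C₃ C₄) := (le_max_left _ _).trans (le_max_left _ _)
  have n2 : C₂ ≤ max (max C₁ C₂) (max C₃ C₄) := (le_max_right _ _).trans (le_max_left _ _)
  have n3 : C₃ ≤ max (max C₁ C₂) (max C₃ C₄) := (le_max_left _ _).trans (le_max_right _ _)
  have n4 : C₄ ≤ max (max C₁ C₂) (max C₃ C₄) := (le_max_right _ _).trans (le_max_right _ _)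
  refine ⟨min c₀ c₁, min (min a₁ a₂) (min a₃ a₄), max (max C₁ C₂) (max C₃ C₄),
    max (max (max K₀ K₁) (max K₂ K₃)) (max K₄ (Real.exp (4 * c₀))), lt_min hc₀ hc₁,
    lt_min (lt_min ha₁ ha₂) (lt_min ha₃ ha₄), lt_of_lt_of_le hC₁ n1, ?_⟩
  intro Q hQ r _ ψ β hexc
  have q0 : K₀ ≤ Q := (((le_max_left _ _).trans (le_max_left _ _)).trans (le_max_left _ _)).trans hQ
  have q1 : K₁ ≤ Q := (((le_max_right _ _).trans (le_max_left _ _)).trans (le_max_left _ _)).trans hQ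
  have q2 : K₂ ≤ Q := (((le_max_left _ _).trans (le_max_right _ _)).trans (le_max_left _ _)).trans hQ
  have q3 : K₃ ≤ Q :=
    (((le_max_right _ _).trans (le_max_right _ _)).trans (le_max_left _ _)).trans hQ
  have q4 : K₄ ≤ Q := ((le_max_left _ _).trans (le_max_right _ _)).trans hQ
  have q5 : Real.exp (4 * c₀) ≤ Q := ((le_max_right _ _).trans (le_max_right _ _)).trans hQ
  have hQpos : (0 : ℝ) < Q := (Real.exp_pos _).trans_le q5
  have hL : 4 * c₀ ≤ Real.log Q := (Real.le_log_iff_exp_le hQpos).2 q5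
  have hL0 : 0 < Real.log Q := by linarith
  have hdiv : ∀ y, min c₀ c₁ ≤ y → min c₀ c₁ / Real.log Q ≤ y / Real.log Q := fun y hy =>
    div_le_div_of_nonneg_right hy hL0.le
  obtain ⟨hrQ, hprim, hne, hsq, hβ, hβ1, hz⟩ := hexc
  have hβ34 : 3 / 4 ≤ β := by
    have h1 := hdiv c₀ (min_le_left _ _)
    have h2 : c₀ / Real.log Q ≤ 1 / 4 := by
      rw [div_le_iff₀ hL0]
      linarith
    linarith
  have hβ0 : 1 - c₀ / Real.log Q ≤ β := by linarith [hdiv c₀ (min_le_left _ _)]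
  have hβ1' : 1 - c₁ / Real.log Q ≤ β := by linarith [hdiv c₁ (min_le_right _ _)]
  have hr1 : 1 ≤ r := NeZero.one_le
  refine ⟨mem_PC.mpr ⟨hr1, hrQ, hprim⟩, ?_, hsq, by linarith, hβ1,
    (h₁ Q q1 r ψ hrQ hprim hne hsq β hβ34 hβ1' hβ1 hz).mono m1 n1,
    (h₄ Q q4 r ψ hrQ hprim hne hsq).mono m4 n4, ?_⟩
  · intro h
    obtain ⟨h1, h2⟩ := Sigma.mk.inj_iff.1 h
    subst h1
    exact hne (eq_of_heq h2)
  · rintro ⟨r', ψ'⟩ hp hpne
    obtain ⟨hr1', hr2', hprim'⟩ := mem_PC.mp hp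
    have hr1'' : 1 ≤ r' := hr1'
    have hne' : NeZero r' := ⟨by omega⟩
    by_cases hψ : ψ' = 1
    · have hr : r' = 1 := by
        have h3 : ψ'.conductor = r' := hprim'
        rw [hψ, DirichletCharacter.conductor_one] at h3
        exact h3.symm
      subst hr
      have hp0 : (⟨1, ψ'⟩ : Σ r : ℕ, DirichletCharacter ℂ r) = p0 := by
        rw [hψ]
        rfl
      rw [hp0]
      exact (h₃ Q q3).mono m3 n3
    · refine (h₂ Q q2 r' ψ' hr2' hprim' hψ ?_).mono m2 n2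
      intro hsq' σ hσ hσ1 hz'
      exact hpage Q q0 r r' ψ ψ' hrQ hr2' hprim hprim' hne hψ hsq hsq' hpne.symm β σ hβ0 hβ1.le
        hσ hσ1 hz hz'

/-- Below the conductor of an exceptional character the levels are good: if `ψ'` of conductor
`≤ r - 1` had a zero `σ ≥ 1 - c/log (r-1)`, then `σ ≥ 1 - c₀/log r` (`log r ≤ 2 log (r-1)`,
`c ≤ c₀/2`) and `β ≥ 1 - c/log Q ≥ 1 - c₀/log r` contradict `page` at the level `r`
(the conductors differ, so `⟨r', ψ'⟩ ≠ ⟨r, ψ⟩`). -/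
theorem good_below : ∃ c K : ℝ, 0 < c ∧ ∀ (Q r : ℕ) [NeZero r] (ψ : DirichletCharacter ℂ r)
    (β : ℝ), K ≤ r → Exc c Q r ψ β → Good c (r - 1) := by
  obtain ⟨c₀, K₀, hc₀, hpage⟩ := page
  refine ⟨c₀ / 2, max K₀ 3, by positivity, ?_⟩
  intro Q r _ ψ β hK hexc
  obtain ⟨hrQ, hprim, hne, hsq, hβ, hβ1, hz⟩ := hexc
  have hK0 : K₀ ≤ r := (le_max_left _ _).trans hK
  have h3r : (3 : ℝ) ≤ r := (le_max_right _ _).trans hK
  have h3 : 3 ≤ r := by exact_mod_cast h3r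
  have hlog : 0 < Real.log r := Real.log_pos (by linarith)
  have hcast : ((r - 1 : ℕ) : ℝ) = r - 1 := by
    rw [Nat.cast_sub (by omega), Nat.cast_one]
  have hlog1 : 0 < Real.log ((r - 1 : ℕ) : ℝ) := Real.log_pos (by rw [hcast]; linarith)
  have hlog2 : Real.log r ≤ 2 * Real.log ((r - 1 : ℕ) : ℝ) := by
    have h1 : 2 * Real.log ((r - 1 : ℕ) : ℝ) = Real.log (((r - 1 : ℕ) : ℝ) ^ 2) := by
      rw [Real.log_pow]
      push_cast
      ring
    rw [h1]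
    refine Real.log_le_log (by linarith) ?_
    rw [hcast]
    nlinarith
  intro r' _ ψ' hr' hp' hψ' hs' σ hσ hσ1 hz'
  have hr'r : r' ≤ r := by omega
  refine hpage r hK0 r r' ψ ψ' le_rfl hr'r hprim hp' hne hψ' hsq hs' ?_ β σ ?_ hβ1.le ?_ hσ1 hz hz'
  · intro h
    have h1 : r = r' := congrArg Sigma.fst h
    omega
  · have h1 : Real.log r ≤ Real.log Q :=
      Real.log_le_log (by linarith) (by exact_mod_cast hrQ)
    have h2 : c₀ / 2 / Real.log Q ≤ c₀ / Real.log r :=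
      div_le_div₀ hc₀.le (by linarith) hlog h1
    linarith
  · have h1 : c₀ / 2 / Real.log ((r - 1 : ℕ) : ℝ) ≤ c₀ / Real.log r := by
      rw [div_le_div_iff₀ hlog1 hlog]
      have := mul_le_mul_of_nonneg_left hlog2 hc₀.le
      linarith
    linarith

end Pool.Agent.Lib.H68T
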