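import Pool.Agent.Lib.H68X.XL1
import Pool.Agent.Lib.H68T.GL

/-!
# Chunk XSIE: real zeros, elementary bound
-/

open Finset

namespace Pool.Agent.Lib.H68T

/-- Cauchy estimate for the derivative of `L(·,ψ)` near `1`. -/
theorem XSIE_deriv (r : ℕ) [NeZero r] (ψ : DirichletCharacter ℂ r) (hψ : ψ ≠ 1) (σ : ℝ)
    (h1 : 3 / 4 ≤ σ) (h2 : σ ≤ 1) : ‖deriv ψ.LFunction (σ : ℂ)‖ ≤ 10 * r := by
  have hd : Differentiable ℂ ψ.LFunction := DirichletCharacter.differentiable_LFunction hψ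
  have hr : (0 : ℝ) ≤ r := Nat.cast_nonneg r
  have hb : ∀ z ∈ Metric.sphere (σ : ℂ) (1 / 4), ‖ψ.LFunction z‖ ≤ 5 / 2 * r := by
    intro z hz
    rw [mem_sphere_iff_norm] at hz
    have hre : |z.re - σ| ≤ 1 / 4 := by
      have := Complex.abs_re_le_norm (z - σ)
      rw [hz] at this
      simpa using this
    have hre1 : (1 : ℝ) / 2 ≤ z.re := by
      have := (abs_le.1 hre).1
      linarith
    have hz2 : ‖z‖ ≤ 5 / 4 := by
      have h3 : ‖z‖ ≤ ‖z - σ‖ + ‖(σ : ℂ)‖ := by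
        have := norm_add_le (z - σ) (σ : ℂ)
        simpa using this
      rw [hz, Complex.norm_real, Real.norm_eq_abs, abs_of_nonneg (by linarith)] at h3
      linarith
    have h4 := LFunction_bound r ψ hψ z (by linarith)
    refine h4.trans ?_
    nlinarith
  have := Complex.norm_deriv_le_of_forall_mem_sphere_norm_le (c := (σ : ℂ)) (R := 1 / 4)
    (C := 5 / 2 * r) (f := ψ.LFunction) (by norm_num) hd.diffContOnCl hb
  refine this.trans (le_of_eq ?_)
  ring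

/-- A real zero `β < 1` of `L(·,ψ)` satisfies `1 - β ≥ c/r²`. If `β ≤ 3/4` clear. Otherwise
`|L(1)| = |L(1) - L(β)| ≤ (1-β) sup_{[β,1]} |L'|`, and `|L'(σ)| ≤ 4 sup_{|s-σ|=1/4} |L(s)| ≤
4 · 2 r · 5/4 = 10 r` by Cauchy and `LFunction_bound`; `L1_lower`. -/
theorem zero_elementary : ∃ c : ℝ, 0 < c ∧ ∀ (r : ℕ) [NeZero r] (ψ : DirichletCharacter ℂ r),
    ψ ≠ 1 → ψ ^ 2 = 1 → ∀ β : ℝ, β < 1 → ψ.LFunction (β : ℂ) = 0 → c / (r : ℝ) ^ 2 ≤ 1 - β := by
  refine ⟨1 / 1000, by norm_num, ?_⟩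
  intro r _ ψ hψ hψ2 β hβ h0
  have hr : (1 : ℝ) ≤ r := by
    have : 0 < r := Nat.pos_of_ne_zero (NeZero.ne r)
    exact_mod_cast this
  have hr2 : (1 : ℝ) ≤ (r : ℝ) ^ 2 := one_le_pow₀ hr
  by_cases hb : β ≤ 3 / 4
  · have : (1 / 1000 : ℝ) / (r : ℝ) ^ 2 ≤ 1 / 1000 := div_le_self (by norm_num) hr2
    linarith
  · have hb' : 3 / 4 < β := not_le.1 hb
    have hd : Differentiable ℂ ψ.LFunction := DirichletCharacter.differentiable_LFunction hψ
    have hseg : ∀ z ∈ segment ℝ (β : ℂ) 1, ∃ t : ℝ, z = t ∧ β ≤ t ∧ t ≤ 1 := by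
      rintro z ⟨a, b, ha, hb1, hab, rfl⟩
      refine ⟨a * β + b, ?_, ?_, ?_⟩
      · simp
      · have : b = 1 - a := by linarith
        subst this
        nlinarith
      · have : b = 1 - a := by linarith
        subst this
        nlinarith
    have hmv := (convex_segment (β : ℂ) (1 : ℂ)).norm_image_sub_le_of_norm_deriv_le
      (𝕜 := ℂ) (f := ψ.LFunction) (C := 10 * r) (s := segment ℝ (β : ℂ) 1)
      (x := (β : ℂ)) (y := 1) (fun z _ => hd z) ?_ (left_mem_segment ℝ _ _)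
      (right_mem_segment ℝ _ _)
    · rw [h0, sub_zero] at hmv
      have h1 := L1_lower r ψ hψ hψ2
      have h2 : ‖(1 : ℂ) - (β : ℂ)‖ = 1 - β := by
        have : (1 : ℂ) - (β : ℂ) = ((1 - β : ℝ) : ℂ) := by push_cast; ring
        rw [this, Complex.norm_real, Real.norm_eq_abs, abs_of_pos (by linarith)]
      rw [h2] at hmv
      have h3 := h1.trans hmv
      rw [div_le_iff₀ (by positivity)] at h3
      rw [div_le_iff₀ (by positivity)]
      nlinarith
    · intro z hz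
      obtain ⟨t, rfl, ht1, ht2⟩ := hseg z hz
      exact XSIE_deriv r ψ hψ t (by linarith) ht2

end Pool.Agent.Lib.H68T
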