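import Mathlib
import Pool.Agent.Lib.H68T.GL1

/-!
# Chunk XRH: the hyperbola method
-/

open Finset

namespace Pool.Agent.Lib.H68T

theorem XRH_int (r : ℕ) [NeZero r] (ψ : DirichletCharacter ℂ r) (hψ : ψ ≠ 1) (a n : ℕ) :
    ‖∑ k ∈ range n, ψ ((a + k + 1 : ℕ) : ZMod r)‖ ≤ r := by
  have hN : 0 < r := Nat.pos_of_ne_zero (NeZero.ne r)
  induction n using Nat.strong_induction_on with
  | _ n ih =>
    rcases lt_or_ge n r with h | h
    · refine (norm_sum_le _ _).trans ?_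
      refine (sum_le_sum fun k _ => DirichletCharacter.norm_le_one ψ _).trans ?_
      rw [sum_const, card_range, nsmul_eq_mul, mul_one]
      exact_mod_cast h.le
    · obtain ⟨m, rfl⟩ := Nat.exists_eq_add_of_le' h
      have h1 : ∑ k ∈ range (m + r), ψ ((a + k + 1 : ℕ) : ZMod r) =
          ∑ k ∈ range m, ψ ((a + k + 1 : ℕ) : ZMod r) := by
        rw [sum_range_add]
        have h2 := gl1_period r ψ hψ (a + m)
        have h3 : ∑ k ∈ range r, ψ ((a + (m + k) + 1 : ℕ) : ZMod r) = 0 := by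
          rw [← h2]
          refine sum_congr rfl fun k _ => ?_
          congr 2
          ring
        rw [h3, add_zero]
      rw [h1]
      exact ih m (by omega)

theorem XRH_Ioc (r : ℕ) [NeZero r] (ψ : DirichletCharacter ℂ r) (hψ : ψ ≠ 1) (a b : ℕ) :
    ‖∑ d ∈ Ioc a b, ψ (d : ZMod r)‖ ≤ r := by
  have h1 : Ioc a b = Ico (a + 1) (b + 1) := by
    ext x
    simp only [mem_Ioc, mem_Ico]
    omega
  rw [h1, sum_Ico_eq_sum_range]
  have h2 := XRH_int r ψ hψ a (b + 1 - (a + 1))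
  refine (le_of_eq ?_).trans h2
  congr 1
  refine sum_congr rfl fun k _ => ?_
  congr 2
  ring

/-- tail of the series of `L(1,ψ)` -/
theorem XRH_tail (r : ℕ) [NeZero r] (ψ : DirichletCharacter ℂ r) (hψ : ψ ≠ 1) (D : ℕ) :
    ‖ψ.LFunction 1 - ∑ d ∈ Ioc 0 D, ψ (d : ZMod r) / d‖ ≤ 2 * r / (D + 1) := by
  have hsum := (gl1_tele 1 one_pos (r * ‖(1 : ℂ)‖ / (1 : ℂ).re) (by simp) (fun n => gl1_A ψ n 1)
    (fun n => by simpa using gl1_A_norm r ψ hψ n 1 (by simp))).1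
  have h1 : ψ.LFunction 1 = ∑' n, gl1_A ψ n 1 := gl1_eqOn r ψ hψ 1 (by simp)
  have hA : ∀ n : ℕ, gl1_A ψ n 1 =
      gl1_T ψ (n + 1) * ((1 : ℂ) / (n + 1) - 1 / (n + 1 + 1)) := by
    intro n
    unfold gl1_A
    rw [Complex.cpow_neg_one, Complex.cpow_neg_one]
    congr 1
    push_cast
    rw [one_div, one_div]
    congr 2
    ring
  have h2 := gl1_parts ψ (fun n => (1 : ℂ) / (n + 1)) D
  have h3 : ∑ d ∈ Ioc 0 D, ψ (d : ZMod r) / d =
      ∑ n ∈ range D, ψ ((n + 1 : ℕ) : ZMod r) * ((1 : ℂ) / (n + 1)) := by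
    have h4 : Ioc 0 D = Ico 1 (D + 1) := by
      ext x
      simp only [mem_Ioc, mem_Ico]
      omega
    rw [h4, sum_Ico_eq_sum_range]
    refine sum_congr rfl fun n _ => ?_
    rw [add_comm 1 n]
    push_cast
    ring
  have h5 : ∑ n ∈ range D, gl1_T ψ (n + 1) * ((1 : ℂ) / (n + 1) - 1 / ((n + 1 : ℕ) + 1)) =
      ∑ n ∈ range D, gl1_A ψ n 1 := by
    refine sum_congr rfl fun n _ => ?_
    rw [hA n]
    push_cast
    ring
  rw [h5] at h2
  have h6 := hsum.sum_add_tsum_nat_add D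
  rw [h1, h3, h2, ← h6]
  have h7 : ∑ i ∈ range D, gl1_A ψ i 1 + ∑' i, gl1_A ψ (i + D) 1 -
      (gl1_T ψ D * (1 / ((D : ℂ) + 1)) + ∑ n ∈ range D, gl1_A ψ n 1) =
      ∑' i, gl1_A ψ (i + D) 1 - gl1_T ψ D * (1 / ((D : ℂ) + 1)) := by ring
  rw [h7]
  have h8 : ‖∑' i, gl1_A ψ (i + D) 1‖ ≤ r / (D + 1) := by
    have hg : HasSum (fun i : ℕ => (r : ℝ) * (1 / ((i : ℝ) + D + 1) - 1 / ((i : ℝ) + D + 2)))
        (r / (D + 1)) := by
      rw [hasSum_iff_tendsto_nat_of_nonneg]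
      · have h9 : ∀ K : ℕ, ∑ i ∈ range K, (r : ℝ) * (1 / ((i : ℝ) + D + 1) - 1 / ((i : ℝ) + D + 2)) =
            r * (1 / ((D : ℝ) + 1) - 1 / ((K : ℝ) + D + 1)) := by
          intro K
          induction K with
          | zero => simp
          | succ K ih =>
            rw [sum_range_succ, ih]
            push_cast
            ring
        simp only [h9]
        have h10 : Filter.Tendsto (fun K : ℕ => 1 / ((K : ℝ) + D + 1)) Filter.atTop (nhds 0) := by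
          have h11 := tendsto_one_div_add_atTop_nhds_zero_nat (𝕜 := ℝ)
          have h12 := (Filter.tendsto_add_atTop_iff_nat D).2 h11
          refine h12.congr fun K => ?_
          push_cast
          rfl
        have h13 := (h10.const_sub (1 / ((D : ℝ) + 1))).const_mul (r : ℝ)
        rw [sub_zero, mul_one_div] at h13
        exact h13
      · intro i
        refine mul_nonneg (Nat.cast_nonneg _) (sub_nonneg.2 ?_)
        exact one_div_le_one_div_of_le (by positivity) (by linarith)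
    refine tsum_of_norm_bounded hg fun i => ?_
    rw [hA, norm_mul]
    refine mul_le_mul (gl1_T_bound r ψ hψ _) ?_ (norm_nonneg _) (Nat.cast_nonneg _)
    have h14 : (1 : ℂ) / (((i + D : ℕ) : ℂ) + 1) - 1 / (((i + D : ℕ) : ℂ) + 1 + 1) =
        ((1 / ((i : ℝ) + D + 1) - 1 / ((i : ℝ) + D + 2) : ℝ) : ℂ) := by
      push_cast
      congr 2
      ring
    rw [h14, Complex.norm_real, Real.norm_of_nonneg]
    refine sub_nonneg.2 ?_
    exact one_div_le_one_div_of_le (by positivity) (by linarith)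
  have h15 : ‖gl1_T ψ D * (1 / ((D : ℂ) + 1))‖ ≤ r / (D + 1) := by
    rw [norm_mul, mul_comm]
    have h16 : ‖1 / ((D : ℂ) + 1)‖ = 1 / ((D : ℝ) + 1) := by
      have : 1 / ((D : ℂ) + 1) = ((1 / ((D : ℝ) + 1) : ℝ) : ℂ) := by push_cast; rfl
      rw [this, Complex.norm_real, Real.norm_of_nonneg (by positivity)]
    rw [h16, one_div_mul_eq_div]
    exact div_le_div_of_nonneg_right (gl1_T_bound r ψ hψ _) (by positivity)
  refine (norm_sub_le _ _).trans ?_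
  have : 2 * (r : ℝ) / (D + 1) = r / (D + 1) + r / (D + 1) := by ring
  rw [this]
  exact add_le_add h8 h15

/-- `∑_{m ≤ y} ∑_{d ∣ m} ψ(d) = y L(1,ψ) + O(r √y)`. With `D = ⌊√y⌋`: the sum is
`∑_{d ≤ D} ψ(d) ⌊y/d⌋ + ∑_{e ≤ y/(D+1)} (S(y/e) - S(D))`, sums of `ψ` over intervals are at most `r`;
`∑_{d > D} ψ(d)/d` is at most `r/(D+1)` (`L(1,ψ)` is the sum of the conditionally convergent
series). Total error `≤ D + r y/(D+1) + r y/(D+1) ≤ 4 r √y`. -/
theorem hyperbola (r : ℕ) [NeZero r] (ψ : DirichletCharacter ℂ r) (hψ : ψ ≠ 1) (y : ℕ) :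
    ‖(∑ m ∈ Icc 1 y, ∑ d ∈ m.divisors, ψ (d : ZMod r)) - y * ψ.LFunction 1‖ ≤
      4 * r * Real.sqrt y := by
  have hr : (1 : ℝ) ≤ r := by
    exact_mod_cast Nat.one_le_iff_ne_zero.2 (NeZero.ne r)
  have e1 : ∑ m ∈ Icc 1 y, ∑ d ∈ m.divisors, ψ (d : ZMod r) =
      ∑ d ∈ Ioc 0 y, ψ (d : ZMod r) * ((y / d : ℕ) : ℂ) := by
    have h1 := ArithmeticFunction.sum_Ioc_mul_zeta_eq_sum
      (⟨fun n => if n = 0 then (0 : ℂ) else ψ (n : ZMod r), by simp⟩ : ArithmeticFunction ℂ) y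
    have h2 : Icc 1 y = Ioc 0 y := by
      ext x
      simp only [mem_Ioc, mem_Icc]
      omega
    rw [h2]
    refine Eq.trans ?_ (h1.trans ?_)
    · refine sum_congr rfl fun m hm => ?_
      rw [ArithmeticFunction.coe_mul_zeta_apply]
      refine sum_congr rfl fun d hd => ?_
      rw [ArithmeticFunction.coe_mk, if_neg (Nat.pos_of_mem_divisors hd).ne']
    · refine sum_congr rfl fun d hd => ?_
      rw [ArithmeticFunction.coe_mk, if_neg (by have := (mem_Ioc.1 hd).1; omega)]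
  rw [e1]
  set D := Nat.sqrt y with hD
  have hDy : D ≤ y := Nat.sqrt_le_self y
  have hD1 : (D : ℝ) ≤ √y := Real.nat_sqrt_le_real_sqrt
  have hD2 : √y ≤ D + 1 := Real.real_sqrt_le_nat_sqrt_succ
  have hs0 : 0 ≤ √(y : ℝ) := Real.sqrt_nonneg _
  have hyy : √(y : ℝ) * √y = y := Real.mul_self_sqrt (Nat.cast_nonneg _)
  have hyD : (y : ℝ) / (D + 1) ≤ √y := by
    rw [div_le_iff₀ (by positivity)]
    nlinarith
  have e2 : ∑ d ∈ Ioc 0 y, ψ (d : ZMod r) * ((y / d : ℕ) : ℂ) =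
      ∑ d ∈ Ioc 0 D, ψ (d : ZMod r) * ((y / d : ℕ) : ℂ) +
      ∑ d ∈ Ioc D y, ψ (d : ZMod r) * ((y / d : ℕ) : ℂ) :=
    (sum_Ioc_consecutive _ (Nat.zero_le _) hDy).symm
  -- the second part
  have e3 : ∑ d ∈ Ioc D y, ψ (d : ZMod r) * ((y / d : ℕ) : ℂ) =
      ∑ e ∈ Ioc 0 (y / (D + 1)), ∑ d ∈ Ioc D (y / e), ψ (d : ZMod r) := by
    have h1 : ∀ d ∈ Ioc D y, ψ (d : ZMod r) * ((y / d : ℕ) : ℂ) =
        ∑ e ∈ Ioc 0 (y / (D + 1)), if d * e ≤ y then ψ (d : ZMod r) else 0 := by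
      intro d hd
      obtain ⟨hd1, hd2⟩ := mem_Ioc.1 hd
      have hd0 : 0 < d := by omega
      rw [← sum_filter, sum_const, nsmul_eq_mul, mul_comm]
      congr 2
      have h2 : (Ioc 0 (y / (D + 1))).filter (fun e => d * e ≤ y) = Ioc 0 (y / d) := by
        ext e
        simp only [mem_filter, mem_Ioc]
        have h3 : e ≤ y / d ↔ d * e ≤ y := by
          rw [Nat.le_div_iff_mul_le hd0, mul_comm]
        constructor
        · rintro ⟨⟨ha, hb⟩, hc⟩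
          exact ⟨ha, h3.2 hc⟩
        · rintro ⟨ha, hb⟩
          refine ⟨⟨ha, hb.trans (Nat.div_le_div_left hd1 (by omega))⟩, h3.1 hb⟩
      rw [h2, Nat.card_Ioc, Nat.sub_zero]
    rw [sum_congr rfl h1, sum_comm]
    refine sum_congr rfl fun e he => ?_
    have he0 : 0 < e := (mem_Ioc.1 he).1
    rw [← sum_filter]
    refine sum_congr ?_ fun _ _ => rfl
    ext d
    simp only [mem_filter, mem_Ioc]
    have h3 : d ≤ y / e ↔ d * e ≤ y := by
      rw [Nat.le_div_iff_mul_le he0]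
    constructor
    · rintro ⟨⟨ha, hb⟩, hc⟩
      exact ⟨ha, h3.2 hc⟩
    · rintro ⟨ha, hb⟩
      refine ⟨⟨ha, hb.trans (Nat.div_le_self _ _)⟩, h3.1 hb⟩
  have b3 : ‖∑ d ∈ Ioc D y, ψ (d : ZMod r) * ((y / d : ℕ) : ℂ)‖ ≤ r * √y := by
    rw [e3]
    refine (norm_sum_le _ _).trans ((sum_le_sum fun e _ => XRH_Ioc r ψ hψ D (y / e)).trans ?_)
    rw [sum_const, Nat.card_Ioc, Nat.sub_zero, nsmul_eq_mul, mul_comm]
    refine mul_le_mul_of_nonneg_left ?_ (by linarith)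
    refine Nat.cast_div_le.trans ?_
    push_cast
    exact hyD
  -- the first part
  have b4 : ‖∑ d ∈ Ioc 0 D, ψ (d : ZMod r) * ((y / d : ℕ) : ℂ) -
      y * ∑ d ∈ Ioc 0 D, ψ (d : ZMod r) / d‖ ≤ √y := by
    rw [mul_sum, ← sum_sub_distrib]
    refine (norm_sum_le _ _).trans (le_trans (sum_le_sum (g := fun _ => (1 : ℝ)) ?_) ?_)
    · intro d hd
      have hd0 : 0 < d := (mem_Ioc.1 hd).1
      have h1 : ψ (d : ZMod r) * ((y / d : ℕ) : ℂ) - y * (ψ (d : ZMod r) / d) =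
          ψ (d : ZMod r) * (((((y / d : ℕ) : ℝ) - y / d : ℝ)) : ℂ) := by
        push_cast
        ring
      rw [h1, norm_mul, Complex.norm_real]
      have h2 : ‖((y / d : ℕ) : ℝ) - y / d‖ ≤ 1 := by
        rw [Real.norm_eq_abs, abs_le]
        have h3 : ((y / d : ℕ) : ℝ) ≤ y / d := Nat.cast_div_le
        have h4 : (y : ℝ) / d < ((y / d : ℕ) : ℝ) + 1 := by
          rw [div_lt_iff₀ (by exact_mod_cast hd0)]
          have := Nat.lt_mul_div_succ y hd0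
          have h5 : (y : ℝ) < d * (((y / d : ℕ) : ℝ) + 1) := by exact_mod_cast this
          linarith
        constructor <;> linarith
      calc _ ≤ 1 * 1 := mul_le_mul (DirichletCharacter.norm_le_one ψ _) h2 (norm_nonneg _) (by norm_num)
        _ = 1 := by norm_num
    · rw [sum_const, Nat.card_Ioc, Nat.sub_zero, nsmul_eq_mul, mul_one]
      exact hD1
  have b5 : ‖(y : ℂ) * (ψ.LFunction 1 - ∑ d ∈ Ioc 0 D, ψ (d : ZMod r) / d)‖ ≤ 2 * r * √y := by
    rw [norm_mul, Complex.norm_natCast]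
    calc (y : ℝ) * ‖ψ.LFunction 1 - ∑ d ∈ Ioc 0 D, ψ (d : ZMod r) / d‖
        ≤ y * (2 * r / (D + 1)) :=
          mul_le_mul_of_nonneg_left (XRH_tail r ψ hψ D) (Nat.cast_nonneg _)
      _ = 2 * r * (y / (D + 1)) := by ring
      _ ≤ _ := mul_le_mul_of_nonneg_left hyD (by positivity)
  rw [e2]
  have e6 : ∑ d ∈ Ioc 0 D, ψ (d : ZMod r) * ((y / d : ℕ) : ℂ) +
      ∑ d ∈ Ioc D y, ψ (d : ZMod r) * ((y / d : ℕ) : ℂ) - y * ψ.LFunction 1 =
      (∑ d ∈ Ioc 0 D, ψ (d : ZMod r) * ((y / d : ℕ) : ℂ) -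
        y * ∑ d ∈ Ioc 0 D, ψ (d : ZMod r) / d) +
      ∑ d ∈ Ioc D y, ψ (d : ZMod r) * ((y / d : ℕ) : ℂ) -
      (y : ℂ) * (ψ.LFunction 1 - ∑ d ∈ Ioc 0 D, ψ (d : ZMod r) / d) := by ring
  rw [e6]
  refine (norm_sub_le _ _).trans ((add_le_add (norm_add_le _ _) le_rfl).trans ?_)
  nlinarith

end Pool.Agent.Lib.H68T
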