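import Pool.Agent.Lib.H68T.GL1

/-!
# Chunk XRL: a zero close to `1` makes `L(1,ψ)` small
-/

open Finset

namespace Pool.Agent.Lib.H68T

/-- summation by parts, split at `K` -/
theorem XRL_split (r : ℕ) [NeZero r] (ψ : DirichletCharacter ℂ r) (hψ : ψ ≠ 1) (s : ℂ)
    (hs : 0 < s.re) (K : ℕ) :
    ψ.LFunction s = ∑ n ∈ range K, ψ ((n + 1 : ℕ) : ZMod r) * (((n : ℝ) + 1 : ℝ) : ℂ) ^ (-s)
      - gl1_T ψ K * (((K : ℝ) + 1 : ℝ) : ℂ) ^ (-s) + ∑' n, gl1_A ψ (n + K) s := by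
  have hsum := (gl1_tele s.re hs (r * ‖s‖ / s.re) (by positivity) (fun n => gl1_A ψ n s)
    (fun n => gl1_A_norm r ψ hψ n s hs)).1
  rw [gl1_eqOn r ψ hψ s hs, ← hsum.sum_add_tsum_nat_add K]
  have h9 := gl1_parts ψ (fun n => (((n : ℝ) + 1 : ℝ) : ℂ) ^ (-s)) K
  have h10 : ∀ n : ℕ, gl1_T ψ (n + 1) * ((((n : ℝ) + 1 : ℝ) : ℂ) ^ (-s) -
      ((((n + 1 : ℕ) : ℝ) + 1 : ℝ) : ℂ) ^ (-s)) = gl1_A ψ n s := by
    intro n
    rw [gl1_A]
    congr 3
    push_cast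
    ring_nf
  simp only [h10] at h9
  rw [h9]
  ring

/-- telescoping tail -/
theorem XRL_tele (σ : ℝ) (D : ℝ) (hD : 0 ≤ D) (K : ℕ) (f : ℕ → ℂ)
    (hf : ∀ n : ℕ, ‖f n‖ ≤ D * ((((n + K : ℕ) : ℝ) + 1) ^ (-σ) -
      (((n + K : ℕ) : ℝ) + 2) ^ (-σ))) :
    ‖∑' n, f n‖ ≤ D * ((K : ℝ) + 1) ^ (-σ) := by
  have hsum : ∀ M : ℕ, ∑ n ∈ range M, ‖f n‖ ≤ D * ((K : ℝ) + 1) ^ (-σ) := by
    intro M
    have h1 : ∑ n ∈ range M, ‖f n‖ ≤
        D * (((K : ℝ) + 1) ^ (-σ) - (((M + K : ℕ) : ℝ) + 1) ^ (-σ)) := by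
      induction M with
      | zero => simp
      | succ M ih =>
        rw [sum_range_succ]
        have h2 := hf M
        have e : (((M + 1 + K : ℕ) : ℝ) + 1) = ((M + K : ℕ) : ℝ) + 2 := by
          push_cast
          ring
        rw [e]
        linarith
    have h3 : 0 ≤ (((M + K : ℕ) : ℝ) + 1) ^ (-σ) := Real.rpow_nonneg (by positivity) _
    nlinarith
  have hs : Summable fun n => ‖f n‖ := summable_of_sum_range_le (fun n => norm_nonneg _) hsum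
  refine (norm_tsum_le_tsum_norm hs).trans ?_
  exact hs.tsum_le_of_sum_range_le hsum

/-- powers of `n ≤ r` near `1` -/
theorem XRL_pow (r : ℕ) (hr : 100 ≤ r) (σ : ℝ) (hσ : 1 - 2 / Real.log r ≤ σ) (x : ℝ)
    (hx1 : 1 ≤ x) (hxr : x ≤ r) : x ^ (-σ) ≤ Real.exp 2 * x⁻¹ := by
  have hr1 : (1 : ℝ) < r := by
    have : (100 : ℝ) ≤ r := by exact_mod_cast hr
    linarith
  have hlog : 0 < Real.log r := Real.log_pos hr1
  have hx0 : 0 < x := by linarith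
  have h1 : x ^ (-σ) ≤ x ^ (2 / Real.log r - 1) :=
    Real.rpow_le_rpow_of_exponent_le hx1 (by linarith)
  refine h1.trans ?_
  rw [Real.rpow_sub hx0, Real.rpow_one, div_eq_mul_inv]
  refine mul_le_mul_of_nonneg_right ?_ (by positivity)
  have h2 : x ^ (2 / Real.log r) ≤ (r : ℝ) ^ (2 / Real.log r) :=
    Real.rpow_le_rpow hx0.le hxr (by positivity)
  refine h2.trans ?_
  rw [Real.rpow_def_of_pos (by linarith)]
  apply Real.exp_le_exp.2
  rw [mul_div_cancel₀ _ hlog.ne']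

theorem XRL_harm (r : ℕ) : ∑ n ∈ range r, (((n : ℝ) + 1))⁻¹ ≤ 1 + Real.log r := by
  have h := harmonic_le_one_add_log r
  have e : ((harmonic r : ℚ) : ℝ) = ∑ n ∈ range r, (((n : ℝ) + 1))⁻¹ := by
    rw [harmonic]
    push_cast
    rfl
  rw [← e]
  exact h

/-- `‖L(s,ψ)‖ ≤ C log r` for `|s - 1| ≤ 2/log r`, `ψ ≠ 1` mod `r`, `r ≥ 100`: for `Re s > 1`, and then by
analytic continuation for `Re s > 0` (cf. `LFunction_bound` in `H68T/GL1.lean`),
`L(s) = ∑_{n ≤ r} ψ(n) n^(-s) + s ∫_r^∞ (S(u) - S(r)) u^(-s-1) du`, `S(u) = ∑_{n ≤ u} ψ(n)`,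
`|S(u) - S(r)| ≤ r`; `|n^(-s)| ≤ e²/n` for `n ≤ r`, and the integral is at most
`r r^(-σ)/σ ≤ 2 e²`. -/
theorem LFunction_near_one : ∃ C : ℝ, 0 < C ∧ ∀ (r : ℕ) [NeZero r]
    (ψ : DirichletCharacter ℂ r), 100 ≤ r → ψ ≠ 1 → ∀ s : ℂ, ‖s - 1‖ ≤ 2 / Real.log r →
    ‖ψ.LFunction s‖ ≤ C * Real.log r := by
  refine ⟨6 * Real.exp 2, by positivity, fun r _ ψ hr hψ s hs => ?_⟩
  have hrR : (100 : ℝ) ≤ r := by exact_mod_cast hr
  have hlog4 : 4 ≤ Real.log r := by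
    have h1 : Real.log 100 ≤ Real.log r := Real.log_le_log (by norm_num) hrR
    have h2 : (4 : ℝ) ≤ Real.log 100 := by
      rw [Real.le_log_iff_exp_le (by norm_num)]
      have h3 : Real.exp 4 = Real.exp 1 ^ 4 := by
        rw [← Real.exp_nat_mul]
        norm_num
      rw [h3]
      have h4 := Real.exp_one_lt_d9
      calc Real.exp 1 ^ 4 ≤ (2.7182818286 : ℝ) ^ 4 :=
            pow_le_pow_left₀ (Real.exp_pos 1).le h4.le 4
        _ ≤ 100 := by norm_num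
    linarith
  have hδ : 2 / Real.log r ≤ 1 / 2 := by
    rw [div_le_iff₀ (by linarith)]
    linarith
  have hre : |s.re - 1| ≤ ‖s - 1‖ := by
    have := Complex.abs_re_le_norm (s - 1)
    simpa using this
  have hσ : 1 - 2 / Real.log r ≤ s.re := by
    have := (abs_le.1 (hre.trans hs)).1
    linarith
  have hσ2 : 1 / 2 ≤ s.re := by linarith
  have hσ0 : 0 < s.re := by linarith
  have hns : ‖s‖ ≤ 3 / 2 := by
    have h1 : ‖s‖ ≤ ‖s - 1‖ + ‖(1 : ℂ)‖ := by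
      have := norm_add_le (s - 1) 1
      simpa using this
    rw [norm_one] at h1
    linarith
  have hE : 0 < Real.exp 2 := Real.exp_pos 2
  have hrpos : (0 : ℝ) < r := by linarith
  -- the power of `r + 1`
  have hK : ((r : ℝ) + 1) ^ (-s.re) ≤ Real.exp 2 * (r : ℝ)⁻¹ := by
    refine le_trans ?_ (XRL_pow r hr s.re hσ r (by linarith) le_rfl)
    exact Real.rpow_le_rpow_of_nonpos hrpos (by linarith) (by linarith)
  have hK0 : 0 ≤ ((r : ℝ) + 1) ^ (-s.re) := Real.rpow_nonneg (by positivity) _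
  rw [XRL_split r ψ hψ s hσ0 r]
  have h1 : ‖∑ n ∈ range r, ψ ((n + 1 : ℕ) : ZMod r) * (((n : ℝ) + 1 : ℝ) : ℂ) ^ (-s)‖ ≤
      Real.exp 2 * (1 + Real.log r) := by
    refine (norm_sum_le _ _).trans ?_
    refine le_trans (sum_le_sum fun n hn => ?_)
      (le_of_eq_of_le (mul_sum (range r) (fun n : ℕ => ((n : ℝ) + 1)⁻¹) (Real.exp 2)).symm
        (mul_le_mul_of_nonneg_left (XRL_harm r) hE.le))
    rw [norm_mul, Complex.norm_cpow_eq_rpow_re_of_pos (by positivity), Complex.neg_re]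
    have hn' : (n : ℝ) + 1 ≤ r := by
      have := mem_range.1 hn
      exact_mod_cast this
    have h2 := XRL_pow r hr s.re hσ ((n : ℝ) + 1) (by linarith [Nat.cast_nonneg (α := ℝ) n]) hn'
    have h3 := DirichletCharacter.norm_le_one ψ ((n + 1 : ℕ) : ZMod r)
    have h4 : 0 ≤ ((n : ℝ) + 1) ^ (-s.re) := Real.rpow_nonneg (by positivity) _
    calc _ ≤ 1 * ((n : ℝ) + 1) ^ (-s.re) := mul_le_mul_of_nonneg_right h3 h4
      _ ≤ _ := by rw [one_mul]; exact h2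
  have h2 : ‖gl1_T ψ r * (((r : ℝ) + 1 : ℝ) : ℂ) ^ (-s)‖ ≤ Real.exp 2 := by
    rw [norm_mul, Complex.norm_cpow_eq_rpow_re_of_pos (by positivity), Complex.neg_re]
    calc _ ≤ (r : ℝ) * (Real.exp 2 * (r : ℝ)⁻¹) :=
          mul_le_mul (gl1_T_bound r ψ hψ r) hK hK0 hrpos.le
      _ = Real.exp 2 := by field_simp
  have h3 : ‖∑' n, gl1_A ψ (n + r) s‖ ≤ 3 * Real.exp 2 := by
    have h4 := XRL_tele s.re (r * ‖s‖ / s.re) (by positivity) r (fun n => gl1_A ψ (n + r) s)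
      (fun n => gl1_A_norm r ψ hψ (n + r) s hσ0)
    refine h4.trans ?_
    have h5 : (r : ℝ) * ‖s‖ / s.re ≤ 3 * r := by
      rw [div_le_iff₀ hσ0]
      nlinarith
    calc _ ≤ (3 * r) * (Real.exp 2 * (r : ℝ)⁻¹) := mul_le_mul h5 hK hK0 (by positivity)
      _ = 3 * Real.exp 2 := by field_simp
  have h6 : ‖∑ n ∈ range r, ψ ((n + 1 : ℕ) : ZMod r) * (((n : ℝ) + 1 : ℝ) : ℂ) ^ (-s)
      - gl1_T ψ r * (((r : ℝ) + 1 : ℝ) : ℂ) ^ (-s) + ∑' n, gl1_A ψ (n + r) s‖ ≤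
      Real.exp 2 * (1 + Real.log r) + Real.exp 2 + 3 * Real.exp 2 := by
    refine (norm_add_le _ _).trans (add_le_add ((norm_sub_le _ _).trans (add_le_add h1 h2)) h3)
  refine h6.trans ?_
  nlinarith

/-- `L(1) = L(1) - L(β)` is at most `(1-β) sup_{[β,1]} |L'|`, and `|L'| ≤ C (log r)²` there by Cauchy's
inequality on circles of radius `1/log r`. -/
theorem L1_upper : ∃ C : ℝ, 0 < C ∧ ∀ (r : ℕ) [NeZero r] (ψ : DirichletCharacter ℂ r),
    100 ≤ r → ψ ≠ 1 → ∀ β : ℝ, 1 - 1 / Real.log r ≤ β → β ≤ 1 → ψ.LFunction (β : ℂ) = 0 →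
    ‖ψ.LFunction 1‖ ≤ C * (1 - β) * (Real.log r) ^ 2 := by
  obtain ⟨C, hC, H⟩ := LFunction_near_one
  refine ⟨C, hC, fun r _ ψ hr hψ β hβ1 hβ2 hz => ?_⟩
  have hrR : (100 : ℝ) ≤ r := by exact_mod_cast hr
  have hlog : 0 < Real.log r := Real.log_pos (by linarith)
  have hρ : 0 < 1 / Real.log r := by positivity
  have hdiff := DirichletCharacter.differentiable_LFunction hψ
  have hder : ∀ z ∈ Metric.closedBall (1 : ℂ) (1 / Real.log r),
      ‖deriv ψ.LFunction z‖ ≤ C * Real.log r ^ 2 := by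
    intro z hz
    have h1 := Complex.norm_deriv_le_of_forall_mem_sphere_norm_le (c := z)
      (C := C * Real.log r) (f := ψ.LFunction) hρ hdiff.diffContOnCl (fun w hw => by
        apply H r ψ hr hψ w
        have h2 : ‖w - z‖ = 1 / Real.log r := by simpa [dist_eq_norm] using hw
        have h3 : ‖z - 1‖ ≤ 1 / Real.log r := by simpa [dist_eq_norm] using hz
        have h4 : ‖w - 1‖ ≤ ‖w - z‖ + ‖z - 1‖ := by
          have := norm_add_le (w - z) (z - 1)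
          simpa using this
        have h5 : 2 / Real.log r = 1 / Real.log r + 1 / Real.log r := by ring
        rw [h5]
        linarith)
    refine h1.trans (le_of_eq ?_)
    field_simp
  have hmem1 : (1 : ℂ) ∈ Metric.closedBall (1 : ℂ) (1 / Real.log r) :=
    Metric.mem_closedBall_self hρ.le
  have hnorm : ‖(1 : ℂ) - (β : ℂ)‖ = 1 - β := by
    rw [← Complex.ofReal_one, ← Complex.ofReal_sub, Complex.norm_real, Real.norm_eq_abs,
      abs_of_nonneg (by linarith)]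
  have hmemβ : (β : ℂ) ∈ Metric.closedBall (1 : ℂ) (1 / Real.log r) := by
    rw [Metric.mem_closedBall, dist_comm, dist_eq_norm, hnorm]
    linarith
  have h := Convex.norm_image_sub_le_of_norm_deriv_le (f := ψ.LFunction)
    (C := C * Real.log r ^ 2) (s := Metric.closedBall (1 : ℂ) (1 / Real.log r))
    (x := (β : ℂ)) (y := 1) (fun z _ => hdiff z) hder (convex_closedBall _ _) hmemβ hmem1
  rw [hz, sub_zero, hnorm] at h
  linarith [h]

end Pool.Agent.Lib.H68T
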