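import Mathlib
import Pool.Agent.Lib.H68X.XRH

/-!
# Chunk XL1: an elementary lower bound for `L(1,ψ)`
-/

open Finset

namespace Pool.Agent.Lib.H68T

section zetaMul

open scoped ComplexOrder
open ArithmeticFunction hiding log
open DirichletCharacter

theorem XL1_zm_prime {N : ℕ} {χ : DirichletCharacter ℂ N} (hχ : χ ^ 2 = 1) {p : ℕ}
    (hp : p.Prime) (k : ℕ) : 1 ≤ zetaMul χ (p ^ (2 * k)) := by
  have h0 : zetaMul χ (p ^ (2 * k)) = ∑ i ∈ range (2 * k + 1), (χ (p : ZMod N)) ^ i := by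
    rw [zetaMul, coe_zeta_mul_apply, Nat.sum_divisors_prime_pow hp]
    refine sum_congr rfl fun i _ => ?_
    show (if p ^ i = 0 then (0 : ℂ) else χ ((p ^ i : ℕ) : ZMod N)) = _
    rw [if_neg (pow_ne_zero _ hp.ne_zero)]
    push_cast
    rw [map_pow]
  rw [h0]
  rcases MulChar.isQuadratic_iff_sq_eq_one.mpr hχ p with h | h | h
  · rw [h, sum_range_succ']
    simp
  · rw [h]
    simp only [one_pow, sum_const, card_range, nsmul_eq_mul, mul_one]
    have : (1 : ℂ) ≤ ((2 * k + 1 : ℕ) : ℂ) := by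
      rw [← Nat.cast_one]
      exact_mod_cast (by omega : 1 ≤ 2 * k + 1)
    exact this
  · rw [h, neg_one_geom_sum, if_neg]
    rw [Nat.not_even_iff_odd]
    exact ⟨k, rfl⟩

theorem XL1_zm_sq {N : ℕ} {χ : DirichletCharacter ℂ N} (hχ : χ ^ 2 = 1) {m : ℕ} (hm : m ≠ 0) :
    1 ≤ zetaMul χ (m ^ 2) := by
  rw [χ.isMultiplicative_zetaMul.multiplicative_factorization _ (pow_ne_zero 2 hm)]
  rw [Finsupp.prod]
  refine Finset.prod_induction _ (fun z : ℂ => 1 ≤ z) ?_ le_rfl ?_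
  · intro a b ha hb
    exact one_le_mul_of_one_le_of_one_le ha hb
  · intro p hp
    rw [Nat.support_factorization] at hp
    have h1 : (m ^ 2).factorization p = 2 * m.factorization p := by
      rw [Nat.factorization_pow]
      rfl
    rw [h1]
    exact XL1_zm_prime hχ (Nat.prime_of_mem_primeFactors hp) _

theorem XL1_zm_re {N : ℕ} {χ : DirichletCharacter ℂ N} (hχ : χ ^ 2 = 1) (n : ℕ) :
    0 ≤ (zetaMul χ n).re := by
  have := (Complex.le_def.1 (zetaMul_nonneg hχ n)).1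
  simpa using this

theorem XL1_zm_sq_re {N : ℕ} {χ : DirichletCharacter ℂ N} (hχ : χ ^ 2 = 1) {m : ℕ} (hm : m ≠ 0) :
    1 ≤ (zetaMul χ (m ^ 2)).re := by
  have := (Complex.le_def.1 (XL1_zm_sq hχ hm)).1
  simpa using this

theorem XL1_zm_eq {N : ℕ} (χ : DirichletCharacter ℂ N) (n : ℕ) :
    zetaMul χ n = ∑ d ∈ n.divisors, χ (d : ZMod N) := by
  rw [zetaMul, coe_zeta_mul_apply]
  refine sum_congr rfl fun d hd => ?_
  show (if d = 0 then (0 : ℂ) else χ (d : ZMod N)) = _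
  rw [if_neg (Nat.pos_of_mem_divisors hd).ne']

end zetaMul

theorem XL1_swap (K : ℕ) (f : ℕ → ℕ → ℂ) :
    ∑ n ∈ Ioc 0 K, ∑ d ∈ n.divisors, f d n = ∑ d ∈ Ioc 0 K, ∑ e ∈ Ioc 0 (K / d), f d (d * e) := by
  have h1 : ∀ n ∈ Ioc 0 K, ∑ d ∈ n.divisors, f d n =
      ∑ d ∈ Ioc 0 K, if d ∣ n then f d n else 0 := by
    intro n hn
    obtain ⟨hn1, hn2⟩ := mem_Ioc.1 hn
    rw [← sum_filter]
    refine sum_congr ?_ fun _ _ => rfl
    ext d
    simp only [Nat.mem_divisors, mem_filter, mem_Ioc]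
    constructor
    · rintro ⟨h1, h2⟩
      exact ⟨⟨Nat.pos_of_dvd_of_pos h1 hn1, (Nat.le_of_dvd hn1 h1).trans hn2⟩, h1⟩
    · rintro ⟨-, h1⟩
      exact ⟨h1, by omega⟩
  rw [sum_congr rfl h1, sum_comm]
  refine sum_congr rfl fun d hd => ?_
  have hd0 : 0 < d := (mem_Ioc.1 hd).1
  rw [← sum_filter]
  symm
  refine sum_nbij (fun e => d * e) ?_ ?_ ?_ ?_
  · intro e he
    obtain ⟨he1, he2⟩ := mem_Ioc.1 he
    rw [mem_filter, mem_Ioc]
    refine ⟨⟨Nat.mul_pos hd0 he1, ?_⟩, dvd_mul_right _ _⟩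
    have := (Nat.le_div_iff_mul_le hd0).1 he2
    rwa [mul_comm] at this
  · intro e _ e' _ h
    exact Nat.eq_of_mul_eq_mul_left hd0 h
  · intro n hn
    rw [mem_coe, mem_filter, mem_Ioc] at hn
    obtain ⟨⟨h1, h2⟩, e, rfl⟩ := hn
    refine ⟨e, ?_, rfl⟩
    rw [mem_coe, mem_Ioc]
    refine ⟨Nat.pos_of_mul_pos_left h1, ?_⟩
    rw [Nat.le_div_iff_mul_le hd0, mul_comm]
    exact h2
  · intro e _
    rfl

/-- `1 + t + ... + t^(n-1) ≥ n s^(n-1)`, `t = s²` -/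
theorem XL1_geom (s : ℝ) (n : ℕ) :
    (n : ℝ) * s ^ (n - 1) ≤ ∑ i ∈ range n, (s ^ 2) ^ i := by
  have h1 : ∑ i ∈ range n, (s ^ 2) ^ (n - 1 - i) = ∑ i ∈ range n, (s ^ 2) ^ i :=
    sum_range_reflect (fun i => (s ^ 2) ^ i) n
  have h2 : ∑ i ∈ range n, (2 * s ^ (n - 1)) ≤
      ∑ i ∈ range n, ((s ^ 2) ^ i + (s ^ 2) ^ (n - 1 - i)) := by
    refine sum_le_sum fun i hi => ?_
    have hi' := mem_range.1 hi
    have h3 : s ^ (n - 1) = s ^ i * s ^ (n - 1 - i) := by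
      rw [← pow_add]
      congr 1
      omega
    rw [h3, ← pow_mul, ← pow_mul, mul_comm 2 i, mul_comm 2 (n - 1 - i), pow_mul, pow_mul]
    nlinarith [sq_nonneg (s ^ i - s ^ (n - 1 - i))]
  rw [sum_add_distrib, h1, sum_const, card_range, nsmul_eq_mul] at h2
  linarith

/-- the coefficients of Monsky's proof -/
noncomputable def XL1_b (t : ℝ) (k : ℕ) : ℝ :=
  1 / ((k + 1) * (1 - t)) - t ^ (k + 1) / (1 - t ^ (k + 1))

theorem XL1_b_zero {t : ℝ} (ht1 : t < 1) : XL1_b t 0 = 1 := by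
  unfold XL1_b
  have : 1 - t ≠ 0 := by linarith
  simp only [Nat.cast_zero, zero_add, one_mul, pow_one]
  field_simp

theorem XL1_g {t : ℝ} (ht1 : t < 1) (n : ℕ) :
    1 - t ^ n = (1 - t) * ∑ i ∈ range n, t ^ i := by
  have := mul_neg_geom_sum t n
  rw [← this]

theorem XL1_b_anti {t : ℝ} (ht0 : 0 < t) (ht1 : t < 1) (k : ℕ) :
    XL1_b t (k + 1) ≤ XL1_b t k := by
  set s := √t with hs
  have hs2 : s ^ 2 = t := Real.sq_sqrt ht0.le
  have hs0 : 0 < s := Real.sqrt_pos.2 ht0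
  have hs1 : s ≤ 1 := Real.sqrt_le_one.2 ht1.le
  have h1 := XL1_geom s (k + 1)
  have h2 := XL1_geom s (k + 2)
  rw [hs2] at h1 h2
  set g1 := ∑ i ∈ range (k + 1), t ^ i with hg1
  set g2 := ∑ i ∈ range (k + 2), t ^ i with hg2
  have e1 : 1 - t ^ (k + 1) = (1 - t) * g1 := XL1_g ht1 _
  have e2 : 1 - t ^ (k + 2) = (1 - t) * g2 := XL1_g ht1 _
  have ht' : 0 < 1 - t := by linarith
  have hg1p : 0 < g1 := sum_pos (fun i _ => pow_pos ht0 i) ⟨0, mem_range.2 (by omega)⟩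
  have hg2p : 0 < g2 := sum_pos (fun i _ => pow_pos ht0 i) ⟨0, mem_range.2 (by omega)⟩
  have h3 : ((k : ℝ) + 1) * (k + 2) * t ^ (k + 1) ≤ g1 * g2 := by
    have h4 : ((k : ℝ) + 1) * s ^ k ≤ g1 := by
      have : k + 1 - 1 = k := rfl
      rw [this] at h1
      push_cast at h1
      exact h1
    have h5 : ((k : ℝ) + 2) * s ^ (k + 1) ≤ g2 := by
      have : k + 2 - 1 = k + 1 := rfl
      rw [this] at h2
      push_cast at h2
      exact h2
    have h6 : (((k : ℝ) + 1) * s ^ k) * (((k : ℝ) + 2) * s ^ (k + 1)) ≤ g1 * g2 :=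
      mul_le_mul h4 h5 (by positivity) hg1p.le
    refine le_trans ?_ h6
    have h7 : t ^ (k + 1) ≤ s ^ k * s ^ (k + 1) := by
      rw [← hs2, ← pow_mul, ← pow_add]
      exact pow_le_pow_of_le_one hs0.le hs1 (by omega)
    calc ((k : ℝ) + 1) * (k + 2) * t ^ (k + 1) ≤ ((k : ℝ) + 1) * (k + 2) * (s ^ k * s ^ (k + 1)) :=
          mul_le_mul_of_nonneg_left h7 (by positivity)
      _ = _ := by ring
  unfold XL1_b
  have e3 : k + 1 + 1 = k + 2 := rfl
  rw [e3, e1, e2]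
  push_cast
  have h8 : t ^ (k + 1) / ((1 - t) * g1) - t ^ (k + 2) / ((1 - t) * g2) =
      t ^ (k + 1) / ((1 - t) * (g1 * g2)) := by
    have h9 : t ^ (k + 1) * g2 - t ^ (k + 2) * g1 = t ^ (k + 1) := by
      have h10 : g2 = g1 + t ^ (k + 1) := by rw [hg2, hg1, sum_range_succ]
      have h11 : t ^ (k + 2) = t ^ (k + 1) * t := pow_succ _ _
      rw [h10, h11]
      have : t ^ (k + 1) * (g1 + t ^ (k + 1)) - t ^ (k + 1) * t * g1 =
          t ^ (k + 1) * ((1 - t) * g1 + t ^ (k + 1)) := by ring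
      rw [this, ← e1]
      ring
    rw [div_sub_div _ _ (by positivity) (by positivity), div_eq_div_iff (by positivity) (by positivity)]
    calc (t ^ (k + 1) * ((1 - t) * g2) - (1 - t) * g1 * t ^ (k + 2)) * ((1 - t) * (g1 * g2))
        = (t ^ (k + 1) * g2 - t ^ (k + 2) * g1) * ((1 - t) * ((1 - t) * (g1 * g2))) := by ring
      _ = _ := by rw [h9]; ring
  have h12 : t ^ (k + 1) / ((1 - t) * (g1 * g2)) ≤ 1 / ((1 - t) * (((k : ℝ) + 1) * (k + 2))) := by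
    rw [div_le_div_iff₀ (by positivity) (by positivity)]
    nlinarith
  have h13 : 1 / (((k : ℝ) + 1) * (1 - t)) - 1 / (((k : ℝ) + 1 + 1) * (1 - t)) =
      1 / ((1 - t) * (((k : ℝ) + 1) * (k + 2))) := by
    have : (k : ℝ) + 1 + 1 = k + 2 := by ring
    rw [this, div_sub_div _ _ (by positivity) (by positivity),
      div_eq_div_iff (by positivity) (by positivity)]
    ring
  linarith

theorem XL1_b_nonneg {t : ℝ} (ht0 : 0 < t) (ht1 : t < 1) (k : ℕ) : 0 ≤ XL1_b t k := by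
  unfold XL1_b
  have ht' : 0 < 1 - t := by linarith
  set g1 := ∑ i ∈ range (k + 1), t ^ i with hg1
  have e1 : 1 - t ^ (k + 1) = (1 - t) * g1 := XL1_g ht1 _
  have hg1p : 0 < g1 := sum_pos (fun i _ => pow_pos ht0 i) ⟨0, mem_range.2 (by omega)⟩
  have h1 : ((k : ℝ) + 1) * t ^ (k + 1) ≤ g1 := by
    have : ∑ i ∈ range (k + 1), t ^ (k + 1) ≤ g1 := by
      refine sum_le_sum fun i hi => ?_
      exact pow_le_pow_of_le_one ht0.le ht1.le (mem_range.1 hi).le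
    rw [sum_const, card_range, nsmul_eq_mul] at this
    push_cast at this
    exact this
  rw [e1, sub_nonneg, div_le_div_iff₀ (by positivity) (by positivity)]
  nlinarith

theorem XL1_abel (r : ℕ) [NeZero r] (ψ : DirichletCharacter ℂ r) (hψ : ψ ≠ 1) {t : ℝ}
    (ht0 : 0 < t) (ht1 : t < 1) (K : ℕ) :
    ‖∑ k ∈ range K, ψ ((k + 1 : ℕ) : ZMod r) * (XL1_b t k : ℂ)‖ ≤ r := by
  rw [gl1_parts ψ (fun k => (XL1_b t k : ℂ)) K]
  have h1 : ‖gl1_T ψ K * (XL1_b t K : ℂ)‖ ≤ r * XL1_b t K := by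
    rw [norm_mul, Complex.norm_real, Real.norm_of_nonneg (XL1_b_nonneg ht0 ht1 K)]
    exact mul_le_mul_of_nonneg_right (gl1_T_bound r ψ hψ K) (XL1_b_nonneg ht0 ht1 K)
  have h2 : ‖∑ n ∈ range K, gl1_T ψ (n + 1) * ((XL1_b t n : ℂ) - (XL1_b t (n + 1) : ℂ))‖ ≤
      r * (XL1_b t 0 - XL1_b t K) := by
    refine (norm_sum_le _ _).trans ?_
    have h3 : XL1_b t 0 - XL1_b t K = ∑ n ∈ range K, (XL1_b t n - XL1_b t (n + 1)) :=
      (sum_range_sub' _ _).symm
    rw [h3, mul_sum]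
    refine sum_le_sum fun n _ => ?_
    have h4 : (XL1_b t n : ℂ) - (XL1_b t (n + 1) : ℂ) = ((XL1_b t n - XL1_b t (n + 1) : ℝ) : ℂ) := by
      push_cast; rfl
    have h5 : 0 ≤ XL1_b t n - XL1_b t (n + 1) := sub_nonneg.2 (XL1_b_anti ht0 ht1 n)
    rw [h4, norm_mul, Complex.norm_real, Real.norm_of_nonneg h5]
    exact mul_le_mul_of_nonneg_right (gl1_T_bound r ψ hψ _) h5
  refine (norm_add_le _ _).trans ((add_le_add h1 h2).trans (le_of_eq ?_))
  rw [XL1_b_zero ht1]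
  ring

theorem XL1_F (r : ℕ) (ψ : DirichletCharacter ℂ r)
    (hψ2 : ψ ^ 2 = 1) {t : ℝ} (ht0 : 0 < t) (ht1 : t < 1) {K M : ℕ} (hK : M ^ 2 ≤ K) :
    (∑ m ∈ Ioc 0 M, t ^ (m ^ 2)) - K * (t ^ K / (1 - t)) ≤
      (∑ k ∈ range K, ψ ((k + 1 : ℕ) : ZMod r) * ((t ^ (k + 1) / (1 - t ^ (k + 1)) : ℝ) : ℂ)).re := by
  have ht' : 0 < 1 - t := by linarith
  -- reindex
  have e0 : ∑ k ∈ range K, ψ ((k + 1 : ℕ) : ZMod r) * ((t ^ (k + 1) / (1 - t ^ (k + 1)) : ℝ) : ℂ) =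
      ∑ d ∈ Ioc 0 K, ψ (d : ZMod r) * ((t ^ d / (1 - t ^ d) : ℝ) : ℂ) := by
    have h4 : Ioc 0 K = Ico 1 (K + 1) := by
      ext x
      simp only [mem_Ioc, mem_Ico]
      omega
    rw [h4, sum_Ico_eq_sum_range]
    refine sum_congr rfl fun n _ => ?_
    rw [add_comm 1 n]
  have e1 : ∀ d ∈ Ioc 0 K, ψ (d : ZMod r) * ((t ^ d / (1 - t ^ d) : ℝ) : ℂ) =
      ∑ e ∈ Ioc 0 (K / d), ψ (d : ZMod r) * ((t ^ (d * e) : ℝ) : ℂ) +
        ψ (d : ZMod r) * ((t ^ (d * (K / d + 1)) / (1 - t ^ d) : ℝ) : ℂ) := by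
    intro d hd
    have hd0 : d ≠ 0 := by have := (mem_Ioc.1 hd).1; omega
    have htd : t ^ d < 1 := pow_lt_one₀ ht0.le ht1 hd0
    have htd' : 1 - t ^ d ≠ 0 := by linarith
    rw [← mul_sum, ← mul_add]
    congr 1
    rw [← Complex.ofReal_sum, ← Complex.ofReal_add]
    congr 1
    have h4 : Ioc 0 (K / d) = Ico 1 (K / d + 1) := by
      ext x
      simp only [mem_Ioc, mem_Ico]
      omega
    rw [h4, sum_Ico_eq_sum_range, Nat.add_sub_cancel]
    have h5 : ∑ k ∈ range (K / d), t ^ (d * (1 + k)) = t ^ d * ∑ k ∈ range (K / d), (t ^ d) ^ k := by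
      rw [mul_sum]
      refine sum_congr rfl fun k _ => ?_
      rw [← pow_mul, ← pow_add]
      congr 1
      ring
    have h6 := mul_neg_geom_sum (t ^ d) (K / d)
    have h7 : ∑ k ∈ range (K / d), (t ^ d) ^ k = (1 - (t ^ d) ^ (K / d)) / (1 - t ^ d) := by
      rw [eq_div_iff htd', mul_comm, h6]
    rw [h5, h7, mul_add, pow_add, mul_one, pow_mul]
    field_simp
    ring
  rw [e0, sum_congr rfl e1, sum_add_distrib,
    ← XL1_swap K (fun d n => ψ (d : ZMod r) * ((t ^ n : ℝ) : ℂ)), Complex.add_re]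
  have h1 : ∑ m ∈ Ioc 0 M, t ^ (m ^ 2) ≤
      (∑ n ∈ Ioc 0 K, ∑ d ∈ n.divisors, ψ (d : ZMod r) * ((t ^ n : ℝ) : ℂ)).re := by
    have h2 : (∑ n ∈ Ioc 0 K, ∑ d ∈ n.divisors, ψ (d : ZMod r) * ((t ^ n : ℝ) : ℂ)).re =
        ∑ n ∈ Ioc 0 K, (DirichletCharacter.zetaMul ψ n).re * t ^ n := by
      rw [Complex.re_sum]
      refine sum_congr rfl fun n _ => ?_
      rw [← sum_mul, ← XL1_zm_eq, Complex.re_mul_ofReal]
    rw [h2]
    have h3 : ∑ n ∈ (Ioc 0 M).image (fun m => m ^ 2), (DirichletCharacter.zetaMul ψ n).re * t ^ n ≤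
        ∑ n ∈ Ioc 0 K, (DirichletCharacter.zetaMul ψ n).re * t ^ n := by
      refine sum_le_sum_of_subset_of_nonneg ?_ ?_
      · intro n hn
        obtain ⟨m, hm, rfl⟩ := mem_image.1 hn
        obtain ⟨hm1, hm2⟩ := mem_Ioc.1 hm
        rw [mem_Ioc]
        exact ⟨by positivity, (Nat.pow_le_pow_left hm2 2).trans hK⟩
      · intro n _ _
        exact mul_nonneg (XL1_zm_re hψ2 n) (by positivity)
    refine le_trans ?_ h3
    rw [sum_image]
    · refine sum_le_sum fun m hm => ?_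
      have hm1 := (mem_Ioc.1 hm).1
      have := XL1_zm_sq_re hψ2 (m := m) (by omega)
      exact le_mul_of_one_le_left (by positivity) this
    · intro a _ b _ hab
      exact Nat.pow_left_injective (n := 2) (by norm_num) hab
  have h8 : -(K * (t ^ K / (1 - t))) ≤
      (∑ d ∈ Ioc 0 K, ψ (d : ZMod r) * ((t ^ (d * (K / d + 1)) / (1 - t ^ d) : ℝ) : ℂ)).re := by
    refine le_trans ?_ (neg_le_of_abs_le (Complex.abs_re_le_norm _))
    rw [neg_le_neg_iff]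
    refine (norm_sum_le _ _).trans ((sum_le_sum (g := fun _ => t ^ K / (1 - t)) ?_).trans ?_)
    · intro d hd
      have hd1 : 0 < d := (mem_Ioc.1 hd).1
      have hd0 : d ≠ 0 := by omega
      have htd : t ^ d < 1 := pow_lt_one₀ ht0.le ht1 hd0
      have htd' : 0 < 1 - t ^ d := by linarith
      rw [norm_mul, Complex.norm_real, Real.norm_of_nonneg (by positivity)]
      have h9 : t ^ (d * (K / d + 1)) / (1 - t ^ d) ≤ t ^ K / (1 - t) := by
        refine div_le_div₀ (by positivity) ?_ ht' ?_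
        · exact pow_le_pow_of_le_one ht0.le ht1.le (Nat.lt_mul_div_succ K hd1).le
        · have : t ^ d ≤ t := pow_le_of_le_one ht0.le ht1.le hd0
          linarith
      calc _ ≤ 1 * (t ^ K / (1 - t)) :=
            mul_le_mul (DirichletCharacter.norm_le_one ψ _) h9 (by positivity) (by norm_num)
        _ = _ := one_mul _
    · rw [sum_const, Nat.card_Ioc, Nat.sub_zero, nsmul_eq_mul]
  linarith

/-- `|L(1,ψ)| ≥ 1/(100 r)` for a real character `ψ ≠ 1` mod `r`.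

Proof (Lambert series). `a(n) = ∑_{d ∣ n} ψ(d) ≥ 0` (real part; multiplicative), `a(n) ≥ 1` for
squares (`DirichletCharacter` file on `BadChar`/nonvanishing has `zetaMul_nonneg`). For `x ≥ 1`:
`∑_n a(n) e^(-n/x) = ∑_d ψ(d)/(e^(d/x) - 1) = x L(1,ψ) + ∑_d ψ(d) g(d/x)`,
`g(u) = 1/(e^u - 1) - 1/u`, increasing from `-1/2` to `0` on `(0, ∞)`; the partial sums of `ψ` are
at most `r` in norm, so the last sum is at most `r/2·1`... (Abel summation: `≤ r · 1/2`). The left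
side is at least `∑_{m ≤ √x} e^(-1) ≥ (√x - 1)/e`. With `x = 16 r²`:
`16 r² L(1,ψ) ≥ (4r - 1)/e - r/2 ≥ r/2`. (`L(1,ψ) = ∑ ψ(d)/d`, conditionally convergent:
`DirichletCharacter.LFunction` at `1` is the limit of the partial sums; or work with `e^(-n/x)` and
`s → 1+`, any argument is fine. The constant `100` is not important.) -/
theorem L1_lower (r : ℕ) [NeZero r] (ψ : DirichletCharacter ℂ r) (hψ : ψ ≠ 1)
    (hψ2 : ψ ^ 2 = 1) : 1 / (100 * (r : ℝ)) ≤ ‖ψ.LFunction 1‖ := by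
  have hr1 : 1 ≤ r := Nat.one_le_iff_ne_zero.2 (NeZero.ne r)
  have hr : (1 : ℝ) ≤ r := by exact_mod_cast hr1
  set N : ℝ := 64 * (r : ℝ) ^ 2 with hN
  have hN0 : 0 < N := by positivity
  have hN64 : 64 ≤ N := by rw [hN]; nlinarith
  set t : ℝ := 1 - 1 / N with ht
  have htN : 1 - t = 1 / N := by rw [ht]; ring
  have hNi : 1 / N ≤ 1 / 64 := one_div_le_one_div_of_le (by norm_num) hN64
  have hNi0 : 0 < 1 / N := by positivity
  have ht0 : 0 < t := by rw [ht]; linarith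
  have ht1 : t < 1 := by rw [ht]; linarith
  have hinv : 1 / (1 - t) = N := by rw [htN, one_div_one_div]
  -- powers of t
  have hpow : (1 / 4 : ℝ) ≤ t ^ (64 * r ^ 2) := by
    have h1 := one_add_mul_le_pow (a := -(1 / N)) (by linarith) (32 * r ^ 2)
    have h2 : 1 + ((32 * r ^ 2 : ℕ) : ℝ) * -(1 / N) = 1 / 2 := by
      push_cast
      rw [hN]
      have : (r : ℝ) ^ 2 ≠ 0 := by positivity
      field_simp
      norm_num
    rw [h2] at h1
    have h3 : 1 + -(1 / N) = t := by rw [ht]; ring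
    rw [h3] at h1
    have h4 : t ^ (64 * r ^ 2) = (t ^ (32 * r ^ 2)) ^ 2 := by
      rw [← pow_mul]
      congr 1
      ring
    rw [h4]
    nlinarith
  have hsum : 2 * (r : ℝ) ≤ ∑ m ∈ Ioc 0 (8 * r), t ^ (m ^ 2) := by
    have h1 : ∑ m ∈ Ioc 0 (8 * r), (1 / 4 : ℝ) ≤ ∑ m ∈ Ioc 0 (8 * r), t ^ (m ^ 2) := by
      refine sum_le_sum fun m hm => hpow.trans ?_
      refine pow_le_pow_of_le_one ht0.le ht1.le ?_
      have := (mem_Ioc.1 hm).2
      nlinarith
    rw [sum_const, Nat.card_Ioc, Nat.sub_zero, nsmul_eq_mul] at h1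
    push_cast at h1
    linarith
  have key : ∀ K : ℕ, 64 * r ^ 2 ≤ K →
      (r : ℝ) - N * (K * t ^ K) - N * (2 * r / (K + 1)) ≤ N * ‖ψ.LFunction 1‖ := by
    intro K hK
    have h1 := XL1_abel r ψ hψ ht0 ht1 K
    have h2 := XL1_F r ψ hψ2 ht0 ht1 (K := K) (M := 8 * r) (by nlinarith)
    have h3 := XRH_tail r ψ hψ K
    set FK := ∑ k ∈ range K, ψ ((k + 1 : ℕ) : ZMod r) * ((t ^ (k + 1) / (1 - t ^ (k + 1)) : ℝ) : ℂ)
      with hFK
    set SK := ∑ d ∈ Ioc 0 K, ψ (d : ZMod r) / d with hSK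
    have h4 : ∑ k ∈ range K, ψ ((k + 1 : ℕ) : ZMod r) * (XL1_b t k : ℂ) = (N : ℂ) * SK - FK := by
      have h5 : SK = ∑ n ∈ range K, ψ ((n + 1 : ℕ) : ZMod r) * ((1 : ℂ) / (n + 1)) := by
        have h4 : Ioc 0 K = Ico 1 (K + 1) := by
          ext x
          simp only [mem_Ioc, mem_Ico]
          omega
        rw [hSK, h4, sum_Ico_eq_sum_range]
        refine sum_congr rfl fun n _ => ?_
        rw [add_comm 1 n]
        push_cast
        ring
      rw [h5, hFK, mul_sum, ← sum_sub_distrib]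
      refine sum_congr rfl fun k _ => ?_
      have h6 : XL1_b t k = N * (1 / ((k : ℝ) + 1)) - t ^ (k + 1) / (1 - t ^ (k + 1)) := by
        unfold XL1_b
        rw [← hinv]
        congr 1
        rw [div_mul_div_comm, one_mul, mul_comm]
      rw [h6]
      push_cast
      ring
    rw [h4] at h1
    have h7 : FK.re ≤ r + N * ‖SK‖ := by
      have h8 : ‖FK‖ ≤ ‖(N : ℂ) * SK - FK‖ + ‖(N : ℂ) * SK‖ := by
        have : FK = (N : ℂ) * SK - ((N : ℂ) * SK - FK) := by ring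
        nth_rewrite 1 [this]
        refine (norm_sub_le _ _).trans (le_of_eq (add_comm _ _))
      have h9 : ‖(N : ℂ) * SK‖ = N * ‖SK‖ := by
        rw [norm_mul, Complex.norm_real, Real.norm_of_nonneg hN0.le]
      have h10 := Complex.re_le_norm FK
      linarith
    have h11 : ‖SK‖ ≤ ‖ψ.LFunction 1‖ + 2 * r / (K + 1) := by
      have : SK = ψ.LFunction 1 - (ψ.LFunction 1 - SK) := by ring
      rw [this]
      refine (norm_sub_le _ _).trans (by linarith)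
    have h12 : (K : ℝ) * (t ^ K / (1 - t)) = N * (K * t ^ K) := by
      rw [← hinv]
      ring
    rw [h12] at h2
    have h13 := mul_le_mul_of_nonneg_left h11 hN0.le
    rw [mul_add] at h13
    linarith
  have hlim : Filter.Tendsto (fun K : ℕ => (r : ℝ) - N * (K * t ^ K) - N * (2 * r / (K + 1)))
      Filter.atTop (nhds ((r : ℝ) - N * 0 - N * 0)) := by
    refine ((tendsto_const_nhds).sub (Filter.Tendsto.const_mul _ ?_)).sub
      (Filter.Tendsto.const_mul _ ?_)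
    · exact tendsto_self_mul_const_pow_of_lt_one ht0.le ht1
    · have h1 := (tendsto_one_div_add_atTop_nhds_zero_nat (𝕜 := ℝ)).const_mul (2 * (r : ℝ))
      rw [mul_zero] at h1
      refine h1.congr fun K => ?_
      ring
  have hfin : (r : ℝ) - N * 0 - N * 0 ≤ N * ‖ψ.LFunction 1‖ :=
    le_of_tendsto hlim ((Filter.eventually_ge_atTop (64 * r ^ 2)).mono fun K hK => key K hK)
  have h1 : (r : ℝ) ≤ 64 * (r : ℝ) ^ 2 * ‖ψ.LFunction 1‖ := by
    rw [← hN]; linarith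
  rw [div_le_iff₀ (by positivity)]
  have h2 : (r : ℝ) * 1 ≤ r * (64 * (r : ℝ) * ‖ψ.LFunction 1‖) := by nlinarith
  have h3 := le_of_mul_le_mul_left h2 (by linarith)
  have h4 : 0 ≤ (r : ℝ) * ‖ψ.LFunction 1‖ := by positivity
  nlinarith

end Pool.Agent.Lib.H68T
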