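import Pool.Agent.Lib.H68X.XDefs
import Pool.Agent.Lib.H68T.CQ

/-!
# Chunk XTL: the tail of the singular series is small in mean square
-/

open Finset

namespace Pool.Agent.Lib.H68T

theorem tl_nonneg (Q W : ℕ) (d : ℤ) : 0 ≤ tl Q W d := by
  unfold tl
  positivity

theorem XTL_count (M s g : ℕ) (hg : 0 < g) (hs : s ∈ Ico M (2 * M)) :
    ((((Ico M (2 * M)).filter (fun s' => s' ≠ s)).filter
      (fun s' : ℕ => g ∣ ((s : ℤ) - (s' : ℤ)).natAbs)).card : ℝ) ≤ (M : ℝ) / g := by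
  rw [mem_Ico] at hs
  have hsub : (((Ico M (2 * M)).filter (fun s' => s' ≠ s)).filter
      (fun s' : ℕ => g ∣ ((s : ℤ) - (s' : ℤ)).natAbs)) ⊆
      (Icc 1 ((s - M) / g)).image (fun j => s - g * j) ∪
      (Icc 1 ((2 * M - 1 - s) / g)).image (fun j => s + g * j) := by
    intro s' hs'
    rw [mem_filter, mem_filter, mem_Ico] at hs'
    obtain ⟨⟨⟨h1, h2⟩, h3⟩, h4⟩ := hs'
    rw [mem_union, mem_image, mem_image]
    rcases Nat.lt_or_ge s' s with h5 | h5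
    · left
      have h6 : ((s : ℤ) - s').natAbs = s - s' := by omega
      rw [h6] at h4
      obtain ⟨j, hj⟩ := h4
      refine ⟨j, ?_, by omega⟩
      rw [mem_Icc]
      constructor
      · rcases Nat.eq_zero_or_pos j with h7 | h7
        · rw [h7, mul_zero] at hj
          omega
        · exact h7
      · rw [Nat.le_div_iff_mul_le hg, mul_comm, ← hj]
        omega
    · right
      have h6 : ((s : ℤ) - s').natAbs = s' - s := by omega
      rw [h6] at h4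
      obtain ⟨j, hj⟩ := h4
      refine ⟨j, ?_, by omega⟩
      rw [mem_Icc]
      constructor
      · rcases Nat.eq_zero_or_pos j with h7 | h7
        · rw [h7, mul_zero] at hj
          omega
        · exact h7
      · rw [Nat.le_div_iff_mul_le hg, mul_comm, ← hj]
        omega
  have h1 : (((Ico M (2 * M)).filter (fun s' => s' ≠ s)).filter
      (fun s' : ℕ => g ∣ ((s : ℤ) - (s' : ℤ)).natAbs)).card ≤ (s - M) / g + (2 * M - 1 - s) / g := by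
    refine (card_le_card hsub).trans ((card_union_le _ _).trans ?_)
    refine add_le_add (card_image_le.trans ?_) (card_image_le.trans ?_)
    · rw [Nat.card_Icc, Nat.add_sub_cancel]
    · rw [Nat.card_Icc, Nat.add_sub_cancel]
  have hg' : (0 : ℝ) < g := by exact_mod_cast hg
  have h2 : (((s - M) / g : ℕ) : ℝ) ≤ ((s - M : ℕ) : ℝ) / g := Nat.cast_div_le
  have h3 : (((2 * M - 1 - s) / g : ℕ) : ℝ) ≤ ((2 * M - 1 - s : ℕ) : ℝ) / g := Nat.cast_div_le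
  have h4 : ((s - M : ℕ) : ℝ) + ((2 * M - 1 - s : ℕ) : ℝ) ≤ M := by
    have : (s - M) + (2 * M - 1 - s) ≤ M := by omega
    exact_mod_cast this
  calc _ ≤ (((s - M) / g + (2 * M - 1 - s) / g : ℕ) : ℝ) := by exact_mod_cast h1
    _ ≤ ((s - M : ℕ) : ℝ) / g + ((2 * M - 1 - s : ℕ) : ℝ) / g := by
        push_cast
        exact add_le_add (by exact_mod_cast h2) (by exact_mod_cast h3)
    _ = (((s - M : ℕ) : ℝ) + ((2 * M - 1 - s : ℕ) : ℝ)) / g := by rw [add_div]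
    _ ≤ (M : ℝ) / g := div_le_div_of_nonneg_right h4 hg'.le

/-- the sum over pairs -/
noncomputable def XTL_T (M q : ℕ) : ℝ :=
  ∑ s ∈ Ico M (2 * M), ∑ s' ∈ (Ico M (2 * M)).filter (fun s' => s' ≠ s),
      (Nat.totient (Nat.gcd q ((s : ℤ) - s').natAbs) : ℝ)

theorem XTL_T_nonneg (M q : ℕ) : 0 ≤ XTL_T M q :=
  sum_nonneg fun _ _ => sum_nonneg fun _ _ => Nat.cast_nonneg _

theorem XTL_first (M q : ℕ) (hq : 0 < q) :
    XTL_T M q ≤ (M : ℝ) ^ 2 * q.divisors.card := by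
  unfold XTL_T
  have h1 : ∀ s ∈ Ico M (2 * M), ∑ s' ∈ (Ico M (2 * M)).filter (fun s' => s' ≠ s),
      (Nat.totient (Nat.gcd q ((s : ℤ) - s').natAbs) : ℝ) ≤ (M : ℝ) * q.divisors.card := by
    intro s hs
    calc ∑ s' ∈ (Ico M (2 * M)).filter (fun s' => s' ≠ s),
          (Nat.totient (Nat.gcd q ((s : ℤ) - s').natAbs) : ℝ)
        ≤ ∑ s' ∈ (Ico M (2 * M)).filter (fun s' => s' ≠ s),
          ∑ g ∈ q.divisors, (if g ∣ ((s : ℤ) - s').natAbs then (g : ℝ) else 0) := by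
          apply sum_le_sum
          intro s' _
          have hmem : Nat.gcd q ((s : ℤ) - s').natAbs ∈ q.divisors :=
            Nat.mem_divisors.2 ⟨Nat.gcd_dvd_left _ _, hq.ne'⟩
          have h2 : (if Nat.gcd q ((s : ℤ) - s').natAbs ∣ ((s : ℤ) - s').natAbs then
              ((Nat.gcd q ((s : ℤ) - s').natAbs : ℕ) : ℝ) else 0) ≤
              ∑ g ∈ q.divisors, (if g ∣ ((s : ℤ) - s').natAbs then (g : ℝ) else 0) :=
            single_le_sum (f := fun g : ℕ => if g ∣ ((s : ℤ) - s').natAbs then (g : ℝ) else 0)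
              (fun g _ => by split_ifs <;> positivity) hmem
          rw [if_pos (Nat.gcd_dvd_right _ _)] at h2
          refine le_trans ?_ h2
          exact_mod_cast Nat.totient_le _
      _ = ∑ g ∈ q.divisors, (g : ℝ) * ((((Ico M (2 * M)).filter (fun s' => s' ≠ s)).filter
          (fun s' : ℕ => g ∣ ((s : ℤ) - (s' : ℤ)).natAbs)).card : ℝ) := by
          rw [sum_comm]
          apply sum_congr rfl
          intro g _
          rw [← sum_filter, sum_const, nsmul_eq_mul, mul_comm]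
      _ ≤ ∑ g ∈ q.divisors, (M : ℝ) := by
          apply sum_le_sum
          intro g hg
          have hg0 : 0 < g := Nat.pos_of_mem_divisors hg
          have hg' : (0 : ℝ) < g := by exact_mod_cast hg0
          have h3 := XTL_count M s g hg0 hs
          calc (g : ℝ) * _ ≤ (g : ℝ) * ((M : ℝ) / g) := mul_le_mul_of_nonneg_left h3 hg'.le
            _ = M := by field_simp
      _ = (M : ℝ) * q.divisors.card := by rw [sum_const, nsmul_eq_mul, mul_comm]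
  refine (sum_le_sum h1).trans (le_of_eq ?_)
  rw [sum_const, Nat.card_Ico, nsmul_eq_mul]
  have : 2 * M - M = M := by omega
  rw [this]
  ring

theorem XTL_harm (Q : ℕ) : ∑ q ∈ Icc 1 Q, (1 : ℝ) / q ≤ 1 + Real.log Q := by
  have h3 := harmonic_le_one_add_log Q
  have h4 : ((harmonic Q : ℚ) : ℝ) = ∑ q ∈ Icc 1 Q, (1 : ℝ) / q := by
    rw [harmonic_eq_sum_Icc]
    push_cast
    exact sum_congr rfl fun q _ => by rw [one_div]
  rw [← h4]
  exact h3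

theorem XTL_divsum (Q : ℕ) :
    ∑ q ∈ Icc 1 Q, (q.divisors.card : ℝ) / q ≤ (1 + Real.log Q) ^ 2 := by
  have h1 : ∑ q ∈ Icc 1 Q, (q.divisors.card : ℝ) / q =
      ∑ x ∈ (Icc 1 Q).sigma (fun q => q.divisors), (1 : ℝ) / (x.2 : ℝ) * (1 / ((x.1 / x.2 : ℕ) : ℝ)) := by
    rw [sum_sigma]
    apply sum_congr rfl
    intro q hq
    rw [mem_Icc] at hq
    have hq' : (0 : ℝ) < q := by exact_mod_cast hq.1
    have h2 : ∀ g ∈ q.divisors, (1 : ℝ) / (g : ℝ) * (1 / ((q / g : ℕ) : ℝ)) = 1 / q := by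
      intro g hg
      have hg' : (0 : ℝ) < g := by exact_mod_cast Nat.pos_of_mem_divisors hg
      rw [Nat.cast_div (Nat.dvd_of_mem_divisors hg) hg'.ne']
      field_simp
    rw [sum_congr rfl h2, sum_const, nsmul_eq_mul]
    ring
  have h2 : ∑ x ∈ (Icc 1 Q).sigma (fun q => q.divisors),
      (1 : ℝ) / (x.2 : ℝ) * (1 / ((x.1 / x.2 : ℕ) : ℝ)) ≤
      ∑ y ∈ Icc 1 Q ×ˢ Icc 1 Q, (1 : ℝ) / (y.1 : ℝ) * (1 / (y.2 : ℝ)) := by
    have hinj : Set.InjOn (fun x : (Σ _ : ℕ, ℕ) => (x.2, x.1 / x.2))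
        ((Icc 1 Q).sigma (fun q => q.divisors)) := by
      rintro ⟨q, g⟩ hx ⟨q', g'⟩ hx' heq
      simp only [coe_sigma, Set.mem_sigma_iff, mem_coe, Nat.mem_divisors] at hx hx'
      simp only [Prod.mk.injEq] at heq
      obtain ⟨e1, e2⟩ := heq
      subst e1
      have h3 : q = q' := by
        rw [← Nat.div_mul_cancel hx.2.1, e2, Nat.div_mul_cancel hx'.2.1]
      subst h3
      rfl
    have h3 : ∑ x ∈ (Icc 1 Q).sigma (fun q => q.divisors),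
        (1 : ℝ) / (x.2 : ℝ) * (1 / ((x.1 / x.2 : ℕ) : ℝ)) =
        ∑ y ∈ ((Icc 1 Q).sigma (fun q => q.divisors)).image
          (fun x : (Σ _ : ℕ, ℕ) => (x.2, x.1 / x.2)), (1 : ℝ) / (y.1 : ℝ) * (1 / (y.2 : ℝ)) := by
      rw [sum_image hinj]
    rw [h3]
    apply sum_le_sum_of_subset_of_nonneg
    · intro y hy
      rw [mem_image] at hy
      obtain ⟨⟨q, g⟩, hx, rfl⟩ := hy
      rw [mem_sigma, mem_Icc, Nat.mem_divisors] at hx
      simp only at hx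
      have hq0 : 0 < q := hx.1.1
      have hg0 : 0 < g := Nat.pos_of_dvd_of_pos hx.2.1 hq0
      rw [mem_product, mem_Icc, mem_Icc]
      refine ⟨⟨hg0, (Nat.le_of_dvd hq0 hx.2.1).trans hx.1.2⟩, ?_,
        (Nat.div_le_self _ _).trans hx.1.2⟩
      exact Nat.div_pos (Nat.le_of_dvd hq0 hx.2.1) hg0
    · intro y _ _
      positivity
  rw [h1]
  refine h2.trans ?_
  have h5 : ∑ y ∈ Icc 1 Q ×ˢ Icc 1 Q, (1 : ℝ) / (y.1 : ℝ) * (1 / (y.2 : ℝ)) =
      (∑ q ∈ Icc 1 Q, (1 : ℝ) / q) * ∑ q ∈ Icc 1 Q, (1 : ℝ) / q := by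
    rw [sum_mul_sum, sum_product]
  rw [h5, pow_two]
  have h3 := XTL_harm Q
  have h4 : 0 ≤ ∑ q ∈ Icc 1 Q, (1 : ℝ) / q := by positivity
  exact mul_le_mul h3 h3 h4 (h4.trans h3)

theorem XTL_moment1 (Q M W : ℕ) (hQ : 1 ≤ Q) :
    ∑ s ∈ Ico M (2 * M), ∑ s' ∈ (Ico M (2 * M)).filter (fun s' => s' ≠ s),
      tl Q W ((s : ℤ) - s') ≤ 36 * (M : ℝ) ^ 2 * (1 + Real.log Q) ^ 4 * (Q : ℝ) ^ (-(1 / 2) : ℝ) := by
  set S := (Icc 1 Q).filter (fun q => Q < q ^ 2 ∧ Nat.Coprime q W ∧ Squarefree q) with hS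
  have hlog : 0 ≤ Real.log Q := Real.log_natCast_nonneg Q
  have hQ0 : (0 : ℝ) < Q := by exact_mod_cast hQ
  have h1 : ∑ s ∈ Ico M (2 * M), ∑ s' ∈ (Ico M (2 * M)).filter (fun s' => s' ≠ s),
      tl Q W ((s : ℤ) - s') = 16 * ∑ q ∈ S, 1 / (Nat.totient q : ℝ) ^ 2 * XTL_T M q := by
    unfold tl XTL_T
    rw [← hS]
    simp_rw [mul_sum]
    have h2 : ∀ s ∈ Ico M (2 * M),
        ∑ s' ∈ (Ico M (2 * M)).filter (fun s' => s' ≠ s), ∑ q ∈ S,
          16 * ((Nat.totient (Nat.gcd q ((s : ℤ) - s').natAbs) : ℝ) / (Nat.totient q : ℝ) ^ 2) =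
        ∑ q ∈ S, ∑ s' ∈ (Ico M (2 * M)).filter (fun s' => s' ≠ s),
          16 * ((Nat.totient (Nat.gcd q ((s : ℤ) - s').natAbs) : ℝ) / (Nat.totient q : ℝ) ^ 2) :=
      fun s _ => sum_comm
    rw [sum_congr rfl h2, sum_comm]
    apply sum_congr rfl
    intro q _
    apply sum_congr rfl
    intro s _
    apply sum_congr rfl
    intro s' _
    ring
  rw [h1]
  have h2 : ∀ q ∈ S, 1 / (Nat.totient q : ℝ) ^ 2 * XTL_T M q ≤
      (9 / 4 * (1 + Real.log Q) ^ 2 * (Q : ℝ) ^ (-(1 / 2) : ℝ) * (M : ℝ) ^ 2) *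
        ((q.divisors.card : ℝ) / q) := by
    intro q hq
    rw [hS, mem_filter, mem_Icc] at hq
    have hq0 : 0 < q := hq.1.1
    have hq' : (0 : ℝ) < q := by exact_mod_cast hq0
    have h3 := XTL_first M q hq0
    have h4 := CQ2_ratio q hq0
    have h5 : Real.log q ≤ Real.log Q := Real.log_le_log hq' (by exact_mod_cast hq.1.2)
    have hφ : (0 : ℝ) < (Nat.totient q : ℝ) := by exact_mod_cast Nat.totient_pos.2 hq0
    have h6 : 1 / (Nat.totient q : ℝ) ^ 2 ≤ (3 / 2 * (1 + Real.log Q) / q) ^ 2 := by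
      have h7 : (1 : ℝ) / Nat.totient q ≤ 3 / 2 * (1 + Real.log Q) / q := by
        refine h4.trans ?_
        apply div_le_div_of_nonneg_right _ hq'.le
        linarith
      have h8 := pow_le_pow_left₀ (by positivity) h7 2
      rwa [one_div_pow] at h8
    have h9 : 1 / (q : ℝ) ≤ (Q : ℝ) ^ (-(1 / 2) : ℝ) := by
      rw [Real.rpow_neg hQ0.le, one_div, inv_le_inv₀ hq' (by positivity), ← Real.sqrt_eq_rpow]
      rw [Real.sqrt_le_left hq'.le]
      exact_mod_cast hq.2.1.le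
    calc 1 / (Nat.totient q : ℝ) ^ 2 * XTL_T M q
        ≤ (3 / 2 * (1 + Real.log Q) / q) ^ 2 * ((M : ℝ) ^ 2 * q.divisors.card) :=
          mul_le_mul h6 h3 (XTL_T_nonneg M q) (sq_nonneg _)
      _ = (9 / 4 * (1 + Real.log Q) ^ 2 * (M : ℝ) ^ 2 * ((q.divisors.card : ℝ) / q)) *
          (1 / (q : ℝ)) := by
          field_simp
          ring
      _ ≤ (9 / 4 * (1 + Real.log Q) ^ 2 * (M : ℝ) ^ 2 * ((q.divisors.card : ℝ) / q)) *
          (Q : ℝ) ^ (-(1 / 2) : ℝ) := mul_le_mul_of_nonneg_left h9 (by positivity)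
      _ = _ := by ring
  have h3 : ∑ q ∈ S, (q.divisors.card : ℝ) / q ≤ (1 + Real.log Q) ^ 2 := by
    refine le_trans ?_ (XTL_divsum Q)
    apply sum_le_sum_of_subset_of_nonneg (filter_subset _ _)
    intro q _ _
    positivity
  have hQp : (0 : ℝ) < (Q : ℝ) ^ (-(1 / 2) : ℝ) := Real.rpow_pos_of_pos hQ0 _
  calc 16 * ∑ q ∈ S, 1 / (Nat.totient q : ℝ) ^ 2 * XTL_T M q
      ≤ 16 * ∑ q ∈ S, (9 / 4 * (1 + Real.log Q) ^ 2 * (Q : ℝ) ^ (-(1 / 2) : ℝ) * (M : ℝ) ^ 2) *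
        ((q.divisors.card : ℝ) / q) :=
        mul_le_mul_of_nonneg_left (sum_le_sum h2) (by norm_num)
    _ = 16 * ((9 / 4 * (1 + Real.log Q) ^ 2 * (Q : ℝ) ^ (-(1 / 2) : ℝ) * (M : ℝ) ^ 2) *
        ∑ q ∈ S, (q.divisors.card : ℝ) / q) := by rw [← mul_sum]
    _ ≤ 16 * ((9 / 4 * (1 + Real.log Q) ^ 2 * (Q : ℝ) ^ (-(1 / 2) : ℝ) * (M : ℝ) ^ 2) *
        (1 + Real.log Q) ^ 2) := by
        apply mul_le_mul_of_nonneg_left _ (by norm_num)
        exact mul_le_mul_of_nonneg_left h3 (by positivity)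
    _ = _ := by ring

theorem XTL_sup (Q W : ℕ) (d : ℤ) : tl Q W d ≤ 160 * (1 + Real.log Q) ^ 2 := by
  unfold tl
  have h1 := sum_inv_totient Q
  have h2 : ∑ q ∈ (Icc 1 Q).filter (fun q => Q < q ^ 2 ∧ Nat.Coprime q W ∧ Squarefree q),
      (Nat.totient (Nat.gcd q d.natAbs) : ℝ) / (Nat.totient q : ℝ) ^ 2 ≤
      ∑ q ∈ Icc 1 Q, (1 : ℝ) / Nat.totient q := by
    refine le_trans (sum_le_sum_of_subset_of_nonneg (filter_subset _ _)
      (fun q _ _ => by positivity)) ?_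
    apply sum_le_sum
    intro q hq
    rw [mem_Icc] at hq
    have hq0 : 0 < q := hq.1
    have hφ : (0 : ℝ) < (Nat.totient q : ℝ) := by exact_mod_cast Nat.totient_pos.2 hq0
    have h3 : Nat.totient (Nat.gcd q d.natAbs) ≤ Nat.totient q :=
      Nat.le_of_dvd (Nat.totient_pos.2 hq0) (Nat.totient_dvd_of_dvd (Nat.gcd_dvd_left _ _))
    have h4 : (Nat.totient (Nat.gcd q d.natAbs) : ℝ) ≤ (Nat.totient q : ℝ) := by exact_mod_cast h3
    rw [div_le_div_iff₀ (by positivity) hφ]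
    nlinarith
  linarith

theorem XTL_large : ∃ K : ℝ, 1 ≤ K ∧ ∀ L : ℝ, K ≤ L → 5760 * (1 + L) ^ 6 ≤ Real.exp (L / 6) := by
  have h1 := Real.tendsto_pow_mul_exp_neg_atTop_nhds_zero 6
  have h2 : ∀ᶠ y : ℝ in Filter.atTop, y ^ 6 * Real.exp (-y) ≤ 1 / (5760 * 64 * 6 ^ 6) := by
    have h3 : (0 : ℝ) < 1 / (5760 * 64 * 6 ^ 6) := by norm_num
    exact (h1.eventually (gt_mem_nhds h3)).mono (fun y hy => le_of_lt hy)
  obtain ⟨Y, hY⟩ := Filter.eventually_atTop.1 h2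
  refine ⟨max 1 (6 * Y), le_max_left _ _, ?_⟩
  intro L hL
  have hL1 : 1 ≤ L := (le_max_left _ _).trans hL
  have hLY : 6 * Y ≤ L := (le_max_right _ _).trans hL
  have h3 := hY (L / 6) (by linarith)
  have h4 : (1 + L) ^ 6 ≤ 64 * L ^ 6 := by
    calc (1 + L) ^ 6 ≤ (2 * L) ^ 6 := pow_le_pow_left₀ (by linarith) (by linarith) 6
      _ = 64 * L ^ 6 := by ring
  have h5 : 5760 * 64 * 6 ^ 6 * ((L / 6) ^ 6 * Real.exp (-(L / 6))) ≤ 1 := by
    have : (0 : ℝ) < 5760 * 64 * 6 ^ 6 := by norm_num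
    calc 5760 * 64 * 6 ^ 6 * ((L / 6) ^ 6 * Real.exp (-(L / 6)))
        ≤ 5760 * 64 * 6 ^ 6 * (1 / (5760 * 64 * 6 ^ 6)) :=
          mul_le_mul_of_nonneg_left h3 this.le
      _ = 1 := by field_simp
  have h6 : 5760 * 64 * L ^ 6 * Real.exp (-(L / 6)) ≤ 1 := by
    refine le_trans (le_of_eq ?_) h5
    ring
  have h7 : 5760 * 64 * L ^ 6 ≤ Real.exp (L / 6) := by
    have h8 : Real.exp (-(L / 6)) * Real.exp (L / 6) = 1 := by
      rw [← Real.exp_add]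
      simp
    calc 5760 * 64 * L ^ 6 = 5760 * 64 * L ^ 6 * (Real.exp (-(L / 6)) * Real.exp (L / 6)) := by
          rw [h8, mul_one]
      _ = (5760 * 64 * L ^ 6 * Real.exp (-(L / 6))) * Real.exp (L / 6) := by ring
      _ ≤ 1 * Real.exp (L / 6) := mul_le_mul_of_nonneg_right h6 (Real.exp_pos _).le
      _ = Real.exp (L / 6) := one_mul _
  linarith

/-- `∑_{s ≠ s'} tl(s-s')² ≤ M² Q^(-1/3)` for `Reg K Q (M W)`, `W ≤ Q`.

Proof. `tl(d) ≤ 16 ∑_{q ≤ Q} 1/φ(q) ≤ 160 (1 + log Q)²` (`sum_inv_totient`), so it suffices to bound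
the first moment by `M² Q^(-2/5)`: `∑_{s ≠ s'} φ((q, s-s')) ≤ ∑_{g ∣ q} φ(g) #{s ≠ s' : g ∣ s - s'}
≤ M² ∑_{g ∣ q} φ(g)/g · ... ≤ M² d(q)` (the number of pairs `s ≠ s'` in an interval of length `M` with
`g ∣ s - s'` is at most `M²/g`), and `∑_{q² > Q} d(q)/φ(q)² ≤ C Q^(-9/20)`:
e.g. `d(q) ≤ C q^(1/40)`, `φ(q) ≥ c q^(79/80)`, or simply
`d(q)/φ(q)² = d(q) (q/φ(q))²/q²` with `q/φ(q) ≤ 10 (1 + log q)` and `∑_{q > z} d(q)/q² ≤
C (1 + log z)/z` (write `q = e f`); dyadic or direct. -/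
theorem tl_moment : ∃ K : ℝ, 1 ≤ K ∧ ∀ Q M W : ℕ, Reg K Q (M * W) → 0 < W → W ≤ Q →
    ∑ s ∈ Ico M (2 * M), ∑ s' ∈ (Ico M (2 * M)).filter (fun s' => s' ≠ s),
      (tl Q W ((s : ℤ) - s')) ^ 2 ≤ (M : ℝ) ^ 2 * (Q : ℝ) ^ (-(1 / 3) : ℝ) := by
  obtain ⟨K, hK1, hK⟩ := XTL_large
  refine ⟨K, hK1, ?_⟩
  intro Q M W hReg _ _
  have hlogQ : K ≤ Real.log Q := by
    have h1 := hReg.1
    have h2 := hReg.2.1
    nlinarith
  have hQ : 1 ≤ Q := by
    by_contra hc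
    have : Q = 0 := by omega
    rw [this] at hlogQ
    simp at hlogQ
    linarith
  have hQ0 : (0 : ℝ) < Q := by exact_mod_cast hQ
  have hlog : 0 ≤ Real.log Q := Real.log_natCast_nonneg Q
  have h1 := XTL_moment1 Q M W hQ
  have h2 : ∑ s ∈ Ico M (2 * M), ∑ s' ∈ (Ico M (2 * M)).filter (fun s' => s' ≠ s),
      (tl Q W ((s : ℤ) - s')) ^ 2 ≤ 160 * (1 + Real.log Q) ^ 2 *
      ∑ s ∈ Ico M (2 * M), ∑ s' ∈ (Ico M (2 * M)).filter (fun s' => s' ≠ s),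
        tl Q W ((s : ℤ) - s') := by
    rw [mul_sum]
    apply sum_le_sum
    intro s _
    rw [mul_sum]
    apply sum_le_sum
    intro s' _
    rw [pow_two]
    exact mul_le_mul_of_nonneg_right (XTL_sup Q W _) (tl_nonneg _ _ _)
  have h3 := hK (Real.log Q) hlogQ
  have h4 : Real.exp (Real.log Q / 6) * (Q : ℝ) ^ (-(1 / 2) : ℝ) = (Q : ℝ) ^ (-(1 / 3) : ℝ) := by
    have h5 : Real.exp (Real.log Q / 6) = (Q : ℝ) ^ (1 / 6 : ℝ) := by
      rw [Real.rpow_def_of_pos hQ0]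
      congr 1
      ring
    rw [h5, ← Real.rpow_add hQ0]
    norm_num
  calc _ ≤ 160 * (1 + Real.log Q) ^ 2 *
        (36 * (M : ℝ) ^ 2 * (1 + Real.log Q) ^ 4 * (Q : ℝ) ^ (-(1 / 2) : ℝ)) :=
        h2.trans (mul_le_mul_of_nonneg_left h1 (by positivity))
    _ = (M : ℝ) ^ 2 * ((5760 * (1 + Real.log Q) ^ 6) * (Q : ℝ) ^ (-(1 / 2) : ℝ)) := by ring
    _ ≤ (M : ℝ) ^ 2 * (Real.exp (Real.log Q / 6) * (Q : ℝ) ^ (-(1 / 2) : ℝ)) := by
        apply mul_le_mul_of_nonneg_left _ (by positivity)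
        exact mul_le_mul_of_nonneg_right h3 (by positivity)
    _ = (M : ℝ) ^ 2 * (Q : ℝ) ^ (-(1 / 3) : ℝ) := by rw [h4]

end Pool.Agent.Lib.H68T
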