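import Pool.Agent.Lib.H68X.XDefs
import Pool.Agent.Lib.H68X.XBA2
import Pool.Agent.Lib.H68T.SM1

/-!
# Chunk XBA3: normalised correlations of primes in a class, with exceptional zero
-/

open Finset

namespace Pool.Agent.Lib.H68T

theorem XBA3_eta {X β ε : ℝ} (hX : 0 < X) (hℓ : 1000 ≤ Real.log X) (hβ : 1 / 2 ≤ β)
    (hβ1 : β < 1) (hε : ε = 1 ∨ ε = -1) :
    ∃ η : ℝ, (1 - β) / 2 ≤ η ∧ η ≤ 2 ∧ ∀ x : ℝ, X ≤ x → x ≤ 4 * X →
      (1 - 2 / Real.log X) * η ≤ 1 - ε * x ^ (β - 1) ∧ 1 - ε * x ^ (β - 1) ≤ η := by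
  set ℓ := Real.log X with hℓdef
  set u := 1 - β with hu
  have hu0 : 0 < u := by linarith
  have hu1 : u ≤ 1 / 2 := by linarith
  have hℓ0 : 0 < ℓ := by linarith
  set A := Real.exp (-(u * ℓ)) with hA
  set B := Real.exp (-(u * (ℓ + Real.log 4))) with hB
  have hlog4 : Real.log 4 ≤ 1.4 := by
    have h1 : Real.log 4 = 2 * Real.log 2 := by
      rw [show (4:ℝ) = 2 ^ 2 by norm_num, Real.log_pow]; norm_num
    rw [h1]
    linarith [Real.log_two_lt_d9]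
  have hlog4' : 0 ≤ Real.log 4 := Real.log_nonneg (by norm_num)
  have hA0 : 0 < A := Real.exp_pos _
  have hB0 : 0 < B := Real.exp_pos _
  have hAB : A - B ≤ 1.4 * u * A := by
    have h1 : B = A * Real.exp (-(u * Real.log 4)) := by
      rw [hB, hA, ← Real.exp_add]; ring_nf
    have h2 : 1 - u * Real.log 4 ≤ Real.exp (-(u * Real.log 4)) := by
      have := Real.add_one_le_exp (-(u * Real.log 4))
      linarith
    have h3 : A * (1 - u * Real.log 4) ≤ B := by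
      rw [h1]; exact mul_le_mul_of_nonneg_left h2 hA0.le
    have h4 : u * Real.log 4 * A ≤ u * 1.4 * A := by gcongr
    linarith
  have hzA : u * ℓ * A ≤ 1 - A := by
    have h1 := Real.add_one_le_exp (u * ℓ)
    have h2 : Real.exp (u * ℓ) * A = 1 := by
      rw [hA, ← Real.exp_add]; simp
    have h3 : (u * ℓ + 1) * A ≤ Real.exp (u * ℓ) * A := mul_le_mul_of_nonneg_right h1 hA0.le
    rw [h2] at h3
    linarith
  have hA1 : A ≤ 1 := by
    have : 0 ≤ u * ℓ * A := by positivity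
    linarith
  have hkey : A - B ≤ 2 / ℓ * (1 - A) := by
    refine hAB.trans ?_
    rw [div_mul_eq_mul_div, le_div_iff₀ hℓ0]
    have : 1.4 * u * A * ℓ = 1.4 * (u * ℓ * A) := by ring
    rw [this]
    have : 0 ≤ u * ℓ * A := by positivity
    linarith
  have hx : ∀ x : ℝ, X ≤ x → x ≤ 4 * X → B ≤ x ^ (β - 1) ∧ x ^ (β - 1) ≤ A := by
    intro x h1 h2
    have hx0 : 0 < x := by linarith
    have h3 : ℓ ≤ Real.log x := Real.log_le_log hX h1
    have h4 : Real.log x ≤ ℓ + Real.log 4 := by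
      have := Real.log_le_log hx0 h2
      rw [Real.log_mul (by norm_num) hX.ne'] at this
      linarith
    rw [Real.rpow_def_of_pos hx0]
    have h5 : Real.log x * (β - 1) = -(u * Real.log x) := by rw [hu]; ring
    rw [h5]
    constructor
    · apply Real.exp_le_exp.2
      have := mul_le_mul_of_nonneg_left h4 hu0.le
      linarith
    · apply Real.exp_le_exp.2
      have := mul_le_mul_of_nonneg_left h3 hu0.le
      linarith
  have hBA : B ≤ A := by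
    obtain ⟨h1, h2⟩ := hx X le_rfl (by linarith)
    linarith
  rcases hε with rfl | rfl
  · refine ⟨1 - B, ?_, by linarith, ?_⟩
    · have h1 : B ≤ Real.exp (-u) := by
        apply Real.exp_le_exp.2
        have : u * 1 ≤ u * (ℓ + Real.log 4) := mul_le_mul_of_nonneg_left (by linarith) hu0.le
        linarith
      have h2 := Real.add_one_le_exp u
      have h3 : Real.exp u * Real.exp (-u) = 1 := by
        rw [← Real.exp_add]; simp
      have h4 : (u + 1) * Real.exp (-u) ≤ 1 := by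
        have h5 : (u + 1) * Real.exp (-u) ≤ Real.exp u * Real.exp (-u) :=
          mul_le_mul_of_nonneg_right h2 (Real.exp_pos _).le
        linarith
      have h5 : Real.exp (-u) ≤ 1 - u / 2 := by
        have h6 : (u + 1) * Real.exp (-u) ≤ (u + 1) * (1 - u / 2) := by nlinarith
        exact le_of_mul_le_mul_left h6 (by linarith)
      linarith
    · intro x h1 h2
      obtain ⟨h3, h4⟩ := hx x h1 h2
      have h5 : 2 / ℓ * (1 - A) ≤ 2 / ℓ * (1 - B) :=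
        mul_le_mul_of_nonneg_left (by linarith) (by positivity)
      constructor
      · have : (1 - 2 / ℓ) * (1 - B) = (1 - B) - 2 / ℓ * (1 - B) := by ring
        rw [this, one_mul]
        linarith
      · linarith
  · refine ⟨1 + A, by linarith, by linarith, ?_⟩
    intro x h1 h2
    obtain ⟨h3, h4⟩ := hx x h1 h2
    have h5 : 2 / ℓ * (1 - A) ≤ 2 / ℓ * (1 + A) :=
      mul_le_mul_of_nonneg_left (by linarith) (by positivity)
    constructor
    · have : (1 - 2 / ℓ) * (1 + A) = (1 + A) - 2 / ℓ * (1 + A) := by ring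
      rw [this]
      linarith
    · linarith

theorem XBA3_sign {r W b : ℕ} (ψ : DirichletCharacter ℂ r) (h : ψ ^ 2 = 1) (hr : r ∣ W)
    (hb : Nat.Coprime b W) : ∃ ε : ℝ, (ε = 1 ∨ ε = -1) ∧ ψ (b : ZMod r) = (ε : ℂ) := by
  have hbr : Nat.Coprime b r := Nat.Coprime.coprime_dvd_right hr hb
  have ha : IsUnit (b : ZMod r) := (ZMod.isUnit_iff_coprime b r).2 hbr
  have h1 : (ψ (b : ZMod r)) ^ 2 = 1 := by
    rw [← MulChar.pow_apply' ψ (by norm_num : (2:ℕ) ≠ 0) _, h, MulChar.one_apply ha]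
  have h2 : (ψ (b : ZMod r) - 1) * (ψ (b : ZMod r) + 1) = 0 := by
    have : (ψ (b : ZMod r) - 1) * (ψ (b : ZMod r) + 1) = (ψ (b : ZMod r)) ^ 2 - 1 := by ring
    rw [this, h1, sub_self]
  rcases mul_eq_zero.mp h2 with h3 | h3
  · exact ⟨1, Or.inl rfl, by rw [Complex.ofReal_one]; linear_combination h3⟩
  · exact ⟨-1, Or.inr rfl, by push_cast; linear_combination h3⟩

/-- **Normalised correlations.** `X = M W`, `ψ(b) = ε = ±1` (`ψ² = 1`, `(b, r) = 1`). Put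
`η = 1 - (4X)^(β-1)` if `ε = 1` and `η = 1 + X^(β-1)` if `ε = -1`. All `m = b + W(s+c)` are in
`[X, 4X]`, so `0 ≤ 1 - ε m^(β-1) ≤ η`.
* `η ≥ (1-β)/2`: `1 - (4X)^(-u) ≥ 1 - e^(-u) ≥ u/2` for `0 < u = 1-β ≤ 1/2`, `4X ≥ e`. `η ≤ 2`.
* `∑_c (1 - ε m^(β-1)) ≥ (1 - 2/log X) M η`: for `ε = 1`, with `z = u log X`:
  `(1 - X^(-u)) ≥ η - X^(-u)(1 - 4^(-u)) ≥ η - 1.4 u X^(-u)` and `X^(-u) u/η ≤ u e^(-z)/(1 - e^(-z)) =
  u/(e^z - 1) ≤ u/z = 1/log X`; for `ε = -1`: `u X^(-u) ≤ 1/(e log X)`.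
* The errors: `K` larger than twice the constant `K₁` of `x_class_mean`, `x_class_pair`, so that
  `(log X)^3 sw K₁ ≤ (sw K)² ≤ (1-β)² ≤ 4 η²` (`sw_absorb`; `sw (K/2) ≤ (sw K)²` is elementary), and
  `η^(-4) ≤ 16 (1-β)^(-4) ≤ 16 Q^(4/K) ≤ Q^(1/50)`; `e` is divided by `η²`. -/
theorem x_class_corr (c' C : ℝ) (hc' : 0 < c') : ∃ K : ℝ, 1 ≤ K ∧ ∀ Q M W r : ℕ,
    Reg K Q (M * W) → ∀ (ψ : DirichletCharacter ℂ r) (β : ℝ), ExcData c' C Q r ψ β →
    sw K Q (M * W) ≤ 1 - β → 0 < W → W ^ 100 ≤ Q → r ∣ W → ∀ b : ℕ, b < 2 * W → Nat.Coprime b W →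
    ∃ η : ℝ, (1 - β) / 2 ≤ η ∧ η ≤ 2 ∧
    (∀ s ∈ Ico M (2 * M), (1 - 4 / Real.log (M * W : ℕ)) * (M * η) ≤
      ∑ c ∈ range M, fW W b (s + c)) ∧
    ∃ e : ℕ → ℕ → ℝ, (∀ s s', 0 ≤ e s s') ∧
      ∑ s ∈ Ico M (2 * M), ∑ s' ∈ Ico M (2 * M), (e s s') ^ 2 ≤
        (M : ℝ) ^ 2 * (Q : ℝ) ^ (-(1 / 5) : ℝ) ∧
      ∀ s ∈ Ico M (2 * M), ∀ s' ∈ Ico M (2 * M), s ≠ s' →
        ∑ c ∈ range M, fW W b (s + c) * fW W b (s' + c) ≤
          η ^ 2 * (M * (G0 Q W * gp Q W ((s : ℤ) - s') + 4 / Real.log (M * W : ℕ) + e s s')) := by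
  obtain ⟨K1, hK11, hK1⟩ := x_class_mean c' C hc'
  obtain ⟨K2, hK21, hK2⟩ := x_class_pair c' C hc'
  obtain ⟨K3, hK3, hpre⟩ := XBA1_pre
  obtain ⟨K4, hK40, hK41, hK4⟩ := sw_absorb 1 1 K1 (by linarith)
  obtain ⟨K5, hK50, hK51, hK5⟩ := sw_absorb 1 1 K2 (by linarith)
  obtain ⟨K6, hK61, hK6⟩ := reg_log_le 16 0 (1 / 50) (by norm_num)
  refine ⟨K1 + K2 + K3 + K4 + 2 * K5 + K6 + 200, by linarith, ?_⟩
  intro Q M W r hR ψ β hE hsw hW hWQ hrW b hb hbW
  set K := K1 + K2 + K3 + K4 + 2 * K5 + K6 + 200 with hK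
  have hK0 : (0 : ℝ) ≤ K := by linarith
  have R1 := hR.mono (K' := K1) hK0 (by linarith)
  have R2 := hR.mono (K' := K2) hK0 (by linarith)
  have R4 := hR.mono (K' := K4) hK0 (by linarith)
  have R5 := hR.mono (K' := K5) hK0 (by linarith)
  have R6 := hR.mono (K' := K6) hK0 (by linarith)
  obtain ⟨hlX, hlQX, hQge, hM0, hWleQ, hWQ', hQM⟩ := hpre K Q M W (by linarith) hR hW hWQ
  have hQ0 : (0 : ℝ) < Q := by linarith
  have hQ1r : (1 : ℝ) ≤ Q := by linarith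
  have hQ1 : 1 ≤ Q := by exact_mod_cast hQ1r
  have hQ2 : 2 ≤ Q := by exact_mod_cast (by linarith : (2:ℝ) ≤ Q)
  have hMr : (0 : ℝ) < M := by exact_mod_cast hM0
  have hWr : (0 : ℝ) < W := by exact_mod_cast hW
  have hX0 : 0 < M * W := Nat.mul_pos hM0 hW
  set X := M * W with hX
  have hXr : (0 : ℝ) < X := by exact_mod_cast hX0
  set ℓ := Real.log (X : ℕ) with hℓ
  have hlX0 : 0 < ℓ := by linarith
  obtain ⟨ε, hε, hψε⟩ := XBA3_sign ψ hE.sq hrW hbW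
  have hε1 : |ε| ≤ 1 := by
    rcases hε with h | h
    · rw [h]; norm_num
    · rw [h]; norm_num
  obtain ⟨η, hη1, hη2, hη3⟩ := XBA3_eta hXr hlX hE.half hE.lt hε
  have hu0 : 0 < 1 - β := by linarith [hE.lt]
  have hη0 : 0 < η := by linarith
  have hσK : 0 < sw K Q X := sw_pos K Q X hQ1
  have hσ0 : sw K Q X ≤ 2 * η := by linarith
  have hrange : ∀ l : ℕ, M ≤ l → l < 3 * M → (X : ℝ) ≤ ((b + W * l : ℕ) : ℝ) ∧
      ((b + W * l : ℕ) : ℝ) ≤ 4 * X := by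
    intro l h1 h2
    obtain ⟨h3, h4⟩ := XBA1_range hM0 hW hb h1 h2
    constructor
    · exact_mod_cast h3
    · exact_mod_cast h4
  have hℓ2 : 0 ≤ 1 - 2 / ℓ := by
    have : 2 / ℓ ≤ 1 := by rw [div_le_one hlX0]; linarith
    linarith
  have ha : ∀ s ∈ Ico M (2 * M), ∀ c ∈ range M,
      (1 - 2 / ℓ) * η ≤ 1 - ε * ((b + W * (s + c) : ℕ) : ℝ) ^ (β - 1) ∧
        1 - ε * ((b + W * (s + c) : ℕ) : ℝ) ^ (β - 1) ≤ η := by
    intro s hs c hc
    have h1 := mem_Ico.mp hs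
    have h2 := mem_range.mp hc
    obtain ⟨h3, h4⟩ := hrange (s + c) (by omega) (by omega)
    exact hη3 _ h3 h4
  refine ⟨η, hη1, hη2, ?_, ?_⟩
  · intro s hs
    have h1 := hK1 Q M W r R1 ψ β hE hW hWQ hrW b ε hb hbW hε1 hψε s hs
    refine le_trans ?_ h1
    have h2 : (M : ℝ) * ((1 - 2 / ℓ) * η) ≤
        ∑ c ∈ range M, (1 - ε * ((b + W * (s + c) : ℕ) : ℝ) ^ (β - 1)) := by
      have := card_nsmul_le_sum (range M)
        (fun c => 1 - ε * ((b + W * (s + c) : ℕ) : ℝ) ^ (β - 1)) ((1 - 2 / ℓ) * η)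
        (fun c hc => (ha s hs c hc).1)
      rwa [card_range, nsmul_eq_mul] at this
    have h3 := hK4 Q X R4
    rw [Real.rpow_one, one_mul] at h3
    have h4 : sw K4 Q X ≤ sw K Q X := sw_mono (by linarith) (by linarith) hQ1
    have h5 : sw K1 Q X ≤ 2 * η / ℓ := by
      rw [le_div_iff₀ hlX0, mul_comm]
      exact (h3.trans h4).trans hσ0
    have h6 : (M : ℝ) * sw K1 Q X ≤ M * (2 * η / ℓ) := mul_le_mul_of_nonneg_left h5 hMr.le
    have h7 : (1 - 4 / ℓ) * (M * η) = M * ((1 - 2 / ℓ) * η) - M * (2 * η / ℓ) := by ring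
    rw [h7]
    linarith
  · obtain ⟨e, he0, he1, he2⟩ := hK2 Q M W r R2 ψ β hE hW hWQ hrW b ε hb hbW hε1 hψε
    refine ⟨fun s s' => e s s' / η ^ 2, fun s s' => div_nonneg (he0 s s') (by positivity), ?_, ?_⟩
    · have h1 : ∑ s ∈ Ico M (2 * M), ∑ s' ∈ Ico M (2 * M), (e s s' / η ^ 2) ^ 2 =
          (1 / η ^ 4) * ∑ s ∈ Ico M (2 * M), ∑ s' ∈ Ico M (2 * M), (e s s') ^ 2 := by
        rw [mul_sum]
        refine sum_congr rfl fun s _ => ?_
        rw [mul_sum]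
        refine sum_congr rfl fun s' _ => ?_
        field_simp
      rw [h1]
      have h2 : (Q : ℝ) ^ (-(1 / 200) : ℝ) ≤ 2 * η := by
        refine le_trans ?_ hσ0
        refine le_trans ?_ (sw_mono (by norm_num : (0:ℝ) < 200) (by linarith) hQ1)
        unfold sw
        linarith [Real.exp_pos (-(Real.log X / (200 * Real.log Q)))]
      have h3 : (Q : ℝ) ^ (-(1 / 50) : ℝ) ≤ 16 * η ^ 4 := by
        have h4 : ((Q : ℝ) ^ (-(1 / 200) : ℝ)) ^ 4 ≤ (2 * η) ^ 4 :=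
          pow_le_pow_left₀ (Real.rpow_nonneg hQ0.le _) h2 4
        have h5 : ((Q : ℝ) ^ (-(1 / 200) : ℝ)) ^ 4 = (Q : ℝ) ^ (-(1 / 50) : ℝ) := by
          rw [← Real.rpow_natCast, ← Real.rpow_mul hQ0.le]
          norm_num
        rw [h5] at h4
        have h6 : (2 * η) ^ 4 = 16 * η ^ 4 := by ring
        rwa [h6] at h4
      have h7 := hK6 Q X R6
      rw [Real.rpow_zero, mul_one] at h7
      have hη4 : 0 < η ^ 4 := by positivity
      have h8 : 1 / η ^ 4 ≤ (Q : ℝ) ^ (1 / 25 : ℝ) := by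
        rw [div_le_iff₀ hη4]
        have h9 : (Q : ℝ) ^ (1 / 25 : ℝ) * (Q : ℝ) ^ (-(1 / 50) : ℝ) =
            (Q : ℝ) ^ (1 / 50 : ℝ) := by
          rw [← Real.rpow_add hQ0]; norm_num
        have h10 : (Q : ℝ) ^ (1 / 25 : ℝ) * (Q : ℝ) ^ (-(1 / 50) : ℝ) ≤
            (Q : ℝ) ^ (1 / 25 : ℝ) * (16 * η ^ 4) :=
          mul_le_mul_of_nonneg_left h3 (Real.rpow_nonneg hQ0.le _)
        rw [h9] at h10
        linarith
      calc (1 / η ^ 4) * ∑ s ∈ Ico M (2 * M), ∑ s' ∈ Ico M (2 * M), (e s s') ^ 2 ≤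
            (Q : ℝ) ^ (1 / 25 : ℝ) * ((M : ℝ) ^ 2 * (Q : ℝ) ^ (-(6 / 25) : ℝ)) :=
            mul_le_mul h8 he1 (sum_nonneg fun _ _ => sum_nonneg fun _ _ => sq_nonneg _)
              (Real.rpow_nonneg hQ0.le _)
        _ = (M : ℝ) ^ 2 * ((Q : ℝ) ^ (1 / 25 : ℝ) * (Q : ℝ) ^ (-(6 / 25) : ℝ)) := by ring
        _ = (M : ℝ) ^ 2 * (Q : ℝ) ^ (-(1 / 5) : ℝ) := by
            rw [← Real.rpow_add hQ0]; norm_num
    · intro s hs s' hs' hss
      refine (he2 s hs s' hs' hss).trans ?_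
      set GG := G0 Q W * gp Q W ((s : ℤ) - s') with hGG
      have hGG0 : 0 ≤ GG := mul_nonneg (by linarith [one_le_G0 Q W])
        (by linarith [one_le_gp Q W ((s : ℤ) - s')])
      have h1 : ∑ c ∈ range M, (1 - ε * ((b + W * (s + c) : ℕ) : ℝ) ^ (β - 1)) *
            (1 - ε * ((b + W * (s' + c) : ℕ) : ℝ) ^ (β - 1)) ≤ M * η ^ 2 := by
        have := sum_le_card_nsmul (range M)
          (fun c => (1 - ε * ((b + W * (s + c) : ℕ) : ℝ) ^ (β - 1)) *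
            (1 - ε * ((b + W * (s' + c) : ℕ) : ℝ) ^ (β - 1))) (η ^ 2) (fun c hc => by
          obtain ⟨c1, c2⟩ := ha s hs c hc
          obtain ⟨c3, c4⟩ := ha s' hs' c hc
          have c5 : 0 ≤ (1 - 2 / ℓ) * η := mul_nonneg hℓ2 hη0.le
          calc (1 - ε * ((b + W * (s + c) : ℕ) : ℝ) ^ (β - 1)) *
              (1 - ε * ((b + W * (s' + c) : ℕ) : ℝ) ^ (β - 1)) ≤ η * η :=
                mul_le_mul c2 c4 (c5.trans c3) hη0.le
            _ = η ^ 2 := by ring)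
        rwa [card_range, nsmul_eq_mul] at this
      have h2 : ℓ * sw K2 Q X ≤ 4 * η ^ 2 := by
        have h3 := hK5 Q X R5
        rw [Real.rpow_one, one_mul] at h3
        have h4 := sw_rpow K5 (1 / 2) (by linarith) (by norm_num) (by norm_num) Q X hQ2
        have h5 : sw (K5 / (1 / 2)) Q X ≤ sw K Q X := by
          refine sw_mono (by positivity) ?_ hQ1
          have : K5 / (1 / 2) = 2 * K5 := by ring
          rw [this]
          linarith
        have h6 : sw K5 Q X = ((sw K5 Q X) ^ (1 / 2 : ℝ)) ^ 2 := by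
          rw [← Real.rpow_natCast, ← Real.rpow_mul (sw_pos K5 Q X hQ1).le]
          norm_num
        calc ℓ * sw K2 Q X ≤ sw K5 Q X := h3
          _ = ((sw K5 Q X) ^ (1 / 2 : ℝ)) ^ 2 := h6
          _ ≤ (2 * η) ^ 2 := pow_le_pow_left₀ (Real.rpow_nonneg (sw_pos K5 Q X hQ1).le _)
              ((h4.trans h5).trans hσ0) 2
          _ = 4 * η ^ 2 := by ring
      have h7 : sw K2 Q X ≤ η ^ 2 * (4 / ℓ) := by
        have : η ^ 2 * (4 / ℓ) = 4 * η ^ 2 / ℓ := by ring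
        rw [this, le_div_iff₀ hlX0, mul_comm]
        exact h2
      have h8 : η ^ 2 * (M * (GG + 4 / ℓ + e s s' / η ^ 2)) =
          M * η ^ 2 * GG + M * (η ^ 2 * (4 / ℓ) + e s s') := by
        have h11 : η ^ 2 * (e s s' / η ^ 2) = e s s' := by field_simp
        calc η ^ 2 * (M * (GG + 4 / ℓ + e s s' / η ^ 2)) =
            M * η ^ 2 * GG + M * (η ^ 2 * (4 / ℓ) + η ^ 2 * (e s s' / η ^ 2)) := by ring
          _ = _ := by rw [h11]
      rw [h8]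
      have h9 := mul_le_mul_of_nonneg_right h1 hGG0
      have h10 : (M : ℝ) * (sw K2 Q X + e s s') ≤ M * (η ^ 2 * (4 / ℓ) + e s s') :=
        mul_le_mul_of_nonneg_left (by linarith) hMr.le
      exact add_le_add h9 h10

end Pool.Agent.Lib.H68T
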