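import Pool.Agent.Lib.H68T.FINP
import Pool.Agent.Lib.H68X.XDefs

/-!
# Chunk XFP: choice of the parameters (helper68)
-/

open Finset Filter Real

namespace Pool.Agent.Lib.H68T

/-- The asymptotic inequalities used in the choice of the parameters. -/
structure XBig (δ κ θ t b e K L : ℝ) : Prop where
  i1 : 100 ≤ L
  i2 : |K| ≤ Real.log ((1 - δ) * L / 2)
  i3 : |K| * Real.log L ≤ L ^ t - 1
  i4 : |K| * (L ^ e * Real.log L) ≤ (1 - δ) * L / 2
  i5 : 16 * L ^ κ + 1 ≤ L ^ (κ + θ)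
  i6 : 1 / 2 * L ^ (κ + θ) + 1 ≤ L ^ (κ + θ)
  i7 : 139 * L ^ (κ + θ) ≤ L ^ t - 1
  i9 : 200 * L ^ t ≤ L ^ e - 1
  i10 : 2 * L ^ t ≤ (1 - δ) * L / 8
  i11 : 64 * L ^ κ ≤ (1 - δ) * L / 2
  i12 : Real.exp ((1 - δ) * L / 8) + 2 * (Real.exp ((1 - δ) * L) + 1) ≤ Real.exp L
  i13 : Real.log 8 + 2 * Real.log L ≤ (1 - δ) * L / 8
  i14 : 3 * L ^ t + 1 ≤ L
  i15 : 2 * L ^ κ * Real.log (2 * L) ≤ (L ^ t - 1) / 20
  i16 : 2 * L ^ κ * (2 * L ^ b) ≤ (L ^ e - 1) / 20
  i16' : Real.log (4 * L) ≤ L ^ b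
  i17 : L ^ e / 5 ≤ (1 - δ) * L / 2
  i18 : Real.log 16 + 4 * Real.log L ≤ 3 * (L ^ t - 1) / 20
  i20 : 485 ≤ L ^ (θ / 5)
  i21 : 8 / (1 - δ) * L ^ (κ - 1) ≤ L ^ (-θ)
  i22 : |K| * (L ^ b + 1) * L ^ e ≤ (1 - δ) * L / 2
  i22' : |K| * (L ^ b + 1) ≤ L ^ e - 1
  i23 : 2 ≤ L ^ t

theorem XFP_lin (c C r : ℝ) (hc : 0 < c) (hr : r < 1) : ∀ᶠ L : ℝ in atTop, C * L ^ r ≤ c * L := by
  filter_upwards [ev_rpow (C / c) r 1 hr] with L h1
  rw [rpow_one] at h1
  have := mul_le_mul_of_nonneg_left h1 hc.le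
  have e : c * (C / c * L ^ r) = C * L ^ r := by field_simp
  rw [e] at this
  linarith

theorem XFP_log (c C D : ℝ) (hc : 0 < c) : ∀ᶠ L : ℝ in atTop, C + D * Real.log L ≤ c * L := by
  filter_upwards [ev_log (2 * D / c) 1 one_pos, eventually_ge_atTop (2 * C / c)] with L h1 h2
  rw [rpow_one] at h1
  have h3 : D * Real.log L ≤ c * L / 2 := by
    have := mul_le_mul_of_nonneg_left h1 (show 0 ≤ c / 2 by positivity)
    have e : c / 2 * (2 * D / c * Real.log L) = D * Real.log L := by field_simp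
    rw [e] at this
    linarith
  have h4 : C ≤ c * L / 2 := by
    rw [div_le_iff₀ hc] at h2
    linarith
  linarith

theorem XFP_const (C D r c : ℝ) (hr : 0 < r) (hc : 0 < c) :
    ∀ᶠ L : ℝ in atTop, C + D * Real.log L ≤ c * L ^ r := by
  filter_upwards [ev_log (2 * D / c) r hr, ev_rpow (2 * C / c) 0 r hr] with L h1 h2
  rw [rpow_zero] at h2
  have h3 : D * Real.log L ≤ c * L ^ r / 2 := by
    have := mul_le_mul_of_nonneg_left h1 (show 0 ≤ c / 2 by positivity)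
    have e : c / 2 * (2 * D / c * Real.log L) = D * Real.log L := by field_simp
    rw [e] at this
    linarith
  have h4 : C ≤ c * L ^ r / 2 := by
    have := mul_le_mul_of_nonneg_left h2 (show 0 ≤ c / 2 by positivity)
    have e : c / 2 * (2 * C / c * 1) = C := by field_simp
    rw [e] at this
    linarith
  linarith

theorem ev_xbig (δ κ θ t b e K : ℝ) (hδ : 0 < δ) (hδ1 : δ < 1) (hκ : 0 < κ) (hθ : 0 < θ)
    (ht : κ + θ < t) (hte : t < e) (hb : 0 < b) (hκb : κ + b < e) (hbe : e + b < 1) :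
    ∀ᶠ L : ℝ in atTop, XBig δ κ θ t b e K L := by
  have ha : 0 < 1 - δ := by linarith
  have ht0 : 0 < t := by linarith
  have he0 : 0 < e := by linarith
  have he1 : e < 1 := by linarith
  have ht1 : t < 1 := by linarith
  have hκ1 : κ + θ < 1 := by linarith
  have i2 : ∀ᶠ L : ℝ in atTop, |K| ≤ Real.log ((1 - δ) * L / 2) := by
    have : Tendsto (fun L : ℝ => Real.log ((1 - δ) * L / 2)) atTop atTop := by
      apply Real.tendsto_log_atTop.comp
      have : (fun L : ℝ => (1 - δ) * L / 2) = fun L => ((1 - δ) / 2) * L := by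
        funext L; ring
      rw [this]
      exact tendsto_id.const_mul_atTop (by positivity)
    exact this.eventually (eventually_ge_atTop _)
  have i3 := XFP_const 1 |K| t 1 ht0 one_pos
  have i4 : ∀ᶠ L : ℝ in atTop, |K| * (L ^ e * Real.log L) ≤ (1 - δ) * L / 2 := by
    filter_upwards [ev_log 1 ((1 - e) / 2) (by linarith),
      XFP_lin ((1 - δ) / 2) |K| ((1 + e) / 2) (by positivity) (by linarith),
      eventually_gt_atTop (0:ℝ)] with L h1 h2 h3
    rw [one_mul] at h1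
    have h4 : L ^ e * Real.log L ≤ L ^ ((1 + e) / 2) := by
      calc L ^ e * Real.log L ≤ L ^ e * L ^ ((1 - e) / 2) :=
            mul_le_mul_of_nonneg_left h1 (rpow_nonneg h3.le _)
        _ = L ^ ((1 + e) / 2) := by rw [← rpow_add h3]; ring_nf
    have := mul_le_mul_of_nonneg_left h4 (abs_nonneg K)
    linarith
  have i5 : ∀ᶠ L : ℝ in atTop, 16 * L ^ κ + 1 ≤ L ^ (κ + θ) := by
    filter_upwards [ev_rpow 32 κ (κ + θ) (by linarith),
      ev_rpow 2 0 (κ + θ) (by linarith)] with L h1 h2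
    rw [rpow_zero] at h2
    linarith
  have i6 : ∀ᶠ L : ℝ in atTop, 1 / 2 * L ^ (κ + θ) + 1 ≤ L ^ (κ + θ) := by
    filter_upwards [ev_rpow 2 0 (κ + θ) (by linarith)] with L h2
    rw [rpow_zero] at h2
    linarith
  have i7 : ∀ᶠ L : ℝ in atTop, 139 * L ^ (κ + θ) ≤ L ^ t - 1 := by
    filter_upwards [ev_rpow 278 (κ + θ) t ht, ev_rpow 2 0 t ht0] with L h1 h2
    rw [rpow_zero] at h2
    linarith
  have i9 : ∀ᶠ L : ℝ in atTop, 200 * L ^ t ≤ L ^ e - 1 := by
    filter_upwards [ev_rpow 400 t e hte, ev_rpow 2 0 e he0] with L h1 h2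
    rw [rpow_zero] at h2
    linarith
  have i10 := XFP_lin ((1 - δ) / 8) 2 t (by positivity) ht1
  have i11 := XFP_lin ((1 - δ) / 2) 64 κ (by positivity) (by linarith)
  have i12 : ∀ᶠ L : ℝ in atTop, Real.exp ((1 - δ) * L / 8) + 2 * (Real.exp ((1 - δ) * L) + 1) ≤
      Real.exp L := by
    have h1 : Tendsto (fun L : ℝ => Real.exp (δ * L)) atTop atTop :=
      Real.tendsto_exp_atTop.comp (tendsto_id.const_mul_atTop hδ)
    filter_upwards [h1.eventually (eventually_ge_atTop (5:ℝ)), eventually_gt_atTop (0:ℝ)]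
      with L h2 h3
    have h4 : Real.exp ((1 - δ) * L / 8) ≤ Real.exp ((1 - δ) * L) := by
      apply Real.exp_le_exp.mpr
      have : 0 < (1 - δ) * L := by positivity
      linarith
    have h5 : 1 ≤ Real.exp ((1 - δ) * L) := Real.one_le_exp (by positivity)
    have h6 : Real.exp L = Real.exp (δ * L) * Real.exp ((1 - δ) * L) := by
      rw [← Real.exp_add]; ring_nf
    rw [h6]
    nlinarith [Real.exp_pos ((1 - δ) * L)]
  have i13 := XFP_log ((1 - δ) / 8) (Real.log 8) 2 (by positivity)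
  have i14 : ∀ᶠ L : ℝ in atTop, 3 * L ^ t + 1 ≤ L := by
    filter_upwards [XFP_lin (1 / 2) 3 t (by norm_num) ht1, eventually_ge_atTop (2:ℝ)] with L h1 h2
    linarith
  have i15 : ∀ᶠ L : ℝ in atTop, 2 * L ^ κ * Real.log (2 * L) ≤ (L ^ t - 1) / 20 := by
    filter_upwards [ev_log 1 θ hθ, i7, eventually_ge_atTop (2:ℝ)] with L h1 h2 h3
    have h0 : 0 < L := by linarith
    rw [one_mul] at h1
    have h4 : Real.log (2 * L) ≤ 2 * Real.log L := by
      rw [Real.log_mul (by norm_num) h0.ne']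
      have := Real.log_le_log (by norm_num) h3
      linarith
    have h5 : 2 * L ^ κ * Real.log (2 * L) ≤ 4 * L ^ (κ + θ) := by
      calc 2 * L ^ κ * Real.log (2 * L) ≤ 2 * L ^ κ * (2 * L ^ θ) := by
            apply mul_le_mul_of_nonneg_left _ (by positivity)
            linarith
        _ = 4 * (L ^ κ * L ^ θ) := by ring
        _ = 4 * L ^ (κ + θ) := by rw [← rpow_add h0]
    have : 0 ≤ L ^ (κ + θ) := by positivity
    linarith
  have i16 : ∀ᶠ L : ℝ in atTop, 2 * L ^ κ * (2 * L ^ b) ≤ (L ^ e - 1) / 20 := by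
    filter_upwards [ev_rpow 160 (κ + b) e hκb, ev_rpow 2 0 e he0, eventually_gt_atTop (0:ℝ)]
      with L h1 h2 h3
    rw [rpow_zero] at h2
    have : L ^ (κ + b) = L ^ κ * L ^ b := rpow_add h3 _ _
    rw [this] at h1
    nlinarith
  have i16' : ∀ᶠ L : ℝ in atTop, Real.log (4 * L) ≤ L ^ b := by
    filter_upwards [XFP_const (Real.log 4) 1 b 1 hb one_pos, eventually_gt_atTop (0:ℝ)]
      with L h1 h3
    rw [Real.log_mul (by norm_num) h3.ne']
    linarith
  have i17 : ∀ᶠ L : ℝ in atTop, L ^ e / 5 ≤ (1 - δ) * L / 2 := by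
    filter_upwards [XFP_lin ((1 - δ) / 2) (1 / 5) e (by positivity) he1] with L h1
    linarith
  have i18 : ∀ᶠ L : ℝ in atTop, Real.log 16 + 4 * Real.log L ≤ 3 * (L ^ t - 1) / 20 := by
    filter_upwards [XFP_const (Real.log 16 + 3 / 20) 4 t (3 / 20) ht0 (by norm_num)] with L h1
    linarith
  have i20 : ∀ᶠ L : ℝ in atTop, 485 ≤ L ^ (θ / 5) := by
    filter_upwards [ev_rpow 485 0 (θ / 5) (by linarith)] with L h1
    rwa [rpow_zero, mul_one] at h1
  have i21 := ev_rpow (8 / (1 - δ)) (κ - 1) (-θ) (by linarith)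
  have i22 : ∀ᶠ L : ℝ in atTop, |K| * (L ^ b + 1) * L ^ e ≤ (1 - δ) * L / 2 := by
    filter_upwards [XFP_lin ((1 - δ) / 2) (2 * |K|) (b + e) (by positivity) (by linarith),
      ev_rpow 1 0 b hb, eventually_gt_atTop (0:ℝ)] with L h1 h2 h3
    rw [rpow_zero, mul_one] at h2
    have h4 : |K| * (L ^ b + 1) * L ^ e ≤ |K| * (L ^ b + L ^ b) * L ^ e := by
      apply mul_le_mul_of_nonneg_right _ (rpow_nonneg h3.le _)
      apply mul_le_mul_of_nonneg_left _ (abs_nonneg K)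
      linarith
    have h5 : |K| * (L ^ b + L ^ b) * L ^ e = 2 * |K| * L ^ (b + e) := by
      rw [rpow_add h3]; ring
    linarith
  have i22' : ∀ᶠ L : ℝ in atTop, |K| * (L ^ b + 1) ≤ L ^ e - 1 := by
    filter_upwards [ev_rpow (2 * |K|) b e (by linarith), ev_rpow (2 * (|K| + 1)) 0 e he0]
      with L h1 h2
    rw [rpow_zero] at h2
    linarith
  have i23 : ∀ᶠ L : ℝ in atTop, 2 ≤ L ^ t := by
    filter_upwards [ev_rpow 2 0 t ht0] with L h1
    rwa [rpow_zero, mul_one] at h1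
  filter_upwards [i2, i3, i4, i5, i6, i7, i9, i10, i11, i12, i13, i14, i15, i16, i16', i17, i18,
    i20, i21, i22, i22', i23, eventually_ge_atTop (100:ℝ)] with L a2 a3 a4 a5 a6 a7 a9 a10 a11 a12
    a13 a14 a15 a16 a16' a17 a18 a20 a21 a22 a22' a23 a1
  exact ⟨a1, a2, by linarith, a4, a5, a6, a7, a9, by linarith, by linarith, a12, by linarith, a14,
    a15, a16, a16', a17, a18, a20, a21, a22, a22', a23⟩

end Pool.Agent.Lib.H68T
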