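import Pool.Agent.Lib.H68X.XFIN0
import Pool.Agent.Lib.H68X.XBA3
import Pool.Agent.Lib.H68X.XEX

/-!
# Chunk XFIN: the core (helper68)
-/

open Finset

namespace Pool.Agent.Lib.H68T

open scoped Classical in
/-- **The core.** -/
theorem core (δ κ θ t b e : ℝ) (hδ : 0 < δ) (hδ1 : δ < 1) (hκ : 0 < κ) (hθ : 0 < θ)
    (ht : κ + θ < t) (hte : t < e) (hb : 0 < b) (hκb : κ + b < e) (hbe : e + b < 1) :
    ∃ L₀ : ℝ, ∀ L : ℝ, L₀ ≤ L →
    (∀ (r : ℕ) [NeZero r] (ψ : DirichletCharacter ℂ r), (r : ℝ) ≤ Real.exp (L ^ t) →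
      ψ.IsPrimitive → ψ ≠ 1 → ψ ^ 2 = 1 → ∀ β : ℝ, β < 1 → ψ.LFunction (β : ℂ) = 0 →
      Real.exp (-L ^ b) ≤ 1 - β) →
    ∀ k : ℕ, 1 ≤ k → (k : ℝ) ≤ L ^ κ →
    ((((range (⌊(Real.exp L) ^ (1 - δ)⌋₊ + 1)).powersetCard k).filter (fun A => Admissible A ∧
      ¬ HasPrimeTranslate (Real.exp L) A)).card : ℝ) ≤ L ^ (-(4 * θ / 5)) *
        ((((range (⌊(Real.exp L) ^ (1 - δ)⌋₊ + 1)).powersetCard k).filter
          (fun A => Admissible A)).card : ℝ) := by
  obtain ⟨c₁, c', C, K₁, hc₁, hc', hC, hexc⟩ := exc_data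
  obtain ⟨c₂, K₂, hc₂, hgb⟩ := good_below
  set c := min c₁ c₂ with hc
  have hc0 : 0 < c := lt_min hc₁ hc₂
  obtain ⟨K₃, hK₃1, hgood⟩ := XCNT_good c hc0
  obtain ⟨K₄, hK₄1, hbad⟩ := x_class_corr c' C hc'
  set K := |K₁| + |K₂| + K₃ + K₄ with hK
  have a1 := abs_nonneg K₁
  have a2 := abs_nonneg K₂
  have hK0 : 0 ≤ K := by rw [hK]; linarith
  have hK1 : 1 ≤ K := by rw [hK]; linarith
  obtain ⟨L₀, hL₀⟩ := Filter.eventually_atTop.mp
    (ev_xbig δ κ θ t b e K hδ hδ1 hκ hθ ht hte hb hκb hbe)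
  refine ⟨L₀, fun L hLL hyp k hk1 hk => ?_⟩
  have hB := hL₀ L hLL
  have hL := hB.i1
  have hL0 : 0 < L := by linarith
  have hL1 : 1 ≤ L := by linarith
  have hδ0 : 0 < 1 - δ := by linarith
  have hθ1 : θ ≤ 1 := by linarith
  have hLt : 2 ≤ L ^ t := hB.i23
  have hLte : L ^ t ≤ L ^ e := Real.rpow_le_rpow_of_exponent_le hL1 hte.le
  set Q₀ := ⌊Real.exp (L ^ e)⌋₊ with hQ₀
  obtain ⟨hq1, hq2⟩ := XFIN_log_floor (L ^ e) (by linarith)
  rw [← hQ₀] at hq1 hq2
  obtain ⟨hP1, hP2⟩ := XFIN_primorial L κ θ t (by positivity) hB.i7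
  set y := ⌊L ^ (κ + θ)⌋₊ with hy
  set W₀ := primorial y with hW₀
  have hW₀pos : 0 < W₀ := primorial_pos y
  have hW₀y : ∀ p : ℕ, p.Prime → p ≤ y → p ∣ W₀ := fun p hp hpy => hp.dvd_primorial_iff.mpr hpy
  have hlpos : ∀ n : ℕ, 1 ≤ Real.log n → (0:ℝ) < n := by
    intro n hn
    rcases Nat.eq_zero_or_pos n with h0 | h0
    · rw [h0] at hn
      simp at hn
      linarith
    · exact_mod_cast h0
  -- good levels
  have case_good : ∀ Q : ℕ, Good c Q → L ^ t - 1 ≤ Real.log Q → Real.log Q ≤ L ^ e →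
      ((((range (⌊(Real.exp L) ^ (1 - δ)⌋₊ + 1)).powersetCard k).filter (fun A => Admissible A ∧
        ¬ HasPrimeTranslate (Real.exp L) A)).card : ℝ) ≤ L ^ (-(4 * θ / 5)) *
        ((((range (⌊(Real.exp L) ^ (1 - δ)⌋₊ + 1)).powersetCard k).filter
          (fun A => Admissible A)).card : ℝ) := by
    intro Q hG hQ1 hQ2
    have hWexp : (W₀ : ℝ) ≤ Real.exp ((1 - δ) * L / 8) := by
      refine hP2.trans (Real.exp_le_exp.mpr ?_)
      linarith [hB.i10]
    have D := XFIN_data δ L hδ1 hL hB.i12 hB.i13 y W₀ hW₀pos hW₀y hWexp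
    have hR := XFIN_reg δ κ θ t b e K L hδ1 hB y W₀ _ _ Q D hQ1 hQ2
    have hQpos := hlpos Q (by linarith)
    have hWQ : W₀ ^ 100 ≤ Q := by
      have h1 : (W₀ : ℝ) ^ 100 ≤ Q := by
        refine hP1.trans ?_
        rw [← Real.le_log_iff_exp_le hQpos]
        exact hQ1
      exact_mod_cast h1
    have hcc := hgood Q _ W₀ (hR.mono hK0 (by rw [hK]; linarith)) hG hW₀pos hWQ
    refine XFIN_bound δ κ θ t b e K L hδ1 (by linarith) hθ hθ1 (by linarith) hB W₀ _ _ Q D
      (hP2.trans (Real.exp_le_exp.mpr (by linarith))) hQ1 hQ2 1 one_pos le_rfl hcc k hk1 hk ?_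
    rw [div_one]
    have hlog2L : 0 < Real.log (2 * L) := Real.log_pos (by linarith)
    have h1 : (2 * L) ^ (2 * k) = Real.exp (2 * k * Real.log (2 * L)) := by
      rw [← Real.rpow_natCast, Real.rpow_def_of_pos (by positivity)]
      push_cast; ring_nf
    rw [h1]
    apply Real.exp_le_exp.mpr
    calc 2 * k * Real.log (2 * L) ≤ 2 * L ^ κ * Real.log (2 * L) := by
          apply mul_le_mul_of_nonneg_right _ hlog2L.le
          linarith
      _ ≤ (L ^ t - 1) / 20 := hB.i15
      _ ≤ Real.log Q / 20 := by linarith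
  by_cases hG : Good c Q₀
  · exact case_good Q₀ hG (by linarith) hq2
  · unfold Good at hG
    push Not at hG
    obtain ⟨r, hrne, ψ, hrQ, hprim, hψ1, hψ2, β, hβ1, hβ2, hβ3⟩ := hG
    have hβlt : β < 1 := by
      rcases eq_or_lt_of_le hβ2 with h0 | h0
      · exfalso
        rw [h0] at hβ3
        refine DirichletCharacter.LFunction_ne_zero_of_one_le_re ψ (Or.inl hψ1) ?_ hβ3
        simp
      · exact h0
    have hE : Exc c Q₀ r ψ β := ⟨hrQ, hprim, hψ1, hψ2, hβ1, hβlt, hβ3⟩
    have hrpos : 0 < r := Nat.pos_of_ne_zero (NeZero.ne r)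
    rcases le_or_gt (r : ℝ) (Real.exp (L ^ t)) with hr | hr
    · -- small conductor
      have h1β := hyp r ψ hr hprim hψ1 hψ2 β hβlt hβ3
      set W := W₀ * r with hW
      have hWpos : 0 < W := Nat.mul_pos hW₀pos hrpos
      have hW2 : (W : ℝ) ≤ Real.exp (2 * L ^ t) := by
        rw [hW]; push_cast
        calc (W₀ : ℝ) * r ≤ Real.exp (L ^ t) * Real.exp (L ^ t) :=
              mul_le_mul hP2 hr (Nat.cast_nonneg _) (Real.exp_pos _).le
          _ = Real.exp (2 * L ^ t) := by rw [← Real.exp_add]; ring_nf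
      have hWexp : (W : ℝ) ≤ Real.exp ((1 - δ) * L / 8) :=
        hW2.trans (Real.exp_le_exp.mpr (by linarith [hB.i10]))
      have hWy : ∀ p : ℕ, p.Prime → p ≤ y → p ∣ W := fun p hp hpy =>
        Dvd.dvd.mul_right (hW₀y p hp hpy) r
      have D := XFIN_data δ L hδ1 hL hB.i12 hB.i13 y W hWpos hWy hWexp
      have hR := XFIN_reg δ κ θ t b e K L hδ1 hB y W _ _ Q₀ D (by linarith) hq2
      have hQpos := hlpos Q₀ (by linarith [hB.i9])
      have hWQ : W ^ 100 ≤ Q₀ := by
        have h1 : (W : ℝ) ^ 100 ≤ Q₀ := by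
          calc (W : ℝ) ^ 100 ≤ (Real.exp (2 * L ^ t)) ^ 100 :=
                pow_le_pow_left₀ (Nat.cast_nonneg _) hW2 _
            _ = Real.exp (200 * L ^ t) := by
                rw [← Real.exp_nat_mul]; push_cast; ring_nf
            _ ≤ Q₀ := by
                rw [← Real.le_log_iff_exp_le hQpos]
                linarith [hB.i9]
        exact_mod_cast h1
      have hKQ : K ≤ Q₀ := hR.Q_ge hK1
      have hED := hexc Q₀ (by
        have : K₁ ≤ K := by rw [hK]; linarith [le_abs_self K₁]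
        linarith) r ψ β (hE.mono (min_le_left _ _))
      set M := (⌊(Real.exp L) ^ (1 - δ)⌋₊ + 1) / W with hM
      have hsw : sw K₄ Q₀ (M * W) ≤ 1 - β := by
        refine le_trans ?_ h1β
        have hKK₄ : K₄ ≤ K := by rw [hK]; linarith
        refine (sw_mono (by linarith) hKK₄ (by exact_mod_cast hQpos)).trans ?_
        unfold sw
        have hlX := D.hlX
        set ℓ := Real.log (M * W : ℕ) with hℓ
        have hKpos : 0 < K := by linarith
        have habs : |K| = K := abs_of_pos hKpos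
        have hLe : 0 < L ^ e := by positivity
        have hlQ0 : 0 < Real.log Q₀ := by linarith
        have e1 : Real.exp (-(ℓ / (K * Real.log Q₀))) ≤ Real.exp (-(L ^ b + 1)) := by
          apply Real.exp_le_exp.mpr
          apply neg_le_neg
          rw [le_div_iff₀ (by positivity)]
          have h1 := hB.i22
          rw [habs] at h1
          have hLb : 0 ≤ L ^ b := by positivity
          calc (L ^ b + 1) * (K * Real.log Q₀) ≤ (L ^ b + 1) * (K * L ^ e) := by
                apply mul_le_mul_of_nonneg_left _ (by positivity)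
                exact mul_le_mul_of_nonneg_left hq2 hKpos.le
            _ = K * (L ^ b + 1) * L ^ e := by ring
            _ ≤ _ := h1
            _ ≤ ℓ := hlX
        have e2 : (Q₀ : ℝ) ^ (-(1 / K)) ≤ Real.exp (-(L ^ b + 1)) := by
          rw [Real.rpow_def_of_pos hQpos]
          apply Real.exp_le_exp.mpr
          have h1 := hB.i22'
          rw [habs] at h1
          have h2 : L ^ b + 1 ≤ Real.log Q₀ / K := by
            rw [le_div_iff₀ hKpos]
            linarith
          have h3 : Real.log Q₀ * -(1 / K) = -(Real.log Q₀ / K) := by ring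
          rw [h3]
          linarith
        have e3 : Real.exp (-(L ^ b + 1)) + Real.exp (-(L ^ b + 1)) ≤ Real.exp (-L ^ b) := by
          have h4 : Real.exp (-L ^ b) = Real.exp 1 * Real.exp (-(L ^ b + 1)) := by
            rw [← Real.exp_add]; ring_nf
          have h5 : 2 ≤ Real.exp 1 := by linarith [Real.add_one_le_exp (1:ℝ)]
          rw [h4]
          have h6 := mul_le_mul_of_nonneg_right h5 (Real.exp_pos (-(L ^ b + 1))).le
          linarith
        linarith
      have h1β0 : 0 < 1 - β := by linarith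
      have hcc : CC Q₀ M W ((1 - β) / 2) := by
        intro b' hb' hbW
        obtain ⟨η, h1, -, h3, h4⟩ := hbad Q₀ M W r (hR.mono hK0 (by rw [hK]; linarith)) ψ β hED
          hsw hWpos hWQ (Dvd.intro_left W₀ rfl) b' hb' hbW
        exact ⟨η, h1, h3, h4⟩
      refine XFIN_bound δ κ θ t b e K L hδ1 (by linarith) hθ hθ1 (by linarith) hB W _ _ Q₀ D
        hW2 (by linarith) hq2 ((1 - β) / 2) (by linarith) (by linarith [hED.half]) hcc k hk1 hk ?_
      -- the power
      have h5 : 2 * L / ((1 - β) / 2) ≤ Real.exp (2 * L ^ b) := by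
        rw [div_le_iff₀ (by linarith)]
        have h6 : 4 * L ≤ Real.exp (L ^ b) := by
          rw [← Real.log_le_iff_le_exp (by linarith)]
          exact hB.i16'
        have h7 : Real.exp (2 * L ^ b) = Real.exp (L ^ b) * Real.exp (L ^ b) := by
          rw [← Real.exp_add]; ring_nf
        have h8 : 1 ≤ Real.exp (L ^ b) * (1 - β) := by
          calc (1:ℝ) = Real.exp (L ^ b) * Real.exp (-L ^ b) := by
                rw [← Real.exp_add]; simp
            _ ≤ _ := mul_le_mul_of_nonneg_left h1β (Real.exp_pos _).le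
        rw [h7]
        have h9 : Real.exp (L ^ b) * Real.exp (L ^ b) * ((1 - β) / 2) =
            Real.exp (L ^ b) * (Real.exp (L ^ b) * (1 - β)) / 2 := by ring
        rw [h9]
        have := mul_le_mul_of_nonneg_left h8 (Real.exp_pos (L ^ b)).le
        linarith
      have h0 : 0 ≤ 2 * L / ((1 - β) / 2) := by
        apply div_nonneg <;> linarith
      calc (2 * L / ((1 - β) / 2)) ^ (2 * k) ≤ (Real.exp (2 * L ^ b)) ^ (2 * k) :=
            pow_le_pow_left₀ h0 h5 _
        _ = Real.exp (2 * k * (2 * L ^ b)) := by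
            rw [← Real.exp_nat_mul]; push_cast; ring_nf
        _ ≤ Real.exp (Real.log Q₀ / 20) := by
            apply Real.exp_le_exp.mpr
            have hLb : 0 ≤ L ^ b := by positivity
            calc 2 * (k:ℝ) * (2 * L ^ b) ≤ 2 * L ^ κ * (2 * L ^ b) := by
                  apply mul_le_mul_of_nonneg_right _ (by positivity)
                  linarith
              _ ≤ (L ^ e - 1) / 20 := hB.i16
              _ ≤ _ := by linarith
    · -- large conductor
      have hKr : K₂ ≤ r := by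
        have h1 : K₂ ≤ K := by rw [hK]; linarith [le_abs_self K₂]
        have h2 : |K| * Real.log L ≤ L ^ t - 1 := hB.i3
        have h3 : 1 ≤ Real.log L := by
          rw [Real.le_log_iff_exp_le hL0]
          have := Real.exp_one_lt_d9
          linarith
        have h4 : K ≤ |K| * Real.log L := by
          calc K ≤ |K| := le_abs_self K
            _ = |K| * 1 := (mul_one _).symm
            _ ≤ _ := mul_le_mul_of_nonneg_left h3 (abs_nonneg K)
        have h5 : L ^ t + 1 ≤ Real.exp (L ^ t) := Real.add_one_le_exp _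
        linarith
      have hG' : Good c (r - 1) := (hgb Q₀ r ψ β hKr (hE.mono (min_le_right _ _))).mono
        (min_le_right _ _)
      have hr1 : Real.exp (L ^ t - 1) ≤ ((r - 1 : ℕ) : ℝ) := by
        have h1 : ((r - 1 : ℕ) : ℝ) = (r : ℝ) - 1 := by
          rw [Nat.cast_sub hrpos]; simp
        rw [h1]
        have h4 : Real.exp (L ^ t) = Real.exp 1 * Real.exp (L ^ t - 1) := by
          rw [← Real.exp_add]; ring_nf
        have h5 : 2 ≤ Real.exp 1 := by linarith [Real.add_one_le_exp (1:ℝ)]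
        have h6 : 1 ≤ Real.exp (L ^ t - 1) := Real.one_le_exp (by linarith)
        have h7 := mul_le_mul_of_nonneg_right h5 (Real.exp_pos (L ^ t - 1)).le
        linarith
      have hr1pos : (0:ℝ) < ((r - 1 : ℕ) : ℝ) := lt_of_lt_of_le (Real.exp_pos _) hr1
      refine case_good (r - 1) hG' ?_ ?_
      · rw [Real.le_log_iff_exp_le hr1pos]
        exact hr1
      · refine le_trans (Real.log_le_log hr1pos ?_) hq2
        have : r - 1 ≤ Q₀ := by omega
        exact_mod_cast this

end Pool.Agent.Lib.H68T
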