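import Mathlib

/-!
# Chunk XRC0: signs of a real character, Chernoff bound
-/

open Finset

namespace Pool.Agent.Lib.H68T

private theorem XRC0_sum_range (r : ℕ) [NeZero r] (f : ZMod r → ℂ) :
    ∑ u ∈ range r, f (u : ZMod r) = ∑ a : ZMod r, f a := by
  refine Finset.sum_bij' (fun u _ => (u : ZMod r)) (fun a _ => a.val) ?_ ?_ ?_ ?_ ?_
  · intro u _
    exact Finset.mem_univ _
  · intro a _
    exact Finset.mem_range.mpr (ZMod.val_lt a)
  · intro u hu
    exact ZMod.val_cast_of_lt (Finset.mem_range.mp hu)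
  · intro a _
    exact ZMod.natCast_zmod_val a
  · intro u _
    rfl

/-- Half of the units are plus: if `ψ² = 1`, `ψ ≠ 1`, then the number of `u` in `ZMod r` with
`ψ(u) = 1` is `φ(r)/2` (the sum of `ψ` over `ZMod r` is `0`). -/
theorem half_plus (r : ℕ) [NeZero r] (ψ : DirichletCharacter ℂ r) (hψ : ψ ≠ 1)
    (hψ2 : ψ ^ 2 = 1) :
    2 * ((range r).filter (fun u : ℕ => ψ (u : ZMod r) = 1)).card = Nat.totient r ∧
    2 * ((range r).filter (fun u : ℕ => ψ (u : ZMod r) = -1)).card = Nat.totient r := by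
  set a := ((range r).filter (fun u : ℕ => ψ (u : ZMod r) = 1)).card with ha
  set b := ((range r).filter (fun u : ℕ => ψ (u : ZMod r) = -1)).card with hb
  -- values
  have hval : ∀ u : ℕ, Nat.Coprime r u → ψ (u : ZMod r) = 1 ∨ ψ (u : ZMod r) = -1 := by
    intro u hu
    have hunit : IsUnit ((u : ℕ) : ZMod r) := (ZMod.isUnit_iff_coprime u r).mpr hu.symm
    have h1 : ψ (u : ZMod r) ^ 2 = 1 := by
      have h2 := congrArg (fun χ : DirichletCharacter ℂ r => χ (u : ZMod r)) hψ2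
      simp only [MulChar.pow_apply' ψ (two_ne_zero), MulChar.one_apply hunit] at h2
      exact h2
    exact mul_self_eq_one_iff.mp (by rw [← sq]; exact h1)
  have hval0 : ∀ u : ℕ, ¬ Nat.Coprime r u → ψ (u : ZMod r) = 0 := by
    intro u hu
    apply ψ.map_nonunit
    rw [ZMod.isUnit_iff_coprime]
    exact fun h => hu h.symm
  have hdisj : Disjoint ((range r).filter (fun u : ℕ => ψ (u : ZMod r) = 1))
      ((range r).filter (fun u : ℕ => ψ (u : ZMod r) = -1)) := by
    rw [Finset.disjoint_left]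
    intro u hu hu'
    have h1 := (Finset.mem_filter.mp hu).2
    have h2 := (Finset.mem_filter.mp hu').2
    rw [h1] at h2
    norm_num at h2
  have hab : a + b = Nat.totient r := by
    rw [ha, hb, ← Finset.card_union_of_disjoint hdisj, Nat.totient_eq_card_coprime]
    congr 1
    ext u
    simp only [Finset.mem_union, Finset.mem_filter]
    constructor
    · rintro (⟨hu, h⟩ | ⟨hu, h⟩)
      · refine ⟨hu, ?_⟩
        by_contra hc
        rw [hval0 u hc] at h
        norm_num at h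
      · refine ⟨hu, ?_⟩
        by_contra hc
        rw [hval0 u hc] at h
        norm_num at h
    · rintro ⟨hu, h⟩
      rcases hval u h with h1 | h1
      · exact Or.inl ⟨hu, h1⟩
      · exact Or.inr ⟨hu, h1⟩
  have hsum : ∑ u ∈ range r, ψ (u : ZMod r) = (a : ℂ) - b := by
    have h1 : ∀ u ∈ range r, ψ (u : ZMod r) =
        (if ψ (u : ZMod r) = 1 then (1 : ℂ) else 0) - (if ψ (u : ZMod r) = -1 then (1 : ℂ) else 0) := by
      intro u _
      by_cases hc : Nat.Coprime r u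
      · rcases hval u hc with h | h
        · rw [h]
          norm_num
        · rw [h]
          norm_num
      · rw [hval0 u hc]
        norm_num
    rw [Finset.sum_congr rfl h1, Finset.sum_sub_distrib, Finset.sum_boole, Finset.sum_boole]
  have hzero : (a : ℂ) - b = 0 := by
    rw [← hsum, XRC0_sum_range r (fun x => ψ x)]
    exact MulChar.sum_eq_zero_of_ne_one hψ
  have heq : a = b := by
    have : (a : ℂ) = b := sub_eq_zero.mp hzero
    exact_mod_cast this
  omega

/-- Chernoff/Hoeffding: `∑_{8 j < k} C(k,j) ≤ 2^k e^(-k/4)`. For instance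
`∑_{8j<k} C(k,j) ≤ ∑_j C(k,j) 7^(k/8 - j) = 7^(k/8) (8/7)^k`, and `7^(1/8) · 8/7 / 2 = 0.7287... <
e^(-1/4) = 0.7788...`. -/
theorem chernoff (k : ℕ) :
    ((∑ j ∈ (range (k + 1)).filter (fun j => 8 * j < k), k.choose j : ℕ) : ℝ) ≤
      2 ^ k * Real.exp (-(k / 4 : ℝ)) := by
  push_cast
  have h1 : ∑ j ∈ (range (k + 1)).filter (fun j => 8 * j < k), (k.choose j : ℝ) ≤
      ∑ j ∈ range (k + 1), (k.choose j : ℝ) * ((7 : ℝ) ^ ((k : ℝ) / 8) * (1 / 7) ^ j) := by
    calc ∑ j ∈ (range (k + 1)).filter (fun j => 8 * j < k), (k.choose j : ℝ)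
        ≤ ∑ j ∈ (range (k + 1)).filter (fun j => 8 * j < k),
            (k.choose j : ℝ) * ((7 : ℝ) ^ ((k : ℝ) / 8) * (1 / 7) ^ j) := by
          apply Finset.sum_le_sum
          intro j hj
          have hj2 : 8 * j < k := (Finset.mem_filter.mp hj).2
          have hj3 : (8 : ℝ) * j ≤ k := by exact_mod_cast hj2.le
          have h2 : (1 : ℝ) ≤ (7 : ℝ) ^ ((k : ℝ) / 8) * (1 / 7) ^ j := by
            have h3 : (7 : ℝ) ^ (j : ℝ) ≤ (7 : ℝ) ^ ((k : ℝ) / 8) :=
              Real.rpow_le_rpow_of_exponent_le (by norm_num) (by linarith)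
            rw [Real.rpow_natCast] at h3
            rw [one_div, inv_pow, ← div_eq_mul_inv, le_div_iff₀ (by positivity), one_mul]
            exact h3
          calc (k.choose j : ℝ) = (k.choose j : ℝ) * 1 := (mul_one _).symm
            _ ≤ _ := mul_le_mul_of_nonneg_left h2 (Nat.cast_nonneg _)
      _ ≤ _ := by
          apply Finset.sum_le_sum_of_subset_of_nonneg (Finset.filter_subset _ _)
          intro j _ _
          positivity
  refine h1.trans ?_
  have h2 : ∑ j ∈ range (k + 1), (k.choose j : ℝ) * ((7 : ℝ) ^ ((k : ℝ) / 8) * (1 / 7) ^ j) =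
      (7 : ℝ) ^ ((k : ℝ) / 8) * (8 / 7) ^ k := by
    have h3 := add_pow (1 / 7 : ℝ) 1 k
    have h4 : (8 / 7 : ℝ) ^ k = (1 / 7 + 1) ^ k := by norm_num
    rw [h4, h3, Finset.mul_sum]
    apply Finset.sum_congr rfl
    intro j _
    rw [one_pow]
    ring
  rw [h2]
  have h5 : (7 : ℝ) ^ ((k : ℝ) / 8) = ((7 : ℝ) ^ (1 / 8 : ℝ)) ^ k := by
    rw [← Real.rpow_natCast ((7 : ℝ) ^ (1 / 8 : ℝ)) k, ← Real.rpow_mul (by norm_num)]
    congr 1
    ring
  have h6 : Real.exp (-(k / 4 : ℝ)) = (Real.exp (-(1 / 4 : ℝ))) ^ k := by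
    rw [← Real.exp_nat_mul]
    congr 1
    ring
  rw [h5, h6, ← mul_pow, ← mul_pow]
  apply pow_le_pow_left₀ (by positivity)
  -- `7^(1/8) * (8/7) ≤ 2 * exp (-1/4)`
  have h7 : 0 ≤ (7 : ℝ) ^ (1 / 8 : ℝ) * (8 / 7) := by positivity
  have h8 : 0 ≤ 2 * Real.exp (-(1 / 4 : ℝ)) := by positivity
  apply le_of_pow_le_pow_left₀ (n := 8) (by norm_num) h8
  rw [mul_pow, mul_pow, ← Real.rpow_natCast ((7 : ℝ) ^ (1 / 8 : ℝ)) 8,
    ← Real.rpow_mul (by norm_num), ← Real.exp_nat_mul]
  norm_num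
  have h9 : Real.exp (-2 : ℝ) = (Real.exp 1 ^ 2)⁻¹ := by
    rw [← Real.exp_nat_mul, ← Real.exp_neg]
    norm_num
  have h10 := Real.exp_one_lt_d9
  have h11 : Real.exp 1 ^ 2 ≤ 2.7182818286 ^ 2 :=
    pow_le_pow_left₀ (Real.exp_pos 1).le h10.le 2
  rw [h9, ← div_eq_mul_inv, le_div_iff₀ (by positivity)]
  nlinarith

end Pool.Agent.Lib.H68T
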