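import Pool.Agent.Lib.H68T.Defs
import Pool.Agent.Lib.H68T.SetsP

/-!
# Chunk XRN: counting admissible sets
-/

open Finset

namespace Pool.Agent.Lib.H68T

theorem XRN_totient (n : ℕ) (hn : 1 ≤ n) : primorial n ≤ n * Nat.totient (primorial n) := by
  induction n, hn using Nat.le_induction with
  | base => simp
  | succ n hn ih =>
    by_cases hp : (n + 1).Prime
    · have h1 : primorial (n + 1) = (n + 1) * primorial n := by
        unfold primorial
        rw [Finset.range_add_one, Finset.filter_insert, if_pos hp, Finset.prod_insert]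
        simp
      have hcop : Nat.Coprime (n + 1) (primorial n) := by
        rw [Nat.Prime.coprime_iff_not_dvd hp, hp.dvd_primorial_iff]
        omega
      rw [h1, Nat.totient_mul hcop, Nat.totient_prime hp]
      simp only [Nat.add_sub_cancel]
      exact Nat.mul_le_mul_left _ ih
    · have h1 : primorial (n + 1) = primorial n := by
        unfold primorial
        rw [Finset.range_add_one, Finset.filter_insert, if_neg hp]
      rw [h1]
      exact ih.trans (Nat.mul_le_mul_right _ (by omega))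

open scoped Classical in
/-- Many admissible sets: `(H+1)^k ≤ 2 k^k k! #{admissible k-subsets of [0, H]}` for `H` large.
(`W = primorial k`, `W ≤ k φ(W)`: `FIN_totient` in `H68T/FIN.lean`.) See the last two items in the proof
of `sets_of_patterns` (`H68T/SetsP.lean`): the injective tuples `r i + W c i` with all `r i` coprime
to `W`, `c i < M = (H+1)/W` are admissible; there are at least `φ(W)^k · (3/4) M^k` of them and
`(M W)^k ≥ (3/4)(H+1)^k`. -/
theorem adm_lower (H k : ℕ) (hk : 1 ≤ k) (hH : 8 * k ^ 2 * primorial k ≤ H + 1) :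
    ((H : ℝ) + 1) ^ k ≤ 2 * (k : ℝ) ^ k * (k.factorial : ℝ) *
      ((((range (H + 1)).powersetCard k).filter (fun A => Admissible A)).card : ℝ) := by
  set W := primorial k with hWdef
  have hW : 0 < W := primorial_pos k
  have hp : ∀ p : ℕ, p.Prime → p ≤ k → p ∣ W := fun p hp hpk => hp.dvd_primorial_iff.mpr hpk
  have hφ : W ≤ k * Nat.totient W := XRN_totient k hk
  obtain ⟨M, hM⟩ : ∃ M : ℕ, M = (H + 1) / W := ⟨_, rfl⟩
  have hM8 : 8 * k ^ 2 ≤ M := by
    rw [hM]
    exact (Nat.le_div_iff_mul_le hW).mpr hH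
  have hM4 : 4 * k ^ 2 ≤ M := by omega
  have hMk : 4 * k * W ≤ H + 1 := by
    refine le_trans ?_ hH
    apply Nat.mul_le_mul_right
    nlinarith
  have hWr : (0:ℝ) < W := by exact_mod_cast hW
  have hadm := SETS_adm_lower H W M k hW hM hp
  have hdesc := SETS_desc M k hM4 hk
  have hMW := SETS_MW H W M k hW hk hM hMk
  have hRc := SETS_R_card k W hW
  have hT2 := SETS_tuples k H (fun A => Admissible A)
  set Ad := (((range (H + 1)).powersetCard k).filter (fun A => Admissible A)).card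
  set R := (SETS_R k W).card
  have hadm0 : R * M.descFactorial k ≤ k.factorial * Ad := by
    refine hadm.trans (le_of_eq ?_)
    rw [← hT2]
  have hadm' : (R:ℝ) * (M.descFactorial k : ℝ) ≤ (k.factorial : ℝ) * Ad := by
    exact_mod_cast hadm0
  have hR0 : (0:ℝ) ≤ R := by positivity
  have h1 : (3 / 4 : ℝ) * ((R:ℝ) * (M:ℝ) ^ k) ≤ (k.factorial : ℝ) * Ad := by
    have := mul_le_mul_of_nonneg_left hdesc hR0
    linarith
  have h2 : ((W:ℝ)) ^ k ≤ (k:ℝ) ^ k * R := by
    have e1 : W ^ k ≤ k ^ k * R := by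
      calc W ^ k ≤ (k * Nat.totient W) ^ k := Nat.pow_le_pow_left hφ k
        _ = k ^ k * (Nat.totient W) ^ k := by rw [mul_pow]
        _ ≤ k ^ k * R := Nat.mul_le_mul_left _ hRc
    exact_mod_cast e1
  have h3 : (3 / 4 : ℝ) * ((H:ℝ) + 1) ^ k ≤ (k:ℝ) ^ k * ((R:ℝ) * (M:ℝ) ^ k) := by
    refine hMW.trans ?_
    rw [mul_pow]
    calc (M:ℝ) ^ k * (W:ℝ) ^ k ≤ (M:ℝ) ^ k * ((k:ℝ) ^ k * R) := by gcongr
      _ = _ := by ring
  have hkk : (0:ℝ) ≤ (k:ℝ) ^ k := by positivity
  have h4 : (k:ℝ) ^ k * ((3 / 4 : ℝ) * ((R:ℝ) * (M:ℝ) ^ k)) ≤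
      (k:ℝ) ^ k * ((k.factorial : ℝ) * Ad) := mul_le_mul_of_nonneg_left h1 hkk
  have h5 : (0:ℝ) ≤ (k:ℝ) ^ k * ((k.factorial : ℝ) * Ad) := by positivity
  have e : 2 * (k : ℝ) ^ k * (k.factorial : ℝ) * (Ad : ℝ) =
      2 * ((k:ℝ) ^ k * ((k.factorial : ℝ) * Ad)) := by ring
  rw [e]
  have h6 : (k:ℝ) ^ k * ((3 / 4 : ℝ) * ((R:ℝ) * (M:ℝ) ^ k)) =
      3 / 4 * ((k:ℝ) ^ k * ((R:ℝ) * (M:ℝ) ^ k)) := by ring
  rw [h6] at h4
  linarith

end Pool.Agent.Lib.H68T
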