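import Pool.Agent.Lib.H68T.Defs
import Pool.Agent.Lib.H68T.SetsP
import Pool.Agent.Lib.H68X.XRC0
import Pool.Agent.Lib.H68X.XRN

/-!
# Chunk XRC: sign vectors of admissible sets
-/

open Finset

namespace Pool.Agent.Lib.H68T

section XRCaux

open scoped Classical

variable {k L r : ℕ} [NeZero L]

/-- coprime to `r` and admissible at the small primes -/
def XRC_ok {k L : ℕ} (r : ℕ) (b : Fin k → ZMod L) : Prop :=
  (∀ i, IsUnit ((b i).cast : ZMod r)) ∧
    ∀ p : ℕ, p.Prime → p ≤ k → ¬ p ∣ r → ∃ c : ZMod p, ∀ i, ((b i).cast : ZMod p) ≠ c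

/-- the tuples modulo `L` which are coprime to `r` and admissible at the small primes -/
noncomputable def XRC_T (k L r : ℕ) [NeZero L] : Finset (Fin k → ZMod L) :=
  univ.filter (XRC_ok r)

/-- the bad sets -/
def XRC_badset {r : ℕ} (ψ : DirichletCharacter ℂ r) (k : ℕ) (A : Finset ℕ) : Prop :=
  Admissible A ∧ ∃ n < r, (∀ a ∈ A, Nat.Coprime (n + a) r) ∧
        8 * (A.filter (fun a : ℕ => ψ ((n + a : ℕ) : ZMod r) = 1)).card < k

/-- the coordinates with a plus sign -/
noncomputable def XRC_plus (ψ : DirichletCharacter ℂ r) (b : Fin k → ZMod L) : Finset (Fin k) :=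
  univ.filter (fun i => ψ ((b i).cast : ZMod r) = 1)

/-- multiplication of the coordinates in `S` by `u` -/
noncomputable def XRC_act (u : ZMod L) (S : Finset (Fin k)) (b : Fin k → ZMod L) :
    Fin k → ZMod L :=
  fun i => if i ∈ S then u * b i else b i

theorem XRC_act_bij {u : ZMod L} (hu : IsUnit u) (S : Finset (Fin k)) :
    Function.Bijective (XRC_act u S : (Fin k → ZMod L) → _) := by
  refine Finite.injective_iff_bijective.mp ?_
  intro b b' h
  funext i
  have h1 := congrFun h i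
  unfold XRC_act at h1
  split_ifs at h1
  · exact hu.mul_left_cancel h1
  · exact h1

omit [NeZero L] in
theorem XRC_act_cast {u : ZMod L} (hrL : r ∣ L) (S : Finset (Fin k)) (b : Fin k → ZMod L)
    (i : Fin k) : ((XRC_act u S b i).cast : ZMod r) =
      if i ∈ S then (u.cast : ZMod r) * ((b i).cast : ZMod r) else ((b i).cast : ZMod r) := by
  unfold XRC_act
  split_ifs
  · rw [ZMod.cast_mul hrL]
  · rfl

theorem XRC_act_mem {u : ZMod L} (hrL : r ∣ L)
    (hpL : ∀ p : ℕ, p.Prime → p ≤ k → ¬ p ∣ r → p ∣ L) (hur : IsUnit (u.cast : ZMod r))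
    (hup : ∀ p : ℕ, p.Prime → p ≤ k → ¬ p ∣ r → (u.cast : ZMod p) = 1)
    (S : Finset (Fin k)) (b : Fin k → ZMod L) :
    b ∈ XRC_T k L r ↔ XRC_act u S b ∈ XRC_T k L r := by
  unfold XRC_T
  rw [mem_filter, mem_filter]
  unfold XRC_ok
  simp only [mem_univ, true_and]
  have h1 : ∀ i, IsUnit ((XRC_act u S b i).cast : ZMod r) ↔ IsUnit ((b i).cast : ZMod r) := by
    intro i
    rw [XRC_act_cast hrL]
    split_ifs
    · exact ⟨fun h => isUnit_of_mul_isUnit_right h, fun h => hur.mul h⟩
    · rfl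
  have h2 : ∀ p : ℕ, p.Prime → p ≤ k → ¬ p ∣ r → ∀ i,
      ((XRC_act u S b i).cast : ZMod p) = ((b i).cast : ZMod p) := by
    intro p hp hpk hpr i
    rw [XRC_act_cast (hpL p hp hpk hpr), hup p hp hpk hpr, one_mul, ite_self]
  constructor
  · rintro ⟨h3, h4⟩
    refine ⟨fun i => (h1 i).2 (h3 i), fun p hp hpk hpr => ?_⟩
    obtain ⟨c, hc⟩ := h4 p hp hpk hpr
    exact ⟨c, fun i => by rw [h2 p hp hpk hpr i]; exact hc i⟩
  · rintro ⟨h3, h4⟩
    refine ⟨fun i => (h1 i).1 (h3 i), fun p hp hpk hpr => ?_⟩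
    obtain ⟨c, hc⟩ := h4 p hp hpk hpr
    exact ⟨c, fun i => by rw [← h2 p hp hpk hpr i]; exact hc i⟩

theorem XRC_sq {w : ℂ} (h : w ^ 2 = 1) : w = 1 ∨ w = -1 := by
  have : (w - 1) * (w + 1) = 0 := by ring_nf; rw [h]; ring
  rcases mul_eq_zero.mp this with h | h
  · left; linear_combination h
  · right; linear_combination h

theorem XRC_sign {ψ : DirichletCharacter ℂ r} (hψ2 : ψ ^ 2 = 1) {z : ZMod r} (hz : IsUnit z) :
    ψ z = 1 ∨ ψ z = -1 := by
  have h : (ψ ^ 2) z = 1 := by
    rw [hψ2]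
    exact MulChar.one_apply hz
  rw [MulChar.pow_apply' _ (by norm_num)] at h
  exact XRC_sq h

theorem XRC_plus_act {u : ZMod L} (hrL : r ∣ L) {ψ : DirichletCharacter ℂ r} (hψ2 : ψ ^ 2 = 1)
    (hu : ψ (u.cast : ZMod r) = -1) (S : Finset (Fin k)) (b : Fin k → ZMod L)
    (hb : b ∈ XRC_T k L r) : XRC_plus ψ (XRC_act u S b) = symmDiff (XRC_plus ψ b) S := by
  ext i
  unfold XRC_T at hb
  rw [mem_filter] at hb
  have h1 := XRC_sign hψ2 (hb.2.1 i)
  rw [mem_symmDiff]
  unfold XRC_plus
  rw [mem_filter, mem_filter]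
  simp only [mem_univ, true_and]
  rw [XRC_act_cast hrL]
  by_cases hi : i ∈ S
  · rw [if_pos hi, map_mul, hu]
    rcases h1 with h1 | h1
    · rw [h1]
      simp [hi]
      norm_num
    · rw [h1]
      simp [hi]
      norm_num
  · rw [if_neg hi]
    simp [hi]

/-- the number of subsets of `Fin k` with fewer than `k/8` elements -/
theorem XRC_small_sets (k : ℕ) :
    ((univ : Finset (Finset (Fin k))).filter (fun S => 8 * S.card < k)).card =
      ∑ j ∈ (range (k + 1)).filter (fun j => 8 * j < k), k.choose j := by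
  have hmaps : ∀ S ∈ (univ : Finset (Finset (Fin k))).filter (fun S => 8 * S.card < k),
      S.card ∈ (range (k + 1)).filter (fun j => 8 * j < k) := by
    intro S hS
    rw [mem_filter] at hS
    rw [mem_filter, mem_range]
    exact ⟨by omega, hS.2⟩
  rw [card_eq_sum_card_fiberwise hmaps]
  refine sum_congr rfl (fun j hj => ?_)
  rw [mem_filter] at hj
  have h1 : ((univ : Finset (Finset (Fin k))).filter (fun S => 8 * S.card < k)).filter
      (fun S => S.card = j) = powersetCard j univ := by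
    ext S
    rw [mem_filter, mem_filter, mem_powersetCard]
    constructor
    · rintro ⟨_, h⟩
      exact ⟨subset_univ _, h⟩
    · rintro ⟨_, h⟩
      refine ⟨⟨mem_univ _, ?_⟩, h⟩
      rw [h]
      exact hj.2
  rw [h1, card_powersetCard, card_univ, Fintype.card_fin]

/-- the sign vectors are equidistributed -/
theorem XRC_equi {u : ZMod L} (hrL : r ∣ L) {ψ : DirichletCharacter ℂ r} (hψ2 : ψ ^ 2 = 1)
    (hpL : ∀ p : ℕ, p.Prime → p ≤ k → ¬ p ∣ r → p ∣ L) (huu : IsUnit u)
    (hur : IsUnit (u.cast : ZMod r))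
    (hup : ∀ p : ℕ, p.Prime → p ≤ k → ¬ p ∣ r → (u.cast : ZMod p) = 1)
    (hu : ψ (u.cast : ZMod r) = -1) :
    2 ^ k * ((XRC_T k L r).filter (fun b => 8 * (XRC_plus ψ b).card < k)).card =
      (XRC_T k L r).card * ∑ j ∈ (range (k + 1)).filter (fun j => 8 * j < k), k.choose j := by
  have h1 : ∀ S : Finset (Fin k),
      ((XRC_T k L r).filter (fun b => 8 * (XRC_plus ψ b).card < k)).card =
      ((XRC_T k L r).filter (fun b => 8 * (symmDiff (XRC_plus ψ b) S).card < k)).card := by
    intro S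
    symm
    refine Finset.card_bijective (XRC_act u S) (XRC_act_bij huu S) (fun b => ?_)
    rw [mem_filter, mem_filter, ← XRC_act_mem hrL hpL hur hup S b]
    constructor
    · rintro ⟨h2, h3⟩
      refine ⟨h2, ?_⟩
      rw [XRC_plus_act hrL hψ2 hu S b h2]
      exact h3
    · rintro ⟨h2, h3⟩
      refine ⟨h2, ?_⟩
      rw [XRC_plus_act hrL hψ2 hu S b h2] at h3
      exact h3
  have h2 : ∑ S : Finset (Fin k),
      ((XRC_T k L r).filter (fun b => 8 * (symmDiff (XRC_plus ψ b) S).card < k)).card =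
      ∑ b ∈ XRC_T k L r, ((univ : Finset (Finset (Fin k))).filter (fun S =>
        8 * (symmDiff (XRC_plus ψ b) S).card < k)).card := by
    simp only [card_filter]
    rw [sum_comm]
  have h3 : ∀ b ∈ XRC_T k L r, ((univ : Finset (Finset (Fin k))).filter (fun S =>
        8 * (symmDiff (XRC_plus ψ b) S).card < k)).card =
        ((univ : Finset (Finset (Fin k))).filter (fun S => 8 * S.card < k)).card := by
    intro b _
    refine Finset.card_bijective (fun S => symmDiff (XRC_plus ψ b) S) ?_ (fun S => ?_)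
    · exact (symmDiff_right_involutive _).bijective
    · rw [mem_filter, mem_filter]
      simp only [mem_univ, true_and]
  rw [sum_congr rfl h3, sum_const, smul_eq_mul, XRC_small_sets] at h2
  rw [← h2, ← sum_congr rfl (fun S _ => h1 S), sum_const, smul_eq_mul, card_univ,
    Fintype.card_finset, Fintype.card_fin]

/-- a unit with sign `-1`, trivial at the other small primes -/
theorem XRC_exists_unit [NeZero r] (ψ : DirichletCharacter ℂ r) (hψ : ψ ≠ 1) (hψ2 : ψ ^ 2 = 1)
    (hL : r * (∏ p ∈ (range (k + 1)).filter (fun p => p.Prime ∧ ¬ p ∣ r), p) ∣ L) :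
    ∃ u : ZMod L, IsUnit u ∧ IsUnit (u.cast : ZMod r) ∧
      (∀ p : ℕ, p.Prime → p ≤ k → ¬ p ∣ r → (u.cast : ZMod p) = 1) ∧
      ψ (u.cast : ZMod r) = -1 := by
  obtain ⟨u0, hu0⟩ : ∃ u0 : (ZMod r)ˣ, ψ u0 ≠ 1 := by
    by_contra h
    push Not at h
    exact hψ (MulChar.ext fun a => by rw [h a, MulChar.one_apply_coe])
  have h1 : ψ u0 = -1 := by
    rcases XRC_sign hψ2 u0.isUnit with h | h
    · exact absurd h hu0
    · exact h
  set P := ∏ p ∈ (range (k + 1)).filter (fun p => p.Prime ∧ ¬ p ∣ r), p with hP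
  have hcop : Nat.Coprime r P := by
    refine Nat.Coprime.prod_right (fun p hp => ?_)
    rw [mem_filter] at hp
    exact ((Nat.Prime.coprime_iff_not_dvd hp.2.1).2 hp.2.2).symm
  obtain ⟨x, hx1, hx2⟩ := Nat.chineseRemainder hcop (u0 : ZMod r).val 1
  have hxr : (x : ZMod r) = u0 := by
    rw [(ZMod.natCast_eq_natCast_iff _ _ _).2 hx1, ZMod.natCast_val, ZMod.cast_id]
  have hxc : Nat.Coprime x (r * P) := by
    refine Nat.Coprime.mul_right ?_ ?_
    · rw [← ZMod.isUnit_iff_coprime, hxr]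
      exact u0.isUnit
    · have := hx2.gcd_eq
      rw [Nat.gcd_one_left] at this
      exact this
  obtain ⟨u, hu⟩ := ZMod.unitsMap_surjective hL (ZMod.unitOfCoprime x hxc)
  have hu1 : ((u : ZMod L).cast : ZMod (r * P)) = x := by
    have h2 := congrArg (fun w : (ZMod (r * P))ˣ => (w : ZMod (r * P))) hu
    rw [ZMod.coe_unitOfCoprime] at h2
    exact h2
  have hdvd : ∀ q : ℕ, q ∣ r * P → ((u : ZMod L).cast : ZMod q) = x := by
    intro q hq
    have h3 : (ZMod.castHom hq (ZMod q)).comp (ZMod.castHom hL (ZMod (r * P))) =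
        ZMod.castHom (hq.trans hL) (ZMod q) := Subsingleton.elim _ _
    have h4 := congrArg (fun g => g (u : ZMod L)) h3
    simp only [RingHom.comp_apply, ZMod.castHom_apply] at h4
    rw [← h4, hu1]
    exact ZMod.cast_natCast hq x
  refine ⟨u, u.isUnit, ?_, ?_, ?_⟩
  · rw [hdvd r (dvd_mul_right _ _), hxr]
    exact u0.isUnit
  · intro p hp hpk hpr
    have hpP : p ∣ P := dvd_prod_of_mem _ (mem_filter.2 ⟨mem_range.2 (by omega), hp, hpr⟩)
    rw [hdvd p (hpP.mul_left _)]
    have h5 := hx2.of_dvd hpP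
    have h6 := (ZMod.natCast_eq_natCast_iff x 1 p).2 h5
    rw [h6, Nat.cast_one]
  · rw [hdvd r (dvd_mul_right _ _), hxr, h1]

theorem XRC_large_prime {p : ℕ} (hp : p.Prime) (hkp : k < p) (f : Fin k → ℕ) :
    ∃ z : ZMod p, ∀ a ∈ univ.image f, (a : ZMod p) ≠ z := by
  have : NeZero p := ⟨hp.ne_zero⟩
  have hcard : ((univ.image f).image (fun y : ℕ => (y : ZMod p))).card <
      Fintype.card (ZMod p) := by
    rw [ZMod.card]
    refine lt_of_le_of_lt card_image_le (lt_of_le_of_lt card_image_le ?_)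
    simpa using hkp
  obtain ⟨z, hz⟩ := exists_mem_notMem_of_card_lt_card (s := (univ.image f).image
    (fun y : ℕ => (y : ZMod p))) (t := univ) (by rw [card_univ]; exact hcard)
  refine ⟨z, fun y hy h => hz.2 ?_⟩
  rw [← h]
  exact mem_image_of_mem _ hy

theorem XRC_cast_val {q : ℕ} (z : ZMod L) : (z.cast : ZMod q) = ((z.val : ℕ) : ZMod q) := by
  rw [ZMod.natCast_val]

/-- injective tuples of `T` give admissible sets -/
theorem XRC_inj (H : ℕ) (hLH : L ≤ H + 1) :
    ((XRC_T k L r).filter (fun b => Function.Injective b)).card ≤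
      k.factorial * (((range (H + 1)).powersetCard k).filter (fun A => Admissible A)).card := by
  rw [← SETS_tuples k H]
  refine card_le_card_of_injOn (fun b i => (b i).val) ?_ ?_
  · intro b hb
    rw [mem_coe, mem_filter] at hb
    obtain ⟨hb, hinj⟩ := hb
    unfold XRC_T at hb
    rw [mem_filter] at hb
    obtain ⟨-, hb1, hb2⟩ := hb
    rw [mem_coe, mem_filter]
    refine ⟨?_, ?_, ?_⟩
    · unfold SETS_Om
      rw [Fintype.mem_piFinset]
      intro i
      rw [mem_range]
      exact lt_of_lt_of_le (ZMod.val_lt _) hLH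
    · intro i j h
      exact hinj (ZMod.val_injective _ h)
    · intro p hp
      by_cases hpr : p ∣ r
      · refine ⟨0, fun y hy => ?_⟩
        rw [mem_image] at hy
        obtain ⟨i, -, rfl⟩ := hy
        intro h
        have h1 := hb1 i
        rw [XRC_cast_val, ZMod.isUnit_iff_coprime] at h1
        have h2 := (ZMod.natCast_eq_zero_iff _ _).1 h
        have h3 := Nat.dvd_gcd h2 hpr
        rw [h1] at h3
        exact hp.one_lt.ne' (Nat.dvd_one.mp h3)
      · by_cases hpk : p ≤ k
        · obtain ⟨c, hc⟩ := hb2 p hp hpk hpr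
          refine ⟨c, fun y hy => ?_⟩
          rw [mem_image] at hy
          obtain ⟨i, -, rfl⟩ := hy
          rw [← XRC_cast_val]
          exact hc i
        · exact XRC_large_prime hp (by omega) _
  · intro b _ b' _ h
    funext i
    exact ZMod.val_injective _ (congrFun h i)

theorem XRC_noninj : ((univ : Finset (Fin k → ZMod L)).filter
    (fun b => ¬ Function.Injective b)).card ≤ k ^ 2 * L ^ (k - 1) := by
  have h1 : ∀ i j : Fin k, i ≠ j →
      ((univ : Finset (Fin k → ZMod L)).filter (fun b => b i = b j)).card ≤ L ^ (k - 1) := by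
    intro i j hij
    have h2 : Fintype.card ({x : Fin k // x ≠ j} → ZMod L) = L ^ (k - 1) := by
      rw [Fintype.card_fun, ZMod.card]
      congr 1
      rw [Fintype.card_subtype_compl, Fintype.card_fin]
      simp
    rw [← h2, ← card_univ]
    refine card_le_card_of_injOn (fun b x => b x.1) (fun _ _ => mem_univ _) ?_
    intro b hb b' hb' h
    rw [mem_coe, mem_filter] at hb hb'
    have h3 : ∀ x : Fin k, x ≠ j → b x = b' x := fun x hx => congrFun h ⟨x, hx⟩
    funext x
    by_cases hx : x = j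
    · rw [hx, ← hb.2, ← hb'.2, h3 i hij]
    · exact h3 x hx
  have hsub : (univ : Finset (Fin k → ZMod L)).filter (fun b => ¬ Function.Injective b) ⊆
      ((univ : Finset (Fin k × Fin k)).filter (fun q => q.1 ≠ q.2)).biUnion
        (fun q => (univ : Finset (Fin k → ZMod L)).filter (fun b => b q.1 = b q.2)) := by
    intro b hb
    rw [mem_filter] at hb
    have h4 := hb.2
    unfold Function.Injective at h4
    push Not at h4
    obtain ⟨i, j, h5, h6⟩ := h4
    rw [mem_biUnion]
    exact ⟨(i, j), mem_filter.2 ⟨mem_univ _, h6⟩, mem_filter.2 ⟨mem_univ _, h5⟩⟩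
  refine (card_le_card hsub).trans (card_biUnion_le.trans ?_)
  have h7 : ∀ q ∈ (univ : Finset (Fin k × Fin k)).filter (fun q => q.1 ≠ q.2),
      ((univ : Finset (Fin k → ZMod L)).filter (fun b => b q.1 = b q.2)).card ≤ L ^ (k - 1) := by
    intro q hq
    rw [mem_filter] at hq
    exact h1 _ _ hq.2
  refine (sum_le_sum h7).trans ?_
  rw [sum_const, smul_eq_mul]
  refine Nat.mul_le_mul_right _ ((card_le_univ _).trans ?_)
  rw [Fintype.card_prod, Fintype.card_fin, sq]

theorem XRC_T_le (H : ℕ) (hLH : L ≤ H + 1) :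
    (XRC_T k L r).card ≤
      k.factorial * (((range (H + 1)).powersetCard k).filter (fun A => Admissible A)).card +
        k ^ 2 * L ^ (k - 1) := by
  rw [← card_filter_add_card_filter_not (s := XRC_T k L r) (fun b => Function.Injective b)]
  refine Nat.add_le_add (XRC_inj H hLH) (le_trans (card_le_card ?_) XRC_noninj)
  exact filter_subset_filter _ (subset_univ _)

/-- the bad sets -/
theorem XRC_bad [NeZero r] (H : ℕ) (ψ : DirichletCharacter ℂ r) (hrL : r ∣ L)
    (hpL : ∀ p : ℕ, p.Prime → p ≤ k → ¬ p ∣ r → p ∣ L) :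
    k.factorial * (((range (H + 1)).powersetCard k).filter (XRC_badset ψ k)).card ≤
      k * ((H + 1 - L) * (H + 1) ^ (k - 1)) +
        r * ((XRC_T k L r).filter (fun b => 8 * (XRC_plus ψ b).card < k)).card := by
  rw [← SETS_tuples k H (XRC_badset ψ k)]
  set X : ℕ → Finset (Fin k → ℕ) := fun n => (SETS_Om k H).filter (fun a => (∀ i, a i < L) ∧
    Function.Injective a ∧ Admissible (univ.image a) ∧ (∀ i, Nat.Coprime (n + a i) r) ∧
    8 * (univ.filter (fun i => ψ ((n + a i : ℕ) : ZMod r) = 1)).card < k) with hX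
  have hsub : (SETS_Om k H).filter
      (fun a => Function.Injective a ∧ XRC_badset ψ k (univ.image a)) ⊆
      ((univ : Finset (Fin k)).biUnion (fun i => (SETS_Om k H).filter (fun a => L ≤ a i))) ∪
        (range r).biUnion X := by
    intro a ha
    rw [mem_filter] at ha
    obtain ⟨h1, h2, h3, n, hn, h4, h5⟩ := ha
    rw [mem_union]
    by_cases h6 : ∃ i, L ≤ a i
    · left
      obtain ⟨i, hi⟩ := h6
      rw [mem_biUnion]
      exact ⟨i, mem_univ _, mem_filter.2 ⟨h1, hi⟩⟩
    · right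
      push Not at h6
      rw [mem_biUnion]
      refine ⟨n, mem_range.2 hn, mem_filter.2 ⟨h1, h6, h2, h3, fun i => h4 _ ?_, ?_⟩⟩
      · exact mem_image_of_mem _ (mem_univ _)
      · have h7 : (univ.image a).filter (fun y : ℕ => ψ ((n + y : ℕ) : ZMod r) = 1) =
            (univ.filter (fun i => ψ ((n + a i : ℕ) : ZMod r) = 1)).image a := by
          rw [filter_image]
        rw [h7, card_image_of_injective _ h2] at h5
        exact h5
  refine (card_le_card hsub).trans ((card_union_le _ _).trans (Nat.add_le_add ?_ ?_))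
  · refine card_biUnion_le.trans ((sum_le_sum (fun i _ => SETS_large k H L i)).trans ?_)
    rw [sum_const, smul_eq_mul, card_univ, Fintype.card_fin]
  · refine card_biUnion_le.trans ?_
    have h8 : ∀ n ∈ range r, (X n).card ≤
        ((XRC_T k L r).filter (fun b => 8 * (XRC_plus ψ b).card < k)).card := by
      intro n _
      refine card_le_card_of_injOn (fun a i => ((n + a i : ℕ) : ZMod L)) ?_ ?_
      · intro a ha
        rw [mem_coe, hX, mem_filter] at ha
        obtain ⟨h1, h2, h3, h4, h5, h6⟩ := ha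
        rw [mem_coe, mem_filter]
        have h9 : ∀ i, ((((n + a i : ℕ) : ZMod L)).cast : ZMod r) = ((n + a i : ℕ) : ZMod r) :=
          fun i => ZMod.cast_natCast hrL _
        refine ⟨?_, ?_⟩
        · unfold XRC_T
          rw [mem_filter]
          refine ⟨mem_univ _, fun i => ?_, fun p hp hpk hpr => ?_⟩
          · show IsUnit ((((n + a i : ℕ) : ZMod L)).cast : ZMod r)
            rw [h9, ZMod.isUnit_iff_coprime]
            exact h5 i
          · obtain ⟨c, hc⟩ := h4 p hp
            refine ⟨n + c, fun i h => ?_⟩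
            change ((((n + a i : ℕ) : ZMod L)).cast : ZMod p) = n + c at h
            rw [ZMod.cast_natCast (hpL p hp hpk hpr), Nat.cast_add] at h
            exact hc (a i) (mem_image_of_mem _ (mem_univ _)) (add_left_cancel h)
        · unfold XRC_plus
          simp only [h9]
          exact h6
      · intro a ha a' ha' h
        rw [mem_coe, hX, mem_filter] at ha ha'
        funext i
        have h1 := congrFun h i
        simp only at h1
        rw [Nat.cast_add, Nat.cast_add] at h1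
        have h2 := add_left_cancel h1
        rw [ZMod.natCast_eq_natCast_iff] at h2
        exact Nat.ModEq.eq_of_lt_of_lt h2 (ha.2.1 i) (ha'.2.1 i)
    refine (sum_le_sum h8).trans ?_
    rw [sum_const, smul_eq_mul, card_range]

end XRCaux

open scoped Classical in
/-- **Few bad sets.** Let `ψ` be a real character mod `r`, `ψ ≠ 1`. Call `A` bad if for some `n < r`
all `n + a` (`a ∈ A`) are coprime to `r` and fewer than `k/8` of the `a` have `ψ(n + a) = 1`.

Proof. Put `R = r ∏_{p ≤ k, p ∤ r} p`, `H + 1 = M R + ρ`, `ρ < R` (`R ≤ r 4^k`). Count injective tuples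
`a : Fin k → [0, H]` (each set corresponds to `k!` of them). Those with some `a i ≥ M R`: at most
`k R (H+1)^(k-1)` (this is at most `e^(-k/4)/8` times the number of admissible tuples, by `hH` and
`adm_lower`-type counting: there are at least `(3/4)φ(W)^k M'^k` admissible injective tuples...).
For the others fix `n < r` and count all tuples `a ∈ [0, M R)^k` with `n + a i` coprime to `r` for
all `i`, admissible at the primes `p ≤ k`, `p ∤ r` (some class mod `p` avoided): by the Chinese
remainder theorem `a i mod r` and `a i mod R/r` are independent, so the sign vectors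
`(ψ(n + a i))_i` are equidistributed in `{±1}^k` (`half_plus`): the number of such tuples with
fewer than `k/8` plus signs is `2^(-k) ∑_{8j<k} C(k,j) ≤ e^(-k/4)` times the number `N_n` of such
tuples. Such tuples are admissible (at the primes `p ∣ r` the class `-n` is avoided, at `p > k` the
injective ones avoid some class), and the non-injective ones are at most `k² (M R)^(k-1)` in number.
Summing over `n < r`: `#bad ≤ 2 r e^(-k/4) #admissible`. -/
theorem few_bad (H k r : ℕ) [NeZero r] (ψ : DirichletCharacter ℂ r) (hψ : ψ ≠ 1)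
    (hψ2 : ψ ^ 2 = 1) (hk : 2 ≤ k)
    (hH : (100 * k ^ 2 * (r * 4 ^ k) : ℝ) * (k : ℝ) ^ k * Real.exp k ≤ H + 1) :
    ((((range (H + 1)).powersetCard k).filter (fun A => Admissible A ∧
      ∃ n < r, (∀ a ∈ A, Nat.Coprime (n + a) r) ∧
        8 * (A.filter (fun a : ℕ => ψ ((n + a : ℕ) : ZMod r) = 1)).card < k)).card : ℝ) ≤
      2 * r * Real.exp (-(k / 4 : ℝ)) *
        ((((range (H + 1)).powersetCard k).filter (fun A => Admissible A)).card : ℝ) := by
  have hr0 : 0 < r := Nat.pos_of_ne_zero (NeZero.ne r)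
  have hr1 : (1 : ℝ) ≤ r := by exact_mod_cast hr0
  have hk1 : (2 : ℝ) ≤ k := by exact_mod_cast hk
  set P := ∏ p ∈ (range (k + 1)).filter (fun p => p.Prime ∧ ¬ p ∣ r), p with hP
  have hPprim : P ∣ primorial k := by
    unfold primorial
    refine prod_dvd_prod_of_subset _ _ _ (fun p hp => ?_)
    rw [mem_filter] at hp ⊢
    exact ⟨hp.1, hp.2.1⟩
  have hPle : P ≤ 4 ^ k := (Nat.le_of_dvd (primorial_pos k) hPprim).trans (primorial_le_four_pow k)
  have hP0 : 0 < P := Nat.pos_of_dvd_of_pos hPprim (primorial_pos k)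
  have hR0 : 0 < r * P := Nat.mul_pos hr0 hP0
  set M := (H + 1) / (r * P) with hM
  set L := r * P * M with hL
  have hLH : L ≤ H + 1 := Nat.mul_div_le _ _
  have hHL : H + 1 - L ≤ r * P := by
    have := Nat.lt_mul_div_succ (H + 1) hR0
    rw [← hM, mul_add, mul_one, ← hL] at this
    omega
  have hL0 : 0 < L := by
    rcases Nat.eq_zero_or_pos L with h | h
    · exfalso
      rw [h, Nat.sub_zero] at hHL
      have h1 : ((H : ℝ) + 1) ≤ r * 4 ^ k := by
        have : ((H + 1 : ℕ) : ℝ) ≤ ((r * 4 ^ k : ℕ) : ℝ) := by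
          exact_mod_cast hHL.trans (Nat.mul_le_mul_left _ hPle)
        push_cast at this
        exact this
      have h2 : (1 : ℝ) ≤ Real.exp k := Real.one_le_exp (by positivity)
      have h3 : (1 : ℝ) ≤ (k : ℝ) ^ k := one_le_pow₀ (by linarith)
      have h4 : (0 : ℝ) < r * 4 ^ k := by positivity
      have h5 : (400 : ℝ) ≤ 100 * (k : ℝ) ^ 2 := by
        have := pow_le_pow_left₀ (by norm_num : (0 : ℝ) ≤ 2) hk1 2
        linarith
      have h6 : 400 * (r * 4 ^ k : ℝ) ≤ (100 * k ^ 2 * (r * 4 ^ k) : ℝ) * (k : ℝ) ^ k * Real.exp k := by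
        have h7 : 400 * (r * 4 ^ k : ℝ) * 1 * 1 ≤
            (100 * k ^ 2 * (r * 4 ^ k) : ℝ) * (k : ℝ) ^ k * Real.exp k := by
          gcongr
        linarith
      linarith
    · exact h
  have : NeZero L := ⟨hL0.ne'⟩
  have hrL : r ∣ L := by
    rw [hL, mul_assoc]
    exact dvd_mul_right _ _
  have hRL : r * P ∣ L := dvd_mul_right _ _
  have hpL : ∀ p : ℕ, p.Prime → p ≤ k → ¬ p ∣ r → p ∣ L := by
    intro p hp hpk hpr
    have hpP : p ∣ P := dvd_prod_of_mem _ (mem_filter.2 ⟨mem_range.2 (by omega), hp, hpr⟩)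
    exact (hpP.mul_left _).trans hRL
  obtain ⟨u, hu1, hu2, hu3, hu4⟩ := XRC_exists_unit (k := k) ψ hψ hψ2 hRL
  have hequi := XRC_equi hrL hψ2 hpL hu1 hu2 hu3 hu4
  have hT := XRC_T_le (k := k) (r := r) H hLH
  have hbad := XRC_bad H ψ hrL hpL (k := k)
  have hch := chernoff k
  have hadm := adm_lower H k (by omega) (by
    have h1 : ((8 * k ^ 2 * primorial k : ℕ) : ℝ) ≤ ((H + 1 : ℕ) : ℝ) := by
      have h2 : (1 : ℝ) ≤ Real.exp k := Real.one_le_exp (by positivity)
      have h3 : (1 : ℝ) ≤ (k : ℝ) ^ k := one_le_pow₀ (by linarith)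
      have h4 : (primorial k : ℝ) ≤ 4 ^ k := by exact_mod_cast primorial_le_four_pow k
      push_cast
      refine le_trans ?_ hH
      calc (8 * k ^ 2 * primorial k : ℝ) ≤ 100 * k ^ 2 * (1 * 4 ^ k) * 1 * 1 := by
            rw [one_mul, mul_one, mul_one]
            have h5 : (0 : ℝ) ≤ (k : ℝ) ^ 2 := by positivity
            have h6 := mul_le_mul_of_nonneg_left h4 h5
            have h7 : (0 : ℝ) ≤ (k : ℝ) ^ 2 * 4 ^ k := by positivity
            linarith
        _ ≤ _ := by gcongr
    exact_mod_cast h1)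
  have hfc : ((range (H + 1)).powersetCard k).filter (fun A => Admissible A ∧
      ∃ n < r, (∀ a ∈ A, Nat.Coprime (n + a) r) ∧
        8 * (A.filter (fun a : ℕ => ψ ((n + a : ℕ) : ZMod r) = 1)).card < k) =
      ((range (H + 1)).powersetCard k).filter (XRC_badset ψ k) :=
    Finset.filter_congr (fun A _ => Iff.rfl)
  rw [hfc]
  set Bad := (((range (H + 1)).powersetCard k).filter (XRC_badset ψ k)).card with hBad
  set Adm := (((range (H + 1)).powersetCard k).filter (fun A => Admissible A)).card with hAdm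
  set T := (XRC_T k L r).card with hTdef
  set B := ((XRC_T k L r).filter (fun b => 8 * (XRC_plus ψ b).card < k)).card with hBdef
  set E := Real.exp (-(k / 4 : ℝ)) with hE
  set N : ℝ := (H : ℝ) + 1 with hN
  have hE0 : 0 < E := Real.exp_pos _
  have hN0 : 0 < N := by positivity
  -- `B ≤ E T`
  have h1 : (B : ℝ) ≤ E * T := by
    have h2 : (2 : ℝ) ^ k * B = T * ((∑ j ∈ (range (k + 1)).filter (fun j => 8 * j < k), k.choose j : ℕ) : ℝ) := by
      exact_mod_cast hequi
    have h3 : (2 : ℝ) ^ k * B ≤ T * (2 ^ k * E) := by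
      rw [h2]
      exact mul_le_mul_of_nonneg_left hch (by positivity)
    have h4 : (0 : ℝ) < 2 ^ k := by positivity
    have h5 : (2 : ℝ) ^ k * B ≤ 2 ^ k * (E * T) := by
      refine h3.trans (le_of_eq ?_)
      ring
    exact le_of_mul_le_mul_left h5 h4
  have hLN : (L : ℝ) ≤ N := by
    have : (L : ℝ) ≤ ((H + 1 : ℕ) : ℝ) := by exact_mod_cast hLH
    rw [Nat.cast_add, Nat.cast_one] at this
    exact this
  have h6 : (T : ℝ) ≤ k.factorial * Adm + k ^ 2 * N ^ (k - 1) := by
    have h7 : (T : ℝ) ≤ k.factorial * Adm + k ^ 2 * (L : ℝ) ^ (k - 1) := by exact_mod_cast hT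
    have h8 : (L : ℝ) ^ (k - 1) ≤ N ^ (k - 1) := pow_le_pow_left₀ (by positivity) hLN _
    have h9 : (k : ℝ) ^ 2 * (L : ℝ) ^ (k - 1) ≤ k ^ 2 * N ^ (k - 1) :=
      mul_le_mul_of_nonneg_left h8 (by positivity)
    linarith
  have h10 : (k.factorial : ℝ) * Bad ≤ k * ((r * 4 ^ k) * N ^ (k - 1)) + r * B := by
    have h11 : (k.factorial : ℝ) * Bad ≤ k * (((H + 1 - L : ℕ) : ℝ) * N ^ (k - 1)) + r * B := by
      rw [hN]
      exact_mod_cast hbad
    have h12 : ((H + 1 - L : ℕ) : ℝ) ≤ r * 4 ^ k := by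
      have := hHL.trans (Nat.mul_le_mul_left r hPle)
      exact_mod_cast this
    have h13 : (k : ℝ) * (((H + 1 - L : ℕ) : ℝ) * N ^ (k - 1)) ≤ k * ((r * 4 ^ k) * N ^ (k - 1)) := by
      gcongr
    linarith
  -- the numerical inequality
  have hNk : N ^ k = N ^ (k - 1) * N := by
    rw [← pow_succ]
    congr 1
    omega
  have hkk0 : (0 : ℝ) < (k : ℝ) ^ k := by positivity
  have hX0 : (0 : ℝ) < N ^ (k - 1) := by positivity
  have hkey : (k : ℝ) * (r * 4 ^ k) + r * (E * k ^ 2) ≤ r * E * (N / (2 * (k : ℝ) ^ k)) := by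
    have hE1 : Real.exp (-(k : ℝ)) ≤ E := Real.exp_le_exp.2 (by
      have : (0 : ℝ) ≤ k := by positivity
      linarith)
    have hE2 : Real.exp (-(k : ℝ)) * Real.exp k = 1 := by
      rw [← Real.exp_add]; simp
    have h14 : E * (100 * k ^ 2 * (r * 4 ^ k)) / 2 * Real.exp k ≤ E * (N / (2 * (k : ℝ) ^ k)) := by
      have h15 : (100 * k ^ 2 * (r * 4 ^ k)) / 2 * Real.exp k ≤ N / (2 * (k : ℝ) ^ k) := by
        rw [le_div_iff₀ (by positivity)]
        calc (100 * (k : ℝ) ^ 2 * (r * 4 ^ k)) / 2 * Real.exp k * (2 * (k : ℝ) ^ k) =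
              (100 * k ^ 2 * (r * 4 ^ k) : ℝ) * (k : ℝ) ^ k * Real.exp k := by ring
          _ ≤ N := hH
      calc E * (100 * k ^ 2 * (r * 4 ^ k)) / 2 * Real.exp k =
            E * ((100 * k ^ 2 * (r * 4 ^ k)) / 2 * Real.exp k) := by ring
        _ ≤ _ := mul_le_mul_of_nonneg_left h15 hE0.le
    have h16 : (1 : ℝ) ≤ E * Real.exp k := by
      rw [← hE2]
      exact mul_le_mul_of_nonneg_right hE1 (Real.exp_pos _).le
    have h4k : (1 : ℝ) ≤ 4 ^ k := one_le_pow₀ (by norm_num)
    have h17 : (k : ℝ) * 4 ^ k + E * k ^ 2 ≤ E * (100 * k ^ 2 * (r * 4 ^ k)) / 2 * Real.exp k := by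
      have hEle : E ≤ 1 := by
        rw [hE]
        exact Real.exp_le_one_iff.2 (by
          have : (0 : ℝ) ≤ k := by positivity
          linarith)
      have h18 : (k : ℝ) * 4 ^ k ≤ k ^ 2 * 4 ^ k := by
        have : (k : ℝ) ≤ (k : ℝ) ^ 2 := le_self_pow₀ (by linarith) (by norm_num)
        gcongr
      have h19 : E * k ^ 2 ≤ k ^ 2 * 4 ^ k := by
        calc E * (k : ℝ) ^ 2 ≤ 1 * (k : ℝ) ^ 2 := by gcongr
          _ = (k : ℝ) ^ 2 * 1 := by ring
          _ ≤ (k : ℝ) ^ 2 * (4 : ℝ) ^ k := by gcongr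
      have h20 : (k : ℝ) ^ 2 * ((1 : ℝ) * (4 : ℝ) ^ k) * (1 : ℝ) ≤
          (k : ℝ) ^ 2 * ((r : ℝ) * (4 : ℝ) ^ k) * (E * Real.exp (k : ℝ)) := by
        gcongr
      have h21 : E * (100 * k ^ 2 * (r * 4 ^ k)) / 2 * Real.exp k =
          50 * (k ^ 2 * (r * 4 ^ k) * (E * Real.exp k)) := by ring
      rw [h21]
      have h22 : (0 : ℝ) ≤ k ^ 2 * 4 ^ k := by positivity
      linarith
    have h23 := h17.trans h14
    have h24 := mul_le_mul_of_nonneg_left h23 (by positivity : (0 : ℝ) ≤ r)
    calc (k : ℝ) * (r * 4 ^ k) + r * (E * k ^ 2) = r * (k * 4 ^ k + E * k ^ 2) := by ring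
      _ ≤ r * (E * (N / (2 * (k : ℝ) ^ k))) := h24
      _ = r * E * (N / (2 * (k : ℝ) ^ k)) := by ring
  have h25 : N ^ k / (2 * (k : ℝ) ^ k) ≤ k.factorial * Adm := by
    rw [div_le_iff₀ (by positivity)]
    refine hadm.trans (le_of_eq ?_)
    ring
  have h26 : (k : ℝ) * ((r * 4 ^ k) * N ^ (k - 1)) + r * (E * (k ^ 2 * N ^ (k - 1))) ≤
      r * E * (k.factorial * Adm) := by
    calc (k : ℝ) * ((r * 4 ^ k) * N ^ (k - 1)) + r * (E * (k ^ 2 * N ^ (k - 1))) =
          N ^ (k - 1) * ((k : ℝ) * (r * 4 ^ k) + r * (E * k ^ 2)) := by ring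
      _ ≤ N ^ (k - 1) * (r * E * (N / (2 * (k : ℝ) ^ k))) :=
          mul_le_mul_of_nonneg_left hkey hX0.le
      _ = r * E * (N ^ k / (2 * (k : ℝ) ^ k)) := by rw [hNk]; ring
      _ ≤ r * E * (k.factorial * Adm) := by gcongr
  have h27 : (k.factorial : ℝ) * Bad ≤ k.factorial * (2 * r * E * Adm) := by
    have h28 : (r : ℝ) * B ≤ r * (E * (k.factorial * Adm + k ^ 2 * N ^ (k - 1))) := by
      refine mul_le_mul_of_nonneg_left (h1.trans ?_) (by positivity)
      exact mul_le_mul_of_nonneg_left h6 hE0.le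
    calc (k.factorial : ℝ) * Bad ≤ k * ((r * 4 ^ k) * N ^ (k - 1)) + r * B := h10
      _ ≤ k * ((r * 4 ^ k) * N ^ (k - 1)) +
          r * (E * (k.factorial * Adm + k ^ 2 * N ^ (k - 1))) := by linarith
      _ = (k * ((r * 4 ^ k) * N ^ (k - 1)) + r * (E * (k ^ 2 * N ^ (k - 1)))) +
          r * E * (k.factorial * Adm) := by ring
      _ ≤ r * E * (k.factorial * Adm) + r * E * (k.factorial * Adm) := by linarith
      _ = k.factorial * (2 * r * E * Adm) := by ring
  exact le_of_mul_le_mul_left h27 (by positivity)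

end Pool.Agent.Lib.H68T
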