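import Mathlib

/-!
# Chunk XRM: sets with many elements in a small set
-/

open Finset

namespace Pool.Agent.Lib.H68T

/-- The number of `k`-subsets `A` of `U` with at least `k/8` elements in `P ⊆ U`:
`∑_{j ≥ k/8} C(|P|,j) C(|U|,k-j) ≤ ∑_j C(k,j) (|P|/|U|)^j |U|^k/k! ≤ 2^k ν^(k/8) |U|^k/k!` for
`|P| ≤ ν |U|`, `ν ≤ 1`. -/
theorem many_plus (U P : Finset ℕ) (hP : P ⊆ U) (k : ℕ) (ν : ℝ) (hν0 : 0 < ν) (hν1 : ν ≤ 1)
    (hν : (P.card : ℝ) ≤ ν * U.card) :
    (((U.powersetCard k).filter (fun A => k ≤ 8 * (A ∩ P).card)).card : ℝ) ≤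
      2 ^ k * ν ^ ((k : ℝ) / 8) * ((U.card : ℝ) ^ k / (k.factorial : ℝ)) := by
  have h1 : ((U.powersetCard k).filter (fun A => k ≤ 8 * (A ∩ P).card)).card ≤
      ∑ j ∈ (range (k + 1)).filter (fun j => k ≤ 8 * j),
        P.card.choose j * U.card.choose (k - j) := by
    calc ((U.powersetCard k).filter (fun A => k ≤ 8 * (A ∩ P).card)).card
        ≤ (((range (k + 1)).filter (fun j => k ≤ 8 * j)).biUnion (fun j =>
            (P.powersetCard j ×ˢ U.powersetCard (k - j)).image (fun q => q.1 ∪ q.2))).card := by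
          apply Finset.card_le_card
          intro A hA
          rw [Finset.mem_filter, Finset.mem_powersetCard] at hA
          obtain ⟨⟨hAU, hAk⟩, hk⟩ := hA
          have hle : (A ∩ P).card ≤ A.card := Finset.card_le_card Finset.inter_subset_left
          rw [Finset.mem_biUnion]
          refine ⟨(A ∩ P).card, ?_, ?_⟩
          · rw [Finset.mem_filter, Finset.mem_range]
            exact ⟨by omega, hk⟩
          · rw [Finset.mem_image]
            refine ⟨(A ∩ P, A \ P), ?_, ?_⟩
            · rw [Finset.mem_product, Finset.mem_powersetCard, Finset.mem_powersetCard]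
              refine ⟨⟨Finset.inter_subset_right, rfl⟩,
                ⟨Finset.sdiff_subset.trans hAU, ?_⟩⟩
              have := Finset.card_inter_add_card_sdiff A P
              change (A \ P).card = k - (A ∩ P).card
              omega
            · ext x
              simp only [Finset.mem_union, Finset.mem_inter, Finset.mem_sdiff]
              tauto
      _ ≤ ∑ j ∈ (range (k + 1)).filter (fun j => k ≤ 8 * j),
            ((P.powersetCard j ×ˢ U.powersetCard (k - j)).image (fun q => q.1 ∪ q.2)).card :=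
          Finset.card_biUnion_le
      _ ≤ ∑ j ∈ (range (k + 1)).filter (fun j => k ≤ 8 * j),
            P.card.choose j * U.card.choose (k - j) := by
          apply Finset.sum_le_sum
          intro j _
          refine Finset.card_image_le.trans ?_
          rw [Finset.card_product, Finset.card_powersetCard, Finset.card_powersetCard]
  have h2 : ∀ j ∈ (range (k + 1)).filter (fun j => k ≤ 8 * j),
      ((P.card.choose j : ℝ) * (U.card.choose (k - j) : ℝ)) ≤
        (k.choose j : ℝ) * (ν ^ ((k : ℝ) / 8) * ((U.card : ℝ) ^ k / (k.factorial : ℝ))) := by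
    intro j hj
    rw [Finset.mem_filter, Finset.mem_range] at hj
    have hjk : j ≤ k := by omega
    have hkj : (k : ℝ) / 8 ≤ j := by
      have : (k : ℝ) ≤ 8 * j := by exact_mod_cast hj.2
      linarith
    have h3 : (P.card.choose j : ℝ) ≤ (P.card : ℝ) ^ j / (j.factorial : ℝ) :=
      Nat.choose_le_pow_div j P.card
    have h4 : (U.card.choose (k - j) : ℝ) ≤ (U.card : ℝ) ^ (k - j) / ((k - j).factorial : ℝ) :=
      Nat.choose_le_pow_div (k - j) U.card
    have h5 : (P.card : ℝ) ^ j ≤ (ν * U.card) ^ j :=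
      pow_le_pow_left₀ (Nat.cast_nonneg _) hν j
    have h6 : ν ^ j ≤ ν ^ ((k : ℝ) / 8) := by
      rw [← Real.rpow_natCast]
      exact Real.rpow_le_rpow_of_exponent_ge hν0 hν1 hkj
    have h7 : (k.choose j : ℝ) * (j.factorial : ℝ) * ((k - j).factorial : ℝ) =
        (k.factorial : ℝ) := by
      exact_mod_cast Nat.choose_mul_factorial_mul_factorial hjk
    have hj0 : (0 : ℝ) < (j.factorial : ℝ) := by exact_mod_cast Nat.factorial_pos j
    have hkj0 : (0 : ℝ) < ((k - j).factorial : ℝ) := by exact_mod_cast Nat.factorial_pos (k - j)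
    have hk0 : (0 : ℝ) < (k.factorial : ℝ) := by exact_mod_cast Nat.factorial_pos k
    calc (P.card.choose j : ℝ) * (U.card.choose (k - j) : ℝ)
        ≤ ((P.card : ℝ) ^ j / (j.factorial : ℝ)) *
            ((U.card : ℝ) ^ (k - j) / ((k - j).factorial : ℝ)) :=
          mul_le_mul h3 h4 (Nat.cast_nonneg _) (by positivity)
      _ ≤ ((ν * U.card) ^ j / (j.factorial : ℝ)) *
            ((U.card : ℝ) ^ (k - j) / ((k - j).factorial : ℝ)) := by
          apply mul_le_mul_of_nonneg_right _ (by positivity)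
          exact div_le_div_of_nonneg_right h5 hj0.le
      _ = (k.choose j : ℝ) * (ν ^ j * ((U.card : ℝ) ^ k / (k.factorial : ℝ))) := by
          have h8 : (U.card : ℝ) ^ k = (U.card : ℝ) ^ j * (U.card : ℝ) ^ (k - j) := by
            rw [← pow_add]
            congr 1
            omega
          rw [h8, ← h7, mul_pow]
          have hc0 : (0 : ℝ) < (k.choose j : ℝ) := by
            exact_mod_cast Nat.choose_pos hjk
          field_simp
      _ ≤ (k.choose j : ℝ) * (ν ^ ((k : ℝ) / 8) * ((U.card : ℝ) ^ k / (k.factorial : ℝ))) := by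
          apply mul_le_mul_of_nonneg_left _ (Nat.cast_nonneg _)
          exact mul_le_mul_of_nonneg_right h6 (by positivity)
  have h1' : (((U.powersetCard k).filter (fun A => k ≤ 8 * (A ∩ P).card)).card : ℝ) ≤
      ∑ j ∈ (range (k + 1)).filter (fun j => k ≤ 8 * j),
        ((P.card.choose j : ℝ) * (U.card.choose (k - j) : ℝ)) := by
    exact_mod_cast h1
  refine h1'.trans ((Finset.sum_le_sum h2).trans ?_)
  rw [← Finset.sum_mul, mul_assoc]
  apply mul_le_mul_of_nonneg_right _ (by positivity)
  calc ∑ j ∈ (range (k + 1)).filter (fun j => k ≤ 8 * j), (k.choose j : ℝ)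
      ≤ ∑ j ∈ range (k + 1), (k.choose j : ℝ) := by
        apply Finset.sum_le_sum_of_subset_of_nonneg (Finset.filter_subset _ _)
        intro j _ _
        positivity
    _ = 2 ^ k := by exact_mod_cast Nat.sum_range_choose k

/-- The number of `k`-subsets of `U` meeting `P`: at most `|P| |U|^(k-1)/(k-1)! `. -/
theorem meet_small (U P : Finset ℕ) (hP : P ⊆ U) (k : ℕ) (hk : 1 ≤ k) :
    (((U.powersetCard k).filter (fun A => (A ∩ P).Nonempty)).card : ℝ) * U.card ≤
      k * P.card * ((U.card : ℝ) ^ k / (k.factorial : ℝ)) := by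
  have h1 : ((U.powersetCard k).filter (fun A => (A ∩ P).Nonempty)).card ≤
      P.card * (U.card - 1).choose (k - 1) := by
    calc ((U.powersetCard k).filter (fun A => (A ∩ P).Nonempty)).card
        ≤ (P.biUnion (fun p => ((U.erase p).powersetCard (k - 1)).image (insert p))).card := by
          apply Finset.card_le_card
          intro A hA
          rw [Finset.mem_filter, Finset.mem_powersetCard] at hA
          obtain ⟨⟨hAU, hAk⟩, p, hp⟩ := hA
          rw [Finset.mem_inter] at hp
          rw [Finset.mem_biUnion]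
          refine ⟨p, hp.2, ?_⟩
          rw [Finset.mem_image]
          refine ⟨A.erase p, ?_, Finset.insert_erase hp.1⟩
          rw [Finset.mem_powersetCard, Finset.card_erase_of_mem hp.1, hAk]
          exact ⟨Finset.erase_subset_erase p hAU, rfl⟩
      _ ≤ ∑ p ∈ P, (((U.erase p).powersetCard (k - 1)).image (insert p)).card :=
          Finset.card_biUnion_le
      _ ≤ ∑ _p ∈ P, (U.card - 1).choose (k - 1) := by
          apply Finset.sum_le_sum
          intro p hp
          refine Finset.card_image_le.trans ?_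
          rw [Finset.card_powersetCard, Finset.card_erase_of_mem (hP hp)]
      _ = P.card * (U.card - 1).choose (k - 1) := by rw [Finset.sum_const, smul_eq_mul]
  rcases Nat.eq_zero_or_pos U.card with hU | hU
  · rw [hU, Nat.cast_zero, mul_zero]
    positivity
  obtain ⟨u, hu⟩ : ∃ u, U.card = u + 1 := ⟨U.card - 1, by omega⟩
  obtain ⟨m, rfl⟩ : ∃ m, k = m + 1 := ⟨k - 1, by omega⟩
  have h2 := Nat.add_one_mul_choose_eq u m
  have h3 : ((u + 1).choose (m + 1) : ℝ) ≤ ((u + 1 : ℕ) : ℝ) ^ (m + 1) / ((m + 1).factorial : ℝ) :=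
    Nat.choose_le_pow_div (m + 1) (u + 1)
  have h1' : (((U.powersetCard (m + 1)).filter (fun A => (A ∩ P).Nonempty)).card : ℝ) ≤
      (P.card : ℝ) * (u.choose m : ℝ) := by
    have h4 : U.card - 1 = u := by omega
    rw [h4, Nat.add_sub_cancel] at h1
    exact_mod_cast h1
  have h2' : ((u + 1 : ℕ) : ℝ) * (u.choose m : ℝ) =
      ((u + 1).choose (m + 1) : ℝ) * ((m + 1 : ℕ) : ℝ) := by
    exact_mod_cast h2
  rw [hu]
  calc (((U.powersetCard (m + 1)).filter (fun A => (A ∩ P).Nonempty)).card : ℝ)
        * ((u + 1 : ℕ) : ℝ)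
      ≤ (P.card : ℝ) * (u.choose m : ℝ) * ((u + 1 : ℕ) : ℝ) :=
        mul_le_mul_of_nonneg_right h1' (Nat.cast_nonneg _)
    _ = (P.card : ℝ) * (((u + 1 : ℕ) : ℝ) * (u.choose m : ℝ)) := by ring
    _ = ((m + 1 : ℕ) : ℝ) * (P.card : ℝ) * ((u + 1).choose (m + 1) : ℝ) := by
        rw [h2']
        ring
    _ ≤ ((m + 1 : ℕ) : ℝ) * (P.card : ℝ) *
          (((u + 1 : ℕ) : ℝ) ^ (m + 1) / ((m + 1).factorial : ℝ)) :=
        mul_le_mul_of_nonneg_left h3 (by positivity)

end Pool.Agent.Lib.H68T
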