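import Pool.Agent.Lib.H68X.XRH

/-!
# Chunk XRP: few primes with `ψ(p) = 1` in short intervals
-/

open Finset

namespace Pool.Agent.Lib.H68T

open scoped ComplexOrder in
theorem XRP_nonneg (r : ℕ) (ψ : DirichletCharacter ℂ r) (hψ2 : ψ ^ 2 = 1) (m : ℕ) :
    0 ≤ (∑ d ∈ m.divisors, ψ (d : ZMod r)).re := by
  have h := DirichletCharacter.zetaMul_nonneg hψ2 m
  have h1 : ψ.zetaMul m = ∑ d ∈ m.divisors, ψ (d : ZMod r) := by
    unfold DirichletCharacter.zetaMul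
    rw [ArithmeticFunction.coe_zeta_mul_apply]
    apply sum_congr rfl
    intro d hd
    have hd0 : d ≠ 0 := (Nat.pos_of_mem_divisors hd).ne'
    simp [toArithmeticFunction, hd0]
  rw [h1] at h
  exact (Complex.le_def.mp h).1

theorem XRP_prime (r : ℕ) (ψ : DirichletCharacter ℂ r) (p : ℕ) (hp : p.Prime)
    (h : ψ (p : ZMod r) = 1) :
    (∑ d ∈ p.divisors, ψ (d : ZMod r)).re = 2 := by
  rw [Nat.Prime.sum_divisors hp, h]
  simp
  norm_num

/-- For a real character `∑_{d ∣ m} ψ(d) ≥ 0`, and it is `2` at primes with `ψ(p) = 1`; subtract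
`hyperbola` at `y = n + H` and `y = n - 1`. -/
theorem plus_primes (r : ℕ) [NeZero r] (ψ : DirichletCharacter ℂ r) (hψ : ψ ≠ 1)
    (hψ2 : ψ ^ 2 = 1) (n H : ℕ) (hn : 1 ≤ n) :
    (((Icc n (n + H)).filter (fun p : ℕ => p.Prime ∧ ψ (p : ZMod r) = 1)).card : ℝ) ≤
      (H + 1) * ‖ψ.LFunction 1‖ + 8 * r * Real.sqrt (n + H : ℕ) := by
  set f : ℕ → ℂ := fun m => ∑ d ∈ m.divisors, ψ (d : ZMod r) with hf
  set L := ψ.LFunction 1 with hL
  set S := (Icc n (n + H)).filter (fun p : ℕ => p.Prime ∧ ψ (p : ZMod r) = 1) with hS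
  have h1 := hyperbola r ψ hψ (n + H)
  have h2 := hyperbola r ψ hψ (n - 1)
  have hsplit : (∑ m ∈ Icc 1 (n + H), f m) = (∑ m ∈ Icc 1 (n - 1), f m) +
      ∑ m ∈ Icc n (n + H), f m := by
    rw [← Finset.sum_union]
    · apply Finset.sum_congr _ fun _ _ => rfl
      ext m
      simp only [mem_union, mem_Icc]
      omega
    · rw [Finset.disjoint_left]
      intro m
      simp only [mem_Icc]
      omega
  have h3 : (2 : ℝ) * S.card ≤ (∑ m ∈ Icc n (n + H), f m).re := by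
    rw [Complex.re_sum]
    calc (2 : ℝ) * S.card = ∑ m ∈ S, (f m).re := by
          rw [Finset.sum_congr rfl (g := fun _ => (2 : ℝ))]
          · rw [sum_const, nsmul_eq_mul, mul_comm]
          · intro m hm
            rw [hS, mem_filter] at hm
            exact XRP_prime r ψ m hm.2.1 hm.2.2
      _ ≤ ∑ m ∈ Icc n (n + H), (f m).re :=
          sum_le_sum_of_subset_of_nonneg (filter_subset _ _) fun m _ _ => XRP_nonneg r ψ hψ2 m
  have h4 : (∑ m ∈ Icc n (n + H), f m).re ≤ ‖∑ m ∈ Icc n (n + H), f m‖ :=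
    (le_abs_self _).trans (Complex.abs_re_le_norm _)
  have h5 : (∑ m ∈ Icc n (n + H), f m) =
      ((∑ m ∈ Icc 1 (n + H), f m) - ((n + H : ℕ) : ℂ) * L) -
        ((∑ m ∈ Icc 1 (n - 1), f m) - ((n - 1 : ℕ) : ℂ) * L) + ((H : ℂ) + 1) * L := by
    rw [hsplit, Nat.cast_sub hn]
    push_cast
    ring
  have h6 : ‖∑ m ∈ Icc n (n + H), f m‖ ≤ 4 * r * Real.sqrt (n + H : ℕ) +
      4 * r * Real.sqrt (n - 1 : ℕ) + (H + 1) * ‖L‖ := by
    rw [h5]
    refine (norm_add_le _ _).trans (add_le_add ((norm_sub_le _ _).trans (add_le_add h1 h2)) ?_)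
    rw [norm_mul]
    apply mul_le_mul_of_nonneg_right _ (norm_nonneg _)
    have : ((H : ℂ) + 1) = ((H + 1 : ℕ) : ℂ) := by push_cast; ring
    rw [this, Complex.norm_natCast]
    push_cast
    exact le_rfl
  have h7 : Real.sqrt (n - 1 : ℕ) ≤ Real.sqrt (n + H : ℕ) := by
    apply Real.sqrt_le_sqrt
    exact Nat.cast_le.mpr (by omega)
  have h8 : 4 * (r : ℝ) * Real.sqrt (n - 1 : ℕ) ≤ 4 * r * Real.sqrt (n + H : ℕ) :=
    mul_le_mul_of_nonneg_left h7 (by positivity)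
  have h9 : (0 : ℝ) ≤ (S.card : ℝ) := Nat.cast_nonneg _
  linarith

end Pool.Agent.Lib.H68T
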