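import Pool.Agent.Lib.H68X.XDefs
import Pool.Agent.Lib.H68X.XRL
import Pool.Agent.Lib.H68X.XRP
import Pool.Agent.Lib.H68X.XRN
import Pool.Agent.Lib.H68X.XRM
import Pool.Agent.Lib.H68X.XRC
import Pool.Agent.Lib.H68T.FINP

/-!
# Chunk XRB: the almost-all statement forbids strong exceptional zeros
-/

open Finset

namespace Pool.Agent.Lib.H68T

/-! ## The counting argument -/

open scoped Classical in
/-- the set of good positions for `n` -/
noncomputable def XRB_P (r : ℕ) (ψ : DirichletCharacter ℂ r) (H n : ℕ) : Finset ℕ :=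
  (range (H + 1)).filter (fun a : ℕ => (n + a).Prime ∧ ψ ((n + a : ℕ) : ZMod r) = 1)

open scoped Classical in
theorem XRB_count (r : ℕ) [NeZero r] (ψ : DirichletCharacter ℂ r) (hψ : ψ ≠ 1)
    (hψ2 : ψ ^ 2 = 1) (k H : ℕ) (x ν : ℝ) (hk : 2 ≤ k) (hx : 0 ≤ x)
    (hH : (100 * k ^ 2 * (r * 4 ^ k) : ℝ) * (k : ℝ) ^ k * Real.exp k ≤ H + 1)
    (hν0 : 0 < ν) (hν1 : ν ≤ 1)
    (hP : ∀ n : ℕ, 1 ≤ n → (n : ℝ) ≤ x → ((XRB_P r ψ H n).card : ℝ) ≤ ν * (H + 1))
    (hr : (r : ℝ) * Real.exp (-(k / 4 : ℝ)) ≤ Real.exp (-3))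
    (hsum : x * (2 ^ (k + 1) * (k : ℝ) ^ k * ν ^ ((k : ℝ) / 8)) ≤ 1 / 8) :
    ((((range (H + 1)).powersetCard k).filter (fun A => Admissible A)).card : ℝ) <
      2 * ((((range (H + 1)).powersetCard k).filter (fun A => Admissible A ∧
        ¬ HasPrimeTranslate x A)).card : ℝ) := by
  set U := range (H + 1) with hU
  set 𝒜 := (U.powersetCard k).filter (fun A => Admissible A) with h𝒜
  set N : ℝ := (𝒜.card : ℝ) with hN
  have hUc : (U.card : ℝ) = H + 1 := by rw [hU, card_range]; push_cast; ring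
  have hr1 : (1 : ℝ) ≤ r := by
    have : 0 < r := Nat.pos_of_ne_zero (NeZero.ne r)
    exact_mod_cast this
  have hk1 : (2 : ℝ) ≤ k := by exact_mod_cast hk
  have hkk : (1 : ℝ) ≤ (k : ℝ) ^ k := one_le_pow₀ (by linarith)
  have h4k : (1 : ℝ) ≤ (4 : ℝ) ^ k := one_le_pow₀ (by norm_num)
  have hek : (1 : ℝ) ≤ Real.exp k := Real.one_le_exp (by linarith)
  have hH1 : (0 : ℝ) < (H : ℝ) + 1 := by positivity
  -- the condition of `adm_lower`
  have hprim : 8 * k ^ 2 * primorial k ≤ H + 1 := by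
    have h1 : primorial k ≤ 4 ^ k := primorial_le_four_pow k
    have h2 : (8 * k ^ 2 * primorial k : ℝ) ≤ H + 1 := by
      refine le_trans ?_ hH
      have h3 : (primorial k : ℝ) ≤ (4 : ℝ) ^ k := by exact_mod_cast h1
      have h4 : (1 : ℝ) ≤ (k : ℝ) ^ k * Real.exp k := one_le_mul_of_one_le_of_one_le hkk hek
      calc (8 * k ^ 2 * primorial k : ℝ) ≤ 8 * k ^ 2 * 4 ^ k := by
            apply mul_le_mul_of_nonneg_left h3 (by positivity)
        _ ≤ 100 * k ^ 2 * (r * 4 ^ k) := by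
            have : (4 : ℝ) ^ k ≤ r * 4 ^ k := le_mul_of_one_le_left (by positivity) hr1
            have h5 : (0 : ℝ) ≤ (k : ℝ) ^ 2 := by positivity
            linarith [mul_le_mul_of_nonneg_left this h5, mul_nonneg h5 (show (0:ℝ) ≤ 4 ^ k by positivity)]
        _ ≤ 100 * k ^ 2 * (r * 4 ^ k) * ((k : ℝ) ^ k * Real.exp k) :=
            le_mul_of_one_le_right (by positivity) h4
        _ = _ := by ring
    exact_mod_cast h2
  have hadm := adm_lower H k (by omega) hprim
  have hNpos : 0 < N := by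
    by_contra hcon
    have h0 : N = 0 := le_antisymm (not_lt.1 hcon) (Nat.cast_nonneg _)
    have h1 : ((((range (H + 1)).powersetCard k).filter (fun A => Admissible A)).card : ℝ) = 0 := h0
    rw [h1, mul_zero] at hadm
    exact absurd hadm (not_le.2 (by positivity))
  have hfac : (0 : ℝ) < (k.factorial : ℝ) := by exact_mod_cast k.factorial_pos
  have hT : ((H : ℝ) + 1) ^ k / (k.factorial : ℝ) ≤ 2 * (k : ℝ) ^ k * N := by
    rw [div_le_iff₀ hfac]
    calc ((H : ℝ) + 1) ^ k ≤ _ := hadm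
      _ = _ := by rw [hN, h𝒜, hU]; ring
  -- the three kinds
  set S1 := (U.powersetCard k).filter (fun A => (A ∩ range (r + 1)).Nonempty) with hS1
  set S2 := (U.powersetCard k).filter (fun A => Admissible A ∧
      ∃ n < r, (∀ a ∈ A, Nat.Coprime (n + a) r) ∧
        8 * (A.filter (fun a : ℕ => ψ ((n + a : ℕ) : ZMod r) = 1)).card < k) with hS2
  set S3 := (Icc 1 ⌊x⌋₊).biUnion (fun n =>
      (U.powersetCard k).filter (fun A => k ≤ 8 * (A ∩ XRB_P r ψ H n).card)) with hS3
  set S := 𝒜.filter (fun A => HasPrimeTranslate x A) with hS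
  have hsub : S ⊆ S1 ∪ S2 ∪ S3 := by
    intro A hA
    obtain ⟨hA1, n, hn1, hnx, hpr⟩ := mem_filter.1 hA
    obtain ⟨hA2, hadmA⟩ := mem_filter.1 hA1
    by_cases h1 : (A ∩ range (r + 1)).Nonempty
    · exact mem_union_left _ (mem_union_left _ (mem_filter.2 ⟨hA2, h1⟩))
    · have hbig : ∀ a ∈ A, r < a := by
        intro a ha
        by_contra hcon
        exact h1 ⟨a, mem_inter.2 ⟨ha, mem_range.2 (by omega)⟩⟩
      have hcop : ∀ a ∈ A, Nat.Coprime (n + a) r := by
        intro a ha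
        rw [Nat.Prime.coprime_iff_not_dvd (hpr a ha)]
        intro hdvd
        have := Nat.le_of_dvd (Nat.pos_of_ne_zero (NeZero.ne r)) hdvd
        have := hbig a ha
        omega
      have hmod : ∀ a : ℕ, ((n % r + a : ℕ) : ZMod r) = ((n + a : ℕ) : ZMod r) := by
        intro a
        push_cast
        rw [ZMod.natCast_mod]
      by_cases h2 : 8 * (A.filter (fun a : ℕ => ψ ((n + a : ℕ) : ZMod r) = 1)).card < k
      · refine mem_union_left _ (mem_union_right _ (mem_filter.2 ⟨hA2, hadmA, n % r,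
          Nat.mod_lt _ (Nat.pos_of_ne_zero (NeZero.ne r)), ?_, ?_⟩))
        · intro a ha
          have h3 := hcop a ha
          rw [← ZMod.isUnit_iff_coprime] at h3 ⊢
          rw [hmod a]
          exact h3
        · have : (A.filter (fun a : ℕ => ψ ((n % r + a : ℕ) : ZMod r) = 1)) =
              (A.filter (fun a : ℕ => ψ ((n + a : ℕ) : ZMod r) = 1)) := by
            apply filter_congr
            intro a _
            rw [hmod a]
          rw [this]
          exact h2
      · refine mem_union_right _ (mem_biUnion.2 ⟨n, mem_Icc.2 ⟨hn1, Nat.le_floor hnx⟩,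
          mem_filter.2 ⟨hA2, ?_⟩⟩)
        have : A.filter (fun a : ℕ => ψ ((n + a : ℕ) : ZMod r) = 1) ⊆ A ∩ XRB_P r ψ H n := by
          intro a ha
          obtain ⟨ha1, ha2⟩ := mem_filter.1 ha
          exact mem_inter.2 ⟨ha1, mem_filter.2 ⟨(mem_powersetCard.1 hA2).1 ha1, hpr a ha1, ha2⟩⟩
        have := card_le_card this
        omega
  -- the counts
  have hc1 : (S1.card : ℝ) ≤ 1 / 8 * N := by
    have hrH : range (r + 1) ⊆ U := by
      rw [hU]
      apply range_subset_range.2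
      have : (r : ℝ) + 1 ≤ H + 1 := by
        refine le_trans ?_ hH
        have h4 : (1 : ℝ) ≤ (k : ℝ) ^ k * Real.exp k := one_le_mul_of_one_le_of_one_le hkk hek
        calc (r : ℝ) + 1 ≤ 100 * k ^ 2 * (r * 4 ^ k) := by
              have h5 : (4 : ℝ) ≤ (k : ℝ) ^ 2 := by
                have := pow_le_pow_left₀ (by norm_num) hk1 2
                norm_num at this
                exact this
              have h6 : (r : ℝ) ≤ r * 4 ^ k := le_mul_of_one_le_right (by linarith) h4k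
              linarith [mul_le_mul h5 h6 (by linarith) (by positivity)]
          _ ≤ 100 * k ^ 2 * (r * 4 ^ k) * ((k : ℝ) ^ k * Real.exp k) :=
              le_mul_of_one_le_right (by positivity) h4
          _ = _ := by ring
      exact_mod_cast this
    have h1 := meet_small U (range (r + 1)) hrH k (by omega)
    rw [hUc, card_range] at h1
    have h2 : (S1.card : ℝ) * (H + 1) ≤ k * (r + 1) * (2 * (k : ℝ) ^ k * N) := by
      refine h1.trans ?_
      push_cast
      exact mul_le_mul_of_nonneg_left hT (by positivity)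
    have h3 : (k : ℝ) * (r + 1) * (2 * (k : ℝ) ^ k * N) ≤ 1 / 8 * N * (H + 1) := by
      have h4 : (k : ℝ) * (r + 1) * (2 * (k : ℝ) ^ k) ≤ 1 / 8 * (H + 1) := by
        have h5 : 16 * (k : ℝ) * (r + 1) * (k : ℝ) ^ k ≤ H + 1 := by
          refine le_trans ?_ hH
          have h6 : 16 * (k : ℝ) * (r + 1) ≤ 100 * k ^ 2 * (r * 4 ^ k) := by
            have h7 : (r : ℝ) ≤ r * 4 ^ k := le_mul_of_one_le_right (by linarith) h4k
            have h8 : (k : ℝ) ≤ (k : ℝ) ^ 2 := by
              rw [sq]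
              exact le_mul_of_one_le_left (by linarith) (by linarith)
            have h10 : (k : ℝ) ≤ k * r := le_mul_of_one_le_right (by linarith) hr1
            have h11 : (0 : ℝ) ≤ k * r := by linarith
            have h9 : (k : ℝ) * r ≤ (k : ℝ) ^ 2 * (r * 4 ^ k) :=
              mul_le_mul h8 h7 (by linarith) (by positivity)
            linarith
          calc 16 * (k : ℝ) * (r + 1) * (k : ℝ) ^ k ≤ 100 * k ^ 2 * (r * 4 ^ k) * (k : ℝ) ^ k :=
                mul_le_mul_of_nonneg_right h6 (by positivity)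
            _ ≤ 100 * k ^ 2 * (r * 4 ^ k) * (k : ℝ) ^ k * Real.exp k :=
                le_mul_of_one_le_right (by positivity) hek
        linarith
      calc (k : ℝ) * (r + 1) * (2 * (k : ℝ) ^ k * N) = (k : ℝ) * (r + 1) * (2 * (k : ℝ) ^ k) * N := by
            ring
        _ ≤ 1 / 8 * (H + 1) * N := mul_le_mul_of_nonneg_right h4 hNpos.le
        _ = _ := by ring
    exact le_of_mul_le_mul_right (h2.trans h3) hH1
  have hc2 : (S2.card : ℝ) ≤ 1 / 8 * N := by
    have h1 := few_bad H k r ψ hψ hψ2 hk hH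
    refine h1.trans ?_
    have h2 : 2 * (r : ℝ) * Real.exp (-(k / 4 : ℝ)) ≤ 1 / 8 := by
      have h3 : Real.exp (-3) ≤ 1 / 16 := by
        rw [Real.exp_neg]
        have h4 : (2.7 : ℝ) < Real.exp 1 := by
          have := Real.exp_one_gt_d9
          linarith
        have h5 : Real.exp 3 = Real.exp 1 ^ 3 := by
          rw [← Real.exp_nat_mul]; norm_num
        have h6 : (16 : ℝ) ≤ Real.exp 3 := by
          rw [h5]
          have : (2.7 : ℝ) ^ 3 ≤ Real.exp 1 ^ 3 := by gcongr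
          norm_num at this
          linarith
        rw [one_div]
        exact inv_anti₀ (by norm_num) h6
      have : 2 * (r : ℝ) * Real.exp (-(k / 4 : ℝ)) = 2 * (r * Real.exp (-(k / 4 : ℝ))) := by ring
      rw [this]
      linarith
    exact mul_le_mul_of_nonneg_right h2 hNpos.le
  have hc3 : (S3.card : ℝ) ≤ 1 / 8 * N := by
    have h1 : (S3.card : ℝ) ≤ ∑ n ∈ Icc 1 ⌊x⌋₊,
        (((U.powersetCard k).filter (fun A => k ≤ 8 * (A ∩ XRB_P r ψ H n).card)).card : ℝ) := by
      have := card_biUnion_le (s := Icc 1 ⌊x⌋₊) (t := fun n =>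
        (U.powersetCard k).filter (fun A => k ≤ 8 * (A ∩ XRB_P r ψ H n).card))
      exact_mod_cast this
    have h2 : ∀ n ∈ Icc 1 ⌊x⌋₊,
        (((U.powersetCard k).filter (fun A => k ≤ 8 * (A ∩ XRB_P r ψ H n).card)).card : ℝ) ≤
          2 ^ k * ν ^ ((k : ℝ) / 8) * (2 * (k : ℝ) ^ k * N) := by
      intro n hn
      obtain ⟨hn1, hn2⟩ := mem_Icc.1 hn
      have hnx : (n : ℝ) ≤ x := (Nat.le_floor_iff hx).1 hn2
      have h3 := many_plus U (XRB_P r ψ H n) (filter_subset _ _) k ν hν0 hν1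
        (by rw [hUc]; exact hP n hn1 hnx)
      refine h3.trans ?_
      rw [hUc]
      exact mul_le_mul_of_nonneg_left hT (by positivity)
    refine h1.trans ((sum_le_sum h2).trans ?_)
    rw [sum_const, Nat.card_Icc, nsmul_eq_mul]
    have h3 : ((⌊x⌋₊ + 1 - 1 : ℕ) : ℝ) ≤ x := by
      rw [Nat.add_sub_cancel]
      exact Nat.floor_le hx
    calc ((⌊x⌋₊ + 1 - 1 : ℕ) : ℝ) * (2 ^ k * ν ^ ((k : ℝ) / 8) * (2 * (k : ℝ) ^ k * N))
        ≤ x * (2 ^ k * ν ^ ((k : ℝ) / 8) * (2 * (k : ℝ) ^ k * N)) :=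
          mul_le_mul_of_nonneg_right h3 (by positivity)
      _ = x * (2 ^ (k + 1) * (k : ℝ) ^ k * ν ^ ((k : ℝ) / 8)) * N := by rw [pow_succ]; ring
      _ ≤ 1 / 8 * N := mul_le_mul_of_nonneg_right hsum hNpos.le
  have hSc : (S.card : ℝ) ≤ 3 / 8 * N := by
    have h1 : S.card ≤ S1.card + S2.card + S3.card :=
      (card_le_card hsub).trans ((card_union_le _ _).trans
        (Nat.add_le_add_right (card_union_le _ _) _))
    have h2 : (S.card : ℝ) ≤ S1.card + S2.card + S3.card := by exact_mod_cast h1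
    linarith
  have hcompl : (𝒜.card : ℝ) = S.card + ((𝒜.filter (fun A => ¬ HasPrimeTranslate x A)).card : ℝ) := by
    have := card_filter_add_card_filter_not (s := 𝒜) (fun A => HasPrimeTranslate x A)
    rw [← this]
    push_cast
    rfl
  have hff : 𝒜.filter (fun A => ¬ HasPrimeTranslate x A) =
      (U.powersetCard k).filter (fun A => Admissible A ∧ ¬ HasPrimeTranslate x A) := by
    rw [h𝒜, filter_filter]
  rw [← hff]
  have : N = S.card + ((𝒜.filter (fun A => ¬ HasPrimeTranslate x A)).card : ℝ) := hcompl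
  linarith

/-! ## The asymptotic inequalities -/

/-- The asymptotic conditions on `u = log r`. -/
structure XRBBig (ε C X0 u : ℝ) : Prop where
  u13 : 13 ≤ u
  b1 : Real.log (4 * C) + 2 * Real.log u ≤ u ^ ε / 2
  b0 : Real.log u ≤ u ^ ε
  b2 : X0 ≤ u ^ (1 + ε) / 16
  b3 : 80 ≤ u ^ (ε / 3)
  b4 : 4 + u + u ^ ε / 2 ≤ u ^ (1 + ε) / 96
  b9 : Real.log (5 * u) + 7 ≤ u ^ ε / 96

open Filter in
theorem XRB_ev (ε C X0 : ℝ) (hε : 0 < ε) : ∀ᶠ u : ℝ in atTop, XRBBig ε C X0 u := by
  have t1 : Tendsto (fun u : ℝ => u ^ ε) atTop atTop := tendsto_rpow_atTop hε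
  have t2 : Tendsto (fun u : ℝ => u ^ (1 + ε)) atTop atTop := tendsto_rpow_atTop (by linarith)
  have t3 : Tendsto (fun u : ℝ => u ^ (ε / 3)) atTop atTop := tendsto_rpow_atTop (by linarith)
  filter_upwards [eventually_ge_atTop (13 : ℝ), t1.eventually (eventually_ge_atTop (4 * |Real.log (4 * C)|)),
    ev_log 8 ε hε, t2.eventually (eventually_ge_atTop (16 * |X0|)),
    t3.eventually (eventually_ge_atTop 80), t2.eventually (eventually_ge_atTop (4 * 288)),
    ev_rpow 288 1 (1 + ε) (by linarith), ev_rpow 288 ε (1 + ε) (by linarith),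
    ev_log 192 ε hε, t1.eventually (eventually_ge_atTop (192 * (Real.log 5 + 7)))] with u h13 h1 h2 h3 h4 h5 h6 h7 h8 h9
  have hu : 0 < u := by linarith
  have hlu : 0 ≤ Real.log u := Real.log_nonneg (by linarith)
  have ha := le_abs_self (Real.log (4 * C))
  have hb := le_abs_self X0
  rw [Real.rpow_one] at h6
  refine ⟨h13, by linarith, by linarith, by linarith, h4, by linarith, ?_⟩
  rw [Real.log_mul (by norm_num) hu.ne']
  linarith

/-- The numbers. -/
theorem XRB_num (ε C X0 u : ℝ) (hε : 0 < ε) (hε1 : ε ≤ 1) (hC : 0 < C) (hB : XRBBig ε C X0 u)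
    (k H : ℕ) (hkdef : k = ⌈4 * u⌉₊ + 12) (x ν δ L1 r : ℝ) (hδ : δ = ε / 3)
    (hx : x = Real.exp (k * u ^ ε / 64)) (hHdef : H = ⌊x ^ (1 - δ)⌋₊) (hν : ν = Real.exp (-(u ^ ε / 2)))
    (hL1 : L1 ≤ C * Real.exp (-(u ^ ε)) * u ^ 2) (hr : r = Real.exp u) :
    X0 ≤ Real.log x ∧ (k : ℝ) ≤ (Real.log x) ^ (1 - δ) ∧
    (100 * k ^ 2 * (r * 4 ^ k) : ℝ) * (k : ℝ) ^ k * Real.exp k ≤ H + 1 ∧
    (H + 1) * L1 + 8 * r * Real.sqrt (x + H) ≤ ν * (H + 1) ∧
    r * Real.exp (-(k / 4 : ℝ)) ≤ Real.exp (-3) ∧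
    x * (2 ^ (k + 1) * (k : ℝ) ^ k * ν ^ ((k : ℝ) / 8)) ≤ 1 / 8 := by
  have hu13 := hB.u13
  have hu : 0 < u := by linarith
  have hueps : 0 < u ^ ε := Real.rpow_pos_of_pos hu ε
  have hk1 : 4 * u + 12 ≤ k := by
    rw [hkdef]; push_cast
    have := Nat.le_ceil (4 * u)
    linarith
  have hk2 : (k : ℝ) ≤ 5 * u := by
    rw [hkdef]; push_cast
    have := Nat.ceil_lt_add_one (show 0 ≤ 4 * u by linarith)
    linarith
  have hkpos : (0 : ℝ) < k := by linarith
  have hlogx : Real.log x = k * u ^ ε / 64 := by rw [hx, Real.log_exp]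
  have hδ0 : 0 < δ := by rw [hδ]; linarith
  have hδ3 : δ ≤ 1 / 3 := by rw [hδ]; linarith
  have hu1e : u ^ (1 + ε) = u * u ^ ε := by
    rw [Real.rpow_add hu, Real.rpow_one]
  have hLlow : u ^ (1 + ε) / 16 ≤ k * u ^ ε / 64 := by
    rw [hu1e]
    have := mul_le_mul_of_nonneg_right (show 4 * u ≤ k by linarith) hueps.le
    linarith
  have hxpos : 0 < x := by rw [hx]; exact Real.exp_pos _
  have hlogpos : 0 < Real.log x := by rw [hlogx]; positivity
  -- logarithm of k
  have hlogk : Real.log k ≤ Real.log (5 * u) := Real.log_le_log hkpos hk2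
  have hlogk0 : 0 ≤ Real.log k := Real.log_nonneg (by linarith)
  have hb9 := hB.b9
  have hHlow : Real.exp ((1 - δ) * (k * u ^ ε / 64)) ≤ (H : ℝ) + 1 := by
    have h1 : x ^ (1 - δ) = Real.exp ((1 - δ) * (k * u ^ ε / 64)) := by
      rw [Real.rpow_def_of_pos hxpos, hlogx]
      ring_nf
    rw [← h1, hHdef]
    exact (Nat.lt_floor_add_one _).le
  have hkk : (k : ℝ) ^ k = Real.exp (k * Real.log k) := by
    rw [← Real.rpow_natCast, Real.rpow_def_of_pos hkpos]
    ring_nf
  refine ⟨hB.b2.trans (hLlow.trans hlogx.ge), ?_, ?_, ?_, ?_, ?_⟩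
  · -- k ≤ (log x)^(1-δ)
    rw [hlogx]
    have h1 : (u ^ (1 + ε) / 16) ^ (1 - δ) ≤ (k * u ^ ε / 64) ^ (1 - δ) :=
      Real.rpow_le_rpow (by positivity) hLlow (by linarith)
    refine le_trans ?_ h1
    rw [Real.div_rpow (by positivity) (by norm_num), ← Real.rpow_mul hu.le]
    have h2 : (16 : ℝ) ^ (1 - δ) ≤ 16 := by
      calc (16 : ℝ) ^ (1 - δ) ≤ 16 ^ (1 : ℝ) :=
            Real.rpow_le_rpow_of_exponent_le (by norm_num) (by linarith)
        _ = 16 := by norm_num
    have h3 : u ^ (1 + ε / 3) ≤ u ^ ((1 + ε) * (1 - δ)) := by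
      apply Real.rpow_le_rpow_of_exponent_le (by linarith)
      rw [hδ]
      have : ε * ε ≤ ε := mul_le_of_le_one_left (by linarith) hε1
      linarith
    have h4 : u ^ (1 + ε / 3) = u * u ^ (ε / 3) := by rw [Real.rpow_add hu, Real.rpow_one]
    rw [le_div_iff₀ (by positivity)]
    have h5 := hB.b3
    calc (k : ℝ) * 16 ^ (1 - δ) ≤ (5 * u) * 16 := mul_le_mul hk2 h2 (by positivity) (by linarith)
      _ = u * 80 := by ring
      _ ≤ u * u ^ (ε / 3) := mul_le_mul_of_nonneg_left h5 hu.le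
      _ ≤ _ := by rw [← h4]; exact h3
  · -- the size of H
    refine le_trans ?_ hHlow
    have h100 : (100 : ℝ) ≤ Real.exp k := by
      have h1 : (64 : ℝ) ≤ k := by linarith
      have h2 := Real.add_one_le_exp (k / 2 : ℝ)
      have h3 : Real.exp k = Real.exp (k / 2) ^ 2 := by
        rw [← Real.exp_nat_mul]; congr 1; push_cast; ring
      rw [h3]
      calc (100 : ℝ) ≤ 33 ^ 2 := by norm_num
        _ ≤ _ := pow_le_pow_left₀ (by norm_num) (by linarith) 2
    have hk2' : (k : ℝ) ^ 2 ≤ Real.exp (2 * k) := by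
      have h2 := Real.add_one_le_exp (k : ℝ)
      have h3 : Real.exp (2 * k) = Real.exp k ^ 2 := by
        rw [← Real.exp_nat_mul]; norm_num
      rw [h3]
      exact pow_le_pow_left₀ hkpos.le (by linarith) 2
    have h4k : (4 : ℝ) ^ k ≤ Real.exp (2 * k) := by
      have h1 : (4 : ℝ) ≤ Real.exp 2 := by
        have h2 := Real.add_one_le_exp (1 : ℝ)
        have h3 : Real.exp 2 = Real.exp 1 ^ 2 := by
          rw [← Real.exp_nat_mul]; norm_num
        rw [h3]
        calc (4 : ℝ) = 2 ^ 2 := by norm_num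
          _ ≤ _ := pow_le_pow_left₀ (by norm_num) (by linarith) 2
      calc (4 : ℝ) ^ k ≤ (Real.exp 2) ^ k := by gcongr
        _ = _ := by rw [← Real.exp_nat_mul]; congr 1; ring
    have hr' : r ≤ Real.exp (k / 4) := by
      rw [hr]
      apply Real.exp_le_exp.2
      linarith
    calc (100 * k ^ 2 * (r * 4 ^ k) : ℝ) * (k : ℝ) ^ k * Real.exp k
        ≤ (Real.exp k * Real.exp (2 * k) * (Real.exp (k / 4) * Real.exp (2 * k))) *
          Real.exp (k * Real.log k) * Real.exp k := by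
          rw [hkk]
          have hr0 : 0 ≤ r := by rw [hr]; positivity
          gcongr
      _ = Real.exp (k * (Real.log k + (6 + 1 / 4))) := by
          rw [← Real.exp_add, ← Real.exp_add, ← Real.exp_add, ← Real.exp_add, ← Real.exp_add]
          congr 1
          ring
      _ ≤ Real.exp ((1 - δ) * (k * u ^ ε / 64)) := by
          apply Real.exp_le_exp.2
          have h1 : Real.log k + (6 + 1 / 4) ≤ u ^ ε / 96 := by linarith
          have h2 : (k : ℝ) * (Real.log k + (6 + 1 / 4)) ≤ k * (u ^ ε / 96) :=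
            mul_le_mul_of_nonneg_left h1 hkpos.le
          have h3 : (2 / 3 : ℝ) * (k * u ^ ε / 64) ≤ (1 - δ) * (k * u ^ ε / 64) :=
            mul_le_mul_of_nonneg_right (by linarith) (by positivity)
          linarith
  · -- few primes
    have hH0 : (0 : ℝ) < (H : ℝ) + 1 := by positivity
    have hL1' : L1 ≤ ν / 4 := by
      refine hL1.trans ?_
      have h1 : 4 * C * u ^ 2 ≤ Real.exp (u ^ ε / 2) := by
        have h2 : Real.log (4 * C * u ^ 2) ≤ u ^ ε / 2 := by
          rw [Real.log_mul (by positivity) (by positivity), Real.log_pow]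
          push_cast
          exact hB.b1
        rwa [Real.log_le_iff_le_exp (by positivity)] at h2
      have h3 : Real.exp (-(u ^ ε)) = ν * Real.exp (-(u ^ ε / 2)) := by
        rw [hν, ← Real.exp_add]
        congr 1
        ring
      have h4 : Real.exp (u ^ ε / 2) * Real.exp (-(u ^ ε / 2)) = 1 := by
        rw [← Real.exp_add]
        simp
      have hνpos : 0 < ν := by rw [hν]; positivity
      rw [h3]
      have h5 : 4 * C * u ^ 2 * Real.exp (-(u ^ ε / 2)) ≤ 1 := by
        rw [← h4]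
        exact mul_le_mul_of_nonneg_right h1 (Real.exp_pos _).le
      have h6 := mul_le_mul_of_nonneg_left h5 hνpos.le
      linarith
    have hHx : (H : ℝ) ≤ x := by
      rw [hHdef]
      refine (Nat.floor_le (by positivity)).trans ?_
      have hx1 : 1 ≤ x := by rw [hx]; exact Real.one_le_exp (by positivity)
      calc x ^ (1 - δ) ≤ x ^ (1 : ℝ) := Real.rpow_le_rpow_of_exponent_le hx1 (by linarith)
        _ = x := Real.rpow_one x
    have hsq : Real.sqrt (x + H) ≤ 3 / 2 * Real.exp (k * u ^ ε / 64 / 2) := by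
      rw [Real.sqrt_le_left (by positivity)]
      have h1 : (3 / 2 * Real.exp (k * u ^ ε / 64 / 2)) ^ 2 = 9 / 4 * x := by
        rw [mul_pow, ← Real.exp_nat_mul, hx]
        congr 1
        · norm_num
        · congr 1; push_cast; ring
      rw [h1]
      linarith
    have hr0 : 0 < r := by rw [hr]; positivity
    have h8 : 16 * r * Real.exp (k * u ^ ε / 64 / 2) ≤ ν * (H + 1) := by
      have h1 : (16 : ℝ) ≤ Real.exp 4 := by
        have h2 := Real.add_one_le_exp (1 : ℝ)
        have h3 : Real.exp 4 = Real.exp 1 ^ 4 := by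
          rw [← Real.exp_nat_mul]; norm_num
        rw [h3]
        have : (2 : ℝ) ^ 4 ≤ Real.exp 1 ^ 4 := by gcongr; linarith
        norm_num at this
        linarith
      calc 16 * r * Real.exp (k * u ^ ε / 64 / 2)
          ≤ Real.exp 4 * Real.exp u * Real.exp (k * u ^ ε / 64 / 2) := by
            rw [hr]; gcongr
        _ = Real.exp (4 + u + k * u ^ ε / 64 / 2) := by rw [← Real.exp_add, ← Real.exp_add]
        _ ≤ Real.exp (-(u ^ ε / 2) + (1 - δ) * (k * u ^ ε / 64)) := by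
            apply Real.exp_le_exp.2
            have h2 := hB.b4
            have h3 : (1 / 6 : ℝ) * (k * u ^ ε / 64) ≤ (1 / 2 - δ) * (k * u ^ ε / 64) :=
              mul_le_mul_of_nonneg_right (by linarith) (by positivity)
            linarith
        _ = ν * Real.exp ((1 - δ) * (k * u ^ ε / 64)) := by rw [Real.exp_add, hν]
        _ ≤ _ := by
            apply mul_le_mul_of_nonneg_left hHlow
            rw [hν]; positivity
    have h9 : 8 * r * Real.sqrt (x + H) ≤ 3 / 4 * (ν * (H + 1)) := by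
      calc 8 * r * Real.sqrt (x + H) ≤ 8 * r * (3 / 2 * Real.exp (k * u ^ ε / 64 / 2)) :=
            mul_le_mul_of_nonneg_left hsq (by positivity)
        _ = 3 / 4 * (16 * r * Real.exp (k * u ^ ε / 64 / 2)) := by ring
        _ ≤ _ := mul_le_mul_of_nonneg_left h8 (by norm_num)
    have h10 : ((H : ℝ) + 1) * L1 ≤ (H + 1) * (ν / 4) := mul_le_mul_of_nonneg_left hL1' hH0.le
    linarith
  · rw [hr, ← Real.exp_add]
    apply Real.exp_le_exp.2
    linarith
  · have hνk : ν ^ ((k : ℝ) / 8) = Real.exp (-(k * u ^ ε / 16)) := by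
      rw [hν, ← Real.exp_mul]
      congr 1
      ring
    have h2k : (2 : ℝ) ^ (k + 1) ≤ Real.exp (k + 1) := by
      have h1 : (2 : ℝ) ≤ Real.exp 1 := by
        have h2 := Real.add_one_le_exp (1 : ℝ)
        linarith
      calc (2 : ℝ) ^ (k + 1) ≤ (Real.exp 1) ^ (k + 1) := by gcongr
        _ = _ := by rw [← Real.exp_nat_mul]; congr 1; push_cast; ring
    have h8 : Real.exp (-(k : ℝ)) ≤ 1 / 8 := by
      have h1 : (64 : ℝ) ≤ k := by linarith
      have h2 := Real.add_one_le_exp (k : ℝ)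
      rw [Real.exp_neg, one_div]
      exact inv_anti₀ (by norm_num) (by linarith)
    rw [hνk, hkk, hx]
    calc Real.exp (k * u ^ ε / 64) * (2 ^ (k + 1) * Real.exp (k * Real.log k) *
          Real.exp (-(k * u ^ ε / 16)))
        ≤ Real.exp (k * u ^ ε / 64) * (Real.exp (k + 1) * Real.exp (k * Real.log k) *
          Real.exp (-(k * u ^ ε / 16))) := by gcongr
      _ = Real.exp (k * u ^ ε / 64 + (k + 1) + k * Real.log k - k * u ^ ε / 16) := by
          rw [← Real.exp_add, ← Real.exp_add, ← Real.exp_add]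
          congr 1
          ring
      _ ≤ Real.exp (-(k : ℝ)) := by
          apply Real.exp_le_exp.2
          have h1 : Real.log k + 7 ≤ u ^ ε / 96 := by linarith
          have h2 : (k : ℝ) * (Real.log k + 7) ≤ k * (u ^ ε / 96) :=
            mul_le_mul_of_nonneg_left h1 hkpos.le
          have h3 : 0 ≤ (k : ℝ) * u ^ ε := by positivity
          linarith
      _ ≤ 1 / 8 := h8

open scoped Classical in
/-- **Barrier.**

Proof. Let `0 < ε ≤ 1` (for `ε > 1` use `min ε 1`: `(log r)^ε ≥ (log r)^1` once `log r ≥ 1`) and suppose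
that there are arbitrarily large `r` with a real primitive `ψ ≠ 1` mod `r` and a zero
`σ ∈ [1 - exp (-u^ε), 1]`, `u = log r`. Put `δ = ε/3`, `x₀` from `MostHave` for this `δ`, `r` large.
`σ < 1` (no zero at `1`), `L1_upper`: `‖L(1,ψ)‖ ≤ C u² exp (-u^ε) ≤ ν/4`, `ν = exp (-u^ε/2)`.
`k = ⌈4u⌉ + 12`, `x = exp L`, `L = k u^ε/64` (so `x ≥ x₀` for large `r`), `H = ⌊x^(1-δ)⌋`.
The counting is `XRB_count`, the numbers `XRB_num`, `XRB_ev`. -/
theorem barrier : MostHave → NoSiegel := by
  intro hM ε₀ hε₀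
  set ε := min ε₀ 1 with hεdef
  have hε : 0 < ε := lt_min hε₀ one_pos
  have hε1 : ε ≤ 1 := min_le_right _ _
  obtain ⟨x₀, hx₀⟩ := hM (ε / 3) (by linarith) (by linarith)
  obtain ⟨C, hC, hL⟩ := L1_upper
  obtain ⟨u₀, hu₀⟩ := Filter.eventually_atTop.1 (XRB_ev ε C (Real.log (max x₀ 1)) hε)
  refine ⟨max 100 ⌈Real.exp u₀⌉₊, ?_⟩
  intro r hr _ ψ hprim hψ hψ2 σ hσ hσ1 hzero
  have hr100 : 100 ≤ r := (le_max_left _ _).trans hr
  have hr100' : (100 : ℝ) ≤ r := by exact_mod_cast hr100
  have hrpos : (0 : ℝ) < r := by linarith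
  have hu : u₀ ≤ Real.log r := by
    rw [Real.le_log_iff_exp_le hrpos]
    have h1 : ⌈Real.exp u₀⌉₊ ≤ r := (le_max_right _ _).trans hr
    exact (Nat.le_ceil _).trans (by exact_mod_cast h1)
  set u := Real.log r with hudef
  have hB := hu₀ u hu
  have hu13 := hB.u13
  have hupos : 0 < u := by linarith
  have hexpu : Real.exp u = r := by rw [hudef, Real.exp_log hrpos]
  -- the zero
  have hσne : σ ≠ 1 := by
    rintro rfl
    exact DirichletCharacter.LFunction_apply_one_ne_zero hψ (by exact_mod_cast hzero)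
  have hσ2 : 1 - Real.exp (-(u ^ ε)) ≤ σ := by
    refine le_trans ?_ hσ
    have h1 : u ^ ε ≤ u ^ ε₀ := Real.rpow_le_rpow_of_exponent_le (by linarith) (min_le_left _ _)
    have h2 : Real.exp (-(u ^ ε₀)) ≤ Real.exp (-(u ^ ε)) := Real.exp_le_exp.2 (by linarith)
    linarith
  have hσ3 : 1 - 1 / u ≤ σ := by
    refine le_trans ?_ hσ2
    have h1 : Real.exp (-(u ^ ε)) ≤ 1 / u := by
      rw [Real.exp_neg, one_div]
      apply inv_anti₀ hupos
      have h2 := hB.b0
      rwa [Real.log_le_iff_le_exp hupos] at h2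
    linarith
  have hL1 := hL r ψ hr100 hψ σ hσ3 hσ1 hzero
  have hL2 : ‖ψ.LFunction 1‖ ≤ C * Real.exp (-(u ^ ε)) * u ^ 2 := by
    refine hL1.trans ?_
    have h1 : 1 - σ ≤ Real.exp (-(u ^ ε)) := by linarith
    have h2 : C * (1 - σ) ≤ C * Real.exp (-(u ^ ε)) := mul_le_mul_of_nonneg_left h1 hC.le
    exact mul_le_mul_of_nonneg_right h2 (by positivity)
  -- the parameters
  set k := ⌈4 * u⌉₊ + 12 with hk
  set x := Real.exp (k * u ^ ε / 64) with hx
  set H := ⌊x ^ (1 - ε / 3)⌋₊ with hH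
  set ν := Real.exp (-(u ^ ε / 2)) with hν
  have hueps : 0 < u ^ ε := Real.rpow_pos_of_pos hupos ε
  obtain ⟨n1, n2, n3, n4, n5, n6⟩ := XRB_num ε C (Real.log (max x₀ 1)) u hε hε1 hC hB k H hk x ν
    (ε / 3) ‖ψ.LFunction 1‖ r rfl hx hH hν hL2 hexpu.symm
  have hxpos : 0 < x := Real.exp_pos _
  have hx0 : x₀ ≤ x := by
    have h1 : max x₀ 1 ≤ x := by
      rwa [Real.log_le_log_iff (by positivity) hxpos] at n1
    exact (le_max_left _ _).trans h1
  have hν0 : 0 < ν := Real.exp_pos _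
  have hν1 : ν ≤ 1 := by
    rw [hν, Real.exp_le_one_iff]
    linarith
  have hcount := XRB_count r ψ hψ hψ2 k H x ν (by omega) hxpos.le n3 hν0 hν1 ?_ n5 n6
  · have h1 := hx₀ x hx0 k (by omega) n2
    have h2 : (2 : ℝ) * ((((range (H + 1)).powersetCard k).filter (fun A => Admissible A ∧
        ¬ HasPrimeTranslate x A)).card : ℝ) ≤
          ((((range (H + 1)).powersetCard k).filter (fun A => Admissible A)).card : ℝ) := by
      exact_mod_cast h1
    exact absurd hcount (not_lt.2 h2)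
  · intro n hn1 hnx
    have h1 := plus_primes r ψ hψ hψ2 n H hn1
    have h2 : ((XRB_P r ψ H n).card : ℝ) ≤
        (((Icc n (n + H)).filter (fun p : ℕ => p.Prime ∧ ψ (p : ZMod r) = 1)).card : ℝ) := by
      have : (XRB_P r ψ H n).card ≤
          ((Icc n (n + H)).filter (fun p : ℕ => p.Prime ∧ ψ (p : ZMod r) = 1)).card := by
        refine card_le_card_of_injOn (fun a => n + a) ?_ ?_
        · intro a ha
          obtain ⟨h3, h4, h5⟩ := mem_filter.1 (mem_coe.1 ha)
          rw [mem_range] at h3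
          have h6 : n + a ≤ n + H := by omega
          exact mem_coe.2 (mem_filter.2 ⟨mem_Icc.2 ⟨Nat.le_add_right _ _, h6⟩, h4, h5⟩)
        · intro a _ b _ hab
          simpa using hab
      exact_mod_cast this
    refine h2.trans (h1.trans (le_trans ?_ n4))
    have h3 : Real.sqrt ((n + H : ℕ) : ℝ) ≤ Real.sqrt (x + H) := by
      apply Real.sqrt_le_sqrt
      push_cast
      linarith
    have h4 : 8 * (r : ℝ) * Real.sqrt ((n + H : ℕ) : ℝ) ≤ 8 * r * Real.sqrt (x + H) :=
      mul_le_mul_of_nonneg_left h3 (by positivity)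
    linarith

end Pool.Agent.Lib.H68T
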