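import Pool.Agent.Lib.H68X.XFIN
import Pool.Agent.Lib.H68X.XRB
import Pool.Agent.Lib.H68X.XSIE

/-!
# Chunk XTH: the theorems (helper68)
-/

open Finset Filter Real

namespace Pool.Agent.Lib.H68T

open scoped Classical in
/-- All large `x`, `k ≤ (log x)^(1/3-δ)`. -/
theorem all_large (δ : ℝ) (hδ : 0 < δ) (hδ1 : δ < 1 / 3) : ∃ x₀ : ℝ, ∀ x : ℝ, x₀ ≤ x →
    ∀ k : ℕ, 1 ≤ k → (k : ℝ) ≤ (Real.log x) ^ (1 / 3 - δ) →
    ((((range (⌊x ^ (1 - δ)⌋₊ + 1)).powersetCard k).filter (fun A => Admissible A ∧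
      ¬ HasPrimeTranslate x A)).card : ℝ) ≤ (Real.log x) ^ (-(δ / 5)) *
        ((((range (⌊x ^ (1 - δ)⌋₊ + 1)).powersetCard k).filter
          (fun A => Admissible A)).card : ℝ) := by
  obtain ⟨c, hc, hz⟩ := zero_elementary
  obtain ⟨L₀, hcore⟩ := core δ (1 / 3 - δ) (δ / 2) (1 / 3 - δ / 4) (1 / 3) (2 / 3 - δ / 2) hδ
    (by linarith) (by linarith) (by linarith) (by linarith) (by linarith) (by norm_num)
    (by linarith) (by linarith)
  obtain ⟨L₁, hL₁⟩ := eventually_atTop.mp ((ev_rpow 4 (1 / 3 - δ / 4) (1 / 3) (by linarith)).and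
    (ev_rpow (2 * |Real.log c|) 0 (1 / 3) (by norm_num)))
  refine ⟨Real.exp (max (max L₀ L₁) 1), fun x hx k hk1 hk => ?_⟩
  have hx0 : 0 < x := lt_of_lt_of_le (Real.exp_pos _) hx
  set L := Real.log x with hL
  have hLx : x = Real.exp L := (Real.exp_log hx0).symm
  have hLge : max (max L₀ L₁) 1 ≤ L := by
    rw [hL, Real.le_log_iff_exp_le hx0]; exact hx
  have hLL₀ : L₀ ≤ L := (le_max_left _ _).trans ((le_max_left _ _).trans hLge)
  have hLL₁ : L₁ ≤ L := (le_max_right _ _).trans ((le_max_left _ _).trans hLge)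
  have hL1 : 1 ≤ L := (le_max_right _ _).trans hLge
  have hL0 : 0 < L := by linarith
  obtain ⟨e1, e2⟩ := hL₁ L hLL₁
  rw [rpow_zero, mul_one] at e2
  have h := hcore L hLL₀ ?_ k hk1 hk
  · rw [hLx]
    refine h.trans ?_
    apply mul_le_mul_of_nonneg_right _ (Nat.cast_nonneg _)
    exact Real.rpow_le_rpow_of_exponent_le hL1 (by linarith)
  · intro r hr ψ hrL hprim hψ hψ2 β hβ hzero
    refine le_trans ?_ (hz r ψ hψ hψ2 β hβ hzero)
    have hrpos : (0:ℝ) < r := by
      have := Nat.pos_of_ne_zero (NeZero.ne r)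
      exact_mod_cast this
    rw [le_div_iff₀ (by positivity)]
    have hc1 : Real.exp (-|Real.log c|) ≤ c := by
      calc Real.exp (-|Real.log c|) ≤ Real.exp (Real.log c) :=
            Real.exp_le_exp.mpr (neg_abs_le _)
        _ = c := Real.exp_log hc
    refine le_trans ?_ hc1
    calc Real.exp (-L ^ ((1:ℝ) / 3)) * (r : ℝ) ^ 2
        ≤ Real.exp (-L ^ ((1:ℝ) / 3)) * (Real.exp (L ^ (1 / 3 - δ / 4))) ^ 2 := by
          apply mul_le_mul_of_nonneg_left _ (Real.exp_pos _).le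
          exact pow_le_pow_left₀ hrpos.le hrL 2
      _ = Real.exp (-L ^ ((1:ℝ) / 3) + 2 * L ^ (1 / 3 - δ / 4)) := by
          rw [← Real.exp_nat_mul, ← Real.exp_add]; push_cast; ring_nf
      _ ≤ _ := by
          apply Real.exp_le_exp.mpr
          linarith

theorem forward (h : NoSiegel) : AlmostAllHave := by
  classical
  intro δ hδ hδ1
  obtain ⟨c, hc, hz⟩ := zero_elementary
  obtain ⟨r₀, hr₀⟩ := h (δ / 8) (by linarith)
  obtain ⟨L₀, hcore⟩ := core δ (1 - δ) (δ / 4) (1 - δ / 2) (δ / 8) (1 - δ / 4) hδ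
    hδ1 (by linarith) (by linarith) (by linarith) (by linarith) (by linarith)
    (by linarith) (by linarith)
  obtain ⟨L₁, hL₁⟩ := eventually_atTop.mp
    (ev_rpow (|Real.log c| + 2 * Real.log (r₀ + 1)) 0 (δ / 8) (by linarith))
  refine ⟨Real.exp (max (max L₀ L₁) 1), fun x hx k hk1 hk => ?_⟩
  have hx0 : 0 < x := lt_of_lt_of_le (Real.exp_pos _) hx
  set L := Real.log x with hL
  have hLx : x = Real.exp L := (Real.exp_log hx0).symm
  have hLge : max (max L₀ L₁) 1 ≤ L := by
    rw [hL, Real.le_log_iff_exp_le hx0]; exact hx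
  have hLL₀ : L₀ ≤ L := (le_max_left _ _).trans ((le_max_left _ _).trans hLge)
  have hLL₁ : L₁ ≤ L := (le_max_right _ _).trans ((le_max_left _ _).trans hLge)
  have hL1 : 1 ≤ L := (le_max_right _ _).trans hLge
  have hL0 : 0 < L := by linarith
  have e1 := hL₁ L hLL₁
  rw [rpow_zero, mul_one] at e1
  have h := hcore L hLL₀ ?_ k hk1 hk
  · rw [hLx]
    convert h using 2
    · ring_nf
  · intro r hr ψ hrL hprim hψ hψ2 β hβ hzero
    have hrpos : (1:ℝ) ≤ r := by
      have := Nat.pos_of_ne_zero (NeZero.ne r)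
      exact_mod_cast this
    rcases le_or_gt r₀ r with hrr | hrr
    · by_contra hcon
      push Not at hcon
      refine hr₀ r hrr ψ hprim hψ hψ2 β ?_ hβ.le hzero
      have hlr : 0 ≤ Real.log r := Real.log_nonneg hrpos
      have h1 : (Real.log r) ^ (δ / 8) ≤ L ^ (δ / 8) := by
        apply Real.rpow_le_rpow hlr _ (by linarith)
        calc Real.log r ≤ L ^ (1 - δ / 2) := by
              rw [Real.log_le_iff_le_exp (by linarith)]; exact hrL
          _ ≤ L ^ (1:ℝ) := Real.rpow_le_rpow_of_exponent_le hL1 (by linarith)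
          _ = L := Real.rpow_one L
      have h2 : Real.exp (-L ^ (δ / 8)) ≤ Real.exp (-(Real.log r) ^ (δ / 8)) :=
        Real.exp_le_exp.mpr (by linarith)
      linarith
    · refine le_trans ?_ (hz r ψ hψ hψ2 β hβ hzero)
      rw [le_div_iff₀ (by positivity)]
      have hc1 : Real.exp (-|Real.log c|) ≤ c := by
        calc Real.exp (-|Real.log c|) ≤ Real.exp (Real.log c) :=
              Real.exp_le_exp.mpr (neg_abs_le _)
          _ = c := Real.exp_log hc
      refine le_trans ?_ hc1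
      have hr1 : (r : ℝ) ≤ r₀ + 1 := by
        have : r ≤ r₀ + 1 := by omega
        exact_mod_cast this
      have hr0pos : (0:ℝ) < r₀ + 1 := by positivity
      calc Real.exp (-L ^ (δ / 8)) * (r : ℝ) ^ 2
          ≤ Real.exp (-L ^ (δ / 8)) * (Real.exp (Real.log (r₀ + 1))) ^ 2 := by
            apply mul_le_mul_of_nonneg_left _ (Real.exp_pos _).le
            rw [Real.exp_log hr0pos]
            exact pow_le_pow_left₀ (by linarith) hr1 2
        _ = Real.exp (-L ^ (δ / 8) + 2 * Real.log (r₀ + 1)) := by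
            rw [← Real.exp_nat_mul, ← Real.exp_add]; push_cast; ring_nf
        _ ≤ _ := by
            apply Real.exp_le_exp.mpr
            linarith

theorem most_of_all (h : AlmostAllHave) : MostHave := by
  classical
  intro δ hδ hδ1
  obtain ⟨x₀, hx₀⟩ := h δ hδ hδ1
  obtain ⟨L₁, hL₁⟩ := eventually_atTop.mp (ev_rpow 2 0 (δ / 5) (by linarith))
  refine ⟨max x₀ (Real.exp (max L₁ 1)), fun x hx k hk1 hk => ?_⟩
  have hx1 := hx₀ x ((le_max_left _ _).trans hx) k hk1 hk
  have hxe : Real.exp (max L₁ 1) ≤ x := (le_max_right _ _).trans hx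
  have hx0 : 0 < x := lt_of_lt_of_le (Real.exp_pos _) hxe
  have hLge : max L₁ 1 ≤ Real.log x := by
    rw [Real.le_log_iff_exp_le hx0]; exact hxe
  have hL0 : 0 < Real.log x := lt_of_lt_of_le one_pos ((le_max_right _ _).trans hLge)
  have e1 := hL₁ _ ((le_max_left _ _).trans hLge)
  rw [rpow_zero, mul_one] at e1
  have h2 : (Real.log x) ^ (-(δ / 5)) ≤ 1 / 2 := by
    rw [Real.rpow_neg hL0.le, ← one_div]
    exact one_div_le_one_div_of_le (by norm_num) e1
  have h3 : 2 * ((((range (⌊x ^ (1 - δ)⌋₊ + 1)).powersetCard k).filter (fun A => Admissible A ∧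
      ¬ HasPrimeTranslate x A)).card : ℝ) ≤
      ((((range (⌊x ^ (1 - δ)⌋₊ + 1)).powersetCard k).filter
          (fun A => Admissible A)).card : ℝ) := by
    have h4 := mul_le_mul_of_nonneg_right h2 (Nat.cast_nonneg (α := ℝ)
      (((range (⌊x ^ (1 - δ)⌋₊ + 1)).powersetCard k).filter (fun A => Admissible A)).card)
    linarith
  exact_mod_cast h3

theorem equivalence : (MostHave ↔ NoSiegel) ∧ (AlmostAllHave ↔ NoSiegel) :=
  ⟨⟨barrier, fun h => most_of_all (forward h)⟩, ⟨fun h => barrier (most_of_all h), forward⟩⟩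

end Pool.Agent.Lib.H68T
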