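import Pool.Agent.Lib.H68T.FINP

/-!
# Sets of admissible sets: from finsets to `Set.ncard` (helper68)
-/

open Finset

namespace Pool.Agent.Lib.H68T

/-- The admissible sets with `k` elements, all at most `x ^ (1 - δ)`. -/
def XSET_adm (x δ : ℝ) (k : ℕ) : Set (Finset ℕ) :=
  {A | A.card = k ∧ Admissible A ∧ ∀ a ∈ A, (a : ℝ) ≤ x ^ (1 - δ)}

open scoped Classical in
theorem XSET_conv (x δ : ℝ) (k : ℕ) (hx : 0 ≤ x) :
    XSET_adm x δ k =
      ↑(((range (⌊x ^ (1 - δ)⌋₊ + 1)).powersetCard k).filter (fun A => Admissible A)) := by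
  have hpow : 0 ≤ x ^ (1 - δ) := Real.rpow_nonneg hx _
  ext A
  rw [Finset.mem_coe, mem_filter, mem_powersetCard]
  have hmem : (∀ a ∈ A, (a : ℝ) ≤ x ^ (1 - δ)) ↔ A ⊆ range (⌊x ^ (1 - δ)⌋₊ + 1) := by
    constructor
    · intro h a ha
      rw [mem_range, Nat.lt_add_one_iff]
      exact Nat.le_floor (h a ha)
    · intro h a ha
      have h5 := h ha
      rw [mem_range, Nat.lt_add_one_iff] at h5
      calc (a : ℝ) ≤ ⌊x ^ (1 - δ)⌋₊ := by exact_mod_cast h5
        _ ≤ _ := Nat.floor_le hpow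
  show A.card = k ∧ Admissible A ∧ (∀ a ∈ A, (a : ℝ) ≤ x ^ (1 - δ)) ↔ _
  rw [hmem]
  tauto

open scoped Classical in
theorem XSET_bad (x δ : ℝ) (k : ℕ) (hx : 0 ≤ x) :
    {A ∈ XSET_adm x δ k | ¬ HasPrimeTranslate x A} =
      ↑(((range (⌊x ^ (1 - δ)⌋₊ + 1)).powersetCard k).filter (fun A => Admissible A ∧
        ¬ HasPrimeTranslate x A)) := by
  ext A
  rw [Set.mem_sep_iff, XSET_conv x δ k hx, Finset.mem_coe, Finset.mem_coe, mem_filter, mem_filter]
  tauto

open scoped Classical in
theorem XSET_card (x δ : ℝ) (k : ℕ) (hx : 0 ≤ x) :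
    (XSET_adm x δ k).ncard =
      (((range (⌊x ^ (1 - δ)⌋₊ + 1)).powersetCard k).filter (fun A => Admissible A)).card := by
  rw [XSET_conv x δ k hx, Set.ncard_coe_finset]

open scoped Classical in
theorem XSET_badcard (x δ : ℝ) (k : ℕ) (hx : 0 ≤ x) :
    ({A ∈ XSET_adm x δ k | ¬ HasPrimeTranslate x A}).ncard =
      (((range (⌊x ^ (1 - δ)⌋₊ + 1)).powersetCard k).filter (fun A => Admissible A ∧
        ¬ HasPrimeTranslate x A)).card := by
  rw [XSET_bad x δ k hx, Set.ncard_coe_finset]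

/-- Multiples of the primorial of `k` form an admissible set. -/
theorem XSET_exists (k N : ℕ) (hN : k * primorial k ≤ N) :
    ∃ A : Finset ℕ, A.card = k ∧ Admissible A ∧ ∀ a ∈ A, a ≤ N := by
  have hpos := primorial_pos k
  refine ⟨(range k).image (fun j => j * primorial k), ?_, ?_, ?_⟩
  · rw [card_image_of_injective, card_range]
    intro a b hab
    exact Nat.eq_of_mul_eq_mul_right hpos hab
  · intro p hp
    have : Fact p.Prime := ⟨hp⟩
    rcases le_or_gt p k with hpk | hpk
    · refine ⟨1, fun a ha h => ?_⟩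
      rw [mem_image] at ha
      obtain ⟨j, -, rfl⟩ := ha
      have h1 : ((j * primorial k : ℕ) : ZMod p) = 0 := by
        rw [ZMod.natCast_eq_zero_iff]
        exact Dvd.dvd.mul_left (hp.dvd_primorial_iff.mpr hpk) j
      rw [h1] at h
      exact zero_ne_one h
    · by_contra hcon
      push Not at hcon
      have h1 : (univ : Finset (ZMod p)) ⊆
          ((range k).image (fun j => j * primorial k)).image (fun a : ℕ => (a : ZMod p)) := by
        intro r _
        obtain ⟨a, ha, har⟩ := hcon r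
        exact mem_image.mpr ⟨a, ha, har⟩
      have h2 := card_le_card h1
      rw [card_univ, ZMod.card] at h2
      have h3 := h2.trans (card_image_le.trans card_image_le)
      rw [card_range] at h3
      omega
  · intro a ha
    rw [mem_image] at ha
    obtain ⟨j, hj, rfl⟩ := ha
    rw [mem_range] at hj
    exact (Nat.mul_le_mul_right _ hj.le).trans hN

/-- For large `x` there are admissible `k`-sets in the range, for all `k ≤ (log x)^(1-δ)`. -/
theorem XSET_pos (δ : ℝ) (hδ : 0 < δ) (hδ1 : δ < 1) : ∃ x₀ : ℝ, 1 ≤ x₀ ∧ ∀ x : ℝ, x₀ ≤ x →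
    ∀ k : ℕ, 1 ≤ k → (k : ℝ) ≤ (Real.log x) ^ (1 - δ) → 0 < (XSET_adm x δ k).ncard := by
  classical
  have hev : ∀ᶠ L : ℝ in Filter.atTop,
      L ^ (1 - δ) * 2 + Real.log L ≤ (1 - δ) * L ∧ 1 ≤ L := by
    filter_upwards [ev_rpow (4 / (1 - δ)) (1 - δ) 1 (by linarith),
      ev_log (2 / (1 - δ)) 1 one_pos, Filter.eventually_ge_atTop (1:ℝ)]
      with L h1 h2 h3
    have ha : 0 < 1 - δ := by linarith
    rw [Real.rpow_one] at h1 h2
    refine ⟨?_, h3⟩
    have h4 : L ^ (1 - δ) * 2 ≤ (1 - δ) * L / 2 := by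
      have := mul_le_mul_of_nonneg_left h1 (show 0 ≤ (1 - δ) / 2 by positivity)
      have e : (1 - δ) / 2 * (4 / (1 - δ) * L ^ (1 - δ)) = L ^ (1 - δ) * 2 := by
        field_simp; ring
      rw [e] at this; linarith
    have h5 : Real.log L ≤ (1 - δ) * L / 2 := by
      have := mul_le_mul_of_nonneg_left h2 (show 0 ≤ (1 - δ) / 2 by positivity)
      have e : (1 - δ) / 2 * (2 / (1 - δ) * Real.log L) = Real.log L := by
        field_simp
      rw [e] at this; linarith
    linarith
  obtain ⟨L₀, hL₀⟩ := Filter.eventually_atTop.mp hev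
  refine ⟨Real.exp (max L₀ 1), Real.one_le_exp (le_trans zero_le_one (le_max_right _ _)),
    fun x hxexp k hk1 hk => ?_⟩
  have hx0 : 0 < x := lt_of_lt_of_le (Real.exp_pos _) hxexp
  have hL : max L₀ 1 ≤ Real.log x := (Real.le_log_iff_exp_le hx0).mpr hxexp
  obtain ⟨hL1, hL2⟩ := hL₀ (Real.log x) ((le_max_left _ _).trans hL)
  set L := Real.log x with hLdef
  set Y := ⌊x ^ (1 - δ)⌋₊ with hY
  obtain ⟨A, hA1, hA2, hA3⟩ := XSET_exists k Y (by
      rw [hY]
      apply Nat.le_floor
      push_cast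
      have h1 : (primorial k : ℝ) ≤ 4 ^ k := by exact_mod_cast primorial_le_four_pow k
      have hkL : (k : ℝ) ≤ L := by
        refine hk.trans ?_
        calc L ^ (1 - δ) ≤ L ^ (1:ℝ) := Real.rpow_le_rpow_of_exponent_le hL2 (by linarith)
          _ = L := Real.rpow_one L
      have hlog4 : Real.log 4 ≤ 2 := by
        have : (4:ℝ) = 2 ^ 2 := by norm_num
        rw [this, Real.log_pow]
        have := Real.log_two_lt_d9
        push_cast
        linarith
      have h2 : (4:ℝ) ^ k = Real.exp (k * Real.log 4) := by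
        rw [mul_comm, Real.exp_mul, Real.exp_log (by norm_num), Real.rpow_natCast]
      have hkpos : (0:ℝ) < k := by exact_mod_cast hk1
      have hLpos : 0 < L := by linarith
      calc (k : ℝ) * (primorial k : ℝ) ≤ L * Real.exp (k * Real.log 4) := by
            rw [← h2]
            exact mul_le_mul hkL h1 (by positivity) (by positivity)
        _ = Real.exp (Real.log L + k * Real.log 4) := by
            rw [Real.exp_add, Real.exp_log hLpos]
        _ ≤ Real.exp ((1 - δ) * L) := by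
            apply Real.exp_le_exp.mpr
            have h3 : (k:ℝ) * Real.log 4 ≤ L ^ (1 - δ) * 2 :=
              mul_le_mul hk hlog4 (Real.log_nonneg (by norm_num)) (by positivity)
            linarith
        _ = x ^ (1 - δ) := by
            rw [Real.rpow_def_of_pos hx0, mul_comm])
  rw [XSET_card x δ k hx0.le, card_pos]
  refine ⟨A, ?_⟩
  rw [mem_filter, mem_powersetCard]
  refine ⟨⟨fun a ha => ?_, hA1⟩, hA2⟩
  rw [mem_range, Nat.lt_add_one_iff]
  exact hA3 a ha

end Pool.Agent.Lib.H68T
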