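import Pool.Agent.Lib.H68T.FIN
import Pool.Agent.Lib.H68X.XDefs

/-!
# Chunk XCNT: from correlations in classes to admissible sets (helper68)
-/

open Finset

namespace Pool.Agent.Lib.H68T

/-- Normalised correlations in all classes prime to `W`, the means being at least `η₀`. -/
def CC (Q M W : ℕ) (η₀ : ℝ) : Prop :=
  ∀ b : ℕ, b < 2 * W → Nat.Coprime b W → ∃ η : ℝ, η₀ ≤ η ∧
    (∀ s ∈ Ico M (2 * M), (1 - 4 / Real.log (M * W : ℕ)) * (M * η) ≤
      ∑ c ∈ range M, fW W b (s + c)) ∧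
    ∃ e : ℕ → ℕ → ℝ, (∀ s s', 0 ≤ e s s') ∧
      ∑ s ∈ Ico M (2 * M), ∑ s' ∈ Ico M (2 * M), (e s s') ^ 2 ≤
        (M : ℝ) ^ 2 * (Q : ℝ) ^ (-(1 / 5) : ℝ) ∧
      ∀ s ∈ Ico M (2 * M), ∀ s' ∈ Ico M (2 * M), s ≠ s' →
        ∑ c ∈ range M, fW W b (s + c) * fW W b (s' + c) ≤
          η ^ 2 * (M * (G0 Q W * gp Q W ((s : ℤ) - s') + 4 / Real.log (M * W : ℕ) + e s s'))

theorem XCNT_good (c : ℝ) (hc : 0 < c) : ∃ K : ℝ, 1 ≤ K ∧ ∀ Q M W : ℕ, Reg K Q (M * W) →
    Good c Q → 0 < W → W ^ 100 ≤ Q → CC Q M W 1 := by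
  obtain ⟨K, hK⟩ := class_corr c hc
  refine ⟨max K 1, le_max_right _ _, ?_⟩
  intro Q M W hR hG hW hWQ b hb hbW
  have hK0 : (0:ℝ) ≤ max K 1 := le_trans zero_le_one (le_max_right _ _)
  have hK1 : (1:ℝ) ≤ max K 1 := le_max_right _ _
  obtain ⟨h1, e, h2, h3, h4⟩ := hK Q M W (hR.mono hK0 (le_max_left _ _)) hG hW hWQ b hb hbW
  have hQ1 : (1:ℝ) ≤ Q := hK1.trans (hR.Q_ge hK1)
  have hl : 0 < Real.log (M * W : ℕ) := hR.logX_pos (by linarith)
  have hM0 : (0:ℝ) ≤ M := Nat.cast_nonneg _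
  have hll : 1 / Real.log (M * W : ℕ) ≤ 4 / Real.log (M * W : ℕ) := by
    apply div_le_div_of_nonneg_right _ hl.le
    norm_num
  refine ⟨1, le_refl _, ?_, e, h2, ?_, ?_⟩
  · intro s hs
    refine le_trans ?_ (h1 s hs)
    rw [mul_one]
    apply mul_le_mul_of_nonneg_right _ hM0
    linarith
  · refine h3.trans ?_
    apply mul_le_mul_of_nonneg_left _ (by positivity)
    exact Real.rpow_le_rpow_of_exponent_le hQ1 (by norm_num)
  · intro s hs s' hs' hne
    refine (h4 s hs s' hs' hne).trans ?_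
    rw [one_pow, one_mul]
    apply mul_le_mul_of_nonneg_left _ hM0
    linarith

open scoped Classical in
/-- **Counting.** -/
theorem XCNT_count (x L η₀ : ℝ) (Q H W M k Y y : ℕ) (hcc : CC Q M W η₀) (hη₀ : 0 < η₀)
    (hη₀L : η₀ ≤ 2 * L) (hk1 : 1 ≤ k) (hky : 16 * k ≤ y)
    (hWy : ∀ p : ℕ, p.Prime → p ≤ y → p ∣ W) (hW0 : 0 < W) (hφ : W ≤ Y * Nat.totient W)
    (hM : M = (H + 1) / W) (hM1 : 1 ≤ M) (hM4 : 4 * k ^ 2 ≤ M) (hMk : 4 * k * W ≤ H + 1)
    (hHx : ((W + 2 * (H + 1) : ℕ) : ℝ) ≤ x) (hL5 : Real.log (5 * (M * W : ℕ)) ≤ 2 * L)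
    (hℓ : 64 * (k : ℝ) ≤ Real.log (M * W : ℕ)) :
    ((((range (H + 1)).powersetCard k).filter (fun A => Admissible A ∧
      ¬ HasPrimeTranslate x A)).card : ℝ) ≤
      (4 * (40 * ((k:ℝ) / y + k * (4 / Real.log (M * W : ℕ))) +
        8 * (2 * L / η₀) ^ (2 * k) * (k * (Q : ℝ) ^ (-(1 / 5) : ℝ) /
          (4 / Real.log (M * W : ℕ)) ^ 2 + 1 / M)) + 8 * k * W * (Y : ℝ) ^ k / (H + 1)) *
        ((((range (H + 1)).powersetCard k).filter (fun A => Admissible A)).card : ℝ) := by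
  have hkr : (1:ℝ) ≤ k := by exact_mod_cast hk1
  have hMr : (1:ℝ) ≤ M := by exact_mod_cast hM1
  have hWr : (1:ℝ) ≤ W := by exact_mod_cast hW0
  have hL0 : 0 < L := by linarith
  set ℓ := Real.log (M * W : ℕ) with hℓdef
  have hℓ0 : 0 < ℓ := by linarith
  have hB1 : 1 ≤ 2 * L / η₀ := by rwa [one_le_div hη₀]
  set ξ := 40 * ((k:ℝ) / y + k * (4 / ℓ)) + 8 * (2 * L / η₀) ^ (2 * k) *
      (k * (Q : ℝ) ^ (-(1 / 5) : ℝ) / (4 / ℓ) ^ 2 + 1 / M) with hξ
  have hξ0 : 0 ≤ ξ := by positivity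
  refine sets_of_patterns x H W M k Y ξ hξ0 hW0 hk1 hM (fun p hp hpk => hWy p hp (by omega)) hφ
    hM4 hMk hHx ?_
  intro r hr b hb hcop
  have hch : ∀ i, ∃ η : ℝ, η₀ ≤ η ∧
    (∀ s ∈ Ico M (2 * M), (1 - 4 / ℓ) * (M * η) ≤ ∑ c ∈ range M, fW W (b + r i) (s + c)) ∧
    ∃ e : ℕ → ℕ → ℝ, (∀ s s', 0 ≤ e s s') ∧
      ∑ s ∈ Ico M (2 * M), ∑ s' ∈ Ico M (2 * M), (e s s') ^ 2 ≤
        (M : ℝ) ^ 2 * (Q : ℝ) ^ (-(1 / 5) : ℝ) ∧
      ∀ s ∈ Ico M (2 * M), ∀ s' ∈ Ico M (2 * M), s ≠ s' →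
        ∑ c ∈ range M, fW W (b + r i) (s + c) * fW W (b + r i) (s' + c) ≤
          η ^ 2 * (M * (G0 Q W * gp Q W ((s : ℤ) - s') + 4 / ℓ + e s s')) :=
    fun i => hcc (b + r i) (by have := hr i; omega) (hcop i)
  choose η hη hmean hpair using hch
  have hηpos : ∀ i, 0 < η i := fun i => hη₀.trans_le (hη i)
  set f : Fin k → ℕ → ℝ := fun i l => if l < 3 * M then fW W (b + r i) l / η i else 0 with hf
  have hfW0 : ∀ b' l, 0 ≤ fW W b' l := by
    intro b' l
    unfold fW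
    exact mul_nonneg (by positivity) (FIN_lp_nonneg _)
  have hfW : ∀ i l, l < 3 * M → fW W (b + r i) l ≤ 2 * L := by
    intro i l hl
    unfold fW
    have h1 : (Nat.totient W : ℝ) / W ≤ 1 := by
      rw [div_le_one (by linarith)]
      exact_mod_cast Nat.totient_le W
    rcases Nat.eq_zero_or_pos (b + r i + W * l) with h0 | h0
    · have h2 : lp (((b + r i : ℕ) : ℤ) + W * l) = 0 := by
        have : (((b + r i : ℕ) : ℤ) + W * l) = ((b + r i + W * l : ℕ) : ℤ) := by push_cast; ring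
        rw [this, h0]
        unfold lp
        norm_num
      rw [h2, mul_zero]; linarith
    · have h2 : lp (((b + r i : ℕ) : ℤ) + W * l) ≤ 2 * L := by
        have he : (((b + r i : ℕ) : ℤ) + W * l) = ((b + r i + W * l : ℕ) : ℤ) := by
          push_cast; ring
        rw [he]
        refine (FIN_lp_le _ (by exact_mod_cast h0)).trans ?_
        have h3 : b + r i + W * l ≤ 5 * (M * W) := by
          have h4 := hr i
          have h5 : W * l ≤ W * (3 * M) := Nat.mul_le_mul_left _ hl.le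
          have h6 : W ≤ M * W := Nat.le_mul_of_pos_left _ hM1
          have h7 : W * (3 * M) = 3 * (M * W) := by ring
          omega
        have h8 : Real.log (((b + r i + W * l : ℕ) : ℤ) : ℝ) ≤
            Real.log (5 * (M * W : ℕ)) := by
          apply Real.log_le_log
          · exact_mod_cast h0
          · exact_mod_cast h3
        exact h8.trans hL5
      calc (Nat.totient W : ℝ) / W * lp (((b + r i : ℕ) : ℤ) + W * l)
          ≤ 1 * (2 * L) := mul_le_mul h1 h2 (FIN_lp_nonneg _) (by norm_num)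
        _ = 2 * L := one_mul _
  have hsm := second_moment k M W y Q f (2 * L / η₀) (4 / ℓ) ((Q : ℝ) ^ (-(1 / 5) : ℝ)) hk1 hM1
    hky hWy (by positivity)
    (by
      have h2 : 16 * (k:ℝ) * (4 / ℓ) = 64 * k / ℓ := by ring
      rw [h2, div_le_one hℓ0]
      exact hℓ)
    (by positivity) hB1
    (by
      intro i l
      rw [hf]
      simp only
      split_ifs
      · exact div_nonneg (hfW0 _ _) (hηpos i).le
      · exact le_refl _)
    (by
      intro i l
      rw [hf]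
      simp only
      split_ifs with hl
      · exact div_le_div₀ (by linarith) (hfW i l hl) hη₀ (hη i)
      · linarith)
    (by
      intro i s hs
      have h1 := hmean i s hs
      rw [mem_Ico] at hs
      have h2 : ∑ c ∈ range M, f i (s + c) = (∑ c ∈ range M, fW W (b + r i) (s + c)) / η i := by
        rw [sum_div]
        apply sum_congr rfl
        intro c hc'
        rw [mem_range] at hc'
        rw [hf]
        simp only
        rw [if_pos (by omega)]
      rw [h2, le_div_iff₀ (hηpos i)]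
      linarith)
    (by
      intro i
      obtain ⟨e', he1, he2, he3⟩ := hpair i
      refine ⟨e', he1, he2, ?_⟩
      intro s hs s' hs' hne
      have h1 := he3 s hs s' hs' hne
      rw [mem_Ico] at hs hs'
      have h2 : ∑ c ∈ range M, f i (s + c) * f i (s' + c) =
          (∑ c ∈ range M, fW W (b + r i) (s + c) * fW W (b + r i) (s' + c)) / (η i) ^ 2 := by
        rw [sum_div]
        apply sum_congr rfl
        intro c hc'
        rw [mem_range] at hc'
        rw [hf]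
        simp only
        rw [if_pos (by omega), if_pos (by omega)]
        rw [div_mul_div_comm, pow_two]
      rw [h2, div_le_iff₀ (pow_pos (hηpos i) 2)]
      linarith)
  refine le_trans ?_ hsm
  norm_cast
  apply card_le_card
  intro c hc'
  rw [mem_filter] at hc' ⊢
  refine ⟨mem_univ _, fun s hs => ?_⟩
  obtain ⟨i, hi⟩ := hc'.2 s hs
  apply prod_eq_zero (mem_univ i)
  rw [hf]
  simp only
  split_ifs
  · unfold fW lp
    have h1 : (((b + r i : ℕ) : ℤ) + (W : ℤ) * ((s + (c i : ℕ) : ℕ) : ℤ)).toNat =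
        b + r i + W * (s + (c i : ℕ)) := by
      have : (((b + r i : ℕ) : ℤ) + (W : ℤ) * ((s + (c i : ℕ) : ℕ) : ℤ)) =
          ((b + r i + W * (s + (c i : ℕ)) : ℕ) : ℤ) := by push_cast; ring
      rw [this, Int.toNat_natCast]
    rw [h1, if_neg hi, mul_zero, zero_div]
  · rfl

end Pool.Agent.Lib.H68T
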