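import Mathlib

/-!
# Chunk XPHI: `n/φ(n)` is at most logarithmic
-/

open Finset

namespace Pool.Agent.Lib.H68T

theorem XPHI_prod (m : ℕ) : ∀ S : Finset ℕ, (∀ p ∈ S, 2 ≤ p) → S.card = m →
    ∏ p ∈ S, p ≤ (m + 1) * ∏ p ∈ S, (p - 1) := by
  induction m with
  | zero =>
    intro S _ hS
    rw [Finset.card_eq_zero.mp hS]
    simp
  | succ m ih =>
    intro S h2 hS
    have hne : S.Nonempty := by
      rw [← Finset.card_pos]
      omega
    set M := S.max' hne with hM
    have hMS : M ∈ S := S.max'_mem hne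
    have hcard : (S.erase M).card = m := by
      rw [Finset.card_erase_of_mem hMS]
      omega
    have h1 := ih (S.erase M) (fun p hp => h2 p (Finset.mem_of_mem_erase hp)) hcard
    rw [← Finset.mul_prod_erase S (fun p => p) hMS, ← Finset.mul_prod_erase S (fun p => p - 1) hMS]
    have hM2 : 2 ≤ M := h2 M hMS
    have hle : m + 2 ≤ M := by
      have hsub : S ⊆ Finset.Icc 2 M := fun p hp =>
        Finset.mem_Icc.mpr ⟨h2 p hp, S.le_max' p hp⟩
      have := Finset.card_le_card hsub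
      rw [Nat.card_Icc, hS] at this
      omega
    have h3 : M * (m + 1) ≤ (m + 1 + 1) * (M - 1) := by
      obtain ⟨d, hd⟩ : ∃ d, M = d + 1 := ⟨M - 1, by omega⟩
      rw [hd] at hle ⊢
      simp only [Nat.add_sub_cancel]
      nlinarith
    calc M * ∏ p ∈ S.erase M, p ≤ M * ((m + 1) * ∏ p ∈ S.erase M, (p - 1)) :=
          Nat.mul_le_mul_left _ h1
      _ = (M * (m + 1)) * ∏ p ∈ S.erase M, (p - 1) := by ring
      _ ≤ ((m + 1 + 1) * (M - 1)) * ∏ p ∈ S.erase M, (p - 1) := Nat.mul_le_mul_right _ h3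
      _ = (m + 1 + 1) * ((M - 1) * ∏ p ∈ S.erase M, (p - 1)) := by ring

/-- `n/φ(n) = ∏_{p ∣ n} (1 + 1/(p-1)) ≤ ∏_{j=1}^{ω(n)} (1 + 1/j) = ω(n) + 1` (the `j`-th prime divisor is
at least `j + 1`), and `2^ω(n) ≤ n`. -/
theorem le_log_mul_totient (n : ℕ) (hn : 1 ≤ n) : n ≤ (Nat.log 2 n + 1) * Nat.totient n := by
  have h1 := XPHI_prod n.primeFactors.card n.primeFactors
    (fun p hp => (Nat.prime_of_mem_primeFactors hp).two_le) rfl
  have h2 := Nat.totient_mul_prod_primeFactors n
  have hpos : 0 < ∏ p ∈ n.primeFactors, (p - 1) := Finset.prod_pos (fun p hp => by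
    have := (Nat.prime_of_mem_primeFactors hp).two_le
    omega)
  have h3 : n.primeFactors.card ≤ Nat.log 2 n := by
    apply Nat.le_log_of_pow_le (by norm_num)
    calc 2 ^ n.primeFactors.card ≤ ∏ p ∈ n.primeFactors, p := by
          apply Finset.pow_card_le_prod
          intro p hp
          exact (Nat.prime_of_mem_primeFactors hp).two_le
      _ ≤ n := Nat.le_of_dvd (by omega) (Nat.prod_primeFactors_dvd n)
  have h4 : n * ∏ p ∈ n.primeFactors, (p - 1) ≤
      ((n.primeFactors.card + 1) * Nat.totient n) * ∏ p ∈ n.primeFactors, (p - 1) := by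
    rw [← h2]
    calc Nat.totient n * ∏ p ∈ n.primeFactors, p
        ≤ Nat.totient n * ((n.primeFactors.card + 1) * ∏ p ∈ n.primeFactors, (p - 1)) :=
          Nat.mul_le_mul_left _ h1
      _ = _ := by ring
  have h5 := Nat.le_of_mul_le_mul_right h4 hpos
  exact h5.trans (Nat.mul_le_mul_right _ (by omega))

end Pool.Agent.Lib.H68T
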