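import Pool.Agent.Lib.H68X.XCNT
import Pool.Agent.Lib.H68X.XFP
import Pool.Agent.Lib.H68X.XPHI

/-!
# Chunk XFIN, first part (helper68)
-/

open Finset

namespace Pool.Agent.Lib.H68T

/-- The data attached to a modulus `W`. -/
structure XD (δ L : ℝ) (y W H M : ℕ) : Prop where
  hW0 : 0 < W
  hWy : ∀ p : ℕ, p.Prime → p ≤ y → p ∣ W
  hWexp : (W : ℝ) ≤ Real.exp ((1 - δ) * L / 8)
  hM : M = (H + 1) / W
  hM1 : 1 ≤ M
  hMexp : Real.exp ((1 - δ) * L / 2) ≤ M
  hH : Real.exp ((1 - δ) * L) ≤ (H : ℝ) + 1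
  hHx : ((W + 2 * (H + 1) : ℕ) : ℝ) ≤ Real.exp L
  hlX : (1 - δ) * L / 2 ≤ Real.log (M * W : ℕ)
  hlX' : Real.log (M * W : ℕ) ≤ L

theorem XFIN_data (δ L : ℝ) (hδ1 : δ < 1) (hL : 100 ≤ L)
    (i12 : Real.exp ((1 - δ) * L / 8) + 2 * (Real.exp ((1 - δ) * L) + 1) ≤ Real.exp L)
    (i13 : Real.log 8 + 2 * Real.log L ≤ (1 - δ) * L / 8)
    (y W : ℕ) (hW0 : 0 < W) (hWy : ∀ p : ℕ, p.Prime → p ≤ y → p ∣ W)
    (hWexp : (W : ℝ) ≤ Real.exp ((1 - δ) * L / 8)) :
    XD δ L y W ⌊(Real.exp L) ^ (1 - δ)⌋₊ ((⌊(Real.exp L) ^ (1 - δ)⌋₊ + 1) / W) := by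
  have hL0 : 0 < L := by linarith
  have ha : 0 < 1 - δ := by linarith
  set a := (1 - δ) * L with hadef
  have ha0 : 0 < a := by positivity
  have hxa : (Real.exp L) ^ (1 - δ) = Real.exp a := by
    rw [hadef, ← Real.exp_mul]; ring_nf
  set H := ⌊(Real.exp L) ^ (1 - δ)⌋₊ with hH
  have hH1 : Real.exp a < (H : ℝ) + 1 := by
    rw [← hxa]; exact Nat.lt_floor_add_one _
  have hH2 : (H : ℝ) ≤ Real.exp a := by
    rw [← hxa]; exact Nat.floor_le (by positivity)
  set M := (H + 1) / W with hM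
  have hMW : M * W ≤ H + 1 := Nat.div_mul_le_self _ _
  have hMW' : H + 1 < (M + 1) * W := by
    have h1 := Nat.div_add_mod (H + 1) W
    have h2 := Nat.mod_lt (H + 1) hW0
    rw [← hM] at h1
    have h3 : (M + 1) * W = W * M + W := by ring
    rw [h3]
    omega
  set t := Real.exp (a / 8) with ht
  have ht2 : 2 ≤ t := by
    have h8 : Real.log 2 ≤ a / 8 := by
      have h1 : Real.log 2 ≤ Real.log 8 := Real.log_le_log (by norm_num) (by norm_num)
      have h2 : 0 ≤ Real.log L := Real.log_nonneg (by linarith)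
      linarith
    rw [ht, ← Real.log_le_iff_le_exp (by norm_num)]
    exact h8
  have et8 : Real.exp a = t ^ 8 := by
    rw [ht, ← Real.exp_nat_mul]; push_cast; ring_nf
  have et4 : Real.exp (a / 2) = t ^ 4 := by
    rw [ht, ← Real.exp_nat_mul]; push_cast; ring_nf
  have hMWr : ((M * W : ℕ) : ℝ) ≤ H + 1 := by exact_mod_cast hMW
  have hMWr' : (H : ℝ) + 1 < (M + 1) * W := by exact_mod_cast hMW'
  have hWr : (1:ℝ) ≤ W := by exact_mod_cast hW0
  have hM4 : t ^ 4 ≤ M := by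
    have h1 : t ^ 8 < (M + 1) * t := by
      calc t ^ 8 = Real.exp a := et8.symm
        _ < H + 1 := hH1
        _ < (M + 1) * W := hMWr'
        _ ≤ (M + 1) * t := mul_le_mul_of_nonneg_left hWexp (by positivity)
    have h2 : t ^ 7 < M + 1 := by
      have h3 : t ^ 7 * t < (M + 1) * t := by
        calc t ^ 7 * t = t ^ 8 := by ring
          _ < _ := h1
      exact lt_of_mul_lt_mul_right h3 (by linarith)
    have h4 : t ^ 4 + 1 ≤ t ^ 7 := by
      have h5 : 16 ≤ t ^ 4 := by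
        calc (16:ℝ) = 2 ^ 4 := by norm_num
          _ ≤ t ^ 4 := pow_le_pow_left₀ (by norm_num) ht2 4
      have h6 : 8 ≤ t ^ 3 := by
        calc (8:ℝ) = 2 ^ 3 := by norm_num
          _ ≤ t ^ 3 := pow_le_pow_left₀ (by norm_num) ht2 3
      have h7 : t ^ 7 = t ^ 4 * t ^ 3 := by ring
      rw [h7]
      have h8 := mul_le_mul_of_nonneg_left h6 (show 0 ≤ t ^ 4 by linarith)
      linarith
    linarith
  have hX4 : Real.exp (a / 2) ≤ ((M * W : ℕ) : ℝ) := by
    rw [et4]
    push_cast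
    have : 0 ≤ t ^ 4 := by positivity
    calc t ^ 4 ≤ M := hM4
      _ = M * 1 := (mul_one _).symm
      _ ≤ M * W := mul_le_mul_of_nonneg_left hWr (Nat.cast_nonneg _)
  have hXpos : (0:ℝ) < ((M * W : ℕ) : ℝ) := lt_of_lt_of_le (Real.exp_pos _) hX4
  have hlX : a / 2 ≤ Real.log (M * W : ℕ) := (Real.le_log_iff_exp_le hXpos).mpr hX4
  have hlX' : Real.log (M * W : ℕ) ≤ L := by
    rw [Real.log_le_iff_le_exp hXpos]
    have h1 := Real.exp_pos (a / 8)
    have h2 := Real.exp_pos a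
    linarith
  have hM1 : 1 ≤ M := by
    have h1 : (0:ℝ) < M := lt_of_lt_of_le (by positivity) hM4
    exact_mod_cast h1
  refine ⟨hW0, hWy, hWexp, rfl, hM1, ?_, hH1.le, ?_, hlX, hlX'⟩
  · rw [et4]; exact hM4
  · push_cast
    linarith

theorem XFIN_reg (δ κ θ t b e K L : ℝ) (hδ1 : δ < 1) (hB : XBig δ κ θ t b e K L) (y W H M Q : ℕ)
    (D : XD δ L y W H M) (hQ1 : L ^ t - 1 ≤ Real.log Q) (hQ2 : Real.log Q ≤ L ^ e) :
    Reg K Q (M * W) := by
  have hL0 : 0 < L := by linarith [hB.i1]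
  have ha : 0 < (1 - δ) * L := by
    have : 0 < 1 - δ := by linarith
    positivity
  have hlX := D.hlX
  have hlX' := D.hlX'
  set ℓ := Real.log (M * W : ℕ) with hℓ
  have hℓ0 : 0 < ℓ := by linarith
  have hll : |K| ≤ Real.log ℓ :=
    hB.i2.trans (Real.log_le_log (by positivity) hlX)
  have hll0 : 0 ≤ Real.log ℓ := (abs_nonneg K).trans hll
  have hll1 : Real.log ℓ ≤ Real.log L := Real.log_le_log hℓ0 hlX'
  have hQ0 : 0 ≤ Real.log Q := by positivity
  refine ⟨(le_abs_self K).trans hll, ?_, ?_⟩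
  · calc K * Real.log ℓ ≤ |K| * Real.log ℓ := mul_le_mul_of_nonneg_right (le_abs_self K) hll0
      _ ≤ |K| * Real.log L := mul_le_mul_of_nonneg_left hll1 (abs_nonneg K)
      _ ≤ L ^ t - 1 := hB.i3
      _ ≤ _ := hQ1
  · calc K * (Real.log Q * Real.log ℓ) ≤ |K| * (Real.log Q * Real.log ℓ) :=
          mul_le_mul_of_nonneg_right (le_abs_self K) (mul_nonneg hQ0 hll0)
      _ ≤ |K| * (L ^ e * Real.log L) := by
          apply mul_le_mul_of_nonneg_left _ (abs_nonneg K)
          exact mul_le_mul hQ2 hll1 hll0 (by positivity)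
      _ ≤ (1 - δ) * L / 2 := hB.i4
      _ ≤ ℓ := hlX

open scoped Classical in
theorem XFIN_bound (δ κ θ t b e K L : ℝ) (hδ1 : δ < 1) (hκ : κ < 1) (hθ0 : 0 < θ) (hθ : θ ≤ 1)
    (hκt : κ < t)
    (hB : XBig δ κ θ t b e K L) (W H M Q : ℕ) (D : XD δ L ⌊L ^ (κ + θ)⌋₊ W H M)
    (hW2 : (W : ℝ) ≤ Real.exp (2 * L ^ t)) (hQ1 : L ^ t - 1 ≤ Real.log Q)
    (hQ2 : Real.log Q ≤ L ^ e) (η₀ : ℝ) (hη₀ : 0 < η₀) (hη₀1 : η₀ ≤ 1) (hcc : CC Q M W η₀)
    (k : ℕ) (hk1 : 1 ≤ k) (hk : (k : ℝ) ≤ L ^ κ)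
    (hpow : (2 * L / η₀) ^ (2 * k) ≤ Real.exp (Real.log Q / 20)) :
    ((((range (H + 1)).powersetCard k).filter (fun A => Admissible A ∧
      ¬ HasPrimeTranslate (Real.exp L) A)).card : ℝ) ≤ L ^ (-(4 * θ / 5)) *
        ((((range (H + 1)).powersetCard k).filter (fun A => Admissible A)).card : ℝ) := by
  have hL := hB.i1
  have hL0 : 0 < L := by linarith
  have hL1 : 1 ≤ L := by linarith
  have hδ0 : 0 < 1 - δ := by linarith
  set a := (1 - δ) * L with hadef
  have ha : 0 < a := by positivity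
  set y := ⌊L ^ (κ + θ)⌋₊ with hy
  have hz0 : 0 < L ^ (κ + θ) := by positivity
  have hyz : (y : ℝ) ≤ L ^ (κ + θ) := Nat.floor_le hz0.le
  have hyz' : L ^ (κ + θ) < y + 1 := Nat.lt_floor_add_one _
  have hyhalf : 1 / 2 * L ^ (κ + θ) ≤ y := by linarith [hB.i6]
  have hky : 16 * k ≤ y := by
    have : (16 * k : ℝ) ≤ y := by linarith [hB.i5]
    exact_mod_cast this
  have hkr : (1:ℝ) ≤ k := by exact_mod_cast hk1
  have hkL : (k : ℝ) ≤ L := by
    refine hk.trans ?_
    calc L ^ κ ≤ L ^ (1:ℝ) := Real.rpow_le_rpow_of_exponent_le hL1 hκ.le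
      _ = L := Real.rpow_one L
  have hMr : (1:ℝ) ≤ M := by exact_mod_cast D.hM1
  have hWr : (1:ℝ) ≤ W := by exact_mod_cast D.hW0
  have hlX := D.hlX
  have hlX' := D.hlX'
  set ℓ := Real.log (M * W : ℕ) with hℓ
  have hℓ0 : 0 < ℓ := by linarith
  have hQpos : (0:ℝ) < Q := by
    rcases Nat.eq_zero_or_pos Q with h0 | h0
    · rw [h0] at hQ1
      simp at hQ1
      linarith [hB.i23]
    · exact_mod_cast h0
  have h8exp : 8 * L ^ 2 ≤ Real.exp (a / 8) := by
    have h6 : 8 * L ^ 2 = Real.exp (Real.log 8 + 2 * Real.log L) := by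
      rw [Real.exp_add, Real.exp_log (by norm_num)]
      congr 1
      have : (2:ℝ) * Real.log L = ((2:ℕ):ℝ) * Real.log L := by norm_num
      rw [this, Real.exp_nat_mul, Real.exp_log hL0]
    rw [h6]
    exact Real.exp_le_exp.mpr hB.i13
  -- the totient
  set Y := Nat.log 2 W + 1 with hY
  have hφ : W ≤ Y * Nat.totient W := le_log_mul_totient W D.hW0
  have hYL : (Y : ℝ) ≤ L := by
    have h1 : ((Nat.log 2 W : ℕ) : ℝ) ≤ Real.logb 2 W := Real.natLog_le_logb W 2
    have h2 : Real.logb 2 W ≤ 3 * L ^ t := by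
      rw [Real.logb, div_le_iff₀ (Real.log_pos (by norm_num))]
      have h3 : Real.log W ≤ 2 * L ^ t := by
        rw [Real.log_le_iff_le_exp (by linarith)]
        exact hW2
      have h4 := Real.log_two_gt_d9
      have h5 : 0 ≤ L ^ t := by positivity
      have h6 := mul_le_mul_of_nonneg_left h4.le h5
      linarith
    rw [hY]
    push_cast
    linarith [hB.i14]
  have hcount := XCNT_count (Real.exp L) L η₀ Q H W M k Y y hcc hη₀ (by linarith) hk1 hky D.hWy
    D.hW0 hφ D.hM D.hM1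
    (by
      have h1 : (4 * (k:ℝ) ^ 2) ≤ M := by
        calc 4 * (k:ℝ) ^ 2 ≤ 8 * L ^ 2 := by
              have := pow_le_pow_left₀ (by positivity) hkL 2
              linarith [sq_nonneg L]
          _ ≤ Real.exp (a / 8) := h8exp
          _ ≤ Real.exp (a / 2) := Real.exp_le_exp.mpr (by linarith)
          _ ≤ M := D.hMexp
      exact_mod_cast h1)
    (by
      have h1 : (4 * (k:ℝ) * W) ≤ H + 1 := by
        calc 4 * (k:ℝ) * W ≤ 8 * L ^ 2 * Real.exp (a / 8) := by
              apply mul_le_mul _ D.hWexp (by positivity) (by positivity)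
              have : L ≤ L ^ 2 := by
                rw [sq]
                exact le_mul_of_one_le_left hL0.le hL1
              linarith
          _ ≤ Real.exp (a / 8) * Real.exp (a / 8) :=
              mul_le_mul_of_nonneg_right h8exp (Real.exp_pos _).le
          _ ≤ Real.exp a := by
              rw [← Real.exp_add]
              exact Real.exp_le_exp.mpr (by linarith)
          _ ≤ H + 1 := D.hH
      exact_mod_cast h1)
    D.hHx
    (by
      have hXpos : (0:ℝ) < ((M * W : ℕ) : ℝ) := by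
        have := Nat.mul_pos D.hM1 D.hW0
        exact_mod_cast this
      rw [Real.log_mul (by norm_num) hXpos.ne']
      have h9 : Real.log 5 ≤ L := by
        have : Real.log 5 ≤ 5 - 1 := Real.log_le_sub_one_of_pos (by norm_num)
        linarith
      linarith)
    (by linarith [hB.i11])
  refine hcount.trans ?_
  apply mul_le_mul_of_nonneg_right _ (Nat.cast_nonneg _)
  -- numerical part
  set u := L ^ (-θ) with hu
  have hu0 : 0 < u := by positivity
  have hLu : 1 ≤ L * u := by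
    rw [hu]
    have : L * L ^ (-θ) = L ^ (1 - θ) := by
      nth_rewrite 1 [← Real.rpow_one L]
      rw [← Real.rpow_add hL0]; ring_nf
    rw [this]
    exact Real.one_le_rpow hL1 (by linarith)
  have n1 : (k : ℝ) / y ≤ 2 * u := by
    have hypos : 0 < (y : ℝ) := by linarith
    rw [div_le_iff₀ hypos]
    have h2 : L ^ κ = u * L ^ (κ + θ) := by
      rw [hu, ← Real.rpow_add hL0]; ring_nf
    calc (k : ℝ) ≤ u * L ^ (κ + θ) := by rw [← h2]; exact hk
      _ = 2 * u * (1 / 2 * L ^ (κ + θ)) := by ring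
      _ ≤ 2 * u * y := mul_le_mul_of_nonneg_left hyhalf (by positivity)
  have n2 : (k : ℝ) * (4 / ℓ) ≤ u := by
    have h1 : (4 : ℝ) / ℓ ≤ 8 / a := by
      rw [div_le_div_iff₀ hℓ0 ha]
      linarith
    have h2 : L ^ κ * (8 / a) = 8 / (1 - δ) * L ^ (κ - 1) := by
      rw [hadef, Real.rpow_sub_one hL0.ne']
      field_simp
    calc (k : ℝ) * (4 / ℓ) ≤ L ^ κ * (8 / a) :=
          mul_le_mul hk h1 (by positivity) (by positivity)
      _ = 8 / (1 - δ) * L ^ (κ - 1) := h2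
      _ ≤ u := hB.i21
  set q := Real.log Q with hq
  have hη : (Q : ℝ) ^ (-(1 / 5) : ℝ) = Real.exp (-(q / 5)) := by
    rw [Real.rpow_def_of_pos hQpos, ← hq]
    congr 1
    ring
  have n4 : k * (Q : ℝ) ^ (-(1 / 5) : ℝ) / (4 / ℓ) ^ 2 ≤ L ^ 3 * Real.exp (-(q / 5)) := by
    rw [hη]
    have h1 : k * Real.exp (-(q / 5)) / (4 / ℓ) ^ 2 = k * ℓ ^ 2 / 16 * Real.exp (-(q / 5)) := by
      have h0 : (4 / ℓ) ^ 2 = 16 / ℓ ^ 2 := by rw [div_pow]; norm_num
      rw [h0, div_div_eq_mul_div]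
      ring
    rw [h1]
    apply mul_le_mul_of_nonneg_right _ (Real.exp_pos _).le
    have h2 : (k : ℝ) * ℓ ^ 2 ≤ L * L ^ 2 :=
      mul_le_mul hkL (pow_le_pow_left₀ hℓ0.le hlX' 2) (by positivity) (by positivity)
    have h3 : L ^ 3 = L * L ^ 2 := by ring
    have h4 : 0 ≤ (k : ℝ) * ℓ ^ 2 := by positivity
    linarith
  have n5 : (1 : ℝ) / M ≤ Real.exp (-(q / 5)) := by
    have h1 := D.hMexp
    have h3 : (1 : ℝ) / M ≤ 1 / Real.exp (a / 2) :=
      one_div_le_one_div_of_le (Real.exp_pos _) h1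
    refine h3.trans ?_
    rw [one_div, ← Real.exp_neg]
    apply Real.exp_le_exp.mpr
    have := hB.i17
    linarith
  have n6 : 8 * (2 * L / η₀) ^ (2 * k) *
      (k * (Q : ℝ) ^ (-(1 / 5) : ℝ) / (4 / ℓ) ^ 2 + 1 / M) ≤ u := by
    have h1 : k * (Q : ℝ) ^ (-(1 / 5) : ℝ) / (4 / ℓ) ^ 2 + 1 / M ≤
        2 * L ^ 3 * Real.exp (-(q / 5)) := by
      have : 1 * Real.exp (-(q / 5)) ≤ L ^ 3 * Real.exp (-(q / 5)) :=
        mul_le_mul_of_nonneg_right (one_le_pow₀ hL1) (Real.exp_pos _).le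
      linarith
    have h0 : 0 ≤ k * (Q : ℝ) ^ (-(1 / 5) : ℝ) / (4 / ℓ) ^ 2 + 1 / M := by positivity
    calc 8 * (2 * L / η₀) ^ (2 * k) * (k * (Q : ℝ) ^ (-(1 / 5) : ℝ) / (4 / ℓ) ^ 2 + 1 / M)
        ≤ 8 * Real.exp (q / 20) * (2 * L ^ 3 * Real.exp (-(q / 5))) := by
          apply mul_le_mul _ h1 h0 (by positivity)
          exact mul_le_mul_of_nonneg_left hpow (by norm_num)
      _ = 16 * L ^ 3 * Real.exp (-(3 * q / 20)) := by
          have : Real.exp (q / 20) * Real.exp (-(q / 5)) = Real.exp (-(3 * q / 20)) := by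
            rw [← Real.exp_add]; ring_nf
          rw [← this]; ring
      _ ≤ 16 * L ^ 3 * (L * u) * Real.exp (-(3 * q / 20)) := by
          have h5 : 0 ≤ 16 * L ^ 3 * Real.exp (-(3 * q / 20)) := by positivity
          have h6 := mul_le_mul_of_nonneg_left hLu h5
          linarith
      _ = (16 * L ^ 4 * Real.exp (-(3 * q / 20))) * u := by ring
      _ ≤ 1 * u := by
          apply mul_le_mul_of_nonneg_right _ hu0.le
          have h6 : 16 * L ^ 4 = Real.exp (Real.log 16 + 4 * Real.log L) := by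
            rw [Real.exp_add, Real.exp_log (by norm_num)]
            congr 1
            have : (4:ℝ) * Real.log L = ((4:ℕ):ℝ) * Real.log L := by norm_num
            rw [this, Real.exp_nat_mul, Real.exp_log hL0]
          rw [h6, ← Real.exp_add]
          rw [← Real.exp_zero]
          apply Real.exp_le_exp.mpr
          have := hB.i18
          linarith
      _ = u := one_mul u
  have n7 : 8 * k * W * (Y : ℝ) ^ k / (H + 1) ≤ u := by
    have hH := D.hH
    have hHpos : 0 < (H : ℝ) + 1 := by positivity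
    have hY1 : (1:ℝ) ≤ Y := by
      rw [hY]; push_cast
      have : (0:ℝ) ≤ (Nat.log 2 W : ℝ) := Nat.cast_nonneg _
      linarith
    have hyk : (Y : ℝ) ^ k ≤ Real.exp (a / 64) := by
      have h1 : (Y : ℝ) ^ k = Real.exp (k * Real.log Y) := by
        rw [← Real.rpow_natCast, Real.rpow_def_of_pos (by linarith)]
        ring_nf
      rw [h1]
      apply Real.exp_le_exp.mpr
      have h2 : Real.log Y ≤ Real.log (2 * L) :=
        Real.log_le_log (by linarith) (by linarith)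
      have h3 : (k : ℝ) * Real.log Y ≤ L ^ κ * Real.log (2 * L) :=
        mul_le_mul hk h2 (Real.log_nonneg hY1) (by positivity)
      have h4 := hB.i15
      have h5 := hB.i10
      linarith
    rw [div_le_iff₀ hHpos]
    have h9 : 8 * (k : ℝ) * W * (Y : ℝ) ^ k ≤ 8 * L * Real.exp (a / 8) * Real.exp (a / 64) := by
      apply mul_le_mul _ hyk (by positivity) (by positivity)
      apply mul_le_mul _ D.hWexp (by positivity) (by positivity)
      linarith
    refine h9.trans ?_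
    have h10 : u * Real.exp a ≤ u * (H + 1) := mul_le_mul_of_nonneg_left hH hu0.le
    refine le_trans ?_ h10
    calc 8 * L * Real.exp (a / 8) * Real.exp (a / 64)
        ≤ 8 * L * (L * u) * Real.exp (a / 8) * Real.exp (a / 64) := by
          have h5 : 0 ≤ 8 * L * Real.exp (a / 8) * Real.exp (a / 64) := by positivity
          have h6 := mul_le_mul_of_nonneg_left hLu h5
          linarith
      _ = (8 * L ^ 2) * (Real.exp (a / 8) * Real.exp (a / 64)) * u := by ring
      _ ≤ Real.exp (a / 8) * (Real.exp (a / 8) * Real.exp (a / 64)) * u := by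
          apply mul_le_mul_of_nonneg_right _ hu0.le
          exact mul_le_mul_of_nonneg_right h8exp (by positivity)
      _ = u * Real.exp (a / 8 + (a / 8 + a / 64)) := by rw [Real.exp_add, Real.exp_add]; ring
      _ ≤ u * Real.exp a := by
          apply mul_le_mul_of_nonneg_left _ hu0.le
          apply Real.exp_le_exp.mpr
          linarith
  have h485 : 485 * u ≤ L ^ (-(4 * θ / 5)) := by
    have h1 : L ^ (-(4 * θ / 5)) = L ^ (θ / 5) * u := by
      rw [hu, ← Real.rpow_add hL0]; ring_nf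
    rw [h1]
    apply mul_le_mul_of_nonneg_right _ hu0.le
    linarith [hB.i20]
  linarith


theorem XFIN_log_floor (z : ℝ) (hz : 2 ≤ z) : z - 1 ≤ Real.log ⌊Real.exp z⌋₊ ∧
    Real.log ⌊Real.exp z⌋₊ ≤ z := by
  have h1 : Real.exp z - 1 < ⌊Real.exp z⌋₊ := Nat.sub_one_lt_floor _
  have h2 : (⌊Real.exp z⌋₊ : ℝ) ≤ Real.exp z := Nat.floor_le (Real.exp_pos _).le
  have h3 : Real.exp (z - 1) ≤ Real.exp z - 1 := by
    have h4 : Real.exp z = Real.exp 1 * Real.exp (z - 1) := by rw [← Real.exp_add]; ring_nf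
    have h5 : 2 ≤ Real.exp 1 := by linarith [Real.add_one_le_exp (1:ℝ)]
    have h6 : 2 ≤ Real.exp (z - 1) := by linarith [Real.add_one_le_exp (z - 1)]
    have h7 := mul_le_mul_of_nonneg_right h5 (Real.exp_pos (z - 1)).le
    linarith
  have h0 : 0 < (⌊Real.exp z⌋₊ : ℝ) := by
    have := Real.exp_pos (z - 1)
    linarith
  constructor
  · rw [Real.le_log_iff_exp_le h0]
    linarith
  · rw [Real.log_le_iff_le_exp h0]
    exact h2

theorem XFIN_primorial (L κ θ t : ℝ) (hκθ : 0 ≤ L ^ (κ + θ)) (i7 : 139 * L ^ (κ + θ) ≤ L ^ t - 1) :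
    (primorial ⌊L ^ (κ + θ)⌋₊ : ℝ) ^ 100 ≤ Real.exp (L ^ t - 1) ∧
    (primorial ⌊L ^ (κ + θ)⌋₊ : ℝ) ≤ Real.exp (L ^ t) := by
  set y := ⌊L ^ (κ + θ)⌋₊ with hy
  have hyz : (y : ℝ) ≤ L ^ (κ + θ) := Nat.floor_le hκθ
  have hlog4 : Real.log 4 ≤ 1.39 := by
    have : (4:ℝ) = 2 ^ 2 := by norm_num
    rw [this, Real.log_pow]
    have := Real.log_two_lt_d9
    push_cast
    linarith
  have hlog40 : 0 < Real.log 4 := Real.log_pos (by norm_num)
  have hW4 : (primorial y : ℝ) ≤ Real.exp (y * Real.log 4) := by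
    have h1 : (primorial y : ℝ) ≤ 4 ^ y := by
      have := primorial_le_four_pow y
      exact_mod_cast this
    have h2 : Real.exp (y * Real.log 4) = 4 ^ y := by
      rw [mul_comm, Real.exp_mul, Real.exp_log (by norm_num), Real.rpow_natCast]
    rw [h2]; exact h1
  have hy0 : (0:ℝ) ≤ y := Nat.cast_nonneg _
  constructor
  · calc (primorial y : ℝ) ^ 100 ≤ (Real.exp (y * Real.log 4)) ^ 100 :=
          pow_le_pow_left₀ (Nat.cast_nonneg _) hW4 _
      _ = Real.exp (100 * (y * Real.log 4)) := by rw [← Real.exp_nat_mul]; norm_num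
      _ ≤ Real.exp (L ^ t - 1) := by
          apply Real.exp_le_exp.mpr
          have h1 : (y : ℝ) * Real.log 4 ≤ y * 1.39 := mul_le_mul_of_nonneg_left hlog4 hy0
          linarith
  · refine hW4.trans (Real.exp_le_exp.mpr ?_)
    have h1 : (y : ℝ) * Real.log 4 ≤ y * 1.39 := mul_le_mul_of_nonneg_left hlog4 hy0
    linarith

end Pool.Agent.Lib.H68T
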